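import Mathlib

set_option autoImplicit false

namespace Pool.Agent.Helper636.Bw

section tree

variable {U : Type} (T : SimpleGraph U)

/-- reachability with the edge `vu` removed -/
def Rch (v u z : U) : Prop := (T.deleteEdges {s(v, u)}).Reachable v z

variable {T}

lemma adj_del {a b v u : U} :
    (T.deleteEdges {s(v, u)}).Adj a b ↔ T.Adj a b ∧ s(a, b) ≠ s(v, u) := by
  rw [SimpleGraph.deleteEdges_adj, Set.mem_singleton_iff]

lemma rch_bridge (hac : T.IsAcyclic) {v u : U} (h : T.Adj v u) : ¬ Rch T v u u :=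
  SimpleGraph.isBridge_iff.1 (SimpleGraph.isAcyclic_iff_forall_adj_isBridge.1 hac h)

lemma rch_cover (hpre : T.Preconnected) (v u z : U) : Rch T v u z ∨ Rch T u v z := by
  have h := hpre v z
  rw [SimpleGraph.reachable_iff_reflTransGen] at h
  induction h with
  | refl => exact Or.inl (SimpleGraph.Reachable.refl v)
  | tail hyz hadj ih =>
    rename_i y z
    by_cases he : s(y, z) = s(v, u)
    · rw [Sym2.eq_iff] at he
      rcases he with ⟨rfl, rfl⟩ | ⟨rfl, rfl⟩
      · exact Or.inr (SimpleGraph.Reachable.refl _)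
      · exact Or.inl (SimpleGraph.Reachable.refl _)
    · rcases ih with ih | ih
      · left
        exact ih.trans (SimpleGraph.Adj.reachable (adj_del.2 ⟨hadj, he⟩))
      · right
        refine ih.trans (SimpleGraph.Adj.reachable (adj_del.2 ⟨hadj, ?_⟩))
        rw [Sym2.eq_swap (a := u)]
        exact he

lemma rch_sub (hac : T.IsAcyclic) {v u x : U} (hvx : T.Adj v x) (hxu : x ≠ u) {z : U}
    (h : Rch T x v z) : Rch T v u z := by
  have hbr := rch_bridge hac hvx.symm
  have h1 : ∀ z, Relation.ReflTransGen (T.deleteEdges {s(x, v)}).Adj x z →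
      (T.deleteEdges {s(v, u)}).Reachable x z := by
    intro z hz
    induction hz with
    | refl => exact SimpleGraph.Reachable.refl x
    | tail hyz hadj ih =>
      rename_i y z
      refine ih.trans (SimpleGraph.Adj.reachable (adj_del.2 ⟨(adj_del.1 hadj).1, ?_⟩))
      intro he
      rw [Sym2.eq_iff] at he
      apply hbr
      have hy : (T.deleteEdges {s(x, v)}).Reachable x y :=
        (SimpleGraph.reachable_iff_reflTransGen _ _).2 hyz
      rcases he with ⟨rfl, rfl⟩ | ⟨rfl, rfl⟩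
      · exact hy
      · exact hy.trans (SimpleGraph.Adj.reachable hadj)
  have h2 : (T.deleteEdges {s(v, u)}).Reachable x z :=
    h1 z ((SimpleGraph.reachable_iff_reflTransGen _ _).1 h)
  refine SimpleGraph.Reachable.trans (SimpleGraph.Adj.reachable (adj_del.2 ⟨hvx, ?_⟩)) h2
  intro he
  rw [Sym2.eq_iff] at he
  rcases he with ⟨_, h3⟩ | ⟨rfl, rfl⟩
  · exact hxu h3
  · exact hxu rfl

lemma rch_split (hac : T.IsAcyclic) {v u z : U} (h : Rch T v u z) :
    z = v ∨ ∃ x, T.Adj v x ∧ x ≠ u ∧ Rch T x v z := by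
  have h' := (SimpleGraph.reachable_iff_reflTransGen _ _).1 h
  clear h
  induction h' with
  | refl => exact Or.inl rfl
  | tail hyz hadj ih =>
    rename_i y z
    rw [adj_del] at hadj
    rcases ih with rfl | ⟨x, hx1, hx2, hx3⟩
    · right
      refine ⟨z, hadj.1, ?_, SimpleGraph.Reachable.refl z⟩
      rintro rfl
      exact hadj.2 rfl
    · by_cases hz : z = v
      · exact Or.inl hz
      · right
        refine ⟨x, hx1, hx2, ?_⟩
        refine SimpleGraph.Reachable.trans hx3
          (SimpleGraph.Adj.reachable (adj_del.2 ⟨hadj.1, ?_⟩))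
        intro he
        rw [Sym2.eq_iff] at he
        rcases he with ⟨_, h2⟩ | ⟨rfl, _⟩
        · exact hz h2
        · exact rch_bridge hac hx1.symm hx3

end tree

/-- tree decompositions: some displayed separation is balanced -/
theorem tree_lemma {U α : Type} [Finite U] (T : SimpleGraph U) (hac : T.IsAcyclic)
    (hpre : T.Preconnected) (hdeg : ∀ v, (T.neighborSet v).ncard ≤ 3) {E : Set α} (g : ↥E → U)
    (hg : Function.Injective g)
    (μ : Set α → ℕ) (h0 : μ ∅ = 0) (h1 : ∀ e, μ {e} ≤ 1)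
    (hmono : ∀ A B, A ⊆ B → μ A ≤ μ B)
    (hsub : ∀ A B, μ (A ∪ B) ≤ μ A + μ B) (k : ℕ) (hE : 3 * k + 1 < μ E)
    (hw : ∀ u v, T.Adj u v → μ {x | ∃ h : x ∈ E, Rch T u v (g ⟨x, h⟩)} ≤ k ∨
      μ (E \ {x | ∃ h : x ∈ E, Rch T u v (g ⟨x, h⟩)}) ≤ k) : False := by
  classical
  let S : U → U → Set α := fun v u => {x | ∃ h : x ∈ E, Rch T v u (g ⟨x, h⟩)}
  have hsingle : ∀ A : Set α, A.Subsingleton → μ A ≤ 1 := by
    intro A hA
    rcases hA.eq_empty_or_singleton with rfl | ⟨x, rfl⟩
    · omega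
    · exact h1 x
  -- a big directed edge exists
  have hex : ∃ p : U × U, T.Adj p.1 p.2 ∧ k < μ (S p.1 p.2) := by
    have hne : ¬ E.Subsingleton := fun h => by
      have := hsingle E h; omega
    rw [Set.not_subsingleton_iff] at hne
    obtain ⟨x, hx, y, hy, hxy⟩ := hne
    have hgxy : g ⟨x, hx⟩ ≠ g ⟨y, hy⟩ := fun h => hxy (congrArg Subtype.val (hg h))
    have hr := hpre (g ⟨x, hx⟩) (g ⟨y, hy⟩)
    rw [SimpleGraph.reachable_iff_reflTransGen] at hr
    obtain ⟨u, v, huv⟩ : ∃ u v, T.Adj u v := by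
      rcases Relation.ReflTransGen.cases_head hr with h | ⟨z, hz, _⟩
      · exact absurd h hgxy
      · exact ⟨_, _, hz⟩
    by_cases hbig : k < μ (S u v)
    · exact ⟨(u, v), huv, hbig⟩
    · refine ⟨(v, u), huv.symm, ?_⟩
      have h2 : E ⊆ S u v ∪ S v u := by
        intro x hx
        rcases rch_cover hpre u v (g ⟨x, hx⟩) with h | h
        · exact Or.inl ⟨hx, h⟩
        · exact Or.inr ⟨hx, h⟩
      have h3 := hmono _ _ h2
      have h4 := hsub (S u v) (S v u)
      simp only
      omega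
  -- choose a minimal one
  let W : U × U → ℕ := fun p => {z | Rch T p.1 p.2 z}.ncard
  obtain ⟨⟨v, u⟩, ⟨hadj, hbig⟩, hmin⟩ := exists_minimalFor_of_wellFoundedLT
    (fun p : U × U => T.Adj p.1 p.2 ∧ k < μ (S p.1 p.2)) W hex
  simp only at hadj hbig hmin
  have hsmall : ∀ x, T.Adj v x → x ≠ u → μ (S x v) ≤ k := by
    intro x hx hxu
    by_contra hcon
    have h2 : W (v, u) ≤ W (x, v) := by
      by_contra hlt
      have h3 : W (x, v) ≤ W (v, u) := by omega
      have := hmin (j := (x, v)) ⟨hx.symm, by simp only; omega⟩ h3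
      omega
    have h3 : {z | Rch T x v z} ⊂ {z | Rch T v u z} := by
      refine ⟨fun z hz => rch_sub hac hx hxu hz, fun hcon' => ?_⟩
      exact rch_bridge hac hx.symm (hcon' (SimpleGraph.Reachable.refl v))
    have h4 := Set.ncard_lt_ncard h3 (Set.toFinite _)
    simp only [W] at h2
    omega
  have hcompl := (hw v u hadj).resolve_left (by
    change ¬ μ (S v u) ≤ k; omega)
  -- the neighbours
  have hfin : (T.neighborSet v \ {u}).Finite := Set.toFinite _
  obtain ⟨s, hs⟩ := hfin.exists_finset_coe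
  have hscard : s.card ≤ 2 := by
    have h2 : (T.neighborSet v \ {u}).ncard < (T.neighborSet v).ncard := by
      apply Set.ncard_lt_ncard _ (Set.toFinite _)
      refine ⟨Set.sdiff_subset, fun h => ?_⟩
      have : u ∈ T.neighborSet v \ {u} := h hadj
      exact this.2 rfl
    rw [← hs, Set.ncard_coe_finset] at h2
    have := hdeg v
    omega
  have hunion : ∀ s' : Finset U, s' ⊆ s → μ (⋃ x ∈ s', S x v) ≤ k * s'.card := by
    intro s'
    induction s' using Finset.induction_on with
    | empty => intro _; simp [h0]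
    | insert a t ha ih =>
      intro hsub'
      rw [Finset.set_biUnion_insert, Finset.card_insert_of_notMem ha]
      have h2 := hsub (S a v) (⋃ x ∈ t, S x v)
      have h3 := ih ((Finset.subset_insert _ _).trans hsub')
      have h4 : a ∈ (s : Set U) := by exact_mod_cast hsub' (Finset.mem_insert_self a t)
      rw [hs] at h4
      have h5 := hsmall a h4.1 h4.2
      rw [Nat.mul_succ]
      omega
  have hcover : S v u ⊆ {x | ∃ h : x ∈ E, g ⟨x, h⟩ = v} ∪ ⋃ x ∈ s, S x v := by
    rintro x ⟨hx, hr⟩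
    rcases rch_split hac hr with h2 | ⟨y, hy1, hy2, hy3⟩
    · exact Or.inl ⟨hx, h2⟩
    · right
      rw [Set.mem_iUnion₂]
      refine ⟨y, ?_, hx, hy3⟩
      have : y ∈ (s : Set U) := by rw [hs]; exact ⟨hy1, hy2⟩
      exact_mod_cast this
  have hleaf : μ {x | ∃ h : x ∈ E, g ⟨x, h⟩ = v} ≤ 1 := by
    apply hsingle
    rintro x ⟨hx, hx'⟩ y ⟨hy, hy'⟩
    exact congrArg Subtype.val (hg (hx'.trans hy'.symm))
  have e1 := hmono _ _ hcover
  have e2 := hsub {x | ∃ h : x ∈ E, g ⟨x, h⟩ = v} (⋃ x ∈ s, S x v)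
  have e3 := hunion s subset_rfl
  have e4 : k * s.card ≤ k * 2 := Nat.mul_le_mul_left k hscard
  have e5 : E ⊆ S v u ∪ (E \ S v u) := by
    intro x hx
    by_cases h : x ∈ S v u
    · exact Or.inl h
    · exact Or.inr ⟨hx, h⟩
  have e6 := hmono _ _ e5
  have e7 := hsub (S v u) (E \ S v u)
  have e8 : μ (E \ S v u) ≤ k := hcompl
  omega

end Pool.Agent.Helper636.Bw
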