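import Pool.Agent.Helper636.BwMinimal
import Pool.Agent.Helper636.BwTree

set_option autoImplicit false
set_option linter.unusedSectionVars false

namespace Pool.Agent.Helper636.Bw

open scoped Matroid

/-! ### cyclic structure of `ZMod N` -/

lemma zcyc {N : ℕ} [NeZero N] (j : ZMod N) (f : ZMod N → ℚ)
    (h : ∀ v, v ≠ j → f v = f (v + 1)) : ∀ u v, f u = f v := by
  have key : ∀ k : ℕ, k < N → f (j + 1 + (k : ZMod N)) = f (j + 1) := by
    intro k
    induction k with
    | zero => intro _; simp
    | succ k ih =>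
      intro hk
      have h1 := ih (by omega)
      have h2 : j + 1 + (k : ZMod N) ≠ j := by
        intro h3
        have h4 : ((k + 1 : ℕ) : ZMod N) = 0 := by
          push_cast
          have : (k : ZMod N) + 1 = (j + 1 + (k : ZMod N)) - j := by ring
          rw [this, h3, sub_self]
        rw [ZMod.natCast_eq_zero_iff] at h4
        exact absurd (Nat.le_of_dvd (by omega) h4) (by omega)
      have h3 := h _ h2
      push_cast
      rw [← h1, h3]
      congr 1
      ring
  have h2 : ∀ u, f u = f (j + 1) := by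
    intro u
    have h3 := key (u - (j + 1)).val (ZMod.val_lt _)
    rw [ZMod.natCast_zmod_val] at h3
    rw [← h3]
    congr 1
    ring
  intro u v
  rw [h2 u, h2 v]

/-! ### the second cyclic order -/

variable (m : ℕ)

/-- number of vertices -/
abbrev NN : ℕ := 2 * m * m

/-- the position function: `q = 2 m a + 2 b + ε` goes to row `a` (`ε = 0`) or row `b` (`ε = 1`) -/
def gg (q : ℕ) : ℕ :=
  if q % 2 = 0 then (q / (2 * m)) * (2 * m) + (q % (2 * m)) / 2
  else ((q % (2 * m)) / 2) * (2 * m) + m + q / (2 * m)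

variable {m}

lemma gg_lt (hm : 0 < m) {q : ℕ} (hq : q < NN m) : gg m q < NN m := by
  have h1 : q / (2 * m) < m := by
    rw [Nat.div_lt_iff_lt_mul (by omega)]
    calc q < 2 * m * m := hq
      _ = m * (2 * m) := by ring
  have h2 : q % (2 * m) / 2 < m := by
    have := Nat.mod_lt q (show 0 < 2 * m by omega)
    omega
  unfold gg
  have e : NN m = m * (2 * m) := by unfold NN; ring
  rw [e]
  split_ifs
  · calc q / (2 * m) * (2 * m) + q % (2 * m) / 2 < q / (2 * m) * (2 * m) + 2 * m := by omega
      _ = (q / (2 * m) + 1) * (2 * m) := by ring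
      _ ≤ m * (2 * m) := Nat.mul_le_mul_right _ h1
  · calc q % (2 * m) / 2 * (2 * m) + m + q / (2 * m)
        < q % (2 * m) / 2 * (2 * m) + 2 * m := by omega
      _ = (q % (2 * m) / 2 + 1) * (2 * m) := by ring
      _ ≤ m * (2 * m) := Nat.mul_le_mul_right _ h2

lemma gg_div_mod (hm : 0 < m) {q : ℕ} (hq : q < NN m) :
    (q % 2 = 0 → gg m q / (2 * m) = q / (2 * m) ∧ gg m q % (2 * m) = q % (2 * m) / 2) ∧
    (q % 2 = 1 → gg m q / (2 * m) = q % (2 * m) / 2 ∧ gg m q % (2 * m) = m + q / (2 * m)) := by
  have h1 : q / (2 * m) < m := by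
    rw [Nat.div_lt_iff_lt_mul (by omega)]
    calc q < 2 * m * m := hq
      _ = m * (2 * m) := by ring
  have h2 : q % (2 * m) / 2 < m := by
    have := Nat.mod_lt q (show 0 < 2 * m by omega)
    omega
  constructor
  · intro h0
    unfold gg
    rw [if_pos h0]
    constructor
    · rw [mul_comm, Nat.mul_add_div (by omega), Nat.div_eq_of_lt (show q % (2 * m) / 2 < 2 * m by omega),
        add_zero]
    · rw [mul_comm, Nat.mul_add_mod, Nat.mod_eq_of_lt (show q % (2 * m) / 2 < 2 * m by omega)]
  · intro h0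
    unfold gg
    rw [if_neg (by omega), add_assoc]
    constructor
    · rw [mul_comm, Nat.mul_add_div (by omega), Nat.div_eq_of_lt (show m + q / (2 * m) < 2 * m by omega),
        add_zero]
    · rw [mul_comm, Nat.mul_add_mod, Nat.mod_eq_of_lt (show m + q / (2 * m) < 2 * m by omega)]

lemma gg_inj (hm : 0 < m) {q q' : ℕ} (hq : q < NN m) (hq' : q' < NN m)
    (h : gg m q = gg m q') : q = q' := by
  obtain ⟨a1, a2⟩ := gg_div_mod hm hq
  obtain ⟨b1, b2⟩ := gg_div_mod hm hq'
  have h1 : q / (2 * m) < m := by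
    rw [Nat.div_lt_iff_lt_mul (by omega)]
    calc q < 2 * m * m := hq
      _ = m * (2 * m) := by ring
  have h2 : q % (2 * m) / 2 < m := by
    have := Nat.mod_lt q (show 0 < 2 * m by omega)
    omega
  have h1' : q' / (2 * m) < m := by
    rw [Nat.div_lt_iff_lt_mul (by omega)]
    calc q' < 2 * m * m := hq'
      _ = m * (2 * m) := by ring
  have h2' : q' % (2 * m) / 2 < m := by
    have := Nat.mod_lt q' (show 0 < 2 * m by omega)
    omega
  have p1 : q % (2 * m) % 2 = q % 2 := Nat.mod_mod_of_dvd q ⟨m, rfl⟩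
  have p2 : q' % (2 * m) % 2 = q' % 2 := Nat.mod_mod_of_dvd q' ⟨m, rfl⟩
  have d1 := Nat.div_add_mod q (2 * m)
  have d2 := Nat.div_add_mod q' (2 * m)
  have n1 := Nat.zero_le (q / (2 * m))
  have n2 := Nat.zero_le (q' / (2 * m))
  rcases Nat.mod_two_eq_zero_or_one q with e | e <;>
    rcases Nat.mod_two_eq_zero_or_one q' with e' | e'
  · obtain ⟨x1, x2⟩ := a1 e
    obtain ⟨y1, y2⟩ := b1 e'
    rw [h] at x1 x2
    have z1 : q / (2 * m) = q' / (2 * m) := by omega
    have z2 : q % (2 * m) = q' % (2 * m) := by omega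
    rw [← d1, ← d2, z1, z2]
  · obtain ⟨x1, x2⟩ := a1 e
    obtain ⟨y1, y2⟩ := b2 e'
    rw [h] at x1 x2
    omega
  · obtain ⟨x1, x2⟩ := a2 e
    obtain ⟨y1, y2⟩ := b1 e'
    rw [h] at x1 x2
    omega
  · obtain ⟨x1, x2⟩ := a2 e
    obtain ⟨y1, y2⟩ := b2 e'
    rw [h] at x1 x2
    have z1 : q / (2 * m) = q' / (2 * m) := by omega
    have z2 : q % (2 * m) = q' % (2 * m) := by omega
    rw [← d1, ← d2, z1, z2]

section conc

variable [NeZero m]

instance : NeZero (NN m) := ⟨by
  have := NeZero.ne m
  unfold NN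
  positivity⟩

/-- the permutation of the vertices -/
noncomputable def perm : ZMod (NN m) ≃ ZMod (NN m) :=
  Equiv.ofBijective (fun x => ((gg m x.val : ℕ) : ZMod (NN m))) (by
    rw [← Finite.injective_iff_bijective]
    intro x y hxy
    simp only at hxy
    have hm : 0 < m := Nat.pos_of_ne_zero (NeZero.ne m)
    have h1 := congrArg ZMod.val hxy
    rw [ZMod.val_natCast_of_lt (gg_lt hm (ZMod.val_lt x)),
      ZMod.val_natCast_of_lt (gg_lt hm (ZMod.val_lt y))] at h1
    have h2 := gg_inj hm (ZMod.val_lt x) (ZMod.val_lt y) h1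
    exact ZMod.val_injective _ h2)

lemma perm_val (x : ZMod (NN m)) : (perm x).val = gg m x.val := by
  have hm : 0 < m := Nat.pos_of_ne_zero (NeZero.ne m)
  change ((gg m x.val : ℕ) : ZMod (NN m)).val = _
  rw [ZMod.val_natCast_of_lt (gg_lt hm (ZMod.val_lt x))]

/-- the two-Hamiltonian-cycle structure -/
noncomputable def conc (hm : 2 ≤ m) : Two (ZMod (NN m)) where
  σ := fun t v => if t then perm (perm.symm v + 1) else v + 1
  cyc := by
    intro t j f h
    cases t
    · apply zcyc j f
      intro v hv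
      have := h v hv
      simpa using this
    · have h1 := zcyc (perm.symm j) (f ∘ perm) (by
        intro v hv
        have h2 := h (perm v) (by
          intro h3; apply hv; rw [← h3, Equiv.symm_apply_apply])
        simpa using h2)
      intro u v
      have h2 := h1 (perm.symm u) (perm.symm v)
      simpa using h2
  idx := ZMod.val
  vx := fun k => (k : ZMod (NN m))
  idx_lt := by intro v; rw [ZMod.card]; exact ZMod.val_lt v
  vx_idx := by intro v; exact ZMod.natCast_zmod_val v
  idx_vx := by intro k hk; rw [ZMod.card] at hk; exact ZMod.val_natCast_of_lt hk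
  big := by
    rw [ZMod.card]
    unfold NN
    nlinarith

/-- the row of a vertex -/
def row (v : ZMod (NN m)) : ℕ := v.val / (2 * m)

lemma row_lt (v : ZMod (NN m)) : row v < m := by
  have hm : 0 < m := Nat.pos_of_ne_zero (NeZero.ne m)
  unfold row
  rw [Nat.div_lt_iff_lt_mul (by omega)]
  calc v.val < 2 * m * m := ZMod.val_lt v
    _ = m * (2 * m) := by ring

/-- the edges inside the rows -/
def SS : Set (Ed (ZMod (NN m))) :=
  {e | e.2.1 = false ∧ e.2.2 = false ∧ row (e.1 + 1) = row e.1 ∧ e.1.val + 1 < NN m}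

variable (hm : 2 ≤ m)

lemma SS_const {f : ZMod (NN m) → ℚ} (hf : f ∈ Z (conc hm).ends (SS (m := m))) {u v : ZMod (NN m)}
    (h : row u = row v) : f u = f v := by
  have hm0 : 0 < m := by omega
  have key : ∀ i : ℕ, ∀ a < m, i < 2 * m →
      f ((2 * m * a + i : ℕ) : ZMod (NN m)) = f ((2 * m * a : ℕ) : ZMod (NN m)) := by
    intro i
    induction i with
    | zero => intro a _ _; simp
    | succ i ih =>
      intro a ha hi
      rw [← ih a ha (by omega)]
      have hlt : 2 * m * a + (i + 1) < NN m := by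
        have : 2 * m * a + 2 * m ≤ 2 * m * m := by
          calc 2 * m * a + 2 * m = 2 * m * (a + 1) := by ring
            _ ≤ 2 * m * m := Nat.mul_le_mul_left _ ha
        unfold NN
        omega
      set v : ZMod (NN m) := ((2 * m * a + i : ℕ) : ZMod (NN m)) with hv
      have hval : v.val = 2 * m * a + i := ZMod.val_natCast_of_lt (by omega)
      have hv1 : ((2 * m * a + (i + 1) : ℕ) : ZMod (NN m)) = v + 1 := by
        rw [hv]; push_cast; ring
      have hval1 : (v + 1).val = 2 * m * a + (i + 1) := by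
        rw [← hv1]; exact ZMod.val_natCast_of_lt hlt
      have hmem : ((v, false, false) : Ed (ZMod (NN m))) ∈ SS (m := m) := by
        refine ⟨rfl, rfl, ?_, ?_⟩
        · unfold row
          simp only
          rw [hval1, hval, Nat.mul_add_div (by omega), Nat.mul_add_div (by omega),
            Nat.div_eq_of_lt hi, Nat.div_eq_of_lt (show i < 2 * m by omega)]
        · simp only
          rw [hval]; omega
      have h1 := hf _ hmem
      rw [hv1]
      have h2 : f v = f (v + 1) := by simpa [Two.ends, conc] using h1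
      exact h2.symm
  have h2 : ∀ x : ZMod (NN m), f x = f ((2 * m * row x : ℕ) : ZMod (NN m)) := by
    intro x
    have h3 := key (x.val % (2 * m)) (row x) (row_lt x) (Nat.mod_lt _ (by omega))
    have h4 : 2 * m * row x + x.val % (2 * m) = x.val := Nat.div_add_mod _ _
    rw [h4, ZMod.natCast_zmod_val] at h3
    exact h3
  rw [h2 u, h2 v, h]

lemma SS_mem {g : ℕ → ℚ} : (fun v : ZMod (NN m) => g (row v)) ∈ Z (conc hm).ends (SS (m := m)) := by
  rintro ⟨v, t, b⟩ ⟨h1, h2, h3, h4⟩
  simp only at h1 h2 h3 h4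
  subst h1
  have : (conc hm).ends (v, false, b) = (v, v + 1) := by simp [Two.ends, conc]
  rw [this]
  simp only
  rw [h3]

/-- the rows: `c(S) ≥ m` -/
lemma SS_card : m ≤ c (conc hm).ends (SS (m := m)) := by
  let φ : (Fin m → ℚ) →ₗ[ℚ] Z (conc hm).ends (SS (m := m)) :=
    { toFun := fun g => ⟨fun v => g ⟨row v, row_lt v⟩, by
        have h := SS_mem hm (g := fun k => if h : k < m then g ⟨k, h⟩ else 0)
        have h2 : (fun v : ZMod (NN m) => g ⟨row v, row_lt v⟩) =
          (fun v : ZMod (NN m) => (fun k => if h : k < m then g ⟨k, h⟩ else 0) (row v)) := by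
          ext v
          simp only
          rw [dif_pos (row_lt v)]
        rw [h2]; exact h⟩
      map_add' := by intro a b; rfl
      map_smul' := by intro a b; rfl }
  have hφ : Function.Injective φ := by
    intro a b hab
    ext k
    have h1 := congrArg Subtype.val hab
    have hlt : 2 * m * k.val < NN m := by
      unfold NN
      exact Nat.mul_lt_mul_of_pos_left k.isLt (by omega)
    have h2 := congrFun h1 ((2 * m * k.val : ℕ) : ZMod (NN m))
    have h3 : row ((2 * m * k.val : ℕ) : ZMod (NN m)) = k.val := by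
      unfold row
      rw [ZMod.val_natCast_of_lt hlt, Nat.mul_div_cancel_left _ (by omega)]
    have h4 : (⟨row ((2 * m * k.val : ℕ) : ZMod (NN m)), row_lt _⟩ : Fin m) = k := Fin.ext h3
    change a ⟨row ((2 * m * k.val : ℕ) : ZMod (NN m)), row_lt _⟩ =
      b ⟨row ((2 * m * k.val : ℕ) : ZMod (NN m)), row_lt _⟩ at h2
    rw [h4] at h2
    exact h2
  have h := LinearMap.finrank_le_finrank_of_injective hφ
  rw [Module.finrank_fintype_fun_eq_card, Fintype.card_fin] at h
  exact h

/-- any two rows are joined by an edge of the second cycle -/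
lemma row_edge {a b : ℕ} (ha : a < m) (hb : b < m) :
    ∃ v : ZMod (NN m), row v = a ∧ row ((conc hm).σ true v) = b := by
  have hm0 : 0 < m := by omega
  have hq : 2 * m * a + (2 * b + 1) < NN m := by
    have : 2 * m * a + 2 * m ≤ 2 * m * m := by
      calc 2 * m * a + 2 * m = 2 * m * (a + 1) := by ring
        _ ≤ 2 * m * m := Nat.mul_le_mul_left _ ha
    unfold NN
    omega
  have hdiv : ∀ i < 2 * m, (2 * m * a + i) / (2 * m) = a ∧ (2 * m * a + i) % (2 * m) = i := by
    intro i hi
    constructor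
    · rw [Nat.mul_add_div (by omega), Nat.div_eq_of_lt hi, add_zero]
    · rw [Nat.mul_add_mod, Nat.mod_eq_of_lt hi]
  have hpar : ∀ i, (2 * m * a + i) % 2 = i % 2 := by
    intro i
    rw [mul_assoc]
    omega
  set x : ZMod (NN m) := ((2 * m * a + 2 * b : ℕ) : ZMod (NN m)) with hx
  have hxv : x.val = 2 * m * a + 2 * b := ZMod.val_natCast_of_lt (by omega)
  have hx1 : x + 1 = ((2 * m * a + (2 * b + 1) : ℕ) : ZMod (NN m)) := by
    rw [hx]; push_cast; ring
  have hx1v : (x + 1).val = 2 * m * a + (2 * b + 1) := by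
    rw [hx1]; exact ZMod.val_natCast_of_lt hq
  refine ⟨perm x, ?_, ?_⟩
  · unfold row
    rw [perm_val, hxv]
    have h1 := (gg_div_mod hm0 (q := 2 * m * a + 2 * b) (by omega)).1 (by rw [hpar]; omega)
    rw [h1.1, (hdiv _ (by omega)).1]
  · have h0 : (conc hm).σ true (perm x) = perm (x + 1) := by simp [conc]
    rw [h0]
    unfold row
    rw [perm_val, hx1v]
    have h1 := (gg_div_mod hm0 hq).2 (by rw [hpar]; omega)
    rw [h1.1, (hdiv _ (by omega)).2]
    omega

/-- roundness: one side of a partition is connected together with the rows -/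
lemma round {X Y : Set (Ed (ZMod (NN m)))} (hXY : ∀ e ∈ (conc hm).E, e ∈ X ∨ e ∈ Y) :
    c (conc hm).ends (X ∪ SS) ≤ 1 ∨ c (conc hm).ends (Y ∪ SS) ≤ 1 := by
  by_cases h : ∀ f ∈ Z (conc hm).ends (X ∪ SS), ∀ u v, f u = f v
  · exact Or.inl (c_le_one_of_const _ h)
  · right
    push Not at h
    obtain ⟨f, hf, u0, v0, hne⟩ := h
    apply c_le_one_of_const
    intro g hg
    have hfS : f ∈ Z (conc hm).ends (SS (m := m)) := Z_anti _ Set.subset_union_right hf
    have hgS : g ∈ Z (conc hm).ends (SS (m := m)) := Z_anti _ Set.subset_union_right hg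
    -- rows are joined for `f` or for `g`
    have hor : ∀ u v : ZMod (NN m), f u = f v ∨ g u = g v := by
      intro u v
      obtain ⟨x, hx1, hx2⟩ := row_edge hm (row_lt u) (row_lt v)
      have hE : ((x, true, false) : Ed (ZMod (NN m))) ∈ (conc hm).E := by
        rw [Two.mem_E]; exact Or.inl rfl
      rcases hXY _ hE with h1 | h1
      · left
        have h2 : f x = f ((conc hm).σ true x) := hf _ (Or.inl h1)
        rw [SS_const hm hfS hx1.symm, h2, SS_const hm hfS hx2]
      · right
        have h2 : g x = g ((conc hm).σ true x) := hg _ (Or.inl h1)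
        rw [SS_const hm hgS hx1.symm, h2, SS_const hm hgS hx2]
    have h0 : g u0 = g v0 := (hor u0 v0).resolve_left hne
    have h1 : ∀ x, g x = g u0 := by
      intro x
      by_cases h2 : f x = f u0
      · have h3 : f x ≠ f v0 := fun h => hne (h2.symm.trans h)
        rw [(hor x v0).resolve_left h3, h0]
      · exact (hor x u0).resolve_left h2
    intro u v
    rw [h1 u, h1 v]

/-- the size function of the tangle -/
noncomputable def mu (X : Set (Ed (ZMod (NN m)))) : ℕ :=
  c (conc hm).ends (SS (m := m)) - c (conc hm).ends (X ∪ SS)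

lemma mu_sub (A B : Set (Ed (ZMod (NN m)))) : mu hm (A ∪ B) ≤ mu hm A + mu hm B := by
  unfold mu
  have h1 := c_submod (conc hm).ends (A ∪ SS (m := m)) (B ∪ SS (m := m))
  have h2 : (A ∪ SS (m := m)) ∪ (B ∪ SS (m := m)) = (A ∪ B) ∪ SS (m := m) := by
    ext x; simp only [Set.mem_union]; tauto
  rw [h2] at h1
  have h3 := c_anti (conc hm).ends
    (show SS (m := m) ⊆ (A ∪ SS (m := m)) ∩ (B ∪ SS (m := m)) from
      Set.subset_inter Set.subset_union_right Set.subset_union_right)
  have h4 := c_anti (conc hm).ends (show SS (m := m) ⊆ A ∪ SS (m := m) from Set.subset_union_right)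
  have h5 := c_anti (conc hm).ends (show SS (m := m) ⊆ B ∪ SS (m := m) from Set.subset_union_right)
  omega

lemma mu_mono {A B : Set (Ed (ZMod (NN m)))} (h : A ⊆ B) : mu hm A ≤ mu hm B := by
  unfold mu
  have := c_anti (conc hm).ends (show A ∪ SS (m := m) ⊆ B ∪ SS (m := m) from
    Set.union_subset_union_left _ h)
  omega

lemma mu_empty : mu hm ∅ = 0 := by
  unfold mu
  rw [Set.empty_union]; omega

lemma mu_single (e : Ed (ZMod (NN m))) : mu hm {e} ≤ 1 := by
  unfold mu
  have := c_insert (conc hm).ends e (SS (m := m))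
  rw [Set.singleton_union]
  omega

lemma mu_full : m ≤ mu hm ((conc hm).E : Set (Ed (ZMod (NN m)))) + 1 := by
  unfold mu
  have h1 := SS_card hm
  have h2 : c (conc hm).ends (((conc hm).E : Set (Ed (ZMod (NN m)))) ∪ SS (m := m)) = 1 := by
    apply (conc hm).c_of (t := false) (j := 0)
    intro v _
    refine ⟨false, Or.inl ?_⟩
    rw [Finset.mem_coe, Two.mem_E]
    exact Or.inl rfl
  rw [h2]
  omega

lemma SS_sub : SS (m := m) ⊆ ((conc hm).E : Set (Ed (ZMod (NN m)))) := by
  rintro e ⟨_, h2, _⟩
  rw [Finset.mem_coe, Two.mem_E]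
  exact Or.inl h2

/-- small displayed connectivity forces a small side -/
lemma small_side {X Y : Set (Ed (ZMod (NN m)))} (hXY : X ∪ Y = ((conc hm).E : Set _))
    (hdisj : Disjoint X Y) {w : ℕ}
    (hw : NN m ≤ c (conc hm).ends X + c (conc hm).ends Y + w) :
    mu hm X ≤ w + 1 ∨ mu hm Y ≤ w + 1 := by
  have hS := SS_sub hm
  have h1 := c_submod (conc hm).ends X (SS (m := m))
  have h2 := c_submod (conc hm).ends Y (SS (m := m))
  have h3 := c_submod (conc hm).ends (X ∩ SS (m := m)) (Y ∩ SS (m := m))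
  have h4 : (X ∩ SS (m := m)) ∪ (Y ∩ SS (m := m)) = SS (m := m) := by
    rw [← Set.union_inter_distrib_right, hXY]
    exact Set.inter_eq_right.2 hS
  have h5 : (X ∩ SS (m := m)) ∩ (Y ∩ SS (m := m)) = ∅ := by
    rw [Set.eq_empty_iff_forall_notMem]
    rintro x ⟨⟨hx, _⟩, hy, _⟩
    exact Set.disjoint_left.1 hdisj hx hy
  rw [h4, h5, c_empty, ZMod.card] at h3
  rcases round hm (X := X) (Y := Y) (by
    intro e he
    have : e ∈ ((conc hm).E : Set (Ed (ZMod (NN m)))) := by exact_mod_cast he
    rw [← hXY] at this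
    exact this) with h | h
  · right
    unfold mu
    omega
  · left
    unfold mu
    omega

end conc

end Pool.Agent.Helper636.Bw
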