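import Pool.Agent.Helper636.BwConc

set_option autoImplicit false
set_option linter.unusedSectionVars false

namespace Pool.Agent.Helper636.Bw

open scoped Matroid

variable {m : ℕ} [NeZero m] (hm : 2 ≤ m)

lemma eRank_le : (conc hm).data.M.eRank ≤ ((NN m : ℕ) : ℕ∞) := by
  obtain ⟨B0, hB0, hB0c, _⟩ := (conc hm).exists_B0 true
  have h := ((conc hm).data.base_of_card hB0 hB0c).encard_eq_eRank
  rw [← h, Set.encard_coe_eq_coe_finsetCard, hB0c, ZMod.card]

theorem no_decomposition {w : ℕ} (hmw : 3 * w + 6 ≤ m) :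
    ¬ ∃ (U : Type) (_ : Finite U) (T : SimpleGraph U),
        T.IsAcyclic ∧ T.Preconnected ∧ (∀ v, (T.neighborSet v).ncard ≤ 3) ∧
        ∃ f : ↥(conc hm).data.M.E ≃ {v : U // (T.neighborSet v).ncard ≤ 1},
          ∀ u v : U, T.Adj u v →
            (conc hm).data.M.eRk {x | ∃ h : x ∈ (conc hm).data.M.E,
                (T.deleteEdges {s(u, v)}).Reachable u (f ⟨x, h⟩).1}
              + (conc hm).data.M.eRk ((conc hm).data.M.E \ {x | ∃ h : x ∈ (conc hm).data.M.E,
                  (T.deleteEdges {s(u, v)}).Reachable u (f ⟨x, h⟩).1})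
              ≤ (conc hm).data.M.eRank + (w : ℕ∞) := by
  rintro ⟨U, hU, T, hac, hpre, hdeg, f, hf⟩
  refine tree_lemma T hac hpre hdeg (E := (conc hm).data.M.E) (fun x => (f x).1) ?_ (mu hm)
    (mu_empty hm) (mu_single hm) (fun A B h => mu_mono hm h) (mu_sub hm) (w + 1) ?_ ?_
  · intro x y hxy
    exact f.injective (Subtype.ext hxy)
  · have := mu_full hm
    have hE : (conc hm).data.M.E = ((conc hm).E : Set _) := rfl
    rw [hE]
    omega
  · intro u v huv
    set X : Set (Ed (ZMod (NN m))) := {x | ∃ h : x ∈ (conc hm).data.M.E,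
      Rch T u v (f ⟨x, h⟩).1} with hX
    have hXE : X ⊆ (conc hm).data.M.E := by rintro x ⟨h, _⟩; exact h
    have hE : (conc hm).data.M.E = ((conc hm).E : Set _) := rfl
    have h1 := hf u v huv
    change (conc hm).data.M.eRk X + (conc hm).data.M.eRk ((conc hm).data.M.E \ X) ≤ _ at h1
    have h2 := (conc hm).data.rank_ge (X := X) hXE
    have h3 := (conc hm).data.rank_ge (X := (conc hm).data.M.E \ X) Set.sdiff_subset
    have h4 := eRank_le hm
    rw [ZMod.card] at h2 h3
    apply small_side hm (X := X) (Y := (conc hm).data.M.E \ X)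
    · rw [← hE]; exact Set.union_sdiff_cancel hXE
    · exact Set.disjoint_sdiff_right
    · have h5 : ((NN m : ℕ) : ℕ∞) + ((NN m : ℕ) : ℕ∞) ≤ ((NN m : ℕ) : ℕ∞) +
          ((c (conc hm).ends X + c (conc hm).ends ((conc hm).data.M.E \ X) + w : ℕ) : ℕ∞) := by
        calc ((NN m : ℕ) : ℕ∞) + ((NN m : ℕ) : ℕ∞)
            ≤ ((conc hm).data.M.eRk X + (c (conc hm).data.ends X : ℕ)) +
              ((conc hm).data.M.eRk ((conc hm).data.M.E \ X) +
                (c (conc hm).data.ends ((conc hm).data.M.E \ X) : ℕ)) := add_le_add h2 h3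
          _ = ((conc hm).data.M.eRk X + (conc hm).data.M.eRk ((conc hm).data.M.E \ X)) +
              (((c (conc hm).data.ends X : ℕ) : ℕ∞) +
                ((c (conc hm).data.ends ((conc hm).data.M.E \ X) : ℕ) : ℕ∞)) := by
              rw [add_add_add_comm]
          _ ≤ ((conc hm).data.M.eRank + (w : ℕ∞)) +
              (((c (conc hm).data.ends X : ℕ) : ℕ∞) +
                ((c (conc hm).data.ends ((conc hm).data.M.E \ X) : ℕ) : ℕ∞)) :=
              add_le_add_left h1 _
          _ ≤ (((NN m : ℕ) : ℕ∞) + (w : ℕ∞)) +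
              (((c (conc hm).data.ends X : ℕ) : ℕ∞) +
                ((c (conc hm).data.ends ((conc hm).data.M.E \ X) : ℕ) : ℕ∞)) :=
              add_le_add_left (add_le_add_left h4 _) _
          _ = _ := by
              change (((NN m : ℕ) : ℕ∞) + (w : ℕ∞)) +
                (((c (conc hm).ends X : ℕ) : ℕ∞) +
                ((c (conc hm).ends ((conc hm).data.M.E \ X) : ℕ) : ℕ∞)) = _
              push_cast
              ring
      have h6 : NN m + NN m ≤ NN m +
          (c (conc hm).ends X + c (conc hm).ends ((conc hm).data.M.E \ X) + w) := by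
        exact_mod_cast h5
      omega

end Pool.Agent.Helper636.Bw
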