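import Pool.Agent.Helper636.SpkDef

set_option autoImplicit false

namespace Pool.Agent.Helper636.Bw

open Pool.Agent.Helper636.Spk

/-- a tipless spike of rank `r` given by its set `T` of dependent transversals -/
structure Spike where
  r : ℕ
  T : Finset (Finset ℕ)
  hr : 5 ≤ r
  hcard : ∀ H ∈ T, H.card = r
  hlegs : ∀ H ∈ T, (legs H).card = r
  hdist : ∀ (I : Finset ℕ) (e f : ℕ), e ∉ I → f ∉ I → insert e I ∈ T → insert f I ∈ T → e = f

variable (s : Spike)

def Spike.Ind (I : Finset ℕ) : Prop :=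
  I ⊆ Finset.range (2 * s.r) ∧ I.card ≤ (legs I).card + 1 ∧ I.card ≤ s.r ∧ I ∉ s.T

variable {s}

lemma Spike.Ind.subset {I J : Finset ℕ} (hJ : s.Ind J) (h : I ⊆ J) : s.Ind I := by
  obtain ⟨h1, h2, h3, h4⟩ := hJ
  have e1 := Finset.card_sdiff_add_card_eq_card h
  have e2 := legs_card_le_sdiff h
  have e3 := Finset.card_le_card h
  refine ⟨h.trans h1, by omega, by omega, ?_⟩
  intro hI
  have := s.hcard I hI
  have : I = J := Finset.eq_of_subset_of_card_le h (by omega)
  subst this
  exact h4 hI

lemma Spike.Ind.aug {I J : Finset ℕ} (hI : s.Ind I) (hJ : s.Ind J)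
    (hc : I.card < J.card) : ∃ e ∈ J, e ∉ I ∧ s.Ind (insert e I) := by
  have hJ0 := hJ
  obtain ⟨a1, a2, a3, a4⟩ := hI
  obtain ⟨b1, b2, b3, b4⟩ := hJ
  have hle := legs_card_le I
  have hins : ∀ e ∈ J, insert e I ⊆ Finset.range (2 * s.r) := fun e he =>
    Finset.insert_subset (b1 he) a1
  by_cases hfull : (legs I).card = I.card
  · -- no full leg
    have key : ∀ e ∈ J, e ∉ I → insert e I ∉ s.T → s.Ind (insert e I) := by
      intro e heJ heI h
      refine ⟨hins e heJ, ?_, ?_, h⟩
      · rw [Finset.card_insert_of_notMem heI]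
        have := Finset.card_le_card (legs_mono (Finset.subset_insert e I))
        omega
      · rw [Finset.card_insert_of_notMem heI]; omega
    obtain ⟨e, heJ, heI⟩ := Finset.exists_mem_notMem_of_card_lt_card hc
    by_cases hT : insert e I ∈ s.T
    · by_cases hex2 : ∃ f ∈ J, f ∉ I ∧ f ≠ e
      · obtain ⟨f, hfJ, hfI, hfe⟩ := hex2
        exact ⟨f, hfJ, hfI, key f hfJ hfI fun h => hfe (s.hdist I f e hfI heI h hT)⟩
      · push Not at hex2
        have hsub : J ⊆ insert e I := by
          intro f hf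
          rw [Finset.mem_insert]
          by_cases hfI : f ∈ I
          · exact Or.inr hfI
          · exact Or.inl (hex2 f hf hfI)
        have : J = insert e I := Finset.eq_of_subset_of_card_le hsub (by
          rw [Finset.card_insert_of_notMem heI]; omega)
        exact absurd (this ▸ hT) b4
    · exact ⟨e, heJ, heI, key e heJ heI hT⟩
  · -- a full leg
    have h1 : (legs I).card + 1 = I.card := by omega
    have h2 : (legs I).card < (legs J).card := by omega
    obtain ⟨L, hLJ, hLI⟩ := Finset.exists_mem_notMem_of_card_lt_card h2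
    obtain ⟨e, heJ, rfl⟩ := mem_legs.1 hLJ
    have heI : e ∉ I := fun h => hLI (mem_legs.2 ⟨e, h, rfl⟩)
    refine ⟨e, heJ, heI, hins e heJ, ?_, ?_, ?_⟩
    · rw [legs_insert, Finset.card_insert_of_notMem heI, Finset.card_insert_of_notMem hLI]
      omega
    · rw [Finset.card_insert_of_notMem heI]; omega
    · intro hT
      have h3 := s.hlegs _ hT
      have h4 := s.hcard _ hT
      rw [legs_insert, Finset.card_insert_of_notMem hLI] at h3
      rw [Finset.card_insert_of_notMem heI] at h4
      omega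

lemma Spike.ind_empty : s.Ind ∅ := by
  refine ⟨by simp, by simp, by simp, ?_⟩
  intro h
  have := s.hcard _ h
  have := s.hr
  simp only [Finset.card_empty] at *
  omega

variable (s)

/-- the matroid -/
def Spike.N : Matroid ℕ :=
  (IndepMatroid.ofFinset (Finset.range (2 * s.r) : Set ℕ) s.Ind Spike.ind_empty
    (fun _ _ hJ hIJ => hJ.subset hIJ) (fun _ _ hI hJ hc => hI.aug hJ hc)
    (fun _ hI => Finset.coe_subset.2 hI.1)).matroid

lemma Spike.N_E : s.N.E = (Finset.range (2 * s.r) : Set ℕ) := rfl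

lemma Spike.N_indep {I : Finset ℕ} : s.N.Indep (I : Set ℕ) ↔ s.Ind I := by
  unfold Spike.N
  rw [IndepMatroid.matroid_Indep]
  exact IndepMatroid.ofFinset_indep _ _ _ _ _ _

lemma Spike.N_finite : s.N.Finite := ⟨by rw [Spike.N_E]; exact Finset.finite_toSet _⟩

/-- a finset which is independent of maximal cardinality is a base -/
lemma Spike.base_of_card {B : Finset ℕ} (hB : s.Ind B) (hc : B.card = s.r) :
    s.N.IsBase (B : Set ℕ) := by
  rw [Matroid.isBase_iff_maximal_indep]
  refine ⟨s.N_indep.2 hB, ?_⟩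
  intro J hJ hBJ
  have hfin : J.Finite := (Finset.finite_toSet (Finset.range (2 * s.r))).subset hJ.subset_ground
  obtain ⟨J, rfl⟩ := hfin.exists_finset_coe
  rw [Spike.N_indep] at hJ
  have h1 : B ⊆ J := Finset.coe_subset.1 hBJ
  have h2 : B = J := Finset.eq_of_subset_of_card_le h1 (by rw [hc]; exact hJ.2.2.1)
  rw [h2]

/-- if `X` has at most one full leg and misses a leg then a base avoids it -/
lemma Spike.exists_base {X : Finset ℕ}
    (h1 : ∀ k k', 2 * k ∈ X → 2 * k + 1 ∈ X → 2 * k' ∈ X → 2 * k' + 1 ∈ X → k = k')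
    (h2 : (legs X).card < s.r) (hX : X ⊆ Finset.range (2 * s.r)) :
    ∃ B : Finset ℕ, s.Ind B ∧ B.card = s.r ∧ Disjoint B X := by
  have hr := s.hr
  -- the full leg `c` and the missing leg `d`
  obtain ⟨c, d, hc, hd, hcX, hcd, hd'⟩ : ∃ c d, c < s.r ∧ d < s.r ∧ c ∉ legs X ∧ c ≠ d ∧
      ∀ k < s.r, k ≠ d → ¬ (2 * k ∈ X ∧ 2 * k + 1 ∈ X) := by
    obtain ⟨c, hc1, hc2⟩ : ∃ c < s.r, c ∉ legs X := by
      have : (legs X).card < (Finset.range s.r).card := by rwa [Finset.card_range]
      obtain ⟨c, h3, h4⟩ := Finset.exists_mem_notMem_of_card_lt_card this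
      exact ⟨c, Finset.mem_range.1 h3, h4⟩
    by_cases hf : ∃ d, 2 * d ∈ X ∧ 2 * d + 1 ∈ X
    · obtain ⟨d, h3, h4⟩ := hf
      have hdr : d < s.r := by have := Finset.mem_range.1 (hX h3); omega
      refine ⟨c, d, hc1, hdr, hc2, ?_, ?_⟩
      · rintro rfl
        exact hc2 (mem_legs.2 ⟨_, h3, by omega⟩)
      · rintro k _ hkd ⟨h5, h6⟩
        exact hkd (h1 k d h5 h6 h3 h4)
    · push Not at hf
      refine ⟨c, if c = 0 then 1 else 0, hc1, by split_ifs <;> omega, hc2, by split_ifs <;> omega,
        fun k _ _ h => hf k h.1 h.2⟩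
  let g : ℕ → ℕ := fun k => if 2 * k ∈ X then 2 * k + 1 else 2 * k
  have hg2 : ∀ k, g k / 2 = k := by intro k; simp only [g]; split_ifs <;> omega
  have hgX : ∀ k < s.r, k ≠ d → g k ∉ X := by
    intro k hk hkd
    simp only [g]
    split_ifs with h1
    · intro h2; exact hd' k hk hkd ⟨h1, h2⟩
    · exact h1
  have hcX1 : 2 * c ∉ X := fun h => hcX (mem_legs.2 ⟨_, h, by omega⟩)
  have hcX2 : 2 * c + 1 ∉ X := fun h => hcX (mem_legs.2 ⟨_, h, by omega⟩)
  let B0 : Finset ℕ := ((Finset.range s.r).erase d).image g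
  have hB0card : B0.card = s.r - 1 := by
    rw [Finset.card_image_of_injective _ (fun a b hab => by rw [← hg2 a, ← hg2 b, hab]),
      Finset.card_erase_of_mem (Finset.mem_range.2 hd), Finset.card_range]
  have hgc : g c = 2 * c := by simp only [g]; rw [if_neg hcX1]
  have hB0 : 2 * c + 1 ∉ B0 := by
    intro h
    obtain ⟨k, hk, hk'⟩ := Finset.mem_image.1 h
    have : k = c := by rw [← hg2 k, hk']; omega
    rw [this, hgc] at hk'
    omega
  have hcard : (insert (2 * c + 1) B0).card = s.r := by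
    rw [Finset.card_insert_of_notMem hB0, hB0card]; omega
  have hlegs : legs (insert (2 * c + 1) B0) = (Finset.range s.r).erase d := by
    rw [legs_insert]
    have : legs B0 = (Finset.range s.r).erase d := by
      ext k
      simp only [mem_legs, B0, Finset.mem_image]
      constructor
      · rintro ⟨e, ⟨k', hk', rfl⟩, rfl⟩
        rw [hg2]; exact hk'
      · intro hk
        exact ⟨g k, ⟨k, hk, rfl⟩, hg2 k⟩
    rw [this]
    apply Finset.insert_eq_of_mem
    rw [Finset.mem_erase, Finset.mem_range]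
    omega
  have hlegc : (legs (insert (2 * c + 1) B0)).card = s.r - 1 := by
    rw [hlegs, Finset.card_erase_of_mem (Finset.mem_range.2 hd), Finset.card_range]
  refine ⟨insert (2 * c + 1) B0, ⟨?_, ?_, ?_, ?_⟩, hcard, ?_⟩
  · intro t ht
    rw [Finset.mem_range]
    rw [Finset.mem_insert] at ht
    rcases ht with rfl | ht
    · omega
    · obtain ⟨k, hk, rfl⟩ := Finset.mem_image.1 ht
      rw [Finset.mem_erase, Finset.mem_range] at hk
      have := hg2 k
      omega
  · rw [hcard, hlegc]; omega
  · rw [hcard]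
  · intro hT
    have := s.hlegs _ hT
    omega
  · rw [Finset.disjoint_left]
    intro t ht
    rw [Finset.mem_insert] at ht
    rcases ht with rfl | ht
    · exact hcX2
    · obtain ⟨k, hk, rfl⟩ := Finset.mem_image.1 ht
      rw [Finset.mem_erase, Finset.mem_range] at hk
      exact hgX k hk.2 hk.1

/-- two full legs in a set with at most four elements exhaust it -/
lemma two_full {X : Finset ℕ} (h4 : X.card ≤ 4) {k k' : ℕ} (hk : k ≠ k') (h1 : 2 * k ∈ X)
    (h2 : 2 * k + 1 ∈ X) (h3 : 2 * k' ∈ X) (h5 : 2 * k' + 1 ∈ X) :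
    X = {2 * k, 2 * k + 1, 2 * k', 2 * k' + 1} := by
  symm
  apply Finset.eq_of_subset_of_card_le
  · intro t ht
    simp only [Finset.mem_insert, Finset.mem_singleton] at ht
    rcases ht with rfl | rfl | rfl | rfl <;> assumption
  · refine h4.trans (le_of_eq ?_)
    rw [Finset.card_insert_of_notMem, Finset.card_insert_of_notMem, Finset.card_pair]
    · omega
    · simp only [Finset.mem_insert, Finset.mem_singleton]; omega
    · simp only [Finset.mem_insert, Finset.mem_singleton]; omega

/-- a set with at most four elements that no base avoids is a union of two legs -/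
lemma Spike.four {X : Finset ℕ} (hX : X ⊆ Finset.range (2 * s.r)) (h4 : X.card ≤ 4)
    (h : ∀ B : Finset ℕ, s.Ind B → B.card = s.r → ¬ Disjoint B X) :
    X.card = 4 ∧ ∀ x ∈ X, p x ∈ X := by
  have hr := s.hr
  have hl := legs_card_le X
  by_cases h1 : ∀ k k', 2 * k ∈ X → 2 * k + 1 ∈ X → 2 * k' ∈ X → 2 * k' + 1 ∈ X → k = k'
  · obtain ⟨B, hB1, hB2, hB3⟩ := s.exists_base h1 (by omega) hX
    exact absurd hB3 (h B hB1 hB2)
  · push Not at h1
    obtain ⟨k, k', a1, a2, a3, a4, hne⟩ := h1
    have hXe := two_full h4 hne a1 a2 a3 a4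
    constructor
    · rw [hXe, Finset.card_insert_of_notMem, Finset.card_insert_of_notMem, Finset.card_pair]
      · omega
      · simp only [Finset.mem_insert, Finset.mem_singleton]; omega
      · simp only [Finset.mem_insert, Finset.mem_singleton]; omega
    · intro x hx
      rw [hXe] at hx ⊢
      simp only [Finset.mem_insert, Finset.mem_singleton] at hx ⊢
      rcases hx with rfl | rfl | rfl | rfl
      · rw [p_even]; tauto
      · rw [p_odd]; tauto
      · rw [p_even]; tauto
      · rw [p_odd]; tauto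

end Pool.Agent.Helper636.Bw
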