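import Pool.Agent.Helper636.BwStar
import Pool.Agent.Helper636.BwSpike

set_option autoImplicit false
set_option linter.unusedSectionVars false

namespace Pool.Agent.Helper636.Bw

open scoped Matroid
open Pool.Agent.Helper636.Spk

/-- an explicit isomorphism, as a function on the ground set of `N` -/
structure IsoF {α : Type} (K : Matroid α) (N : Matroid ℕ) (F : ℕ → α) : Prop where
  inj : Set.InjOn F N.E
  img : F '' N.E = K.E
  ind : ∀ J ⊆ N.E, (K.Indep (F '' J) ↔ N.Indep J)

lemma IsoF.isBase {α : Type} {K : Matroid α} {N : Matroid ℕ} {F : ℕ → α} (h : IsoF K N F)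
    {B : Set ℕ} (hB : N.IsBase B) : K.IsBase (F '' B) := by
  have hBE := hB.subset_ground
  rw [Matroid.isBase_iff_maximal_indep]
  refine ⟨(h.ind B hBE).2 hB.indep, ?_⟩
  intro J hJ hBJ
  have hJE := hJ.subset_ground
  rw [← h.img] at hJE
  have hJ' : F '' (N.E ∩ F ⁻¹' J) = J := by
    ext t
    constructor
    · rintro ⟨x, hx, rfl⟩; exact hx.2
    · intro ht
      obtain ⟨x, hx, rfl⟩ := hJE ht
      exact ⟨x, ⟨hx, ht⟩, rfl⟩
  have h1 : N.Indep (N.E ∩ F ⁻¹' J) := by
    rw [← h.ind _ Set.inter_subset_left, hJ']; exact hJ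
  have h2 : B ⊆ N.E ∩ F ⁻¹' J := fun x hx => ⟨hBE hx, hBJ ⟨x, hx, rfl⟩⟩
  have h3 := hB.eq_of_subset_indep h1 h2
  rw [← hJ', ← h3]

variable {V α : Type} [Fintype V] [Nonempty V] [DecidableEq α] (d : Data V α)

/-- the data of a normalised minor which is isomorphic to a spike -/
structure SpMinor (s : Spike) (C D : Finset α) (F : ℕ → α) : Prop where
  hC : d.M.Indep (C : Set α)
  hD : d.M.Coindep (D : Set α)
  hCD : Disjoint (C : Set α) (D : Set α)
  iso : IsoF (d.M ／ (C : Set α) ＼ (D : Set α)) s.N F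

variable {d}

lemma SpMinor.memR {s : Spike} {C D : Finset α} {F : ℕ → α} (h : SpMinor d s C D F) {e : α} :
    (∃ x < 2 * s.r, F x = e) ↔ e ∈ d.E ∧ e ∉ C ∧ e ∉ D := by
  have h1 : e ∈ F '' s.N.E ↔ e ∈ (d.M ／ (C : Set α) ＼ (D : Set α)).E := by rw [h.iso.img]
  rw [Matroid.delete_ground, Matroid.contract_ground, Data.M_E, Spike.N_E] at h1
  simp only [Set.mem_image, Set.mem_sdiff, Finset.mem_coe, Finset.mem_range] at h1
  rw [← and_assoc, ← h1]

lemma SpMinor.tight {s : Spike} {C D : Finset α} {F : ℕ → α} (h : SpMinor d s C D F)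
    {B0 : Finset α} (hB0 : d.Ind B0) (hB0c : B0.card = Fintype.card V) :
    ∀ T ⊆ Finset.range (2 * s.r), T.card = s.r → (∀ x < 2 * s.r, x ∈ T ∨ p x ∈ T) →
      ¬ s.Ind T → T.image F ∪ C ∈ d.B := by
  classical
  have hr := s.hr
  set R : Finset α := (Finset.range (2 * s.r)).image F with hR
  have hinj : Set.InjOn F (Finset.range (2 * s.r) : Set ℕ) := h.iso.inj
  have hRcard : R.card = 2 * s.r := by
    rw [hR, Finset.card_image_of_injOn hinj, Finset.card_range]
  have hmemR : ∀ e, e ∈ R ↔ e ∈ d.E ∧ e ∉ C ∧ e ∉ D := by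
    intro e
    rw [← h.memR, hR]
    simp
  have hRC : Disjoint R C := by
    rw [Finset.disjoint_left]
    intro e he
    exact ((hmemR e).1 he).2.1
  -- bases
  have hbase : ∀ B : Finset ℕ, s.Ind B → B.card = s.r →
      (d.M ／ (C : Set α) ＼ (D : Set α)).IsBase (F '' (B : Set ℕ)) := fun B h1 h2 =>
    h.iso.isBase (s.base_of_card h1 h2)
  obtain ⟨B1, hB1, hB1c, _⟩ := s.exists_base (X := ∅) (by simp) (by simp [legs]; omega) (by simp)
  have hCcard : C.card + s.r = Fintype.card V := by
    have h1 := hbase B1 hB1 hB1c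
    rw [nf_isBase h.hC h.hD h.hCD] at h1
    obtain ⟨B', hB', hInd, hcard⟩ := d.base_card hB0 hB0c h1.1
    have h2 : B' = B1.image F ∪ C := by
      apply Finset.coe_injective
      rw [hB']; push_cast; rfl
    have h3 : Disjoint (B1.image F) C :=
      Finset.disjoint_of_subset_left (Finset.image_subset_image hB1.1) hRC
    rw [h2, Finset.card_union_of_disjoint h3, Finset.card_image_of_injOn
      (hinj.mono (by exact_mod_cast hB1.1)), hB1c] at hcard
    omega
  have hQ : s.r ≤ Fintype.card (Q d C) := by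
    have h1 := card_Q d C
    have h2 := c_finset d.ends C
    omega
  have hne : ∀ q : Q d C, ∃ q', q ≠ q' := by
    intro q
    by_contra hcon
    push Not at hcon
    have : Fintype.card (Q d C) ≤ 1 := Fintype.card_le_one_iff.2 fun a b => by
      rw [← hcon a, ← hcon b]
    omega
  -- the star seen in the spike
  let J : Q d C → Finset ℕ := fun q => (Finset.range (2 * s.r)).filter (fun x => F x ∈ star d C R q)
  have hJimg : ∀ q, (J q).image F = star d C R q := by
    intro q
    ext e
    simp only [J, Finset.mem_image, Finset.mem_filter]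
    constructor
    · rintro ⟨x, ⟨_, hx⟩, rfl⟩; exact hx
    · intro he
      have : e ∈ R := (Finset.mem_filter.1 he).1
      rw [hR, Finset.mem_image] at this
      obtain ⟨x, hx, rfl⟩ := this
      exact ⟨x, ⟨hx, he⟩, rfl⟩
  have hJcard : ∀ q, (J q).card = (star d C R q).card := by
    intro q
    rw [← hJimg q, Finset.card_image_of_injOn]
    exact hinj.mono (by exact_mod_cast Finset.filter_subset _ _)
  have hJno : ∀ q, ∀ B : Finset ℕ, s.Ind B → B.card = s.r → ¬ Disjoint B (J q) := by
    intro q B h1 h2 hdis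
    obtain ⟨q', hq'⟩ := hne q
    refine star_codep d h.hC h.hD h.hCD (R := R) ?_ hB0 hB0c hq' (hbase B h1 h2) ?_
    · intro e he1 he2 he3
      exact (hmemR e).2 ⟨he1, he2, he3⟩
    · rw [Set.disjoint_left]
      rintro e ⟨x, hx, rfl⟩ he
      have hx' : x ∈ B := by exact_mod_cast hx
      refine Finset.disjoint_left.1 hdis hx' ?_
      simp only [J, Finset.mem_filter]
      exact ⟨h1.1 hx', by exact_mod_cast he⟩
  have hg : ∀ q, 4 ≤ (star d C R q).card := by
    intro q
    by_contra hlt
    have := (s.four (X := J q) (Finset.filter_subset _ _) (by rw [hJcard]; omega) (hJno q)).1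
    rw [hJcard] at this
    omega
  obtain ⟨hst, hend⟩ := count_eq d hg (by rw [hRcard]; omega)
  have hJp : ∀ q, ∀ x ∈ J q, p x ∈ J q := fun q =>
    (s.four (X := J q) (Finset.filter_subset _ _) (by rw [hJcard, hst]) (hJno q)).2
  -- legs are parallel
  have hleg : ∀ x < 2 * s.r, ∀ f ∈ Z d.ends (C : Set α),
      f (d.ends (F (p x))).1 = f (d.ends (F (p x))).2 →
      f (d.ends (F x)).1 = f (d.ends (F x)).2 := by
    intro x hx f hf hpx
    have hxR : F x ∈ R := Finset.mem_image.2 ⟨x, Finset.mem_range.2 hx, rfl⟩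
    have hne' := hend _ hxR
    have h1 : x ∈ J (cl d C (d.ends (F x)).1) := by
      simp only [J, star, Finset.mem_filter, Finset.mem_range]
      refine ⟨hx, hxR, ?_⟩
      intro hiff
      exact hne' (hiff.1 trivial).symm
    have h2 : x ∈ J (cl d C (d.ends (F x)).2) := by
      simp only [J, star, Finset.mem_filter, Finset.mem_range]
      refine ⟨hx, hxR, ?_⟩
      intro hiff
      exact hne' (hiff.2 trivial)
    have h3 := hJp _ x h1
    have h4 := hJp _ x h2
    simp only [J, star, Finset.mem_filter, Finset.mem_range] at h3 h4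
    obtain ⟨_, _, h3⟩ := h3
    obtain ⟨_, _, h4⟩ := h4
    have hcase : (cl d C (d.ends (F (p x))).1 = cl d C (d.ends (F x)).1 ∧
        cl d C (d.ends (F (p x))).2 = cl d C (d.ends (F x)).2) ∨
        (cl d C (d.ends (F (p x))).1 = cl d C (d.ends (F x)).2 ∧
        cl d C (d.ends (F (p x))).2 = cl d C (d.ends (F x)).1) := by
      by_cases a1 : cl d C (d.ends (F (p x))).1 = cl d C (d.ends (F x)).1
      · have a2 : cl d C (d.ends (F (p x))).2 ≠ cl d C (d.ends (F x)).1 := fun h' =>
          h3 ⟨fun _ => h', fun _ => a1⟩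
        have a3 : cl d C (d.ends (F (p x))).1 ≠ cl d C (d.ends (F x)).2 := fun h' =>
          hne' (a1.symm.trans h')
        left
        refine ⟨a1, ?_⟩
        by_contra a4
        exact h4 ⟨fun h' => absurd h' a3, fun h' => absurd h' a4⟩
      · have a2 : cl d C (d.ends (F (p x))).2 = cl d C (d.ends (F x)).1 := by
          by_contra a4
          exact h3 ⟨fun h' => absurd h' a1, fun h' => absurd h' a4⟩
        have a3 : cl d C (d.ends (F (p x))).2 ≠ cl d C (d.ends (F x)).2 := fun h' =>
          hne' (a2.symm.trans h')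
        right
        refine ⟨?_, a2⟩
        by_contra a4
        exact h4 ⟨fun h' => absurd h' a4, fun h' => absurd h' a3⟩
    rcases hcase with ⟨b1, b2⟩ | ⟨b1, b2⟩
    · rw [← (cl_eq d).1 b1 f hf, ← (cl_eq d).1 b2 f hf, hpx]
    · rw [← (cl_eq d).1 b1 f hf, ← (cl_eq d).1 b2 f hf, hpx]
  -- conclusion
  intro T hT hTc hTt hTn
  have hTR : T.image F ⊆ R := Finset.image_subset_image hT
  have hdisj : Disjoint (T.image F) C := Finset.disjoint_of_subset_left hTR hRC
  have hcard : (T.image F ∪ C).card = Fintype.card V := by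
    rw [Finset.card_union_of_disjoint hdisj, Finset.card_image_of_injOn
      (hinj.mono (by exact_mod_cast hT)), hTc]
    omega
  have hCE : C ⊆ d.E := ((d.M_indep).1 h.hC).1
  have hsub : T.image F ∪ C ⊆ d.E := by
    apply Finset.union_subset _ hCE
    intro e he
    exact ((hmemR e).1 (hTR he)).1
  -- connectivity
  have hc1 : c d.ends ((T.image F ∪ C : Finset α) : Set α) ≤ 1 := by
    apply c_le_one_of_const
    intro f hf
    have hfC : f ∈ Z d.ends (C : Set α) := Z_anti d.ends (by simp) hf
    have hfR : ∀ x < 2 * s.r, f (d.ends (F x)).1 = f (d.ends (F x)).2 := by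
      intro x hx
      rcases hTt x hx with h1 | h1
      · apply hf
        rw [Finset.mem_coe, Finset.mem_union]
        exact Or.inl (Finset.mem_image_of_mem F h1)
      · apply hleg x hx f hfC
        apply hf
        rw [Finset.mem_coe, Finset.mem_union]
        exact Or.inl (Finset.mem_image_of_mem F h1)
    have h1 := hbase B1 hB1 hB1c
    rw [nf_isBase h.hC h.hD h.hCD] at h1
    obtain ⟨B', hB', hInd, hcard⟩ := d.base_card hB0 hB0c h1.1
    have hfB : f ∈ Z d.ends (B' : Set α) := by
      rw [hB']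
      rintro e (⟨x, hx, rfl⟩ | he)
      · exact hfR x (Finset.mem_range.1 (hB1.1 (by exact_mod_cast hx)))
      · exact hfC e he
    have hcB : c d.ends (B' : Set α) ≤ 1 := by
      have := hInd.2.1; omega
    exact const_of_c_le_one d.ends hcB hfB
  by_contra hB
  apply hTn
  have hInd : d.Ind (T.image F ∪ C) := ⟨hsub, by omega, hB⟩
  have h1 : (d.M ／ (C : Set α) ＼ (D : Set α)).Indep (F '' (T : Set ℕ)) := by
    rw [Matroid.delete_indep_iff, h.hC.contract_indep_iff]
    have h2 := (d.M_indep).2 hInd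
    rw [Finset.coe_union, Finset.coe_image] at h2
    refine ⟨⟨?_, h2⟩, ?_⟩
    · rw [← Finset.coe_image]; exact_mod_cast hdisj
    · rw [Set.disjoint_left, ← Finset.coe_image]
      intro e he he'
      exact ((hmemR e).1 (hTR (by exact_mod_cast he))).2.2 (by exact_mod_cast he')
  rw [h.iso.ind _ (by rw [Spike.N_E]; exact_mod_cast hT)] at h1
  exact s.N_indep.1 h1

/-- no uniform minor of rank four on eight elements -/
lemma no_uniform {B0 : Finset α} (hB0 : d.Ind B0) (hB0c : B0.card = Fintype.card V) :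
    ¬ (∃ N : Matroid α, N.IsMinor d.M ∧ N.E.ncard = 2 * 4 ∧
      ∀ I ⊆ N.E, N.Indep I ↔ I.ncard ≤ 4) := by
  classical
  rintro ⟨N, hN, hcard, hU⟩
  obtain ⟨C', D', hC', hD', hCD', rfl⟩ := hN.exists_eq_contract_delete_disjoint
  obtain ⟨C, D, hC, hD, hCD, hCE, hDE, heq⟩ := nf_basic hC' hD' hCD'
  rw [heq] at hcard hU
  have hfC : C.Finite := (Finset.finite_toSet d.E).subset hCE
  have hfD : D.Finite := (Finset.finite_toSet d.E).subset hDE
  obtain ⟨C, rfl⟩ := hfC.exists_finset_coe
  obtain ⟨D, rfl⟩ := hfD.exists_finset_coe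
  set K := d.M ／ (C : Set α) ＼ (D : Set α) with hK
  have hKE : K.E = ((d.E \ (C ∪ D) : Finset α) : Set α) := by
    rw [hK, Matroid.delete_ground, Matroid.contract_ground, Data.M_E]
    ext e
    simp only [Set.mem_sdiff, Finset.mem_coe, Finset.mem_sdiff, Finset.mem_union]
    tauto
  set R : Finset α := d.E \ (C ∪ D) with hR
  have hRcard : R.card = 8 := by
    rw [hKE, Set.ncard_coe_finset] at hcard
    omega
  have hRC : Disjoint R C := by
    rw [Finset.disjoint_left]
    intro e he he'
    rw [hR, Finset.mem_sdiff, Finset.mem_union] at he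
    exact he.2 (Or.inl he')
  have hbase : ∀ B ⊆ R, B.card = 4 → K.IsBase (B : Set α) := by
    intro B hB hBc
    rw [Matroid.isBase_iff_maximal_indep]
    refine ⟨(hU _ (by rw [hKE]; exact_mod_cast hB)).2 (by rw [Set.ncard_coe_finset]; omega), ?_⟩
    intro J hJ hBJ
    have hJE := hJ.subset_ground
    have hfJ : J.Finite := by
      rw [hKE] at hJE
      exact (Finset.finite_toSet _).subset hJE
    obtain ⟨J, rfl⟩ := hfJ.exists_finset_coe
    have h6 := (hU _ hJE).1 hJ
    rw [Set.ncard_coe_finset] at h6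
    have h7 : B = J := Finset.eq_of_subset_of_card_le (Finset.coe_subset.1 hBJ) (by omega)
    rw [h7]
  obtain ⟨B1, hB1, hB1c⟩ := Finset.exists_subset_card_eq (s := R) (n := 4) (by omega)
  have hCcard : C.card + 4 = Fintype.card V := by
    have h1 := hbase B1 hB1 hB1c
    rw [nf_isBase hC hD hCD] at h1
    obtain ⟨B', hB', hInd, hcard⟩ := d.base_card hB0 hB0c h1.1
    have h2 : B' = B1 ∪ C := by
      apply Finset.coe_injective
      rw [hB']; push_cast; rfl
    rw [h2, Finset.card_union_of_disjoint (Finset.disjoint_of_subset_left hB1 hRC), hB1c] at hcard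
    omega
  have hQ : 4 ≤ Fintype.card (Q d C) := by
    have h1 := card_Q d C
    have h2 := c_finset d.ends C
    omega
  have hne : ∀ q : Q d C, ∃ q', q ≠ q' := by
    intro q
    by_contra hcon
    push Not at hcon
    have : Fintype.card (Q d C) ≤ 1 := Fintype.card_le_one_iff.2 fun a b => by
      rw [← hcon a, ← hcon b]
    omega
  have hg : ∀ q, 5 ≤ (star d C R q).card := by
    intro q
    by_contra hlt
    have h1 : 4 ≤ (R \ star d C R q).card := by
      have hsR : star d C R q ⊆ R := Finset.filter_subset _ _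
      have := Finset.card_sdiff_add_card_eq_card hsR
      omega
    obtain ⟨B, hB, hBc⟩ := Finset.exists_subset_card_eq h1
    obtain ⟨q', hq'⟩ := hne q
    refine star_codep d hC hD hCD (R := R) ?_ hB0 hB0c hq'
      (hbase B (hB.trans Finset.sdiff_subset) hBc) ?_
    · intro e he1 he2 he3
      rw [hR, Finset.mem_sdiff, Finset.mem_union]
      tauto
    · rw [Set.disjoint_left]
      intro e he he'
      exact (Finset.mem_sdiff.1 (hB (by exact_mod_cast he))).2 (by exact_mod_cast he')
  have := count_le d hg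
  rw [hRcard] at this
  omega

end Pool.Agent.Helper636.Bw
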