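import Pool.Agent.Helper636.BwRank

set_option autoImplicit false
set_option linter.unusedSectionVars false

namespace Pool.Agent.Helper636.Bw

/-- a finite multigraph with a set `B` of (balanced) Hamiltonian cycles -/
structure Data (V α : Type) [Fintype V] [DecidableEq α] where
  ends : α → V × V
  E : Finset α
  B : Finset (Finset α)
  hcard : ∀ H ∈ B, H.card = Fintype.card V
  hforest : ∀ H ∈ B, ∀ e ∈ H, c ends ((H.erase e : Finset α) : Set α) = 1
  hdist : ∀ (I : Finset α) (e f : α), e ∉ I → f ∉ I → insert e I ∈ B → insert f I ∈ B → e = f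

variable {V α : Type} [Fintype V] [Nonempty V] [DecidableEq α] (d : Data V α)

/-- independence in the lift matroid -/
def Data.Ind (I : Finset α) : Prop :=
  I ⊆ d.E ∧ I.card + c d.ends (I : Set α) ≤ Fintype.card V + 1 ∧ I ∉ d.B

variable {d}

lemma Data.Ind.subset {I J : Finset α} (hJ : d.Ind J) (h : I ⊆ J) : d.Ind I := by
  obtain ⟨h1, h2, h3⟩ := hJ
  have h4 := c_sdiff_le d.ends h
  refine ⟨h.trans h1, by omega, fun hI => ?_⟩
  have h5 := d.hcard I hI
  rcases eq_or_ne I J with rfl | hne
  · exact h3 hI
  · have h6 := Finset.card_lt_card (lt_of_le_of_ne h hne)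
    have h7 := one_le_c d.ends (J : Set α)
    omega

lemma Data.ind_empty : d.Ind ∅ := by
  refine ⟨by simp, ?_, fun h => ?_⟩
  · have := c_le_card d.ends ((∅ : Finset α) : Set α)
    simp only [Finset.card_empty]
    omega
  · have := d.hcard _ h
    have h2 : 0 < Fintype.card V := Fintype.card_pos
    simp only [Finset.card_empty] at this
    omega

/-- if `|I| + c(I) = n + 1` and `c` drops on adding the set `X`, an element of `X` can be added -/
lemma Data.Ind.extend {I : Finset α} (hI : d.Ind I)
    (hn : Fintype.card V < I.card + c d.ends (I : Set α)) {X : Set α} (hXE : X ⊆ d.E)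
    (hX : c d.ends X < c d.ends (I : Set α)) : ∃ e ∈ X, e ∉ I ∧ d.Ind (insert e I) := by
  by_contra hcon
  push Not at hcon
  have : Z d.ends (I : Set α) ≤ Z d.ends X := by
    intro f hf e he
    by_contra hne
    have heI : e ∉ I := fun h => hne (hf e (by exact_mod_cast h))
    apply hcon e he heI
    have h1 : c d.ends ((insert e I : Finset α) : Set α) < c d.ends (I : Set α) := by
      apply Submodule.finrank_lt_finrank_of_lt
      refine lt_of_le_of_ne (Z_anti d.ends (by simp)) ?_
      intro heq
      rw [← heq] at hf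
      exact hne (hf e (by simp))
    have h2 := hI.2.1
    refine ⟨?_, ?_, ?_⟩
    · intro t ht
      rw [Finset.mem_insert] at ht
      rcases ht with rfl | ht
      · exact_mod_cast hXE he
      · exact hI.1 ht
    · rw [Finset.card_insert_of_notMem heI]; omega
    · intro hB
      have h3 := d.hforest _ hB e (Finset.mem_insert_self e I)
      rw [Finset.erase_insert heI] at h3
      have h4 := d.hcard _ hB
      rw [Finset.card_insert_of_notMem heI] at h4
      omega
  have := Submodule.finrank_mono this
  unfold c at hX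
  omega

lemma Data.Ind.aug {I J : Finset α} (hI : d.Ind I) (hJ : d.Ind J) (hc : I.card < J.card) :
    ∃ e ∈ J, e ∉ I ∧ d.Ind (insert e I) := by
  by_cases hn : I.card + c d.ends (I : Set α) ≤ Fintype.card V
  · have key : ∀ e ∈ J, e ∉ I → insert e I ∉ d.B → d.Ind (insert e I) := by
      intro e heJ heI hB
      refine ⟨Finset.insert_subset (hJ.1 heJ) hI.1, ?_, hB⟩
      rw [Finset.card_insert_of_notMem heI]
      have := c_anti d.ends (show (I : Set α) ⊆ ((insert e I : Finset α) : Set α) by simp)
      omega
    obtain ⟨e, heJ, heI⟩ := Finset.exists_mem_notMem_of_card_lt_card hc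
    by_cases hB : insert e I ∈ d.B
    · by_cases hex : ∃ f ∈ J, f ∉ I ∧ f ≠ e
      · obtain ⟨f, hfJ, hfI, hfe⟩ := hex
        refine ⟨f, hfJ, hfI, key f hfJ hfI fun hB' => hfe ?_⟩
        exact d.hdist I f e hfI heI hB' hB
      · push Not at hex
        exfalso
        have hsub : J ⊆ insert e I := by
          intro f hf
          rw [Finset.mem_insert]
          by_cases hfI : f ∈ I
          · exact Or.inr hfI
          · exact Or.inl (hex f hf hfI)
        have : J = insert e I := Finset.eq_of_subset_of_card_le hsub (by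
          rw [Finset.card_insert_of_notMem heI]; omega)
        exact hJ.2.2 (this ▸ hB)
    · exact ⟨e, heJ, heI, key e heJ heI hB⟩
  · have h2 := hJ.2.1
    obtain ⟨e, he, h⟩ := hI.extend (X := (J : Set α)) (by omega) (by exact_mod_cast hJ.1) (by omega)
    exact ⟨e, by exact_mod_cast he, h⟩

variable (d)

/-- the matroid -/
def Data.M : Matroid α :=
  (IndepMatroid.ofFinset (d.E : Set α) d.Ind Data.ind_empty
    (fun _ _ hJ hIJ => hJ.subset hIJ) (fun _ _ hI hJ hc => hI.aug hJ hc)
    (fun _ hI => Finset.coe_subset.2 hI.1)).matroid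

lemma Data.M_E : d.M.E = (d.E : Set α) := rfl

lemma Data.M_indep {I : Finset α} : d.M.Indep (I : Set α) ↔ d.Ind I := by
  unfold Data.M
  rw [IndepMatroid.matroid_Indep]
  exact IndepMatroid.ofFinset_indep _ _ _ _ _ _

lemma Data.M_finite : d.M.Finite := ⟨by rw [Data.M_E]; exact Finset.finite_toSet _⟩

lemma Data.Ind.card_le {I : Finset α} (hI : d.Ind I) : I.card ≤ Fintype.card V := by
  have h1 := hI.2.1
  have h2 := one_le_c d.ends (I : Set α)
  omega

/-- lower bound for the rank -/
lemma Data.rank_ge {X : Set α} (hX : X ⊆ d.E) :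
    ((Fintype.card V : ℕ) : ℕ∞) ≤ d.M.eRk X + (c d.ends X : ℕ) := by
  obtain ⟨I, hI⟩ := d.M.exists_isBasis X hX
  have hfin : I.Finite := (Finset.finite_toSet d.E).subset (hI.indep.subset_ground)
  obtain ⟨I, rfl⟩ := hfin.exists_finset_coe
  rw [← hI.encard_eq_eRk, Set.encard_coe_eq_coe_finsetCard]
  have hInd : d.Ind I := (Data.M_indep d).1 hI.indep
  suffices h : Fintype.card V ≤ I.card + c d.ends X by exact_mod_cast h
  have hmax : ∀ e ∈ X, e ∉ I → ¬ d.Ind (insert e I) := by
    intro e he heI hind
    have h1 : d.M.Indep (insert e (I : Set α)) := by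
      have := (Data.M_indep d).2 hind
      simpa using this
    exact heI (by exact_mod_cast hI.mem_of_insert_indep he h1)
  by_cases hsub : X ⊆ (I : Set α)
  · have : X = I := Set.Subset.antisymm hsub hI.subset
    rw [this]
    have := c_finset d.ends I
    omega
  · obtain ⟨e, he, heI⟩ := Set.not_subset.1 hsub
    have heI' : e ∉ I := by exact_mod_cast heI
    by_cases hn : I.card + c d.ends (I : Set α) ≤ Fintype.card V
    · have h1 := hmax e he heI'
      by_cases hB : insert e I ∈ d.B
      · have h2 := d.hcard _ hB
        rw [Finset.card_insert_of_notMem heI'] at h2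
        have h3 := one_le_c d.ends X
        omega
      · exfalso
        apply h1
        refine ⟨?_, ?_, hB⟩
        · intro t ht
          rw [Finset.mem_insert] at ht
          rcases ht with rfl | ht
          · exact_mod_cast hX he
          · exact hInd.1 ht
        · rw [Finset.card_insert_of_notMem heI']
          have := c_anti d.ends (show (I : Set α) ⊆ ((insert e I : Finset α) : Set α) by simp)
          omega
    · by_cases hlt : c d.ends X < c d.ends (I : Set α)
      · obtain ⟨f, hf, hfI, hind⟩ := hInd.extend (by omega) hX hlt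
        exact absurd hind (hmax f hf hfI)
      · omega

/-- an independent set of size `n` is a base -/
lemma Data.base_of_card {B : Finset α} (hB : d.Ind B) (hc : B.card = Fintype.card V) :
    d.M.IsBase (B : Set α) := by
  rw [Matroid.isBase_iff_maximal_indep]
  refine ⟨(Data.M_indep d).2 hB, ?_⟩
  intro J hJ hBJ
  have hfin : J.Finite := (Finset.finite_toSet d.E).subset hJ.subset_ground
  obtain ⟨J, rfl⟩ := hfin.exists_finset_coe
  rw [Data.M_indep] at hJ
  have h1 : B ⊆ J := Finset.coe_subset.1 hBJ
  have h2 : B = J := Finset.eq_of_subset_of_card_le h1 (by rw [hc]; exact hJ.card_le)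
  rw [h2]

/-- if there is an independent set of size `n`, all bases have size `n` -/
lemma Data.base_card {B0 : Finset α} (hB0 : d.Ind B0) (hc : B0.card = Fintype.card V)
    {B : Set α} (hB : d.M.IsBase B) :
    ∃ B' : Finset α, (B' : Set α) = B ∧ d.Ind B' ∧ B'.card = Fintype.card V := by
  have hfin : B.Finite := (Finset.finite_toSet d.E).subset hB.subset_ground
  obtain ⟨B, rfl⟩ := hfin.exists_finset_coe
  have h3 := d.base_of_card hB0 hc
  have h4 := hB.encard_eq_encard_of_isBase h3
  simp only [Set.encard_coe_eq_coe_finsetCard] at h4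
  refine ⟨B, rfl, (Data.M_indep d).1 hB.indep, ?_⟩
  rw [← hc]
  exact_mod_cast h4

end Pool.Agent.Helper636.Bw
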