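import Pool.Agent.Helper636.BwTwo

set_option autoImplicit false
set_option linter.unusedSectionVars false

namespace Pool.Agent.Helper636.Bw

open scoped Matroid
open Pool.Agent.Helper636.Spk

variable {V : Type} [Fintype V] [Nonempty V] [DecidableEq V] (w : Two V)

def Two.Cc (t : Bool) : Finset (Ed V) :=
  Finset.univ.filter (fun e : Ed V => e.2.1 = t ∧ e.2.2 = false ∧ rr t ≤ w.idx e.1)

def Two.Dc (t : Bool) : Finset (Ed V) := w.E.filter (fun e => e.2.1 ≠ t)

def Two.F (t : Bool) (x : ℕ) : Ed V := (w.vx (x / 2), t, decide (x % 2 = 1))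

lemma Two.mem_Cc {t : Bool} {e : Ed V} :
    e ∈ w.Cc t ↔ e.2.1 = t ∧ e.2.2 = false ∧ rr t ≤ w.idx e.1 := by simp [Two.Cc]

lemma Two.mem_Dc {t : Bool} {e : Ed V} : e ∈ w.Dc t ↔ e ∈ w.E ∧ e.2.1 ≠ t := by
  simp [Two.Dc]

lemma Two.idx_F {t : Bool} {x : ℕ} (hx : x < 2 * rr t) : w.idx (w.F t x).1 = x / 2 := by
  have := w.big
  have := rr6 t
  exact w.idx_vx _ (by omega)

lemma Two.F_inj (t : Bool) : Set.InjOn (w.F t) (Finset.range (2 * rr t) : Set ℕ) := by
  intro x hx y hy hxy
  have hx' : x < 2 * rr t := by simpa using hx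
  have hy' : y < 2 * rr t := by simpa using hy
  have h1 := w.idx_F hx'
  have h2 := w.idx_F hy'
  rw [hxy, h2] at h1
  have h3 : (w.F t x).2.2 = (w.F t y).2.2 := by rw [hxy]
  simp only [Two.F, decide_eq_decide] at h3
  omega

/-- the vertices of small index -/
lemma Two.card_small {r : ℕ} (hr : r ≤ Fintype.card V) :
    (Finset.univ.filter (fun v : V => w.idx v < r)).card = r := by
  have : (Finset.univ.filter (fun v : V => w.idx v < r)) = (Finset.range r).image w.vx := by
    ext v
    simp only [Finset.mem_filter, Finset.mem_univ, true_and, Finset.mem_image, Finset.mem_range]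
    constructor
    · intro h; exact ⟨w.idx v, h, w.vx_idx v⟩
    · rintro ⟨k, hk, rfl⟩; rw [w.idx_vx k (by omega)]; exact hk
  rw [this, Finset.card_image_of_injOn, Finset.card_range]
  intro a ha b hb hab
  have ha' : a < r := by simpa using ha
  have hb' : b < r := by simpa using hb
  rw [← w.idx_vx a (by omega), ← w.idx_vx b (by omega), hab]

lemma Two.card_large {r : ℕ} (hr : r ≤ Fintype.card V) :
    (Finset.univ.filter (fun v : V => r ≤ w.idx v)).card = Fintype.card V - r := by
  have h1 := w.card_small hr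
  have h2 := Finset.card_filter_add_card_filter_not (s := (Finset.univ : Finset V))
    (p := fun v : V => w.idx v < r)
  rw [Finset.card_univ, h1] at h2
  have h3 : (Finset.univ.filter (fun v : V => ¬ w.idx v < r)) =
      (Finset.univ.filter (fun v : V => r ≤ w.idx v)) := by
    ext v; simp
  rw [h3] at h2
  omega

lemma Two.Cc_card (t : Bool) : (w.Cc t).card = Fintype.card V - rr t := by
  have := w.big
  have := rr6 t
  rw [← w.card_large (r := rr t) (by omega)]
  have : w.Cc t = (Finset.univ.filter (fun v : V => rr t ≤ w.idx v)).image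
      (fun v : V => (v, t, false)) := by
    ext ⟨v, t', b⟩
    simp only [w.mem_Cc, Finset.mem_image, Finset.mem_filter, Finset.mem_univ, true_and,
      Prod.mk.injEq]
    constructor
    · rintro ⟨rfl, rfl, h⟩; exact ⟨v, h, rfl, rfl, rfl⟩
    · rintro ⟨v', h, rfl, rfl, rfl⟩; exact ⟨rfl, rfl, h⟩
  rw [this, Finset.card_image_of_injective]
  intro a b hab
  exact (Prod.mk.inj hab).1

lemma Two.Cc_sub (t : Bool) : w.Cc t ⊆ w.E := by
  intro e he
  rw [w.mem_Cc] at he
  rw [w.mem_E]
  exact Or.inl he.2.1

lemma Two.F_mem_E {t : Bool} {x : ℕ} (hx : x < 2 * rr t) : w.F t x ∈ w.E := by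
  rw [w.mem_E]
  right
  rw [w.idx_F hx]
  simp only [Two.F]
  omega

lemma Two.pos_card {t : Bool} {J : Finset ℕ} (hJ : J ⊆ Finset.range (2 * rr t)) :
    ((J.image (w.F t) ∪ w.Cc t).image Prod.fst).card =
      (legs J).card + (Fintype.card V - rr t) := by
  have hbig := w.big
  have hr6 := rr6 t
  have h1 : (J.image (w.F t) ∪ w.Cc t).image Prod.fst =
      (legs J).image w.vx ∪ (Finset.univ.filter (fun v : V => rr t ≤ w.idx v)) := by
    ext v
    simp only [Finset.mem_image, Finset.mem_union, Finset.mem_filter, Finset.mem_univ, true_and,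
      mem_legs]
    constructor
    · rintro ⟨e, (⟨x, hx, rfl⟩ | he), rfl⟩
      · left
        exact ⟨x / 2, ⟨x, hx, rfl⟩, rfl⟩
      · right
        exact (w.mem_Cc.1 he).2.2
    · rintro (⟨k, ⟨x, hx, rfl⟩, rfl⟩ | h)
      · exact ⟨w.F t x, Or.inl ⟨x, hx, rfl⟩, rfl⟩
      · exact ⟨(v, t, false), Or.inr (w.mem_Cc.2 ⟨rfl, rfl, h⟩), rfl⟩
  have hlt : ∀ k ∈ legs J, k < rr t := by
    intro k hk
    exact Finset.mem_range.1 (legs_range hJ hk)
  have h2 : Disjoint ((legs J).image w.vx)
      (Finset.univ.filter (fun v : V => rr t ≤ w.idx v)) := by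
    rw [Finset.disjoint_left]
    intro v hv hv'
    obtain ⟨k, hk, rfl⟩ := Finset.mem_image.1 hv
    have := hlt k hk
    rw [Finset.mem_filter, w.idx_vx k (by omega)] at hv'
    omega
  rw [h1, Finset.card_union_of_disjoint h2, w.card_large (by omega),
    Finset.card_image_of_injOn]
  intro a ha b hb hab
  have ha' := hlt a (by exact_mod_cast ha)
  have hb' := hlt b (by exact_mod_cast hb)
  rw [← w.idx_vx a (by omega), ← w.idx_vx b (by omega), hab]

lemma Two.disj_FC {t : Bool} {J : Finset ℕ} (hJ : J ⊆ Finset.range (2 * rr t)) :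
    Disjoint (J.image (w.F t)) (w.Cc t) := by
  rw [Finset.disjoint_left]
  intro e he he'
  obtain ⟨x, hx, rfl⟩ := Finset.mem_image.1 he
  have hx' := Finset.mem_range.1 (hJ hx)
  have h1 := (w.mem_Cc.1 he').2.2
  rw [w.idx_F hx'] at h1
  omega

lemma Two.mem_B_iff {t : Bool} {J : Finset ℕ} (hJ : J ⊆ Finset.range (2 * rr t)) :
    J.image (w.F t) ∪ w.Cc t ∈ w.B ↔ J ∈ (sp t).T := by
  have hbig := w.big
  have hr5 := rr5 t
  have hr6 := rr6 t
  rw [w.mem_B]
  simp only [sp, Finset.mem_image]
  constructor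
  · rintro ⟨t', A, hA, h⟩
    have hne : (w.Cc t).Nonempty := by
      rw [← Finset.card_pos, w.Cc_card]; omega
    obtain ⟨e, he⟩ := hne
    have he1 := w.mem_Cc.1 he
    have he2 : e ∈ w.H t' A := by rw [h]; exact Finset.mem_union_right _ he
    rw [w.mem_H] at he2
    have htt : t' = t := he2.1.symm.trans he1.1
    subst htt
    refine ⟨A, hA, ?_⟩
    ext x
    rw [mem_trans]
    constructor
    · rintro ⟨h1, h2⟩
      have hx : x < 2 * rr t' := by omega
      have h3 : w.F t' x ∈ w.H t' A := by
        rw [w.mem_H, w.idx_F hx]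
        refine ⟨rfl, ?_⟩
        simp only [Two.F]
        exact decide_eq_decide.2 h2
      rw [h, Finset.mem_union] at h3
      rcases h3 with h3 | h3
      · obtain ⟨y, hy, hxy⟩ := Finset.mem_image.1 h3
        have hy' := hJ hy
        have := w.F_inj t' (by exact_mod_cast hy') (by simpa using hx) hxy
        rwa [← this]
      · exfalso
        have := (w.mem_Cc.1 h3).2.2
        rw [w.idx_F hx] at this
        omega
    · intro hx
      have hx' := Finset.mem_range.1 (hJ hx)
      have h3 : w.F t' x ∈ w.H t' A := by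
        rw [h]; exact Finset.mem_union_left _ (Finset.mem_image_of_mem _ hx)
      rw [w.mem_H, w.idx_F hx'] at h3
      simp only [Two.F] at h3
      refine ⟨by omega, decide_eq_decide.1 h3.2⟩
  · rintro ⟨A, hA, rfl⟩
    refine ⟨t, A, hA, ?_⟩
    ext e
    rw [w.mem_H, Finset.mem_union, Finset.mem_image]
    constructor
    · rintro ⟨h1, h2⟩
      by_cases h3 : w.idx e.1 < rr t
      · left
        refine ⟨2 * w.idx e.1 + if w.idx e.1 ∈ A then 1 else 0, ?_, ?_⟩
        · exact Finset.mem_image.2 ⟨_, Finset.mem_range.2 h3, rfl⟩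
        · obtain ⟨v, t', b⟩ := e
          simp only at h1 h2 h3 ⊢
          subst h1
          simp only [Two.F, Prod.mk.injEq, true_and]
          split_ifs with h4
          · have h5 : (2 * w.idx v + 1) / 2 = w.idx v := by omega
            rw [h5, w.vx_idx, h2]
            refine ⟨rfl, ?_⟩
            simp only [h4, decide_true, decide_eq_true_eq]
            omega
          · have h5 : (2 * w.idx v + 0) / 2 = w.idx v := by omega
            rw [h5, w.vx_idx, h2]
            refine ⟨rfl, ?_⟩
            simp only [h4, decide_false, decide_eq_false_iff_not]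
            omega
      · right
        rw [w.mem_Cc]
        refine ⟨h1, ?_, by omega⟩
        rw [h2, decide_eq_false_iff_not]
        intro h4
        exact h3 (pat_sub t A hA _ h4)
    · rintro (⟨x, hx, rfl⟩ | he)
      · rw [mem_trans] at hx
        have hx' : x < 2 * rr t := by omega
        rw [w.idx_F hx']
        refine ⟨rfl, ?_⟩
        simp only [Two.F]
        exact decide_eq_decide.2 hx.2
      · rw [w.mem_Cc] at he
        refine ⟨he.1, ?_⟩
        rw [he.2.1]
        symm
        rw [decide_eq_false_iff_not]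
        intro h4
        have := pat_sub t A hA _ h4
        omega

lemma Two.ind_iff {t : Bool} {J : Finset ℕ} (hJ : J ⊆ Finset.range (2 * rr t)) :
    w.data.Ind (J.image (w.F t) ∪ w.Cc t) ↔ (sp t).Ind J := by
  have hbig := w.big
  have hr5 := rr5 t
  have hr6 := rr6 t
  have hcard : (J.image (w.F t) ∪ w.Cc t).card = J.card + (Fintype.card V - rr t) := by
    rw [Finset.card_union_of_disjoint (w.disj_FC hJ), w.Cc_card, Finset.card_image_of_injOn]
    exact (w.F_inj t).mono (by exact_mod_cast hJ)
  have htype : ∀ e ∈ J.image (w.F t) ∪ w.Cc t, e.2.1 = t := by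
    intro e he
    rw [Finset.mem_union] at he
    rcases he with he | he
    · obtain ⟨x, _, rfl⟩ := Finset.mem_image.1 he
      rfl
    · exact (w.mem_Cc.1 he).1
  have hc := w.c_type htype
  rw [w.pos_card hJ] at hc
  have hll : (legs J).card ≤ rr t := by
    have := Finset.card_le_card (legs_range hJ)
    rwa [Finset.card_range] at this
  have hsub : J.image (w.F t) ∪ w.Cc t ⊆ w.E := by
    apply Finset.union_subset _ (w.Cc_sub t)
    intro e he
    obtain ⟨x, hx, rfl⟩ := Finset.mem_image.1 he
    exact w.F_mem_E (Finset.mem_range.1 (hJ hx))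
  have hlJ := legs_card_le J
  constructor
  · rintro ⟨_, h2, h3⟩
    change _ + c w.ends _ ≤ _ at h2
    change _ ∉ w.B at h3
    rw [w.mem_B_iff hJ] at h3
    rw [hcard] at h2
    refine ⟨hJ, ?_, ?_, h3⟩
    · omega
    · change J.card ≤ rr t
      omega
  · rintro ⟨_, h2, h3, h4⟩
    change J.card ≤ rr t at h3
    refine ⟨hsub, ?_, ?_⟩
    · change _ + c w.ends _ ≤ _
      rw [hcard]
      omega
    · change _ ∉ w.B
      rw [w.mem_B_iff hJ]
      exact h4

lemma Two.ind_Cc (t : Bool) : w.data.Ind (w.Cc t) := by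
  have h := w.ind_iff (t := t) (J := ∅) (by simp)
  rw [Finset.image_empty, Finset.empty_union] at h
  exact h.2 Spike.ind_empty

lemma Two.iso (t : Bool) :
    IsoF (w.data.M ／ (w.Cc t : Set (Ed V)) ＼ (w.Dc t : Set (Ed V))) (sp t).N (w.F t) where
  inj := w.F_inj t
  img := by
    rw [Matroid.delete_ground, Matroid.contract_ground, Data.M_E, Spike.N_E]
    ext e
    simp only [Set.mem_image, Finset.mem_coe, Set.mem_sdiff, Finset.mem_range]
    change (∃ x, x < 2 * rr t ∧ w.F t x = e) ↔ (e ∈ w.E ∧ e ∉ w.Cc t) ∧ e ∉ w.Dc t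
    rw [w.mem_Cc, w.mem_Dc]
    constructor
    · rintro ⟨x, hx, rfl⟩
      have h1 := w.F_mem_E hx
      have h2 := w.idx_F hx
      refine ⟨⟨h1, ?_⟩, ?_⟩
      · rintro ⟨_, _, h3⟩
        omega
      · rintro ⟨_, h3⟩
        exact h3 rfl
    · rintro ⟨⟨h1, h2⟩, h3⟩
      obtain ⟨v, t', b⟩ := e
      have ht : t' = t := by
        by_contra hne
        exact h3 ⟨h1, hne⟩
      subst ht
      rw [w.mem_E] at h1
      simp only [true_and] at h1 h2
      have h4 : w.idx v < rr t' := by
        rcases h1 with h1 | h1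
        · by_contra h5
          exact h2 ⟨h1, by omega⟩
        · exact h1
      refine ⟨2 * w.idx v + if b then 1 else 0, by split_ifs <;> omega, ?_⟩
      simp only [Two.F, Prod.mk.injEq, true_and]
      cases b
      · simp only [Bool.false_eq_true, if_false]
        have h5 : (2 * w.idx v + 0) / 2 = w.idx v := by omega
        rw [h5, w.vx_idx]
        refine ⟨rfl, ?_⟩
        rw [decide_eq_false_iff_not]
        omega
      · simp only [if_true]
        have h5 : (2 * w.idx v + 1) / 2 = w.idx v := by omega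
        rw [h5, w.vx_idx]
        refine ⟨rfl, ?_⟩
        rw [decide_eq_true_eq]
        omega
  ind := by
    intro J hJ
    have hfin : J.Finite := by
      rw [Spike.N_E] at hJ
      exact (Finset.finite_toSet _).subset hJ
    obtain ⟨J, rfl⟩ := hfin.exists_finset_coe
    have hJ' : J ⊆ Finset.range (2 * rr t) := by
      rw [Spike.N_E] at hJ; exact_mod_cast hJ
    rw [Spike.N_indep, ← w.ind_iff hJ', ← Data.M_indep, Matroid.delete_indep_iff,
      ((Data.M_indep _).2 (w.ind_Cc t)).contract_indep_iff, Finset.coe_union, Finset.coe_image]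
    have h1 : Disjoint (w.F t '' (J : Set ℕ)) (w.Cc t : Set (Ed V)) := by
      rw [← Finset.coe_image]
      exact_mod_cast w.disj_FC hJ'
    have h2 : Disjoint (w.F t '' (J : Set ℕ)) (w.Dc t : Set (Ed V)) := by
      rw [Set.disjoint_left]
      rintro e ⟨x, _, rfl⟩ he
      have : w.F t x ∈ w.Dc t := by exact_mod_cast he
      exact (w.mem_Dc.1 this).2 rfl
    tauto

/-! ### uniqueness -/

lemma Two.tights {t : Bool} {C D : Finset (Ed V)} {F : ℕ → Ed V}
    (h : SpMinor w.data (sp t) C D F) {A : Finset ℕ} (hA : A ∈ pat t) :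
    ∃ t', ∃ A' ∈ pat t', w.H t' A' = (trans (rr t) A).image F ∪ C := by
  obtain ⟨B0, hB0, hB0c, _⟩ := w.exists_B0 true
  have h1 : (trans (rr t) A).image F ∪ C ∈ w.B := by
    refine h.tight hB0 hB0c (trans (rr t) A) ?_ (trans_card _ _) ?_ ?_
    · intro x hx
      rw [mem_trans] at hx
      rw [Finset.mem_range]
      change x < 2 * rr t
      omega
    · intro x hx
      change x < 2 * rr t at hx
      rw [mem_trans, mem_trans, p_div, p_mod]
      by_cases h1 : x % 2 = 1 <;> by_cases h2 : x / 2 ∈ A
      · left; exact ⟨by omega, by simp [h1, h2]⟩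
      · right; exact ⟨by omega, by simp [h1, h2]⟩
      · right
        refine ⟨by omega, ?_⟩
        have : 1 - x % 2 = 1 := by omega
        simp [this, h2]
      · left; exact ⟨by omega, by simp [h1, h2]⟩
    · intro hI
      exact hI.2.2.2 (Finset.mem_image.2 ⟨A, hA, rfl⟩)
  exact w.mem_B.1 h1

lemma Two.C_nonempty {t : Bool} {C D : Finset (Ed V)} {F : ℕ → Ed V}
    (h : SpMinor w.data (sp t) C D F) : C.Nonempty := by
  have hbig := w.big
  have hr6 := rr6 t
  obtain ⟨t', A', hA', h1⟩ := w.tights h (A := ∅) (by cases t <;> decide)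
  have h2 := w.H_card t' A'
  rw [h1] at h2
  have h3 := Finset.card_union_le ((trans (rr t) ∅).image F) C
  have h4 : ((trans (rr t) ∅).image F).card ≤ rr t := by
    have := Finset.card_image_le (s := trans (rr t) ∅) (f := F)
    rwa [trans_card] at this
  rw [← Finset.card_pos]
  omega

/-- all the circuit-hyperplanes of the minor come from cycles of the same type -/
lemma Two.tights' {t : Bool} {C D : Finset (Ed V)} {F : ℕ → Ed V}
    (h : SpMinor w.data (sp t) C D F) :
    ∃ t', (∀ e ∈ C, e.2.1 = t') ∧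
      ∀ A ∈ pat t, ∃ A' ∈ pat t', w.H t' A' = (trans (rr t) A).image F ∪ C := by
  obtain ⟨x, hx⟩ := w.C_nonempty h
  refine ⟨x.2.1, ?_, ?_⟩
  · intro e he
    obtain ⟨t', A', hA', h1⟩ := w.tights h (A := ∅) (by cases t <;> decide)
    have h2 : x ∈ w.H t' A' := by rw [h1]; exact Finset.mem_union_right _ hx
    have h3 : e ∈ w.H t' A' := by rw [h1]; exact Finset.mem_union_right _ he
    rw [w.mem_H] at h2 h3
    exact h3.1.trans h2.1.symm
  · intro A hA
    obtain ⟨t', A', hA', h1⟩ := w.tights h hA
    have h2 : x ∈ w.H t' A' := by rw [h1]; exact Finset.mem_union_right _ hx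
    rw [w.mem_H] at h2
    rw [h2.1]
    exact ⟨A', hA', h1⟩

lemma SpMinor.disjFC {t : Bool} {C D : Finset (Ed V)} {F : ℕ → Ed V}
    (h : SpMinor w.data (sp t) C D F) {x : ℕ} (hx : x < 2 * rr t) : F x ∉ C ∧ F x ∉ D := by
  have := (h.memR (e := F x)).1 ⟨x, hx, rfl⟩
  exact this.2

lemma Two.D_avoid {t : Bool} {C D : Finset (Ed V)} {F : ℕ → Ed V}
    (h : SpMinor w.data (sp t) C D F) {A : Finset ℕ} {e : Ed V} (he : e ∈ D)
    (he' : e ∈ (trans (rr t) A).image F ∪ C) : False := by
  rw [Finset.mem_union] at he'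
  rcases he' with he' | he'
  · obtain ⟨x, hx, rfl⟩ := Finset.mem_image.1 he'
    rw [mem_trans] at hx
    exact (SpMinor.disjFC w h (by omega)).2 he
  · exact Set.disjoint_left.1 h.hCD (by exact_mod_cast he') (by exact_mod_cast he)

lemma Two.trans_inj {t : Bool} {C D : Finset (Ed V)} {F : ℕ → Ed V}
    (h : SpMinor w.data (sp t) C D F) {A A' : Finset ℕ} (hA : A ∈ pat t) (hA' : A' ∈ pat t)
    (heq : (trans (rr t) A).image F ∪ C = (trans (rr t) A').image F ∪ C) : A = A' := by
  by_contra hne
  obtain ⟨h3, _⟩ := pat_diff t A hA A' hA' hne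
  obtain ⟨k, hk⟩ := Finset.card_pos.1 (Nat.pos_of_ne_zero h3)
  rw [Finset.mem_filter, Finset.mem_range] at hk
  obtain ⟨hk1, hk2⟩ := hk
  have hlt : 2 * k + (if k ∈ A then 1 else 0) < 2 * rr t := by split_ifs <;> omega
  have h4 : F (2 * k + (if k ∈ A then 1 else 0)) ∈ (trans (rr t) A).image F ∪ C := by
    rw [Finset.mem_union]
    left
    exact Finset.mem_image_of_mem _ (Finset.mem_image.2 ⟨k, Finset.mem_range.2 hk1, rfl⟩)
  rw [heq, Finset.mem_union] at h4
  rcases h4 with h4 | h4
  · obtain ⟨y, hy, hxy⟩ := Finset.mem_image.1 h4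
    have hy' := hy
    rw [mem_trans] at hy
    have hy2 : y < 2 * rr t := by omega
    have heq2 := h.iso.inj (by rw [Spike.N_E]; exact_mod_cast Finset.mem_range.2 hy2)
      (by rw [Spike.N_E]; exact_mod_cast Finset.mem_range.2 hlt) hxy
    rw [heq2] at hy
    apply hk2
    split_ifs at hy with h5
    · have h6 : (2 * k + 1) / 2 = k := by omega
      rw [h6] at hy
      exact ⟨fun _ => hy.2.1 (by omega), fun _ => h5⟩
    · have h6 : (2 * k + 0) / 2 = k := by omega
      rw [h6] at hy
      refine ⟨fun h' => absurd h' h5, fun h' => ?_⟩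
      have := hy.2.2 h'
      omega
  · exact (SpMinor.disjFC w h hlt).1 h4

/-- the type of the tights is the right one -/
lemma Two.type_eq {t : Bool} {C D : Finset (Ed V)} {F : ℕ → Ed V}
    (h : SpMinor w.data (sp t) C D F) :
    (∀ e ∈ C, e.2.1 = t) ∧
      ∀ A ∈ pat t, ∃ A' ∈ pat t, w.H t A' = (trans (rr t) A).image F ∪ C := by
  obtain ⟨t', h1, h2⟩ := w.tights' h
  suffices htt : t' = t by subst htt; exact ⟨h1, h2⟩
  by_contra hne
  cases t
  · -- three cycles of type `true`
    have ht' : t' = true := by cases t' <;> simp_all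
    subst ht'
    obtain ⟨a1, ha1, e1⟩ := h2 ∅ (by decide)
    obtain ⟨a2, ha2, e2⟩ := h2 {0, 1, 2, 3, 4} (by decide)
    obtain ⟨a3, ha3, e3⟩ := h2 {0, 1} (by decide)
    have n12 : a1 ≠ a2 := by
      rintro rfl
      exact absurd (w.trans_inj h (by decide) (by decide) (e1.symm.trans e2)) (by decide)
    have n13 : a1 ≠ a3 := by
      rintro rfl
      exact absurd (w.trans_inj h (by decide) (by decide) (e1.symm.trans e3)) (by decide)
    have n23 : a2 ≠ a3 := by
      rintro rfl
      exact absurd (w.trans_inj h (by decide) (by decide) (e2.symm.trans e3)) (by decide)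
    simp only [pat, if_true, Finset.mem_insert, Finset.mem_singleton] at ha1 ha2 ha3
    rcases ha1 with rfl | rfl <;> rcases ha2 with rfl | rfl <;> rcases ha3 with rfl | rfl <;>
      simp_all
  · -- two cycles of type `false` at distance six
    have ht' : t' = false := by cases t' <;> simp_all
    subst ht'
    obtain ⟨a1, ha1, e1⟩ := h2 ∅ (by decide)
    obtain ⟨a2, ha2, e2⟩ := h2 {0, 1, 2, 3, 4, 5} (by decide)
    -- the six elements `F (2k)` lie in the first but not in the second
    have hk : ∀ k < 6, F (2 * k) ∈ w.H false a1 ∧ F (2 * k) ∉ w.H false a2 := by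
      intro k hk
      have hlt : 2 * k < 2 * rr true := by simp only [rr, if_true]; omega
      constructor
      · rw [e1, Finset.mem_union]
        left
        apply Finset.mem_image_of_mem
        rw [mem_trans]
        refine ⟨by simp only [rr, if_true]; omega, ?_⟩
        simp
      · rw [e2, Finset.mem_union]
        rintro (h3 | h3)
        · obtain ⟨y, hy, hxy⟩ := Finset.mem_image.1 h3
          rw [mem_trans] at hy
          have hy2 : y < 2 * rr true := by omega
          have heq2 := h.iso.inj (by rw [Spike.N_E]; exact_mod_cast Finset.mem_range.2 hy2)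
            (by rw [Spike.N_E]; exact_mod_cast Finset.mem_range.2 hlt) hxy
          rw [heq2] at hy
          have h6 : (2 * k) / 2 = k := by omega
          rw [h6] at hy
          have h7 : k ∈ ({0, 1, 2, 3, 4, 5} : Finset ℕ) := by
            interval_cases k <;> decide
          have := hy.2.2 h7
          omega
        · exact (SpMinor.disjFC w h hlt).1 h3
    have hmem : ∀ k < 6, w.idx (F (2 * k)).1 < 5 := by
      intro k hk'
      obtain ⟨h3, h4⟩ := hk k hk'
      rw [w.mem_H] at h3 h4
      by_contra hge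
      apply h4
      refine ⟨h3.1, ?_⟩
      rw [h3.2, decide_eq_decide]
      constructor
      · intro h5; exact absurd (pat_sub false a1 ha1 _ h5) (by simpa [rr] using hge)
      · intro h5; exact absurd (pat_sub false a2 ha2 _ h5) (by simpa [rr] using hge)
    have hinj : Set.InjOn (fun k => w.idx (F (2 * k)).1) (Finset.range 6 : Set ℕ) := by
      intro a ha b hb hab
      have ha' : a < 6 := by simpa using ha
      have hb' : b < 6 := by simpa using hb
      simp only at hab
      have h5 : (F (2 * a)).1 = (F (2 * b)).1 := by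
        rw [← w.vx_idx (F (2 * a)).1, hab, w.vx_idx]
      have h6 := (hk a ha').1
      have h7 := (hk b hb').1
      rw [w.mem_H] at h6 h7
      have h8 : F (2 * a) = F (2 * b) := by
        apply Prod.ext h5
        apply Prod.ext
        · rw [h6.1, h7.1]
        · rw [h6.2, h7.2, h5]
      have := h.iso.inj
        (by rw [Spike.N_E]; exact_mod_cast Finset.mem_range.2
              (show 2 * a < 2 * rr true by simp only [rr, if_true]; omega))
        (by rw [Spike.N_E]; exact_mod_cast Finset.mem_range.2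
              (show 2 * b < 2 * rr true by simp only [rr, if_true]; omega)) h8
      omega
    have h9 := Finset.card_le_card_of_injOn (s := Finset.range 6) (t := Finset.range 5) _
      (fun k hk' => by
        have := hmem k (by simpa using hk')
        simpa using this) hinj
    simp at h9

lemma pat_surj_false : ∀ a1 ∈ pat false, ∀ a2 ∈ pat false, ∀ a3 ∈ pat false,
    a1 ≠ a2 → a1 ≠ a3 → a2 ≠ a3 → ∀ a ∈ pat false, a = a1 ∨ a = a2 ∨ a = a3 := by decide

lemma pat_surj_true : ∀ a1 ∈ pat true, ∀ a2 ∈ pat true,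
    a1 ≠ a2 → ∀ a ∈ pat true, a = a1 ∨ a = a2 := by decide

/-- every cycle of type `t` in `B` is a tight of the minor -/
lemma Two.all_tight {t : Bool} {C D : Finset (Ed V)} {F : ℕ → Ed V}
    (h : SpMinor w.data (sp t) C D F) :
    ∀ a ∈ pat t, ∃ A, w.H t a = (trans (rr t) A).image F ∪ C := by
  obtain ⟨_, h2⟩ := w.type_eq h
  intro a ha
  cases t
  · obtain ⟨a1, ha1, e1⟩ := h2 ∅ (by decide)
    obtain ⟨a2, ha2, e2⟩ := h2 {0, 1, 2, 3, 4} (by decide)
    obtain ⟨a3, ha3, e3⟩ := h2 {0, 1} (by decide)
    have n12 : a1 ≠ a2 := by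
      rintro rfl
      exact absurd (w.trans_inj h (by decide) (by decide) (e1.symm.trans e2)) (by decide)
    have n13 : a1 ≠ a3 := by
      rintro rfl
      exact absurd (w.trans_inj h (by decide) (by decide) (e1.symm.trans e3)) (by decide)
    have n23 : a2 ≠ a3 := by
      rintro rfl
      exact absurd (w.trans_inj h (by decide) (by decide) (e2.symm.trans e3)) (by decide)
    rcases pat_surj_false a1 ha1 a2 ha2 a3 ha3 n12 n13 n23 a ha with rfl | rfl | rfl
    · exact ⟨_, e1⟩
    · exact ⟨_, e2⟩
    · exact ⟨_, e3⟩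
  · obtain ⟨a1, ha1, e1⟩ := h2 ∅ (by decide)
    obtain ⟨a2, ha2, e2⟩ := h2 {0, 1, 2, 3, 4, 5} (by decide)
    have n12 : a1 ≠ a2 := by
      rintro rfl
      exact absurd (w.trans_inj h (by decide) (by decide) (e1.symm.trans e2)) (by decide)
    rcases pat_surj_true a1 ha1 a2 ha2 n12 a ha with rfl | rfl
    · exact ⟨_, e1⟩
    · exact ⟨_, e2⟩

lemma Two.D_type {t : Bool} {C D : Finset (Ed V)} {F : ℕ → Ed V}
    (h : SpMinor w.data (sp t) C D F) : ∀ e ∈ D, e ∈ w.E → e.2.1 ≠ t := by
  intro e he heE ht
  have hall := w.all_tight h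
  rw [w.mem_E] at heE
  obtain ⟨v, t', b⟩ := e
  simp only at ht heE
  subst ht
  cases b
  · obtain ⟨A, hA⟩ := hall ∅ (by cases t' <;> decide)
    refine w.D_avoid h he (A := A) ?_
    rw [← hA, w.mem_H]
    simp
  · have hlt : w.idx v < rr t' := by simpa using heE
    cases t'
    · obtain ⟨A, hA⟩ := hall {0, 1, 2, 3, 4} (by decide)
      refine w.D_avoid h he (A := A) ?_
      rw [← hA, w.mem_H]
      have : w.idx v < 5 := hlt
      simp only [true_and]
      symm
      rw [decide_eq_true_eq]
      simp only [Finset.mem_insert, Finset.mem_singleton]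
      omega
    · obtain ⟨A, hA⟩ := hall {0, 1, 2, 3, 4, 5} (by decide)
      refine w.D_avoid h he (A := A) ?_
      rw [← hA, w.mem_H]
      have : w.idx v < 6 := hlt
      simp only [true_and]
      symm
      rw [decide_eq_true_eq]
      simp only [Finset.mem_insert, Finset.mem_singleton]
      omega

end Pool.Agent.Helper636.Bw
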