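import Pool.Agent.Helper636.SpkFin

set_option autoImplicit false

namespace Pool.Agent.Helper636.Spk

open Set
open scoped Matroid

lemma combine {N : Matroid ℕ} {C0 D0 C' D' : Set ℕ} (hC0 : C0 ⊆ N.E) (hD0 : D0 ⊆ N.E)
    (hCD0 : Disjoint C0 D0) (hC' : C' ⊆ (N ／ C0 ＼ D0).E) (hD' : D' ⊆ (N ／ C0 ＼ D0).E)
    (hCD' : Disjoint C' D') :
    (C0 ∪ C' ⊆ N.E) ∧ (D0 ∪ D' ⊆ N.E) ∧ Disjoint (C0 ∪ C') (D0 ∪ D') ∧
      N ／ C0 ＼ D0 ／ C' ＼ D' = N ／ (C0 ∪ C') ＼ (D0 ∪ D') := by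
  rw [Matroid.delete_ground, Matroid.contract_ground] at hC' hD'
  refine ⟨Set.union_subset hC0 fun t ht => (hC' ht).1.1,
    Set.union_subset hD0 fun t ht => (hD' ht).1.1, ?_, ?_⟩
  · rw [Set.disjoint_left] at hCD0 hCD' ⊢
    rintro t (ht | ht) (ht' | ht')
    · exact hCD0 ht ht'
    · exact (hD' ht').1.2 ht
    · exact (hC' ht).2 ht'
    · exact hCD' ht ht'
  · refine Matroid.contract_delete_contract_delete _ _ _ _ _ ?_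
    rw [Set.disjoint_left]
    intro t ht ht'
    exact (hC' ht).2 ht'

theorem minimal {r : ℕ} (hr5 : 5 ≤ r) {hr : 1 ≤ r} {h51 : 1 ≤ 5} (N' : Matroid ℕ)
    (hN' : Matroid.IsMinor N' (Sp r 0 hr)) (hne : N' ≠ Sp r 0 hr) :
    ¬ ((∃ N₁ : Matroid ℕ, Matroid.IsMinor N₁ N' ∧
        ∃ f : ℕ → ℕ, Set.BijOn f N₁.E (Sp 5 1 h51).E ∧
          ∀ I ⊆ N₁.E, (N₁.Indep I ↔ (Sp 5 1 h51).Indep (f '' I))) ∧
      (∃ N₂ : Matroid ℕ, Matroid.IsMinor N₂ N' ∧ N₂.E.Finite ∧ N₂.E.ncard = 6 ∧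
        ∀ I ⊆ N₂.E, (N₂.Indep I ↔ I.ncard ≤ 3))) := by
  rintro ⟨⟨N₁, hN₁, f, hf, hI⟩, N₂, hN₂, hfin, hcard, hU⟩
  obtain ⟨C0, D0, hC0, hD0, hCD0, rfl⟩ := hN'.exists_eq_contract_delete_disjoint
  obtain ⟨C1, D1, hC1, hD1, hCD1, rfl⟩ := hN₁.exists_eq_contract_delete_disjoint
  obtain ⟨C2, D2, hC2, hD2, hCD2, rfl⟩ := hN₂.exists_eq_contract_delete_disjoint
  obtain ⟨a1, a2, a3, a4⟩ := combine hC0 hD0 hCD0 hC1 hD1 hCD1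
  obtain ⟨b1, b2, b3, b4⟩ := combine hC0 hD0 hCD0 hC2 hD2 hCD2
  rw [a4] at hf hI
  rw [b4] at hfin hcard hU
  obtain ⟨m1, m2⟩ := m_minor hr5 a1 a2 a3 f hf hI
  obtain ⟨u1, u2⟩ := unif_minor hr5 b1 b2 b3 hfin hcard hU
  apply hne
  have hC0e : C0 = ∅ := by
    rw [Set.eq_empty_iff_forall_notMem]
    intro e he
    have h2 := m1 e (Or.inl he)
    have h3 := u1 e (Or.inl he)
    omega
  have hD0e : D0 = ∅ := by
    rw [Set.eq_empty_iff_forall_notMem]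
    intro e he
    have h2 := m2 e (Or.inl he)
    have h3 := u2 e (Or.inl he)
    omega
  rw [hC0e, hD0e, Matroid.contract_empty, Matroid.delete_empty]

end Pool.Agent.Helper636.Spk
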