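import Pool.Agent.Helper636.BwMin
import Pool.Agent.Helper636.SpkEnd

set_option autoImplicit false
set_option linter.unusedSectionVars false

namespace Pool.Agent.Helper636.Bw

open scoped Matroid
open Pool.Agent.Helper636.Spk

/-- the isomorphism predicate of the frozen statement -/
def EqIso {α β : Type} (N : Matroid α) (N₁ : Matroid β) : Prop :=
  ∃ e : ↥N.E ≃ ↥N₁.E, ∀ I : Set ↥N.E,
    N.Indep (Subtype.val '' I) ↔ N₁.Indep (Subtype.val '' (e '' I))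

lemma isoF_of_eqIso {α : Type} {N : Matroid α} {N₁ : Matroid ℕ} (hne : N₁.E.Nonempty)
    (h : EqIso N N₁) : ∃ F : ℕ → α, IsoF N N₁ F := by
  classical
  obtain ⟨e, he⟩ := h
  obtain ⟨x0, hx0⟩ := hne
  let F : ℕ → α := fun x => if hx : x ∈ N₁.E then (e.symm ⟨x, hx⟩).1 else (e.symm ⟨x0, hx0⟩).1
  have hF : ∀ x (hx : x ∈ N₁.E), F x = (e.symm ⟨x, hx⟩).1 := by
    intro x hx
    simp only [F]
    rw [dif_pos hx]
  refine ⟨F, ?_, ?_, ?_⟩
  · intro x hx y hy hxy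
    rw [hF x hx, hF y hy] at hxy
    have := e.symm.injective (Subtype.ext hxy)
    exact congrArg Subtype.val this
  · ext t
    constructor
    · rintro ⟨x, hx, rfl⟩
      rw [hF x hx]
      exact (e.symm ⟨x, hx⟩).2
    · intro ht
      refine ⟨(e ⟨t, ht⟩).1, (e ⟨t, ht⟩).2, ?_⟩
      rw [hF _ (e ⟨t, ht⟩).2]
      simp
  · intro J hJ
    have h1 : F '' J = Subtype.val '' (e.symm '' {y : ↥N₁.E | y.1 ∈ J}) := by
      ext t
      constructor
      · rintro ⟨x, hx, rfl⟩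
        rw [hF x (hJ hx)]
        exact ⟨_, ⟨⟨x, hJ hx⟩, hx, rfl⟩, rfl⟩
      · rintro ⟨_, ⟨⟨x, hx'⟩, hx, rfl⟩, rfl⟩
        exact ⟨x, hx, hF x hx'⟩
    rw [h1, he]
    have h2 : Subtype.val '' (e '' (e.symm '' {y : ↥N₁.E | y.1 ∈ J})) = J := by
      ext t
      constructor
      · rintro ⟨_, ⟨_, ⟨y, hy, rfl⟩, rfl⟩, rfl⟩
        simpa using hy
      · intro ht
        exact ⟨⟨t, hJ ht⟩, ⟨e.symm ⟨t, hJ ht⟩, ⟨⟨t, hJ ht⟩, ht, rfl⟩, by simp⟩, rfl⟩
    rw [h2]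

lemma eqIso_of_isoF {α : Type} {N : Matroid α} {N₁ : Matroid ℕ} {F : ℕ → α}
    (h : IsoF N N₁ F) : EqIso N N₁ := by
  have hbij : Set.BijOn F N₁.E N.E := ⟨fun x hx => by rw [← h.img]; exact ⟨x, hx, rfl⟩, h.inj, by
    rw [Set.SurjOn, h.img]⟩
  let e : ↥N₁.E ≃ ↥N.E := hbij.equiv F
  refine ⟨e.symm, ?_⟩
  intro I
  set J : Set ℕ := Subtype.val '' (e.symm '' I) with hJ
  have hJE : J ⊆ N₁.E := by
    rintro _ ⟨y, _, rfl⟩; exact y.2
  rw [← h.ind J hJE]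
  have : F '' J = Subtype.val '' I := by
    ext t
    constructor
    · rintro ⟨_, ⟨_, ⟨z, hz, rfl⟩, rfl⟩, rfl⟩
      refine ⟨z, hz, ?_⟩
      have h1 : (e (e.symm z)).1 = F (e.symm z).1 := rfl
      rw [← h1]; simp
    · rintro ⟨z, hz, rfl⟩
      refine ⟨(e.symm z).1, ⟨e.symm z, ⟨z, hz, rfl⟩, rfl⟩, ?_⟩
      have h1 : (e (e.symm z)).1 = F (e.symm z).1 := rfl
      rw [← h1]; simp
  rw [this]

variable {V : Type} [Fintype V] [Nonempty V] [DecidableEq V] (w : Two V)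

lemma sp_nonempty (t : Bool) : (sp t).N.E.Nonempty := by
  rw [Spike.N_E]
  refine ⟨0, ?_⟩
  have := (sp t).hr
  rw [Finset.mem_coe, Finset.mem_range]
  omega

lemma Two.has_minor (t : Bool) :
    ∃ N : Matroid (Ed V), N.IsMinor w.data.M ∧ EqIso N (sp t).N :=
  ⟨_, Matroid.contract_delete_isMinor _ _ _, eqIso_of_isoF (w.iso t)⟩

/-- an arbitrary minor isomorphic to the spike determines the types -/
lemma Two.types {t : Bool} {C D : Set (Ed V)} (hC : C ⊆ w.data.M.E) (hD : D ⊆ w.data.M.E)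
    (hCD : Disjoint C D) (h : EqIso (w.data.M ／ C ＼ D) (sp t).N) :
    (∀ e ∈ C, e.2.1 = t) ∧ (∀ e ∈ D, e.2.1 ≠ t) := by
  obtain ⟨F, hF⟩ := isoF_of_eqIso (sp_nonempty t) h
  have hnl : ∀ e ∈ w.data.M.E, w.data.M.Indep {e} := by
    intro e he
    have : ({e} : Set (Ed V)) = (({e} : Finset (Ed V)) : Set (Ed V)) := by simp
    rw [this, Data.M_indep]
    refine ⟨?_, ?_, ?_⟩
    · rw [Finset.singleton_subset_iff]
      rw [Data.M_E] at he
      exact_mod_cast he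
    · have := c_le_card w.data.ends ((({e} : Finset (Ed V)) : Set (Ed V)))
      simp only [Finset.card_singleton]
      omega
    · intro hB
      have h1 := w.data.hcard _ hB
      have := w.big
      rw [Finset.card_singleton] at h1
      omega
  have hncl : ∀ e ∈ w.data.M.E, w.data.M.Coindep {e} := by
    intro e he
    obtain ⟨B0, hB0, hB0c, hB0t⟩ := w.exists_B0 (!e.2.1)
    rw [Matroid.coindep_def, Matroid.dual_indep_iff_exists (by simpa using he)]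
    refine ⟨B0, w.data.base_of_card hB0 hB0c, ?_⟩
    rw [Set.disjoint_singleton_left]
    intro h1
    have h2 := hB0t e (by exact_mod_cast h1)
    cases h3 : e.2.1 <;> rw [h3] at h2 <;> exact absurd h2 (by decide)
  have key : ∀ C' D' : Set (Ed V), w.data.M.Indep C' → w.data.M.Coindep D' → Disjoint C' D' →
      C' ⊆ w.data.M.E → D' ⊆ w.data.M.E → w.data.M ／ C ＼ D = w.data.M ／ C' ＼ D' →
      (∀ e ∈ C', e.2.1 = t) ∧ (∀ e ∈ D', e.2.1 ≠ t) := by
    intro C' D' h1 h2 h3 h4 h5 h6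
    rw [h6] at hF
    have hfC : C'.Finite := Set.toFinite _
    have hfD : D'.Finite := Set.toFinite _
    obtain ⟨C', rfl⟩ := hfC.exists_finset_coe
    obtain ⟨D', rfl⟩ := hfD.exists_finset_coe
    have hsp : SpMinor w.data (sp t) C' D' F := ⟨h1, h2, h3, hF⟩
    refine ⟨fun e he => (w.type_eq hsp).1 e (by exact_mod_cast he), fun e he => ?_⟩
    have he' : e ∈ D' := by exact_mod_cast he
    have h7 : e ∈ w.data.M.E := h5 he
    rw [Data.M_E] at h7
    exact w.D_type hsp e he' (by exact_mod_cast h7)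
  constructor
  · intro e he
    obtain ⟨C', D', h0, h1, h2, h3, h4, h5, h6⟩ := nf_contract hC hD hCD he (hnl e (hC he))
    exact (key C' D' h1 h2 h3 h4 h5 h6).1 e h0
  · intro e he
    obtain ⟨C', D', h0, h1, h2, h3, h4, h5, h6⟩ := nf_delete hC hD hCD he (hncl e (hD he))
    exact (key C' D' h1 h2 h3 h4 h5 h6).2 e h0

lemma combine' {α : Type} {N : Matroid α} {C0 D0 C' D' : Set α} (hC0 : C0 ⊆ N.E) (hD0 : D0 ⊆ N.E)
    (hCD0 : Disjoint C0 D0) (hC' : C' ⊆ (N ／ C0 ＼ D0).E) (hD' : D' ⊆ (N ／ C0 ＼ D0).E)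
    (hCD' : Disjoint C' D') :
    (C0 ∪ C' ⊆ N.E) ∧ (D0 ∪ D' ⊆ N.E) ∧ Disjoint (C0 ∪ C') (D0 ∪ D') ∧
      N ／ C0 ＼ D0 ／ C' ＼ D' = N ／ (C0 ∪ C') ＼ (D0 ∪ D') := by
  rw [Matroid.delete_ground, Matroid.contract_ground] at hC' hD'
  refine ⟨Set.union_subset hC0 fun t ht => (hC' ht).1.1,
    Set.union_subset hD0 fun t ht => (hD' ht).1.1, ?_, ?_⟩
  · rw [Set.disjoint_left] at hCD0 hCD' ⊢
    rintro t (ht | ht) (ht' | ht')
    · exact hCD0 ht ht'
    · exact (hD' ht').1.2 ht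
    · exact (hC' ht).2 ht'
    · exact hCD' ht ht'
  · refine Matroid.contract_delete_contract_delete _ _ _ _ _ ?_
    rw [Set.disjoint_left]
    intro t ht ht'
    exact (hC' ht).2 ht'

theorem Two.minimal (N' : Matroid (Ed V)) (hN' : N'.IsMinor w.data.M) (hne : N' ≠ w.data.M) :
    ¬ ((∃ N : Matroid (Ed V), N.IsMinor N' ∧ EqIso N (sp false).N) ∧
       (∃ N : Matroid (Ed V), N.IsMinor N' ∧ EqIso N (sp true).N)) := by
  rintro ⟨⟨N₁, hN₁, hI⟩, N₂, hN₂, hU⟩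
  obtain ⟨C0, D0, hC0, hD0, hCD0, rfl⟩ := hN'.exists_eq_contract_delete_disjoint
  obtain ⟨C1, D1, hC1, hD1, hCD1, rfl⟩ := hN₁.exists_eq_contract_delete_disjoint
  obtain ⟨C2, D2, hC2, hD2, hCD2, rfl⟩ := hN₂.exists_eq_contract_delete_disjoint
  obtain ⟨a1, a2, a3, a4⟩ := combine' hC0 hD0 hCD0 hC1 hD1 hCD1
  obtain ⟨b1, b2, b3, b4⟩ := combine' hC0 hD0 hCD0 hC2 hD2 hCD2
  rw [a4] at hI
  rw [b4] at hU
  obtain ⟨m1, m2⟩ := w.types a1 a2 a3 hI
  obtain ⟨u1, u2⟩ := w.types b1 b2 b3 hU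
  apply hne
  have hC0e : C0 = ∅ := by
    rw [Set.eq_empty_iff_forall_notMem]
    intro e he
    have h2 := m1 e (Or.inl he)
    have h3 := u1 e (Or.inl he)
    rw [h2] at h3
    exact absurd h3 (by decide)
  have hD0e : D0 = ∅ := by
    rw [Set.eq_empty_iff_forall_notMem]
    intro e he
    have h2 := m2 e (Or.inl he)
    have h3 := u2 e (Or.inl he)
    cases h4 : e.2.1
    · exact h2 h4
    · exact h3 h4
  rw [hC0e, hD0e, Matroid.contract_empty, Matroid.delete_empty]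

end Pool.Agent.Helper636.Bw
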