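import Mathlib

set_option autoImplicit false

namespace Pool.Agent.Helper636.Bw

open Set
open scoped Matroid

variable {α : Type*}

/-- normal form of a minor, keeping a prescribed basis of the contracted set -/
lemma nf {M : Matroid α} {C D I : Set α} (hD : D ⊆ M.E) (hCD : Disjoint C D)
    (hI : M.IsBasis I C) :
    ∃ C' D' : Set α, I ⊆ C' ∧ M.Indep C' ∧ M.Coindep D' ∧ Disjoint C' D' ∧
      C' ⊆ M.E ∧ D' ⊆ M.E ∧ M ／ C ＼ D = M ／ C' ＼ D' := by
  set D1 : Set α := (C \ I) ∪ D with hD1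
  have e1 : M ／ C ＼ D = M ／ I ＼ D1 := by
    rw [hI.contract_eq_contract_delete, Matroid.delete_delete]
  have hD1I : Disjoint D1 I := by
    rw [hD1, disjoint_union_left]
    exact ⟨disjoint_sdiff_left, (hCD.mono_left hI.subset).symm⟩
  have hD1E : D1 ⊆ M.E := union_subset (sdiff_subset.trans hI.subset_ground) hD
  set K := M ／ I with hK
  have hD1K : D1 ⊆ K✶.E := by
    rw [Matroid.dual_ground, hK, Matroid.contract_ground, subset_sdiff]
    exact ⟨hD1E, hD1I⟩
  obtain ⟨J, hJ⟩ := K✶.exists_isBasis D1 hD1K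
  have hJE : J ⊆ D1 := hJ.subset
  have e2 : K ＼ D1 = K ／ (D1 \ J) ＼ J := by
    rw [← Matroid.dual_contract_dual, hJ.contract_eq_contract_delete, Matroid.dual_contract_delete,
      Matroid.dual_dual, Matroid.contract_delete_comm _ disjoint_sdiff_left]
  have h3 : (K ＼ J).Indep (D1 \ J) := by
    have h4 : D1 \ J ⊆ (K✶ ／ J).loops := hJ.sdiff_subset_loops_contract
    rw [← Matroid.dual_delete] at h4
    have h5 : D1 \ J ⊆ (K ＼ J).coloops := h4
    exact (Matroid.union_indep_iff_indep_of_subset_coloops (I := ∅) h5).2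
      (Matroid.empty_indep _) |>.subset (by simp)
  have h4 : M.Indep (I ∪ (D1 \ J)) := by
    rw [hI.indep.union_indep_iff_contract_indep]
    exact (h3.of_delete).subset sdiff_subset
  refine ⟨I ∪ (D1 \ J), J, subset_union_left, h4, ?_, ?_, h4.subset_ground,
    hJE.trans hD1E, ?_⟩
  · exact (Matroid.coindep_contract_iff.1 hJ.indep).1
  · rw [disjoint_union_left]
    exact ⟨(hD1I.mono_left hJE).symm, disjoint_sdiff_left⟩
  · rw [e1, e2, hK, Matroid.contract_contract]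

/-- a nonloop which is contracted stays contracted in some normal form -/
lemma nf_contract {M : Matroid α} {C D : Set α} (hC : C ⊆ M.E) (hD : D ⊆ M.E)
    (hCD : Disjoint C D) {e : α} (he : e ∈ C) (hnl : M.Indep {e}) :
    ∃ C' D' : Set α, e ∈ C' ∧ M.Indep C' ∧ M.Coindep D' ∧ Disjoint C' D' ∧
      C' ⊆ M.E ∧ D' ⊆ M.E ∧ M ／ C ＼ D = M ／ C' ＼ D' := by
  obtain ⟨I, hI, heI⟩ := hnl.subset_isBasis_of_subset (show {e} ⊆ C by simpa using he) hC
  obtain ⟨C', D', h1, h2⟩ := nf hD hCD hI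
  exact ⟨C', D', h1 (heI rfl), h2⟩

/-- a non-coloop which is deleted stays deleted in some normal form -/
lemma nf_delete {M : Matroid α} {C D : Set α} (hC : C ⊆ M.E) (hD : D ⊆ M.E)
    (hCD : Disjoint C D) {e : α} (he : e ∈ D) (hnl : M.Coindep {e}) :
    ∃ C' D' : Set α, e ∈ D' ∧ M.Indep C' ∧ M.Coindep D' ∧ Disjoint C' D' ∧
      C' ⊆ M.E ∧ D' ⊆ M.E ∧ M ／ C ＼ D = M ／ C' ＼ D' := by
  obtain ⟨D', C', h1, h2, h3, h4, h5, h6, h7⟩ := nf_contract (M := M✶) (C := D) (D := C) hD hC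
    hCD.symm he hnl
  refine ⟨C', D', h1, ?_, h2, h4.symm, h6, h5, ?_⟩
  · rw [Matroid.coindep_def, Matroid.dual_dual] at h3
    exact h3
  · have e1 : (M ／ C ＼ D)✶ = (M ／ C' ＼ D')✶ := by
      rw [Matroid.dual_contract_delete, Matroid.dual_contract_delete,
        ← Matroid.contract_delete_comm _ hCD.symm, h7, Matroid.contract_delete_comm _ h4]
    exact Matroid.dual_inj.1 e1

lemma nf_basic {M : Matroid α} {C D : Set α} (hC : C ⊆ M.E) (hD : D ⊆ M.E)
    (hCD : Disjoint C D) :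
    ∃ C' D' : Set α, M.Indep C' ∧ M.Coindep D' ∧ Disjoint C' D' ∧
      C' ⊆ M.E ∧ D' ⊆ M.E ∧ M ／ C ＼ D = M ／ C' ＼ D' := by
  obtain ⟨I, hI⟩ := M.exists_isBasis C hC
  obtain ⟨C', D', _, h2⟩ := nf hD hCD hI
  exact ⟨C', D', h2⟩

/-- bases of a minor in normal form -/
lemma nf_isBase {M : Matroid α} {C D : Set α} (hC : M.Indep C) (hD : M.Coindep D)
    (hCD : Disjoint C D) {B : Set α} :
    (M ／ C ＼ D).IsBase B ↔ M.IsBase (B ∪ C) ∧ Disjoint B C ∧ Disjoint B D := by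
  rw [Matroid.Coindep.delete_isBase_iff (Matroid.coindep_contract_iff.2 ⟨hD, hCD.symm⟩),
    hC.contract_isBase_iff]
  tauto

end Pool.Agent.Helper636.Bw
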