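import Mathlib

set_option autoImplicit false

namespace Pool.Agent.Helper636.Bw

open Module

section
variable {V α : Type} (ends : α → V × V)

/-- the functions on the vertices that are constant along the edges in `X` -/
def Z (X : Set α) : Submodule ℚ (V → ℚ) where
  carrier := {f | ∀ e ∈ X, f (ends e).1 = f (ends e).2}
  add_mem' := by
    intro a b ha hb e he
    simp only [Pi.add_apply]
    rw [ha e he, hb e he]
  zero_mem' := by intro e _; rfl
  smul_mem' := by
    intro c x hx e he
    simp only [Pi.smul_apply]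
    rw [hx e he]

lemma mem_Z {X : Set α} {f : V → ℚ} : f ∈ Z ends X ↔ ∀ e ∈ X, f (ends e).1 = f (ends e).2 :=
  Iff.rfl

lemma Z_anti {X Y : Set α} (h : X ⊆ Y) : Z ends Y ≤ Z ends X := fun _ hf e he => hf e (h he)

lemma Z_union (X Y : Set α) : Z ends (X ∪ Y) = Z ends X ⊓ Z ends Y := by
  ext f
  simp only [mem_Z, Submodule.mem_inf, Set.mem_union]
  constructor
  · intro h; exact ⟨fun e he => h e (Or.inl he), fun e he => h e (Or.inr he)⟩
  · rintro ⟨h1, h2⟩ e (he | he)
    · exact h1 e he
    · exact h2 e he

lemma Z_insert (e : α) (X : Set α) : Z ends (insert e X) = Z ends X ⊓ Z ends {e} := by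
  rw [← Z_union, Set.union_singleton]

lemma const_mem (X : Set α) : (fun _ => (1 : ℚ)) ∈ Z ends X := fun _ _ => rfl

variable [Fintype V]

noncomputable def c (X : Set α) : ℕ := finrank ℚ (Z ends X)

lemma c_anti {X Y : Set α} (h : X ⊆ Y) : c ends Y ≤ c ends X :=
  Submodule.finrank_mono (Z_anti ends h)

lemma c_le_card (X : Set α) : c ends X ≤ Fintype.card V := by
  have := Submodule.finrank_le (Z ends X)
  rwa [finrank_fintype_fun_eq_card] at this

lemma c_empty : c ends (∅ : Set α) = Fintype.card V := by
  have : Z ends (∅ : Set α) = ⊤ := by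
    ext f; simp [mem_Z]
  unfold c
  rw [this, finrank_top, finrank_fintype_fun_eq_card]

lemma c_submod (X Y : Set α) : c ends X + c ends Y ≤ c ends (X ∪ Y) + c ends (X ∩ Y) := by
  have h1 := Submodule.finrank_sup_add_finrank_inf_eq (Z ends X) (Z ends Y)
  have h2 : finrank ℚ ↥(Z ends X ⊔ Z ends Y) ≤ c ends (X ∩ Y) := by
    apply Submodule.finrank_mono
    exact sup_le (Z_anti ends Set.inter_subset_left) (Z_anti ends Set.inter_subset_right)
  rw [← Z_union] at h1
  unfold c at *
  omega

lemma c_single (e : α) : Fintype.card V ≤ c ends {e} + 1 := by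
  let φ : (V → ℚ) →ₗ[ℚ] ℚ :=
    (LinearMap.proj (ends e).1 : (V → ℚ) →ₗ[ℚ] ℚ) - (LinearMap.proj (ends e).2 : (V → ℚ) →ₗ[ℚ] ℚ)
  have h1 : LinearMap.ker φ = Z ends {e} := by
    ext f
    rw [LinearMap.mem_ker, mem_Z]
    simp only [φ, LinearMap.sub_apply, LinearMap.proj_apply, Set.mem_singleton_iff, forall_eq]
    exact sub_eq_zero
  have h2 := LinearMap.finrank_range_add_finrank_ker φ
  have h3 : finrank ℚ (LinearMap.range φ) ≤ 1 := by
    have := Submodule.finrank_le (LinearMap.range φ)
    rwa [finrank_self] at this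
  rw [h1, finrank_fintype_fun_eq_card] at h2
  unfold c
  omega

lemma c_insert (e : α) (X : Set α) : c ends X ≤ c ends (insert e X) + 1 := by
  have h1 := Submodule.finrank_sup_add_finrank_inf_eq (Z ends X) (Z ends {e})
  have h2 := c_single ends e
  have h3 := Submodule.finrank_le (Z ends X ⊔ Z ends {e})
  rw [finrank_fintype_fun_eq_card] at h3
  rw [← Z_insert] at h1
  unfold c at *
  omega

lemma c_union_le [DecidableEq α] (X : Set α) (Y : Finset α) :
    c ends X ≤ c ends (X ∪ Y) + Y.card := by
  induction Y using Finset.induction_on with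
  | empty => simp
  | insert a s ha ih =>
    rw [Finset.card_insert_of_notMem ha, Finset.coe_insert, Set.union_insert]
    have := c_insert ends a (X ∪ s)
    omega

lemma c_finset [DecidableEq α] (Y : Finset α) : Fintype.card V ≤ c ends (Y : Set α) + Y.card := by
  have := c_union_le ends ∅ Y
  rwa [c_empty, Set.empty_union] at this

lemma c_sdiff_le [DecidableEq α] {X Y : Finset α} (h : X ⊆ Y) :
    c ends (X : Set α) + X.card ≤ c ends (Y : Set α) + Y.card := by
  have h1 := c_union_le ends (X : Set α) (Y \ X)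
  have h2 : ((X : Set α) ∪ ((Y \ X : Finset α) : Set α)) = Y := by
    rw [← Finset.coe_union, Finset.union_sdiff_of_subset h]
  rw [h2] at h1
  have h3 := Finset.card_sdiff_add_card_eq_card h
  omega

lemma one_le_c [Nonempty V] (X : Set α) : 1 ≤ c ends X := by
  unfold c
  rw [Nat.one_le_iff_ne_zero]
  intro h
  rw [Submodule.finrank_eq_zero] at h
  have h1 := const_mem (V := V) ends X
  rw [h, Submodule.mem_bot] at h1
  have := congrFun h1 (Classical.arbitrary V)
  simp at this

lemma const_of_c_le_one [Nonempty V] {X : Set α} (h : c ends X ≤ 1) {f : V → ℚ}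
    (hf : f ∈ Z ends X) (u v : V) : f u = f v := by
  have h1 : finrank ℚ (Z ends X) = 1 := le_antisymm h (one_le_c ends X)
  have h2 : (⟨fun _ => (1 : ℚ), const_mem (V := V) ends X⟩ : Z ends X) ≠ 0 := by
    intro h3
    have := congrArg (fun g : Z ends X => g.1 (Classical.arbitrary V)) h3
    simp at this
  obtain ⟨a, ha⟩ := (finrank_eq_one_iff_of_nonzero' _ h2).1 h1 ⟨f, hf⟩
  have h4 : f = fun _ => a := by
    have := congrArg Subtype.val ha
    simp only [Submodule.coe_smul_of_tower] at this
    rw [← this]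
    ext x
    simp
  rw [h4]

omit [Fintype V] in
lemma c_le_one_of_const {X : Set α} (h : ∀ f ∈ Z ends X, ∀ u v, f u = f v) : c ends X ≤ 1 := by
  unfold c
  have : Z ends X ≤ Submodule.span ℚ {fun _ => (1 : ℚ)} := by
    intro f hf
    rw [Submodule.mem_span_singleton]
    rcases isEmpty_or_nonempty V with hV | hV
    · exact ⟨0, by ext x; exact (hV.false x).elim⟩
    · refine ⟨f (Classical.arbitrary V), ?_⟩
      ext x
      simp only [Pi.smul_apply, smul_eq_mul, mul_one]
      exact h f hf _ _
  refine (Submodule.finrank_mono this).trans ?_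
  have := finrank_span_le_card (R := ℚ) ({fun _ => (1 : ℚ)} : Set (V → ℚ))
  simpa using this

end

end Pool.Agent.Helper636.Bw
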