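import Pool.Agent.Helper636.BwLM
import Pool.Agent.Helper636.BwNF

set_option autoImplicit false
set_option linter.unusedSectionVars false

namespace Pool.Agent.Helper636.Bw

open scoped Matroid Classical
open Module

variable {V α : Type} [Fintype V] [Nonempty V] [DecidableEq α] (d : Data V α)

/-- vertices in the same component of `C` -/
def sd (C : Finset α) : Setoid V where
  r u v := ∀ f ∈ Z d.ends (C : Set α), f u = f v
  iseqv := ⟨fun _ _ _ => rfl, fun h f hf => (h f hf).symm,
    fun h1 h2 f hf => (h1 f hf).trans (h2 f hf)⟩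

/-- components -/
abbrev Q (C : Finset α) : Type := Quotient (sd d C)

noncomputable instance (C : Finset α) : Fintype (Q d C) := Fintype.ofFinite _

/-- the component of a vertex -/
def cl (C : Finset α) (v : V) : Q d C := Quotient.mk (sd d C) v

lemma cl_eq {C : Finset α} {u v : V} :
    cl d C u = cl d C v ↔ ∀ f ∈ Z d.ends (C : Set α), f u = f v := Quotient.eq

lemma cl_surj {C : Finset α} (q : Q d C) : ∃ v, cl d C v = q := Quotient.exists_rep q

lemma cl_edge {C : Finset α} {e : α} (he : e ∈ C) : cl d C (d.ends e).1 = cl d C (d.ends e).2 := by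
  rw [cl_eq]
  intro f hf
  exact hf e (by exact_mod_cast he)

lemma card_Q (C : Finset α) : c d.ends (C : Set α) ≤ Fintype.card (Q d C) := by
  let φ : (Z d.ends (C : Set α)) →ₗ[ℚ] (Q d C → ℚ) :=
    { toFun := fun f => Quotient.lift f.1 (fun u v huv => huv f.1 f.2)
      map_add' := by
        intro f g
        ext q
        obtain ⟨v, rfl⟩ := Quotient.exists_rep q
        rfl
      map_smul' := by
        intro a f
        ext q
        obtain ⟨v, rfl⟩ := Quotient.exists_rep q
        rfl }
  have hφ : Function.Injective φ := by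
    intro f g hfg
    apply Subtype.ext
    ext v
    exact congrFun hfg (Quotient.mk (sd d C) v)
  have h := LinearMap.finrank_le_finrank_of_injective hφ
  rwa [finrank_fintype_fun_eq_card] at h

/-- the edges of `R` leaving the component `q` -/
noncomputable def star (C R : Finset α) (q : Q d C) : Finset α :=
  R.filter (fun e => ¬ (cl d C (d.ends e).1 = q ↔ cl d C (d.ends e).2 = q))

/-- no base of the minor avoids a star -/
lemma star_codep {C D R : Finset α} (hC : d.M.Indep (C : Set α)) (hD : d.M.Coindep (D : Set α))
    (hCD : Disjoint (C : Set α) (D : Set α)) (hR : ∀ e ∈ d.E, e ∉ C → e ∉ D → e ∈ R)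
    {B0 : Finset α} (hB0 : d.Ind B0) (hc : B0.card = Fintype.card V)
    {q q' : Q d C} (hq : q ≠ q') {B : Set α} (hB : (d.M ／ (C : Set α) ＼ (D : Set α)).IsBase B) :
    ¬ Disjoint B (star d C R q : Set α) := by
  intro hdis
  rw [nf_isBase hC hD hCD] at hB
  obtain ⟨hB1, hB2, hB3⟩ := hB
  obtain ⟨B', hB', hInd, hcard⟩ := d.base_card hB0 hc hB1
  have hc1 : c d.ends (B' : Set α) ≤ 1 := by
    have := hInd.2.1; omega
  let g : V → ℚ := fun v => if cl d C v = q then 1 else 0
  have hg : g ∈ Z d.ends (B' : Set α) := by
    rw [hB']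
    intro e he
    simp only [g]
    rcases he with he | he
    · have h1 : e ∈ R := by
        apply hR
        · have : e ∈ d.M.E := hB1.subset_ground (Or.inl he)
          rw [Data.M_E] at this
          exact_mod_cast this
        · intro h; exact Set.disjoint_left.1 hB2 he (by exact_mod_cast h)
        · intro h; exact Set.disjoint_left.1 hB3 he (by exact_mod_cast h)
      have h2 : e ∉ star d C R q := fun h => Set.disjoint_left.1 hdis he (by exact_mod_cast h)
      simp only [star, Finset.mem_filter, h1, true_and, not_not] at h2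
      simp only [h2]
    · have h1 := cl_edge d (C := C) (e := e) (by exact_mod_cast he)
      rw [h1]
  obtain ⟨v, hv⟩ := cl_surj d q
  obtain ⟨w, hw⟩ := cl_surj d q'
  have h2 := const_of_c_le_one d.ends hc1 hg v w
  simp only [g, hv, hw, if_true, if_neg hq.symm] at h2
  norm_num at h2

lemma sum_star (C R : Finset α) : ∑ q, (star d C R q).card =
    ∑ e ∈ R, (Finset.univ.filter
      (fun q => ¬ (cl d C (d.ends e).1 = q ↔ cl d C (d.ends e).2 = q))).card := by
  simp only [star, Finset.card_filter]
  exact Finset.sum_comm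

lemma edge_count (C : Finset α) (e : α) : (Finset.univ.filter
      (fun q => ¬ (cl d C (d.ends e).1 = q ↔ cl d C (d.ends e).2 = q))).card ≤ 2 := by
  calc _ ≤ ({cl d C (d.ends e).1, cl d C (d.ends e).2} : Finset (Q d C)).card := by
        apply Finset.card_le_card
        intro q hq
        simp only [Finset.mem_filter, Finset.mem_univ, true_and] at hq
        simp only [Finset.mem_insert, Finset.mem_singleton]
        by_contra hcon
        push Not at hcon
        apply hq
        constructor
        · intro h; exact absurd h.symm hcon.1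
        · intro h; exact absurd h.symm hcon.2
    _ ≤ 2 := Finset.card_le_two

lemma edge_count_zero {C : Finset α} {e : α}
    (h : cl d C (d.ends e).1 = cl d C (d.ends e).2) : (Finset.univ.filter
      (fun q => ¬ (cl d C (d.ends e).1 = q ↔ cl d C (d.ends e).2 = q))).card = 0 := by
  rw [Finset.card_eq_zero, Finset.filter_eq_empty_iff]
  intro q _
  rw [h]
  simp

lemma count_le {C R : Finset α} {g : ℕ} (hg : ∀ q, g ≤ (star d C R q).card) :
    Fintype.card (Q d C) * g ≤ 2 * R.card := by
  calc Fintype.card (Q d C) * g = ∑ _q : Q d C, g := by simp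
    _ ≤ ∑ q, (star d C R q).card := Finset.sum_le_sum fun q _ => hg q
    _ = _ := sum_star d C R
    _ ≤ ∑ _e ∈ R, 2 := Finset.sum_le_sum fun e _ => edge_count d C e
    _ = 2 * R.card := by simp [mul_comm]

lemma count_eq {C R : Finset α} {g : ℕ} (hg : ∀ q, g ≤ (star d C R q).card)
    (heq : 2 * R.card ≤ Fintype.card (Q d C) * g) :
    (∀ q, (star d C R q).card = g) ∧ ∀ e ∈ R, cl d C (d.ends e).1 ≠ cl d C (d.ends e).2 := by
  have h1 : ∑ _q : Q d C, g ≤ ∑ q, (star d C R q).card := Finset.sum_le_sum fun q _ => hg q
  have h2 : ∑ q, (star d C R q).card ≤ ∑ _e ∈ R, 2 := by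
    rw [sum_star]
    exact Finset.sum_le_sum fun e _ => edge_count d C e
  have h3 : ∑ _q : Q d C, g = Fintype.card (Q d C) * g := by simp
  have h4 : ∑ _e ∈ R, 2 = 2 * R.card := by simp [mul_comm]
  constructor
  · have h5 : ∑ _q : Q d C, g = ∑ q, (star d C R q).card := by omega
    have := (Finset.sum_eq_sum_iff_of_le (fun q _ => hg q)).1 h5
    intro q
    exact (this q (Finset.mem_univ q)).symm
  · have h5 : ∑ e ∈ R, (Finset.univ.filter
      (fun q => ¬ (cl d C (d.ends e).1 = q ↔ cl d C (d.ends e).2 = q))).card = ∑ _e ∈ R, 2 := by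
      rw [← sum_star]; omega
    have h6 := (Finset.sum_eq_sum_iff_of_le (fun e _ => edge_count d C e)).1 h5
    intro e he heq
    have := h6 e he
    rw [edge_count_zero d heq] at this
    omega

end Pool.Agent.Helper636.Bw
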