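import Pool.Agent.Helper636.BwIso

set_option autoImplicit false
set_option linter.unusedSectionVars false

namespace Pool.Agent.Helper636.Bw

open scoped Matroid
open Pool.Agent.Helper636.Spk

/-- two cyclic permutations of a finite vertex set -/
structure Two (V : Type) [Fintype V] where
  σ : Bool → V → V
  cyc : ∀ (t : Bool) (j : V) (f : V → ℚ), (∀ v, v ≠ j → f v = f (σ t v)) → ∀ u v, f u = f v
  idx : V → ℕ
  vx : ℕ → V
  idx_lt : ∀ v, idx v < Fintype.card V
  vx_idx : ∀ v, vx (idx v) = v
  idx_vx : ∀ k < Fintype.card V, idx (vx k) = k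
  big : 7 ≤ Fintype.card V

def rr (t : Bool) : ℕ := if t then 6 else 5

lemma rr5 (t : Bool) : 5 ≤ rr t := by cases t <;> decide
lemma rr6 (t : Bool) : rr t ≤ 6 := by cases t <;> decide

def pat (t : Bool) : Finset (Finset ℕ) :=
  if t then {∅, {0, 1, 2, 3, 4, 5}} else {∅, {0, 1, 2, 3, 4}, {0, 1}}

lemma pat_sub : ∀ t, ∀ A ∈ pat t, ∀ k ∈ A, k < rr t := by decide

lemma pat_diff : ∀ t, ∀ A ∈ pat t, ∀ A' ∈ pat t, A ≠ A' →
    ((Finset.range (rr t)).filter (fun k => ¬ (k ∈ A ↔ k ∈ A'))).card ≠ 0 ∧
    ((Finset.range (rr t)).filter (fun k => ¬ (k ∈ A ↔ k ∈ A'))).card ≠ 1 := by decide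

section spikes

/-- the transversal of the legs given by a pattern -/
def trans (r : ℕ) (A : Finset ℕ) : Finset ℕ :=
  (Finset.range r).image (fun k => 2 * k + if k ∈ A then 1 else 0)

lemma mem_trans {r : ℕ} {A : Finset ℕ} {x : ℕ} :
    x ∈ trans r A ↔ x / 2 < r ∧ (x % 2 = 1 ↔ x / 2 ∈ A) := by
  simp only [trans, Finset.mem_image, Finset.mem_range]
  constructor
  · rintro ⟨k, hk, rfl⟩
    split_ifs with h
    · have h1 : (2 * k + 1) / 2 = k := by omega
      rw [h1]
      exact ⟨hk, ⟨fun _ => h, fun _ => by omega⟩⟩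
    · have h1 : (2 * k + 0) / 2 = k := by omega
      rw [h1]
      exact ⟨hk, ⟨fun h' => by omega, fun h' => absurd h' h⟩⟩
  · rintro ⟨h1, h2⟩
    refine ⟨x / 2, h1, ?_⟩
    split_ifs with h
    · have := h2.2 h; omega
    · have : ¬ x % 2 = 1 := fun h' => h (h2.1 h')
      omega

lemma trans_card (r : ℕ) (A : Finset ℕ) : (trans r A).card = r := by
  unfold trans
  rw [Finset.card_image_of_injective, Finset.card_range]
  intro a b hab
  simp only at hab
  split_ifs at hab <;> omega

lemma trans_legs (r : ℕ) (A : Finset ℕ) : (legs (trans r A)).card = r := by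
  have : legs (trans r A) = Finset.range r := by
    ext k
    simp only [mem_legs, mem_trans, Finset.mem_range]
    constructor
    · rintro ⟨e, ⟨h1, _⟩, rfl⟩; exact h1
    · intro hk
      by_cases h : k ∈ A
      · refine ⟨2 * k + 1, ⟨by omega, ?_⟩, by omega⟩
        have h1 : (2 * k + 1) / 2 = k := by omega
        rw [h1]
        exact ⟨fun _ => h, fun _ => by omega⟩
      · refine ⟨2 * k, ⟨by omega, ?_⟩, by omega⟩
        have h1 : (2 * k) / 2 = k := by omega
        rw [h1]
        exact ⟨fun h' => by omega, fun h' => absurd h' h⟩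
  rw [this, Finset.card_range]

/-- the two spikes -/
def sp (t : Bool) : Spike where
  r := rr t
  T := (pat t).image (trans (rr t))
  hr := rr5 t
  hcard := by
    intro H hH
    obtain ⟨A, _, rfl⟩ := Finset.mem_image.1 hH
    exact trans_card _ _
  hlegs := by
    intro H hH
    obtain ⟨A, _, rfl⟩ := Finset.mem_image.1 hH
    exact trans_legs _ _
  hdist := by
    intro I e f he hf h1 h2
    obtain ⟨A, hA, h1⟩ := Finset.mem_image.1 h1
    obtain ⟨A', hA', h2⟩ := Finset.mem_image.1 h2
    by_cases hAA : A = A'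
    · subst hAA
      have h3 : insert e I = insert f I := h1.symm.trans h2
      have h4 : e ∈ insert f I := h3 ▸ Finset.mem_insert_self e I
      rw [Finset.mem_insert] at h4
      rcases h4 with h4 | h4
      · exact h4
      · exact absurd h4 he
    · exfalso
      obtain ⟨h3, h4⟩ := pat_diff t A hA A' hA' hAA
      have h5 : 1 < ((Finset.range (rr t)).filter (fun k => ¬ (k ∈ A ↔ k ∈ A'))).card := by omega
      obtain ⟨k, hk, k', hk', hne⟩ := Finset.one_lt_card.1 h5
      have key : ∀ k ∈ (Finset.range (rr t)).filter (fun k => ¬ (k ∈ A ↔ k ∈ A')),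
          2 * k + (if k ∈ A then 1 else 0) = e := by
        intro k hk
        rw [Finset.mem_filter, Finset.mem_range] at hk
        have hx : 2 * k + (if k ∈ A then 1 else 0) ∈ insert e I := by
          rw [← h1]
          exact Finset.mem_image.2 ⟨k, Finset.mem_range.2 hk.1, rfl⟩
        rw [Finset.mem_insert] at hx
        rcases hx with hx | hx
        · exact hx
        · exfalso
          have hx' : 2 * k + (if k ∈ A then 1 else 0) ∈ trans (rr t) A' := by
            rw [h2]; exact Finset.mem_insert_of_mem hx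
          rw [mem_trans] at hx'
          apply hk.2
          split_ifs at hx' with h
          · have h6 : (2 * k + 1) / 2 = k := by omega
            rw [h6] at hx'
            exact ⟨fun _ => hx'.2.1 (by omega), fun _ => h⟩
          · have h6 : (2 * k + 0) / 2 = k := by omega
            rw [h6] at hx'
            refine ⟨fun h' => absurd h' h, fun h' => ?_⟩
            have := hx'.2.2 h'
            omega
      have e1 := key k hk
      have e2 := key k' hk'
      split_ifs at e1 e2 <;> omega

lemma sp_r (t : Bool) : (sp t).r = rr t := rfl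

end spikes

variable {V : Type} [Fintype V] [Nonempty V] [DecidableEq V] (w : Two V)

abbrev Ed (V : Type) := V × Bool × Bool

/-- the Hamiltonian cycle of type `t` with pattern `A` -/
def Two.H (t : Bool) (A : Finset ℕ) : Finset (Ed V) :=
  Finset.univ.image (fun v : V => (v, t, decide (w.idx v ∈ A)))

lemma Two.mem_H {t : Bool} {A : Finset ℕ} {e : Ed V} :
    e ∈ w.H t A ↔ e.2.1 = t ∧ e.2.2 = decide (w.idx e.1 ∈ A) := by
  obtain ⟨v, t', b⟩ := e
  simp only [Two.H, Finset.mem_image, Finset.mem_univ, true_and, Prod.mk.injEq]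
  constructor
  · rintro ⟨v', rfl, rfl, rfl⟩; exact ⟨rfl, rfl⟩
  · rintro ⟨rfl, h⟩; exact ⟨v, rfl, rfl, h.symm⟩

def Two.ends (e : Ed V) : V × V := (e.1, w.σ e.2.1 e.1)

def Two.E : Finset (Ed V) :=
  Finset.univ.filter (fun e => e.2.2 = false ∨ w.idx e.1 < rr e.2.1)

lemma Two.mem_E {e : Ed V} : e ∈ w.E ↔ e.2.2 = false ∨ w.idx e.1 < rr e.2.1 := by
  simp [Two.E]

def Two.B : Finset (Finset (Ed V)) :=
  (pat false).image (w.H false) ∪ (pat true).image (w.H true)

lemma Two.mem_B {X : Finset (Ed V)} : X ∈ w.B ↔ ∃ t, ∃ A ∈ pat t, w.H t A = X := by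
  simp only [Two.B, Finset.mem_union, Finset.mem_image]
  constructor
  · rintro (⟨A, hA, h⟩ | ⟨A, hA, h⟩)
    · exact ⟨false, A, hA, h⟩
    · exact ⟨true, A, hA, h⟩
  · rintro ⟨t, A, hA, h⟩
    cases t
    · exact Or.inl ⟨A, hA, h⟩
    · exact Or.inr ⟨A, hA, h⟩

lemma Two.H_card (t : Bool) (A : Finset ℕ) : (w.H t A).card = Fintype.card V := by
  unfold Two.H
  rw [Finset.card_image_of_injective, Finset.card_univ]
  intro a b hab
  exact (Prod.mk.inj hab).1

lemma Two.c_of {X : Set (Ed V)} {t : Bool} {j : V} (h : ∀ v, v ≠ j → ∃ b, (v, t, b) ∈ X) :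
    c w.ends X = 1 := by
  apply le_antisymm _ (one_le_c _ _)
  apply c_le_one_of_const
  intro f hf
  apply w.cyc t j f
  intro v hv
  obtain ⟨b, hb⟩ := h v hv
  exact hf _ hb

def Two.data : Data V (Ed V) where
  ends := w.ends
  E := w.E
  B := w.B
  hcard := by
    intro X hX
    obtain ⟨t, A, _, rfl⟩ := w.mem_B.1 hX
    exact w.H_card t A
  hforest := by
    intro X hX e he
    obtain ⟨t, A, _, rfl⟩ := w.mem_B.1 hX
    apply w.c_of (t := t) (j := e.1)
    intro v hv
    refine ⟨decide (w.idx v ∈ A), ?_⟩
    rw [Finset.mem_coe, Finset.mem_erase, w.mem_H]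
    refine ⟨?_, rfl, rfl⟩
    rintro rfl
    exact hv rfl
  hdist := by
    intro I e f he hf h1 h2
    obtain ⟨t, A, hA, h1⟩ := w.mem_B.1 h1
    obtain ⟨t', A', hA', h2⟩ := w.mem_B.1 h2
    have hbig := w.big
    have hI : I.Nonempty := by
      have := w.H_card t A
      rw [h1, Finset.card_insert_of_notMem he] at this
      rw [← Finset.card_pos]; omega
    obtain ⟨x, hx⟩ := hI
    have hx1 : x ∈ w.H t A := by rw [h1]; exact Finset.mem_insert_of_mem hx
    have hx2 : x ∈ w.H t' A' := by rw [h2]; exact Finset.mem_insert_of_mem hx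
    rw [w.mem_H] at hx1 hx2
    have htt : t = t' := hx1.1.symm.trans hx2.1
    subst htt
    by_cases hAA : A = A'
    · subst hAA
      have h3 : insert e I = insert f I := h1.symm.trans h2
      have h4 : e ∈ insert f I := h3 ▸ Finset.mem_insert_self e I
      rw [Finset.mem_insert] at h4
      rcases h4 with h4 | h4
      · exact h4
      · exact absurd h4 he
    · exfalso
      obtain ⟨h3, h4⟩ := pat_diff t A hA A' hA' hAA
      have h5 : 1 < ((Finset.range (rr t)).filter (fun k => ¬ (k ∈ A ↔ k ∈ A'))).card := by omega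
      obtain ⟨k, hk, k', hk', hne⟩ := Finset.one_lt_card.1 h5
      have key : ∀ k ∈ (Finset.range (rr t)).filter (fun k => ¬ (k ∈ A ↔ k ∈ A')),
          w.idx e.1 = k := by
        intro k hk
        rw [Finset.mem_filter, Finset.mem_range] at hk
        have hkV : k < Fintype.card V := by have := rr6 t; omega
        have hx : ((w.vx k, t, decide (k ∈ A)) : Ed V) ∈ insert e I := by
          rw [← h1, w.mem_H]
          simp only [w.idx_vx k hkV, and_self]
        rw [Finset.mem_insert] at hx
        rcases hx with hx | hx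
        · rw [← hx, w.idx_vx k hkV]
        · exfalso
          have hx' : ((w.vx k, t, decide (k ∈ A)) : Ed V) ∈ w.H t A' := by
            rw [h2]; exact Finset.mem_insert_of_mem hx
          rw [w.mem_H] at hx'
          simp only [w.idx_vx k hkV, true_and] at hx'
          exact hk.2 (decide_eq_decide.1 hx')
      exact hne ((key k hk).symm.trans (key k' hk'))

/-- a base all of whose elements have type `t` -/
lemma Two.exists_B0 (t : Bool) : ∃ B0 : Finset (Ed V), w.data.Ind B0 ∧
    B0.card = Fintype.card V ∧ ∀ e ∈ B0, e.2.1 = t := by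
  have hbig := w.big
  have hr := rr5 t
  have h0 : w.idx (w.vx 0) = 0 := w.idx_vx 0 (by omega)
  have h1 : w.idx (w.vx 1) = 1 := w.idx_vx 1 (by omega)
  have hne : w.vx 0 ≠ w.vx 1 := fun h => by rw [h, h1] at h0; omega
  let P : Finset (Ed V) := (Finset.univ.erase (w.vx 1)).image (fun v : V => (v, t, false))
  have hP : ∀ e, e ∈ P ↔ e.1 ≠ w.vx 1 ∧ e.2.1 = t ∧ e.2.2 = false := by
    rintro ⟨v, t', b⟩
    simp only [P, Finset.mem_image, Finset.mem_erase, Finset.mem_univ, and_true, Prod.mk.injEq]
    constructor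
    · rintro ⟨v', h1, rfl, rfl, rfl⟩; exact ⟨h1, rfl, rfl⟩
    · rintro ⟨h1, rfl, rfl⟩; exact ⟨v, h1, rfl, rfl, rfl⟩
  have hPcard : P.card = Fintype.card V - 1 := by
    simp only [P]
    rw [Finset.card_image_of_injective, Finset.card_erase_of_mem (Finset.mem_univ _),
      Finset.card_univ]
    intro a b hab
    exact (Prod.mk.inj hab).1
  have hnot : ((w.vx 0, t, true) : Ed V) ∉ P := by
    rw [hP]; simp
  have hcard : (insert ((w.vx 0, t, true) : Ed V) P).card = Fintype.card V := by
    rw [Finset.card_insert_of_notMem hnot, hPcard]; omega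
  refine ⟨insert (w.vx 0, t, true) P, ⟨?_, ?_, ?_⟩, hcard, ?_⟩
  · intro e he
    rw [Finset.mem_insert] at he
    change e ∈ w.E
    rw [w.mem_E]
    rcases he with rfl | he
    · right
      simp only [h0]
      omega
    · left
      exact ((hP e).1 he).2.2
  · rw [hcard]
    have : c w.data.ends ((insert ((w.vx 0, t, true) : Ed V) P : Finset (Ed V)) : Set (Ed V)) = 1 := by
      apply w.c_of (t := t) (j := w.vx 1)
      intro v hv
      refine ⟨false, ?_⟩
      rw [Finset.mem_coe, Finset.mem_insert]
      right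
      rw [hP]
      exact ⟨hv, rfl, rfl⟩
    rw [this]
  · intro hB
    obtain ⟨t', A, _, h⟩ := w.mem_B.1 hB
    have e1 : ((w.vx 0, t, true) : Ed V) ∈ w.H t' A := by
      rw [h]; exact Finset.mem_insert_self _ _
    have e2 : ((w.vx 0, t, false) : Ed V) ∈ w.H t' A := by
      rw [h]
      apply Finset.mem_insert_of_mem
      rw [hP]
      exact ⟨hne, rfl, rfl⟩
    rw [w.mem_H] at e1 e2
    simp only at e1 e2
    rw [← e1.2] at e2
    exact absurd e2.2 (by decide)
  · intro e he
    rw [Finset.mem_insert] at he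
    rcases he with rfl | he
    · rfl
    · exact ((hP e).1 he).2.1

/-- the number of components of a set of edges of one type -/
lemma Two.c_type {X : Finset (Ed V)} {t : Bool} (hX : ∀ e ∈ X, e.2.1 = t) :
    (c w.ends (X : Set (Ed V)) + (X.image Prod.fst).card = Fintype.card V ∧
      (X.image Prod.fst).card < Fintype.card V) ∨
    (c w.ends (X : Set (Ed V)) = 1 ∧ (X.image Prod.fst).card = Fintype.card V) := by
  set P := X.image Prod.fst with hP
  have hPle : P.card ≤ Fintype.card V := Finset.card_le_univ P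
  have hmem : ∀ v ∈ P, ∃ b, (v, t, b) ∈ X := by
    intro v hv
    obtain ⟨⟨v', t', b⟩, he, rfl⟩ := Finset.mem_image.1 hv
    have := hX _ he
    simp only at this
    subst this
    exact ⟨b, he⟩
  by_cases hlt : P.card < Fintype.card V
  · left
    refine ⟨?_, hlt⟩
    obtain ⟨j, hj⟩ : ∃ j, j ∉ P := by
      by_contra hcon
      push Not at hcon
      have : P = Finset.univ := Finset.eq_univ_iff_forall.2 hcon
      rw [this, Finset.card_univ] at hlt
      exact lt_irrefl _ hlt
    let G : Finset V → Finset (Ed V) := fun S => S.image (fun v => (v, t, false))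
    have hG : ∀ S : Finset V, (G S).card = S.card := by
      intro S
      simp only [G]
      apply Finset.card_image_of_injective
      intro a b hab
      exact (Prod.mk.inj hab).1
    have hZ : Z w.ends (X : Set (Ed V)) = Z w.ends (G P : Set (Ed V)) := by
      ext f
      rw [mem_Z, mem_Z]
      constructor
      · intro h e he
        simp only [G, Finset.coe_image, Set.mem_image, Finset.mem_coe] at he
        obtain ⟨v, hv, rfl⟩ := he
        obtain ⟨b, hb⟩ := hmem v hv
        have h3 := h (v, t, b) (by exact_mod_cast hb)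
        exact h3
      · rintro h ⟨v, t', b⟩ he
        have h1 := hX _ (by exact_mod_cast he)
        simp only at h1
        subst h1
        have h2 : ((v, t', false) : Ed V) ∈ (G P : Set (Ed V)) := by
          simp only [G, Finset.coe_image, Set.mem_image, Finset.mem_coe]
          exact ⟨v, Finset.mem_image.2 ⟨_, by exact_mod_cast he, rfl⟩, rfl⟩
        have h3 := h _ h2
        exact h3
    have h1 : c w.ends (X : Set (Ed V)) = c w.ends (G P : Set (Ed V)) := by
      unfold c; rw [hZ]
    have h2 := c_finset w.ends (G P)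
    have h3 : P ⊆ Finset.univ.erase j := by
      intro v hv
      rw [Finset.mem_erase]
      exact ⟨fun h => hj (h ▸ hv), Finset.mem_univ v⟩
    have h4 := c_sdiff_le w.ends (X := G P) (Y := G (Finset.univ.erase j))
      (Finset.image_subset_image h3)
    have h5 : c w.ends (G (Finset.univ.erase j) : Set (Ed V)) = 1 := by
      apply w.c_of (t := t) (j := j)
      intro v hv
      refine ⟨false, ?_⟩
      simp only [G, Finset.coe_image, Set.mem_image, Finset.mem_coe, Finset.mem_erase,
        Finset.mem_univ, and_true]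
      exact ⟨v, hv, rfl⟩
    rw [h5, hG, hG, Finset.card_erase_of_mem (Finset.mem_univ _), Finset.card_univ] at h4
    rw [hG] at h2
    have := w.big
    omega
  · right
    have hPe : P.card = Fintype.card V := by omega
    refine ⟨?_, hPe⟩
    apply w.c_of (t := t) (j := w.vx 0)
    intro v _
    have : P = Finset.univ := Finset.eq_univ_of_card P hPe
    obtain ⟨b, hb⟩ := hmem v (by rw [this]; exact Finset.mem_univ v)
    exact ⟨b, by exact_mod_cast hb⟩

end Pool.Agent.Helper636.Bw
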