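import Pool.Agent.Helper636.LorTyp

set_option autoImplicit false

namespace Pool.Agent.Helper636.Lor

open Finset

variable {m n : ℕ}

/-- `X` can be assigned to the sets `S i` with type `α`. -/
def Asg (S : Fin n → Finset (Fin m)) (X : Finset (Fin m)) (α : Fin n → ℕ) : Prop :=
  ∃ ψ : Fin m → Option (Fin n), (∀ e, ψ e = none ↔ e ∉ X) ∧ (∀ e i, ψ e = some i → e ∈ S i) ∧
    ∀ i, (univ.filter (fun e => ψ e = some i)).card = α i

lemma asg_iff (S : Fin n → Finset (Fin m)) (X : Finset (Fin m)) (α : Fin n → ℕ)
    (h : ∑ i, α i = X.card) :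
    (∃ T : Fin n → Finset (Fin m), (Pairwise fun i j => Disjoint (T i) (T j)) ∧
      (∀ i, T i ⊆ S i) ∧ ∀ i, (X ∩ T i).card = α i) ↔ Asg S X α := by
  classical
  constructor
  · rintro ⟨T, hT, hTS, hTc⟩
    have huniq : ∀ e i j, e ∈ T i → e ∈ T j → i = j := by
      intro e i j hi hj
      by_contra hne
      exact Finset.disjoint_left.mp (hT hne) hi hj
    have hcov : ∀ e ∈ X, ∃ i, e ∈ T i := by
      have h1 : (univ.biUnion (fun i => X ∩ T i)).card = X.card := by
        rw [Finset.card_biUnion, ← h]
        · exact Finset.sum_congr rfl fun i _ => hTc i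
        · intro i _ j _ hij
          exact Finset.disjoint_left.mpr fun e he he' =>
            Finset.disjoint_left.mp (hT hij) (Finset.mem_inter.mp he).2 (Finset.mem_inter.mp he').2
      have h2 : univ.biUnion (fun i => X ∩ T i) ⊆ X := by
        intro e he
        obtain ⟨i, _, hi⟩ := Finset.mem_biUnion.mp he
        exact (Finset.mem_inter.mp hi).1
      have h3 := Finset.eq_of_subset_of_card_le h2 h1.ge
      intro e he
      rw [← h3] at he
      obtain ⟨i, _, hi⟩ := Finset.mem_biUnion.mp he
      exact ⟨i, (Finset.mem_inter.mp hi).2⟩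
    let ψ : Fin m → Option (Fin n) := fun e =>
      if h : e ∈ X ∧ ∃ i, e ∈ T i then some (Classical.choose h.2) else none
    have hψ : ∀ e i, ψ e = some i ↔ e ∈ X ∧ e ∈ T i := by
      intro e i
      by_cases h : e ∈ X ∧ ∃ i, e ∈ T i
      · have h1 : ψ e = some (Classical.choose h.2) := dif_pos h
        rw [h1, Option.some_inj]
        constructor
        · rintro rfl; exact ⟨h.1, Classical.choose_spec h.2⟩
        · rintro ⟨_, h2⟩; exact huniq e _ _ (Classical.choose_spec h.2) h2
      · have h1 : ψ e = none := dif_neg h
        rw [h1]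
        constructor
        · intro h2; simp at h2
        · rintro ⟨h2, h3⟩; exact absurd ⟨h2, i, h3⟩ h
    refine ⟨ψ, ?_, ?_, ?_⟩
    · intro e
      constructor
      · intro h1 h2
        obtain ⟨i, hi⟩ := hcov e h2
        rw [(hψ e i).mpr ⟨h2, hi⟩] at h1
        simp at h1
      · intro h1
        exact dif_neg fun h2 => h1 h2.1
    · intro e i h1
      exact hTS i ((hψ e i).mp h1).2
    · intro i
      rw [← hTc i]
      congr 1
      ext e
      simp [hψ]
  · rintro ⟨ψ, h1, h2, h3⟩
    refine ⟨fun i => univ.filter (fun e => ψ e = some i), ?_, ?_, ?_⟩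
    · intro i j hij
      apply Finset.disjoint_left.mpr
      intro e he he'
      simp only [Finset.mem_filter, Finset.mem_univ, true_and] at he he'
      rw [he] at he'
      exact hij (Option.some_inj.mp he')
    · intro i e he
      simp only [Finset.mem_filter, Finset.mem_univ, true_and] at he
      exact h2 e i he
    · intro i
      rw [← h3 i]
      congr 1
      ext e
      simp only [Finset.mem_inter, Finset.mem_filter, Finset.mem_univ, true_and, and_iff_right_iff_imp]
      intro he
      by_contra hX
      rw [(h1 e).mpr hX] at he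
      simp at he

/-- allowed targets -/
def al (S : Fin n → Finset (Fin m)) (e : Fin m) : Fin n ⊕ Fin m → Prop
  | Sum.inl i => e ∈ S i
  | Sum.inr e' => e' = e

lemma J_iff (S : Fin n → Finset (Fin m)) (X : Finset (Fin m)) (α : Fin n → ℕ) :
    (∃ ψ : Fin m → Fin n ⊕ Fin m, (∀ e, al S e (ψ e)) ∧
      typ ψ = Sum.elim α (fun e => if e ∈ X then 0 else 1)) ↔ Asg S X α := by
  classical
  constructor
  · rintro ⟨ψ, h1, h2⟩
    have hinr : ∀ e e', ψ e = Sum.inr e' → e' = e := by
      intro e e' h
      have := h1 e
      rw [h] at this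
      exact this
    have hX : ∀ e, ψ e = Sum.inr e ↔ e ∉ X := by
      intro e
      have h3 := congrFun h2 (Sum.inr e)
      simp only [typ, Sum.elim_inr] at h3
      constructor
      · intro h4 h5
        rw [if_pos h5] at h3
        have : e ∈ univ.filter (fun x => ψ x = Sum.inr e) := by simp [h4]
        rw [Finset.card_eq_zero.mp h3] at this
        simp at this
      · intro h5
        rw [if_neg h5] at h3
        obtain ⟨x, hx⟩ := Finset.card_pos.mp (by rw [h3]; exact one_pos)
        simp only [Finset.mem_filter, Finset.mem_univ, true_and] at hx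
        have := hinr x e hx
        rw [this]; rw [this] at hx; exact hx
    refine ⟨fun e => Sum.elim (fun i => some i) (fun _ => none) (ψ e), ?_, ?_, ?_⟩
    · intro e
      rw [← hX e]
      rcases h : ψ e with i | e'
      · simp [h]
      · have := hinr e e' h
        subst this; simp [h]
    · intro e i h3
      rcases h : ψ e with j | e'
      · simp only [h, Sum.elim_inl, Option.some_inj] at h3
        subst h3
        have := h1 e
        rw [h] at this
        exact this
      · simp [h] at h3
    · intro i
      have h3 := congrFun h2 (Sum.inl i)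
      simp only [typ, Sum.elim_inl] at h3
      rw [← h3]
      congr 1
      ext e
      simp only [Finset.mem_filter, Finset.mem_univ, true_and]
      rcases ψ e with j | e' <;> simp
  · rintro ⟨ψ, h1, h2, h3⟩
    refine ⟨fun e => (ψ e).elim (Sum.inr e) Sum.inl, ?_, ?_⟩
    · intro e
      rcases h : ψ e with _ | i
      · simp [al, h]
      · simpa [al, h] using h2 e i h
    · funext t
      rcases t with i | e
      · simp only [typ, Sum.elim_inl]
        rw [← h3 i]
        congr 1
        ext e
        simp only [Finset.mem_filter, Finset.mem_univ, true_and]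
        rcases ψ e with _ | j <;> simp
      · simp only [typ, Sum.elim_inr]
        have hset : (univ.filter (fun x => (ψ x).elim (Sum.inr x) Sum.inl = (Sum.inr e : Fin n ⊕ Fin m)))
            = if e ∈ X then ∅ else {e} := by
          ext x
          simp only [Finset.mem_filter, Finset.mem_univ, true_and]
          rcases h : ψ x with _ | j
          · have hxX : x ∉ X := (h1 x).mp h
            by_cases he : e ∈ X
            · simp only [Option.elim_none, he, if_true, Finset.notMem_empty, iff_false]
              intro h4
              have := Sum.inr_injective h4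
              subst this; exact hxX he
            · simp [he]
          · have hxX : x ∈ X := by
              by_contra hx
              rw [(h1 x).mpr hx] at h; simp at h
            by_cases he : e ∈ X
            · simp [he]
            · simp only [Option.elim_some, reduceCtorEq, he, if_false, Finset.mem_singleton, false_iff]
              rintro rfl; exact he hxX
        rw [hset]
        by_cases he : e ∈ X <;> simp [he]

/-- The support exchange. -/
lemma asg_exch (M : Matroid (Fin m)) (S : Fin n → Finset (Fin m)) (X' : Finset (Fin m))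
    (hX' : M.IsBase (X' : Set (Fin m))) (ψ' : Fin m → Option (Fin n))
    (h1' : ∀ e, ψ' e = none ↔ e ∉ X') (h2' : ∀ e i, ψ' e = some i → e ∈ S i) :
    ∀ (N : ℕ) (X : Finset (Fin m)) (ψ : Fin m → Option (Fin n)), M.IsBase (X : Set (Fin m)) →
    (∀ e, ψ e = none ↔ e ∉ X) → (∀ e i, ψ e = some i → e ∈ S i) →
    (univ.filter (fun e => ψ e ≠ none ∧ ψ e ≠ ψ' e)).card ≤ N →
    ∀ i : Fin n, typ ψ' (some i) < typ ψ (some i) →
    ∃ j : Fin n, typ ψ (some j) < typ ψ' (some j) ∧ ∃ (X'' : Finset (Fin m))
      (ψ'' : Fin m → Option (Fin n)), M.IsBase (X'' : Set (Fin m)) ∧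
      (∀ e, ψ'' e = none ↔ e ∉ X'') ∧ (∀ e i, ψ'' e = some i → e ∈ S i) ∧
      ∀ k : Fin n, typ ψ'' (some k)
        = typ ψ (some k) - (Pi.single i 1 : Fin n → ℕ) k + (Pi.single j 1 : Fin n → ℕ) k := by
  classical
  intro N
  induction N with
  | zero =>
    intro X ψ _ _ _ hN i hi
    obtain ⟨e, he, he'⟩ := exists_of_typ_lt ψ ψ' (some i) hi
    have : e ∈ univ.filter (fun e => ψ e ≠ none ∧ ψ e ≠ ψ' e) := by
      simp only [Finset.mem_filter, Finset.mem_univ, true_and]
      exact ⟨by rw [he]; simp, by rw [he]; exact Ne.symm he'⟩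
    rw [Finset.card_eq_zero.mp (Nat.le_zero.mp hN)] at this
    simp at this
  | succ N ih =>
    intro X ψ hX h1 h2 hN i hi
    obtain ⟨e, he, he'⟩ := exists_of_typ_lt ψ ψ' (some i) hi
    -- it suffices to produce (X1, ψ1, j) with the following properties
    suffices hsuff : ∃ (j : Fin n) (X1 : Finset (Fin m)) (ψ1 : Fin m → Option (Fin n)),
        M.IsBase (X1 : Set (Fin m)) ∧ (∀ e, ψ1 e = none ↔ e ∉ X1) ∧
        (∀ e i, ψ1 e = some i → e ∈ S i) ∧
        (univ.filter (fun e => ψ1 e ≠ none ∧ ψ1 e ≠ ψ' e)).card ≤ N ∧
        ∀ k : Fin n, typ ψ1 (some k)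
          = typ ψ (some k) - (Pi.single i 1 : Fin n → ℕ) k + (Pi.single j 1 : Fin n → ℕ) k by
      obtain ⟨j, X1, ψ1, hb, g1, g2, gN, gt⟩ := hsuff
      by_cases hlt : typ ψ (some j) < typ ψ' (some j)
      · exact ⟨j, hlt, X1, ψ1, hb, g1, g2, gt⟩
      · have hj := gt j
        have hgj : typ ψ' (some j) < typ ψ1 (some j) := by
          rw [hj]
          by_cases hij : j = i
          · subst hij; simp; omega
          · simp [Pi.single_apply, hij]; omega
        obtain ⟨t, ht, X2, ψ2, hb2, k1, k2, kt⟩ := ih X1 ψ1 hb g1 g2 gN j hgj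
        have htj : t ≠ j := by rintro rfl; omega
        have hti : t ≠ i := by
          rintro rfl
          have := gt t
          simp [htj] at this
          omega
        refine ⟨t, ?_, X2, ψ2, hb2, k1, k2, ?_⟩
        · have := gt t
          simp [htj, hti] at this
          omega
        · intro k
          rw [kt k, gt k]
          by_cases hkj : k = j
          · subst hkj
            by_cases hki : k = i
            · subst hki; simp [Pi.single_apply, Ne.symm htj]
            · simp [Pi.single_apply, Ne.symm htj]
          · simp [Pi.single_apply, hkj]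
    have hcard : ∀ (ψ1 : Fin m → Option (Fin n)),
        (∀ x, ψ1 x ≠ none → ψ1 x ≠ ψ' x → ψ x ≠ none ∧ ψ x ≠ ψ' x) →
        (ψ1 e = none ∨ ψ1 e = ψ' e) →
        (univ.filter (fun e => ψ1 e ≠ none ∧ ψ1 e ≠ ψ' e)).card ≤ N := by
      intro ψ1 h3 h4
      have hsub : (univ.filter (fun e => ψ1 e ≠ none ∧ ψ1 e ≠ ψ' e)) ⊂
          (univ.filter (fun e => ψ e ≠ none ∧ ψ e ≠ ψ' e)) := by
        rw [Finset.ssubset_iff_of_subset]
        · refine ⟨e, ?_, ?_⟩
          · simp only [Finset.mem_filter, Finset.mem_univ, true_and]
            exact ⟨by rw [he]; simp, by rw [he]; exact Ne.symm he'⟩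
          · simp only [Finset.mem_filter, Finset.mem_univ, true_and]
            rintro ⟨h5, h6⟩
            rcases h4 with h4 | h4
            · exact h5 h4
            · exact h6 h4
        · intro x hx
          simp only [Finset.mem_filter, Finset.mem_univ, true_and] at hx ⊢
          exact h3 x hx.1 hx.2
      have := Finset.card_lt_card hsub
      omega
    rcases hψe : ψ' e with _ | j
    · -- e ∉ X'
      have heX' : e ∉ X' := (h1' e).mp hψe
      have heX : e ∈ X := by
        by_contra h; rw [(h1 e).mpr h] at he; simp at he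
      obtain ⟨f, hf, hbase⟩ := hX.exchange hX' (e := e) ⟨by simpa using heX, by simpa using heX'⟩
      have hfX' : f ∈ X' := by simpa using hf.1
      have hfX : f ∉ X := by simpa using hf.2
      have hef : f ≠ e := by rintro rfl; exact hfX heX
      obtain ⟨j, hj⟩ : ∃ j, ψ' f = some j := by
        rcases h : ψ' f with _ | j
        · exact absurd hfX' ((h1' f).mp h)
        · exact ⟨j, rfl⟩
      have hψf : ψ f = none := (h1 f).mpr hfX
      set ψ0 : Fin m → Option (Fin n) := Function.update ψ e none with hψ0
      set ψ1 : Fin m → Option (Fin n) := Function.update ψ0 f (some j) with hψ1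
      have hψ0f : ψ0 f = none := by rw [hψ0, Function.update_of_ne hef]; exact hψf
      have hψ1f : ψ1 f = some j := by rw [hψ1]; simp
      have hψ1e : ψ1 e = none := by
        rw [hψ1, Function.update_of_ne (Ne.symm hef), hψ0]; simp
      have hψ1o : ∀ x, x ≠ e → x ≠ f → ψ1 x = ψ x := by
        intro x hx hx'
        rw [hψ1, Function.update_of_ne hx', hψ0, Function.update_of_ne hx]
      refine ⟨j, insert f (X.erase e), ψ1, ?_, ?_, ?_, ?_, ?_⟩
      · convert hbase using 1
        simp
      · intro x
        by_cases hx : x = e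
        · subst hx; simp [hψ1e, Ne.symm hef]
        · by_cases hx' : x = f
          · subst hx'; simp [hψ1f]
          · rw [hψ1o x hx hx', h1 x]; simp [hx, hx']
      · intro x k hk
        by_cases hx : x = e
        · subst hx; rw [hψ1e] at hk; simp at hk
        · by_cases hx' : x = f
          · subst hx'; rw [hψ1f] at hk
            have := Option.some_inj.mp hk
            subst this
            exact h2' x j hj
          · rw [hψ1o x hx hx'] at hk; exact h2 x k hk
      · apply hcard ψ1 _ (Or.inl hψ1e)
        intro x hx1 hx2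
        by_cases hx : x = e
        · subst hx; exact absurd hψ1e hx1
        · by_cases hx' : x = f
          · subst hx'; exact absurd (by rw [hψ1f, hj]) hx2
          · rw [hψ1o x hx hx'] at hx1 hx2; exact ⟨hx1, hx2⟩
      · intro k
        have t0 := typ_update ψ e none (by rw [he]; simp)
        have t1 := typ_update ψ0 f (some j) (by rw [hψ0f]; simp)
        rw [← hψ1, hψ0f] at t1
        rw [← hψ0, he] at t0
        rw [t1, t0]
        simp only [Pi.add_apply, Pi.sub_apply]
        simp [Pi.single_apply]
    · -- e ∈ X', ψ' e = some j ≠ some i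
      have hji : some j ≠ some i := by rw [← hψe]; exact he'
      set ψ1 : Fin m → Option (Fin n) := Function.update ψ e (some j) with hψ1
      have hψ1e : ψ1 e = some j := by rw [hψ1]; simp
      have hψ1o : ∀ x, x ≠ e → ψ1 x = ψ x := by
        intro x hx
        rw [hψ1, Function.update_of_ne hx]
      have heX : e ∈ X := by
        by_contra h; rw [(h1 e).mpr h] at he; simp at he
      refine ⟨j, X, ψ1, hX, ?_, ?_, ?_, ?_⟩
      · intro x
        by_cases hx : x = e
        · subst hx; simp [hψ1e, heX]
        · rw [hψ1o x hx, h1 x]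
      · intro x k hk
        by_cases hx : x = e
        · subst hx; rw [hψ1e] at hk
          have := Option.some_inj.mp hk
          subst this
          exact h2' x j hψe
        · rw [hψ1o x hx] at hk; exact h2 x k hk
      · apply hcard ψ1 _ (Or.inr (by rw [hψ1e, hψe]))
        intro x hx1 hx2
        by_cases hx : x = e
        · subst hx; exact absurd (by rw [hψ1e, hψe]) hx2
        · rw [hψ1o x hx] at hx1 hx2; exact ⟨hx1, hx2⟩
      · intro k
        have t1 := typ_update ψ e (some j) (by rw [he]; exact Ne.symm hji)
        rw [← hψ1, he] at t1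
        rw [t1]
        simp only [Pi.add_apply, Pi.sub_apply]
        simp [Pi.single_apply]

end Pool.Agent.Helper636.Lor
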