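import Mathlib

set_option autoImplicit false

namespace Pool.Agent.Helper636.Lor

open Finset

variable {ι : Type} [Fintype ι] [DecidableEq ι]

/-- Directional derivative acting on normalised coefficients. -/
noncomputable def D (v : ι → ℝ) (c : (ι → ℕ) → ℝ) : (ι → ℕ) → ℝ :=
  fun β => ∑ i, v i * c (β + Pi.single i 1)

/-- Iterated directional derivatives. -/
noncomputable def DL : List (ι → ℝ) → ((ι → ℕ) → ℝ) → ((ι → ℕ) → ℝ)
  | [], c => c
  | v :: l, c => D v (DL l c)

/-- At most one positive eigenvalue. -/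
def AOPE (q : (ι → ℝ) → (ι → ℝ) → ℝ) : Prop :=
  ∀ x y, 0 < q x x → q x x * q y y ≤ q x y ^ 2

lemma D_comm (u v : ι → ℝ) (c : (ι → ℕ) → ℝ) : D u (D v c) = D v (D u c) := by
  funext β
  simp only [D, Finset.mul_sum]
  rw [Finset.sum_comm]
  refine Finset.sum_congr rfl fun i _ => Finset.sum_congr rfl fun j _ => ?_
  have : β + Pi.single j 1 + Pi.single i 1 = β + Pi.single i 1 + Pi.single j 1 := by
    rw [add_right_comm]
  rw [this]; ring

lemma D_DL (u : ι → ℝ) (l : List (ι → ℝ)) (c : (ι → ℕ) → ℝ) : D u (DL l c) = DL l (D u c) := by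
  induction l with
  | nil => rfl
  | cons v l ih => simp only [DL]; rw [D_comm, ih]

lemma D_apply (v : ι → ℝ) (c : (ι → ℕ) → ℝ) (β : ι → ℕ) :
    D v c β = ∑ i, v i * c (β + Pi.single i 1) := rfl

lemma D_single (i : ι) (c : (ι → ℕ) → ℝ) (β : ι → ℕ) :
    D (Pi.single i 1) c β = c (β + Pi.single i 1) := by
  rw [D_apply, Finset.sum_eq_single i]
  · simp
  · intro j _ hj; simp [Pi.single_apply, hj]
  · simp

lemma D_eq_sum (v : ι → ℝ) (c : (ι → ℕ) → ℝ) (β : ι → ℕ) :
    D v c β = ∑ i, v i * D (Pi.single i 1) c β := by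
  simp only [D_single]; rfl

lemma D_nonneg (v : ι → ℝ) (c : (ι → ℕ) → ℝ) (hv : ∀ i, 0 ≤ v i) (hc : ∀ β, 0 ≤ c β) :
    ∀ β, 0 ≤ D v c β := fun β => Finset.sum_nonneg fun i _ => mul_nonneg (hv i) (hc _)

lemma DL_nonneg (l : List (ι → ℝ)) (c : (ι → ℕ) → ℝ) (hv : ∀ v ∈ l, ∀ i, 0 ≤ v i)
    (hc : ∀ β, 0 ≤ c β) : ∀ β, 0 ≤ DL l c β := by
  induction l with
  | nil => exact hc
  | cons v l ih =>
    apply D_nonneg
    · exact hv v (by simp)
    · exact ih (fun v' hv' => hv v' (by simp [hv']))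

/-- bilinear expansion -/
lemma DD_expand (x y : ι → ℝ) (g : (ι → ℕ) → ℝ) (β : ι → ℕ) :
    D x (D y g) β = ∑ i, ∑ j, x i * y j * g (β + Pi.single i 1 + Pi.single j 1) := by
  simp only [D, Finset.mul_sum]
  refine Finset.sum_congr rfl fun i _ => Finset.sum_congr rfl fun j _ => ?_
  ring

lemma DL_pos (l : List (ι → ℝ)) (c : (ι → ℕ) → ℝ) (hv : ∀ v ∈ l, ∀ i, 0 < v i)
    (hc : ∀ β, 0 ≤ c β) (β γ : ι → ℕ) (hγ : ∑ i, γ i = l.length) (h : 0 < c (β + γ)) :
    0 < DL l c β := by
  induction l generalizing β γ with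
  | nil =>
    have h0 : γ = 0 := by
      funext i
      have := (Finset.sum_eq_zero_iff.mp hγ) i (Finset.mem_univ i)
      simpa using this
    subst h0
    simpa [DL] using h
  | cons v l ih =>
    have hnn : ∀ β, 0 ≤ DL l c β :=
      DL_nonneg l c (fun v' hv' i => (hv v' (by simp [hv']) i).le) hc
    -- choose i with γ i > 0
    have hex : ∃ i, 0 < γ i := by
      by_contra hno
      push Not at hno
      have : ∑ i, γ i = 0 := Finset.sum_eq_zero fun i _ => by have := hno i; omega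
      simp [this] at hγ
    obtain ⟨i, hi⟩ := hex
    let γ' : ι → ℕ := γ - Pi.single i 1
    have hγ' : γ = Pi.single i 1 + γ' := by
      funext j
      by_cases hj : j = i
      · subst hj; simp [γ']; omega
      · simp [γ', Pi.single_apply, hj]
    have hsum : ∑ j, γ' j = l.length := by
      have h1 : ∑ j, γ j = 1 + ∑ j, γ' j := by
        conv_lhs => rw [hγ']
        simp [Finset.sum_add_distrib]
      simp only [List.length_cons] at hγ
      omega
    have h2 : 0 < DL l c (β + Pi.single i 1) := by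
      apply ih (fun v' hv' => hv v' (by simp [hv'])) (β + Pi.single i 1) γ' hsum
      rw [add_assoc, ← hγ']; exact h
    simp only [DL]
    rw [D_apply]
    refine Finset.sum_pos' (fun j _ => mul_nonneg (hv v (by simp) j).le (hnn _)) ⟨i, Finset.mem_univ i, ?_⟩
    exact mul_pos (hv v (by simp) i) h2

lemma DL_exists (l : List (ι → ℝ)) (c : (ι → ℕ) → ℝ) (β : ι → ℕ) (h : DL l c β ≠ 0) :
    ∃ γ, c (β + γ) ≠ 0 := by
  induction l generalizing β with
  | nil => exact ⟨0, by simpa [DL] using h⟩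
  | cons v l ih =>
    simp only [DL, D_apply] at h
    obtain ⟨i, _, hi⟩ := Finset.exists_ne_zero_of_sum_ne_zero h
    obtain ⟨γ, hγ⟩ := ih (β + Pi.single i 1) (right_ne_zero_of_mul hi)
    exact ⟨Pi.single i 1 + γ, by rw [← add_assoc]; exact hγ⟩

/-- From `Q ≤ 0` on the hyperplane `Q(·,v)=0` to the one-positive-eigenvalue inequality. -/
lemma AOPE_of_hyper (A : ι → ι → ℝ) (hs : ∀ i j, A i j = A j i) (v : ι → ℝ)
    (h : ∀ x : ι → ℝ, (∑ i, ∑ j, x i * v j * A i j = 0) → ∑ i, ∑ j, x i * x j * A i j ≤ 0) :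
    AOPE (fun x y => ∑ i, ∑ j, x i * y j * A i j) := by
  intro x y hx
  simp only at hx ⊢
  set q : (ι → ℝ) → (ι → ℝ) → ℝ := fun x y => ∑ i, ∑ j, x i * y j * A i j with hq
  have hsymm : ∀ x y, q x y = q y x := by
    intro x y
    simp only [hq]
    rw [Finset.sum_comm]
    refine Finset.sum_congr rfl fun i _ => Finset.sum_congr rfl fun j _ => ?_
    rw [hs j i]; ring
  have hlin : ∀ (a b : ℝ) (x y z : ι → ℝ), q (fun i => a * x i + b * y i) z = a * q x z + b * q y z := by
    intro a b x y z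
    simp only [hq, Finset.mul_sum, ← Finset.sum_add_distrib]
    refine Finset.sum_congr rfl fun i _ => Finset.sum_congr rfl fun j _ => ?_
    ring
  change q x x * q y y ≤ q x y ^ 2
  change 0 < q x x at hx
  have hxv : q x v ≠ 0 := by
    intro h0
    exact absurd (h x h0) (not_le.mpr hx)
  set t := q y v / q x v with ht
  set z : ι → ℝ := fun i => 1 * y i + (-t) * x i with hz
  have hzv : q z v = 0 := by
    rw [hz, hlin]; rw [ht]; field_simp; ring
  have hzz : q z z ≤ 0 := h z hzv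
  have hexp : q z z = q y y - 2 * t * q x y + t ^ 2 * q x x := by
    have h1 : q z z = 1 * q y z + (-t) * q x z := by
      conv_lhs => rw [hz]
      rw [hlin]
    have h2 : q y z = 1 * q y y + (-t) * q x y := by
      rw [hsymm y z]
      conv_lhs => rw [hz]
      rw [hlin]
    have h3 : q x z = 1 * q x y + (-t) * q x x := by
      rw [hsymm x z]
      conv_lhs => rw [hz]
      rw [hlin, hsymm y x]
    rw [h1, h2, h3]; ring
  have h4 : q x x * q z z ≤ 0 := mul_nonpos_of_nonneg_of_nonpos hx.le hzz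
  rw [hexp] at h4
  nlinarith [sq_nonneg (q x y - t * q x x)]

end Pool.Agent.Helper636.Lor
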