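import Pool.Agent.Helper636.LorMC

set_option autoImplicit false

namespace Pool.Agent.Helper636.Lor

open Finset

variable {ι : Type} [Fintype ι] [DecidableEq ι]

lemma dist_dec (α β : ι → ℕ) (k l : ι) (hk : β k < α k) (hl : α l < β l) :
    ∑ t, ((α - Pi.single k 1 + Pi.single l 1 : ι → ℕ) t - β t) < ∑ t, (α t - β t) := by
  have hkl : k ≠ l := by rintro rfl; omega
  apply Finset.sum_lt_sum
  · intro t _
    by_cases h1 : t = k
    · subst h1; simp [Pi.single_apply, hkl]; omega
    · by_cases h2 : t = l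
      · subst h2; simp [Pi.single_apply, h1]; omega
      · simp [Pi.single_apply, h1, h2]
  · refine ⟨k, Finset.mem_univ k, ?_⟩
    simp [Pi.single_apply, hkl]; omega

lemma dist_dec' (α β : ι → ℕ) (k l : ι) (hk : α k < β k) (hl : β l < α l) :
    ∑ t, (α t - (β - Pi.single k 1 + Pi.single l 1 : ι → ℕ) t) < ∑ t, (α t - β t) := by
  have hkl : l ≠ k := by rintro rfl; omega
  apply Finset.sum_lt_sum
  · intro t _
    by_cases h1 : t = k
    · subst h1; simp [Pi.single_apply]; omega
    · by_cases h2 : t = l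
      · subst h2; simp [Pi.single_apply, h1]; omega
      · simp [Pi.single_apply, h1, h2]
  · refine ⟨l, Finset.mem_univ l, ?_⟩
    simp [Pi.single_apply, hkl]; omega

lemma MC.conn {d : ℕ} {c : (ι → ℕ) → ℝ} (h : MC d c) (hd : 2 ≤ d) (f : ι → ℝ)
    (hf : ∀ i j, i ≠ j → (∃ α, c α ≠ 0 ∧ 0 < α i ∧ 0 < α j) → f i = f j) (i j : ι) :
    ∀ (N : ℕ) (α β : ι → ℕ), c α ≠ 0 → c β ≠ 0 → 0 < α i → 0 < β j →
      ∑ t, (α t - β t) ≤ N → f i = f j := by
  intro N
  induction N with
  | zero =>
    intro α β hα hβ hi hj hN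
    by_cases hij : i = j
    · rw [hij]
    have hle : ∀ t, α t ≤ β t := by
      intro t
      have := (Finset.sum_eq_zero_iff.mp (Nat.le_zero.mp hN)) t (Finset.mem_univ t)
      omega
    exact hf i j hij ⟨β, hβ, lt_of_lt_of_le hi (hle i), hj⟩
  | succ N ih =>
    intro α β hα hβ hi hj hN
    by_cases hij : i = j
    · rw [hij]
    by_cases h1 : 0 < α j
    · exact hf i j hij ⟨α, hα, hi, h1⟩
    by_cases h2 : 0 < β i
    · exact hf i j hij ⟨β, hβ, h2, hj⟩
    by_cases h3 : ∃ k, k ≠ i ∧ β k < α k
    · obtain ⟨k, hki, hk⟩ := h3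
      obtain ⟨l, hl, hc⟩ := h.exch α β hα hβ k hk
      refine ih _ β hc hβ ?_ hj ?_
      · have : i ≠ k := fun e => hki e.symm
        simp [Pi.single_apply, this]; omega
      · have := dist_dec α β k l hk hl
        omega
    by_cases h4 : ∃ k, k ≠ j ∧ α k < β k
    · obtain ⟨k, hkj, hk⟩ := h4
      obtain ⟨l, hl, hc⟩ := h.exch β α hβ hα k hk
      refine ih α _ hα hc hi ?_ ?_
      · have : j ≠ k := fun e => hkj e.symm
        simp [Pi.single_apply, this]; omega
      · have := dist_dec' α β k l hk hl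
        omega
    push Not at h3 h4
    by_cases h5 : ∃ k, k ≠ i ∧ k ≠ j ∧ 0 < α k
    · obtain ⟨k, hki, hkj, hk⟩ := h5
      have hbk : 0 < β k := lt_of_lt_of_le hk (h3 k hki)
      rw [hf i k (fun e => hki e.symm) ⟨α, hα, hi, hk⟩, hf k j hkj ⟨β, hβ, hbk, hj⟩]
    push Not at h5
    have hαi : α i = d := by
      rw [← h.deg α hα, Finset.sum_eq_single i]
      · intro t _ ht
        by_cases htj : t = j
        · subst htj; omega
        · have := h5 t ht htj; omega
      · simp
    obtain ⟨l, hl, hc⟩ := h.exch α β hα hβ i (by omega)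
    have hlj : l = j := by
      by_contra hlj
      have := h4 l hlj
      omega
    subst hlj
    refine hf i l hij ⟨_, hc, ?_, ?_⟩
    · simp [Pi.single_apply, hij]; omega
    · simp [Pi.single_apply]

lemma T_right (v x : ι → ℝ) (l : List (ι → ℝ)) (c : (ι → ℕ) → ℝ) (i : ι) :
    D x (D v (DL l (D (Pi.single i 1) c))) 0
      = ∑ j, DL (v :: l) c (0 + Pi.single i 1 + Pi.single j 1) * x j := by
  have h1 : D v (DL l (D (Pi.single i 1) c)) = D (Pi.single i 1) (DL (v :: l) c) := by
    rw [← D_DL]
    exact D_comm v (Pi.single i 1) (DL l c)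
  rw [h1, D_apply]
  refine Finset.sum_congr rfl fun j _ => ?_
  rw [D_single, add_right_comm]
  exact mul_comm _ _

lemma Q_eq (v x y : ι → ℝ) (l : List (ι → ℝ)) (c : (ι → ℕ) → ℝ) :
    D x (D y (DL (v :: l) c)) 0
      = ∑ i, v i * D x (D y (DL l (D (Pi.single i 1) c))) 0 := by
  have h2 : D x (D y (DL (v :: l) c)) = D v (D x (D y (DL l c))) := by
    show D x (D y (D v (DL l c))) = _
    rw [D_comm y v (DL l c)]
    exact D_comm x v _
  rw [h2, D_eq_sum]
  refine Finset.sum_congr rfl fun i _ => ?_
  congr 1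
  have h3 : D (Pi.single i 1) (D x (D y (DL l c))) = D x (D y (DL l (D (Pi.single i 1) c))) := by
    rw [← D_DL (Pi.single i 1) l c]
    rw [D_comm (Pi.single i 1) x, D_comm (Pi.single i 1) y (DL l c)]
  rw [h3]

set_option maxHeartbeats 4000000 in
theorem posCLC (d : ℕ) : ∀ (c : (ι → ℕ) → ℝ), MC (d + 2) c → ∀ vs : List (ι → ℝ),
    vs.length = d → (∀ v ∈ vs, ∀ i, 0 < v i) → AOPE (fun x y => D x (D y (DL vs c)) 0) := by
  induction d with
  | zero =>
    intro c hc vs hvs _
    have : vs = [] := List.length_eq_zero_iff.mp hvs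
    subst this
    exact hc.base
  | succ d ih =>
    intro c hc vs hvs hpos
    obtain ⟨v, l, rfl⟩ : ∃ v l, vs = v :: l := by
      cases vs with
      | nil => simp at hvs
      | cons v l => exact ⟨v, l, rfl⟩
    have hl : l.length = d := by simpa using hvs
    have hvpos : ∀ i, 0 < v i := hpos v (by simp)
    have hlpos : ∀ v ∈ l, ∀ i, 0 < v i := fun v' hv' => hpos v' (by simp [hv'])
    set A : ι → ι → ℝ := fun i j => DL (v :: l) c (0 + Pi.single i 1 + Pi.single j 1) with hA
    have hform : (fun x y : ι → ℝ => D x (D y (DL (v :: l) c)) 0)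
        = fun x y => ∑ i, ∑ j, x i * y j * A i j := by
      funext x y; exact DD_expand x y (DL (v :: l) c) 0
    have hsymm : ∀ i j, A i j = A j i := by
      intro i j; simp only [hA]; rw [add_right_comm]
    have hAnn : ∀ i j, 0 ≤ A i j := fun i j =>
      DL_nonneg _ c (fun v' hv' i => (hpos v' hv' i).le) hc.nonneg _
    set T : ι → (ι → ℝ) → (ι → ℝ) → ℝ := fun i x y => D x (D y (DL l (D (Pi.single i 1) c))) 0
      with hT
    have hTA : ∀ i, AOPE (T i) := fun i => ih _ (hc.deriv i) l hl hlpos
    have hTs : ∀ i x y, T i x y = T i y x := by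
      intro i x y; simp only [hT]; rw [D_comm]
    -- T i x v = (A x)_i
    have hTv : ∀ i x, T i x v = ∑ j, A i j * x j := by
      intro i x
      exact T_right v x l c i
    -- Q(x,x) = Σ v_i T i x x
    have hQ : ∀ x, ∑ i, ∑ j, x i * x j * A i j = ∑ i, v i * T i x x := by
      intro x
      have h1 : ∑ i, ∑ j, x i * x j * A i j = D x (D x (DL (v :: l) c)) 0 :=
        (DD_expand x x (DL (v :: l) c) 0).symm
      rw [h1]
      exact Q_eq v x x l c
    set p : ι → ℝ := fun i => (∑ j, A i j * v j) / v i with hp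
    have hpv : ∀ i, ∑ j, A i j * v j = p i * v i := by
      intro i
      have := (hvpos i).ne'
      simp only [hp]; field_simp
    have hp0 : ∀ i, 0 ≤ p i := fun i =>
      div_nonneg (Finset.sum_nonneg fun j _ => mul_nonneg (hAnn i j) (hvpos j).le) (hvpos i).le
    have hconn : ∀ f : ι → ℝ, (∀ i j, 0 < A i j → f i = f j) →
        ∀ i j, 0 < p i → 0 < p j → f i = f j := by
      intro f hf i j hi hj
      have hsupp : ∀ i, 0 < p i → ∃ α, c α ≠ 0 ∧ 0 < α i := by
        intro i hi
        have h1 : ∑ j, A i j * v j ≠ 0 := by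
          rw [hpv i]; exact (mul_pos hi (hvpos i)).ne'
        obtain ⟨k, _, hk⟩ := Finset.exists_ne_zero_of_sum_ne_zero h1
        obtain ⟨γ, hγ⟩ := DL_exists _ _ _ (left_ne_zero_of_mul hk)
        exact ⟨_, hγ, by simp⟩
      obtain ⟨α, hα, hαi⟩ := hsupp i hi
      obtain ⟨β, hβ, hβj⟩ := hsupp j hj
      refine hc.conn (by omega) f ?_ i j _ α β hα hβ hαi hβj le_rfl
      rintro a b hab ⟨γ, hγ, ha, hb⟩
      apply hf a b
      simp only [hA]
      have hsub : (0 + Pi.single a 1 + Pi.single b 1 : ι → ℕ)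
          + (γ - Pi.single a 1 - Pi.single b 1) = γ := by
        funext t
        by_cases h1 : t = a
        · subst h1; simp [Pi.single_apply, hab]; omega
        · by_cases h2 : t = b
          · subst h2; simp [Pi.single_apply, h1]; omega
          · simp [Pi.single_apply, h1, h2]
      have hdeg := hc.deg γ hγ
      apply DL_pos _ c hpos hc.nonneg _ (γ - Pi.single a 1 - Pi.single b 1)
      · have : ∑ t, (((0 + Pi.single a 1 + Pi.single b 1 : ι → ℕ)
            + (γ - Pi.single a 1 - Pi.single b 1) : ι → ℕ) t) = d + 1 + 2 := by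
          rw [hsub]; exact hdeg
        simp only [Pi.add_apply, Finset.sum_add_distrib, Finset.sum_pi_single', Finset.mem_univ,
          if_true, Pi.zero_apply, Finset.sum_const_zero] at this
        simp only [List.length_cons, hl]
        omega
      · rw [hsub]
        exact lt_of_le_of_ne (hc.nonneg γ) (Ne.symm hγ)
    have hsq : ∀ x : ι → ℝ, ∑ i, ∑ j, x i * x j * A i j ≤ ∑ i, (∑ j, A i j * x j) ^ 2 / p i := by
      intro x
      rw [hQ x]
      refine Finset.sum_le_sum fun i _ => ?_
      have hvv : T i v v = p i * v i := by rw [hTv i v]; exact hpv i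
      rcases (hp0 i).lt_or_eq with h | h
      · have h1 : 0 < T i v v := by rw [hvv]; exact mul_pos h (hvpos i)
        have h2 := hTA i v x h1
        rw [hvv, hTs i v x, hTv i x] at h2
        rw [le_div_iff₀ h]
        nlinarith [hvpos i]
      · -- p i = 0
        have hz : T i v v = 0 := by rw [hvv, ← h, zero_mul]
        have hG : ∀ β, 0 ≤ DL l (D (Pi.single i 1) c) β :=
          DL_nonneg l _ (fun v' hv' i => (hlpos v' hv' i).le) (fun β => by
            rw [D_single]; exact hc.nonneg _)
        have hexp := DD_expand v v (DL l (D (Pi.single i 1) c)) 0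
        have hz' : ∑ a, ∑ b, v a * v b * DL l (D (Pi.single i 1) c)
            (0 + Pi.single a 1 + Pi.single b 1) = 0 := by rw [← hexp]; exact hz
        have hterm : ∀ a b, 0 ≤ v a * v b * DL l (D (Pi.single i 1) c)
            (0 + Pi.single a 1 + Pi.single b 1) := fun a b =>
          mul_nonneg (mul_nonneg (hvpos a).le (hvpos b).le) (hG _)
        have hzero : ∀ a b, DL l (D (Pi.single i 1) c) (0 + Pi.single a 1 + Pi.single b 1) = 0 := by
          intro a b
          have h3 := (Finset.sum_eq_zero_iff_of_nonneg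
            (fun a _ => Finset.sum_nonneg fun b _ => hterm a b)).mp hz' a (Finset.mem_univ a)
          have h4 := (Finset.sum_eq_zero_iff_of_nonneg (fun b _ => hterm a b)).mp h3 b
            (Finset.mem_univ b)
          rcases mul_eq_zero.mp h4 with h5 | h5
          · exact absurd h5 (mul_pos (hvpos a) (hvpos b)).ne'
          · exact h5
        have hxx : T i x x = 0 := by
          simp only [hT]
          rw [DD_expand]
          exact Finset.sum_eq_zero fun a _ => Finset.sum_eq_zero fun b _ => by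
            rw [hzero a b, mul_zero]
        rw [hxx, ← h]; simp
    rw [hform]
    apply AOPE_of_hyper A hsymm v
    intro x hx
    exact bochner A hsymm hAnn v hvpos p hpv hconn hsq x hx

end Pool.Agent.Helper636.Lor
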