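import Pool.Agent.Helper636.LorApp

set_option autoImplicit false

namespace Pool.Agent.Helper636.Lor

open Finset

variable {m n : ℕ}

/-- index type -/
abbrev I (n m : ℕ) : Type := (Fin n ⊕ Fin m) ⊕ Fin m

/-- complementary part and base part -/
def w (Y X : Finset (Fin m)) : I n m → ℕ :=
  Sum.elim (Sum.elim (fun _ => 0) (fun e => if e ∈ Y ∧ e ∉ X then 1 else 0))
    (fun e => if e ∈ X then 1 else 0)

def av (α : Fin n → ℕ) : I n m → ℕ := Sum.elim (Sum.elim α (fun _ => 0)) (fun _ => 0)

/-- direction -/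
noncomputable def dir (e : Fin m) : I n m → ℝ :=
  Pi.single (Sum.inl (Sum.inr e)) 1 + Pi.single (Sum.inr e) 1

lemma D_add {ι : Type} [Fintype ι] [DecidableEq ι] (u v : ι → ℝ) (g : (ι → ℕ) → ℝ) (γ : ι → ℕ) :
    D (u + v) g γ = D u g γ + D v g γ := by
  simp only [D_apply, Pi.add_apply, add_mul, Finset.sum_add_distrib]

lemma D_dir (e : Fin m) (g : (I n m → ℕ) → ℝ) (γ : I n m → ℕ) :
    D (dir e) g γ = g (γ + Pi.single (Sum.inl (Sum.inr e)) 1) + g (γ + Pi.single (Sum.inr e) 1) := by
  rw [dir, D_add, D_single, D_single]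

lemma DL_dir (g : (I n m → ℕ) → ℝ) (l : List (Fin m)) (hl : l.Nodup) (γ : I n m → ℕ) :
    DL (l.map dir) g γ = ∑ X ∈ l.toFinset.powerset, g (γ + w l.toFinset X) := by
  induction l generalizing γ with
  | nil =>
    simp only [List.map_nil, DL, List.toFinset_nil, Finset.powerset_empty, Finset.sum_singleton]
    congr 1
    funext t
    rcases t with (t | t) | t <;> simp [w]
  | cons e l ih =>
    have hnd := List.nodup_cons.mp hl
    have hel : e ∉ l.toFinset := by simpa using hnd.1
    simp only [List.map_cons, DL]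
    rw [D_dir, ih hnd.2, ih hnd.2, List.toFinset_cons, Finset.sum_powerset_insert hel]
    congr 1
    · refine Finset.sum_congr rfl fun X hX => ?_
      have heX : e ∉ X := fun h => hel (Finset.mem_powerset.mp hX h)
      congr 1
      funext t
      rcases t with (t | t) | t
      · simp [w]
      · by_cases hte : t = e
        · subst hte
          have : t ∉ l := by simpa using hel
          simp [w, this, heX]
        · simp [w, hte]
      · simp [w]
    · refine Finset.sum_congr rfl fun X hX => ?_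
      have heX : e ∉ X := fun h => hel (Finset.mem_powerset.mp hX h)
      congr 1
      funext t
      rcases t with (t | t) | t
      · simp [w]
      · by_cases hte : t = e
        · subst hte
          have : t ∉ l := by simpa using hel
          simp [w, this]
        · simp [w, hte]
      · by_cases hte : t = e
        · subst hte
          simp [w, heX]
        · simp [w, hte]

/-- the big M-convex set -/
def KK (M : Matroid (Fin m)) (S : Fin n → Finset (Fin m)) (β : I n m → ℕ) : Prop :=
  (∃ ψ : Fin m → Fin n ⊕ Fin m, (∀ e, al S e (ψ e)) ∧ typ ψ = fun t => β (Sum.inl t)) ∧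
  (∃ B : Finset (Fin m), M.IsBase (B : Set (Fin m)) ∧
    (fun e => β (Sum.inr e)) = fun e => if e ∈ B then 1 else 0)

lemma KK_exch (M : Matroid (Fin m)) (S : Fin n → Finset (Fin m)) : Exch (KK M S) :=
  prod_Exch _ _ (typ_Exch (al S)) (base_Exch M)

lemma KK_deg (M : Matroid (Fin m)) (S : Fin n → Finset (Fin m)) (d : ℕ)
    (hd : ∀ B : Finset (Fin m), M.IsBase (B : Set (Fin m)) → B.card = d) (β : I n m → ℕ)
    (h : KK M S β) : ∑ i, β i = m + d := by
  obtain ⟨⟨ψ, _, h2⟩, B, hB, h3⟩ := h
  rw [Fintype.sum_sum_type]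
  congr 1
  · have := typ_sum ψ
    rw [h2] at this
    simpa using this
  · have h4 : ∀ e, β (Sum.inr e) = if e ∈ B then 1 else 0 := fun e => congrFun h3 e
    simp only [h4]
    rw [← hd B hB]
    simp

lemma KK_iff (M : Matroid (Fin m)) (S : Fin n → Finset (Fin m)) (α : Fin n → ℕ)
    (X : Finset (Fin m)) :
    KK M S (av α + w univ X) ↔ M.IsBase (X : Set (Fin m)) ∧ Asg S X α := by
  rw [← J_iff]
  have e1 : (fun t => (av α + w univ X : I n m → ℕ) (Sum.inl t))
      = Sum.elim α (fun e => if e ∈ X then 0 else 1) := by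
    funext t
    rcases t with t | t
    · simp [av, w]
    · by_cases h : t ∈ X <;> simp [av, w, h]
  have e2 : (fun e => (av α + w univ X : I n m → ℕ) (Sum.inr e))
      = fun e => if e ∈ X then 1 else 0 := by
    funext t
    simp [av, w]
  unfold KK
  rw [e1, e2]
  constructor
  · rintro ⟨h1, B, hB, h2⟩
    have : X = B := by
      ext e
      have := congrFun h2 e
      by_cases h3 : e ∈ X <;> by_cases h4 : e ∈ B <;> simp [h3, h4] at this ⊢
    subst this
    exact ⟨hB, h1⟩
  · rintro ⟨h1, h2⟩
    exact ⟨h2, X, h1, rfl⟩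

/-- extension by zero of a vector on `Fin n` -/
def ext (u : Fin n → ℝ) : I n m → ℝ := Sum.elim (Sum.elim u (fun _ => 0)) (fun _ => 0)

open Classical in
theorem hess (M : Matroid (Fin m)) (S : Fin n → Finset (Fin m)) (d : ℕ)
    (hd : ∀ B : Finset (Fin m), M.IsBase (B : Set (Fin m)) → B.card = d)
    (c : (Fin n → ℕ) → ℕ)
    (hc : ∀ α, ∑ i, α i = d → c α = (univ.filter (fun B : Finset (Fin m) =>
      M.IsBase (B : Set (Fin m)) ∧ Asg S B α)).card)
    (β : Fin n → ℕ) (hβ : ∑ i, β i + 2 = d) :
    AOPE (fun u v : Fin n → ℝ => ∑ i, ∑ j, u i * v j *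
      (c (β + (Pi.single i 1 : Fin n → ℕ) + (Pi.single j 1 : Fin n → ℕ)) : ℝ)) := by
  set k : (I n m → ℕ) → ℝ := fun γ => if KK M S γ then (1 : ℝ) else 0 with hk
  have hmc : MC (m + d) k := Exch.mc (KK M S) (KK_exch M S) (m + d) (KK_deg M S d hd)
  have hmc2 : MC ((m + 2) + ∑ i, β i) k := by
    have : m + d = (m + 2) + ∑ i, β i := by omega
    rw [← this]; exact hmc
  set c0 : (I n m → ℕ) → ℝ := fun γ => k (γ + av β) with hc0
  have hmc0 : MC (m + 2) c0 := hmc2.shift (av β) (by
    simp [av, Fintype.sum_sum_type])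
  have hA := nnCLC m c0 hmc0 ((univ : Finset (Fin m)).toList.map dir) (by simp) (by
    intro v hv i
    obtain ⟨e, _, rfl⟩ := List.mem_map.mp hv
    simp only [dir, Pi.add_apply]
    have h1 : ∀ (t s : I n m), (0 : ℝ) ≤ (Pi.single t 1 : I n m → ℝ) s := by
      intro t s
      by_cases h : s = t
      · subst h; simp
      · simp [h]
    exact add_nonneg (h1 _ _) (h1 _ _))
  have hval : ∀ i j : Fin n, DL ((univ : Finset (Fin m)).toList.map dir) c0
      (0 + Pi.single (Sum.inl (Sum.inl i)) 1 + Pi.single (Sum.inl (Sum.inl j)) 1)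
      = (c (β + (Pi.single i 1 : Fin n → ℕ) + (Pi.single j 1 : Fin n → ℕ)) : ℝ) := by
    intro i j
    rw [DL_dir c0 _ (Finset.nodup_toList _), Finset.toList_toFinset, Finset.powerset_univ]
    rw [hc _ (by
      simp only [Pi.add_apply, Finset.sum_add_distrib, Finset.sum_pi_single', Finset.mem_univ,
        if_true]
      omega)]
    rw [Finset.card_filter]
    push_cast
    refine Finset.sum_congr rfl fun X _ => ?_
    simp only [hc0, hk]
    have hvec : (0 + Pi.single (Sum.inl (Sum.inl i)) 1 + Pi.single (Sum.inl (Sum.inl j)) 1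
        + w univ X + av β : I n m → ℕ)
        = av (β + (Pi.single i 1 : Fin n → ℕ) + (Pi.single j 1 : Fin n → ℕ)) + w univ X := by
      funext t
      rcases t with (t | t) | t
      · simp [av, w, Pi.single_apply]; omega
      · simp [av, w]
      · simp [av, w]
    rw [hvec]
    congr 1
    exact propext (KK_iff M S _ X)
  have hform : ∀ u v : Fin n → ℝ, D (ext u) (D (ext v)
      (DL ((univ : Finset (Fin m)).toList.map dir) c0)) 0
      = ∑ i, ∑ j, u i * v j *
        (c (β + (Pi.single i 1 : Fin n → ℕ) + (Pi.single j 1 : Fin n → ℕ)) : ℝ) := by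
    intro u v
    rw [DD_expand]
    simp only [Fintype.sum_sum_type, ext, Sum.elim_inl, Sum.elim_inr, zero_mul, mul_zero,
      Finset.sum_const_zero, add_zero]
    refine Finset.sum_congr rfl fun i _ => Finset.sum_congr rfl fun j _ => ?_
    rw [hval i j]
  intro u v hu
  have h1 := hA (ext u) (ext v)
  simp only [hform] at h1
  exact h1 hu

end Pool.Agent.Helper636.Lor
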