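import Pool.Agent.Helper636.LorCLC

set_option autoImplicit false

namespace Pool.Agent.Helper636.Lor

open Finset Filter Topology

variable {ι : Type} [Fintype ι] [DecidableEq ι]

lemma DL_cont (c : (ι → ℕ) → ℝ) (l : List (ι → ℝ)) (β : ι → ℕ) :
    Continuous (fun ε : ℝ => DL (l.map (fun v i => v i + ε)) c β) := by
  induction l generalizing β with
  | nil => simp only [List.map_nil, DL]; exact continuous_const
  | cons v l ih =>
    simp only [List.map_cons, DL, D_apply]
    exact continuous_finset_sum _ fun i _ => (continuous_const.add continuous_id).mul (ih _)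

theorem nnCLC (d : ℕ) (c : (ι → ℕ) → ℝ) (hc : MC (d + 2) c) (vs : List (ι → ℝ))
    (hlen : vs.length = d) (hnn : ∀ v ∈ vs, ∀ i, 0 ≤ v i) :
    AOPE (fun x y => D x (D y (DL vs c)) 0) := by
  intro x y hx
  simp only at hx ⊢
  set q : ℝ → (ι → ℝ) → (ι → ℝ) → ℝ :=
    fun ε x y => D x (D y (DL (vs.map (fun v i => v i + ε)) c)) 0 with hq
  have hcont : ∀ x y, Continuous (fun ε => q ε x y) := by
    intro x y
    simp only [hq, DD_expand]
    exact continuous_finset_sum _ fun i _ => continuous_finset_sum _ fun j _ =>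
      continuous_const.mul (DL_cont c vs _)
  have hq0 : ∀ x y, q 0 x y = D x (D y (DL vs c)) 0 := by
    intro x y
    simp [hq]
  rw [← hq0, ← hq0, ← hq0]
  rw [← hq0] at hx
  have ht : ∀ x y, Tendsto (fun ε => q ε x y) (𝓝[>] 0) (𝓝 (q 0 x y)) := fun x y =>
    ((hcont x y).tendsto 0).mono_left nhdsWithin_le_nhds
  have hev : ∀ᶠ ε in 𝓝[>] (0 : ℝ), 0 < q ε x x := (ht x x).eventually (lt_mem_nhds hx)
  have hev2 : ∀ᶠ ε in 𝓝[>] (0 : ℝ), q ε x x * q ε y y ≤ q ε x y ^ 2 := by
    filter_upwards [hev, self_mem_nhdsWithin] with ε h1 h2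
    have h5 : AOPE (fun x y => D x (D y (DL (vs.map (fun v i => v i + ε)) c)) 0) := by
      apply posCLC d c hc (vs.map (fun v i => v i + ε)) (by simpa using hlen)
      intro v hv i
      obtain ⟨w, hw, rfl⟩ := List.mem_map.mp hv
      have := hnn w hw i
      have h3 : (0 : ℝ) < ε := h2
      simp only
      linarith
    exact h5 x y h1
  exact le_of_tendsto_of_tendsto ((ht x x).mul (ht y y)) ((ht x y).pow 2) hev2

end Pool.Agent.Helper636.Lor
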