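import Pool.Agent.Helper636.LorSpec

set_option autoImplicit false

namespace Pool.Agent.Helper636.Lor

open Finset

variable {ι : Type} [Fintype ι] [DecidableEq ι]

/-- `c` is the indicator function of an M-convex set of degree `d`. -/
structure MC (d : ℕ) (c : (ι → ℕ) → ℝ) : Prop where
  zo : ∀ α, c α = 0 ∨ c α = 1
  deg : ∀ α, c α ≠ 0 → ∑ i, α i = d
  exch : ∀ α β, c α ≠ 0 → c β ≠ 0 → ∀ i, β i < α i →
    ∃ j, α j < β j ∧ c (α - Pi.single i 1 + Pi.single j 1) ≠ 0

lemma MC.nonneg {d : ℕ} {c : (ι → ℕ) → ℝ} (h : MC d c) (α : ι → ℕ) : 0 ≤ c α := by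
  rcases h.zo α with h1 | h1 <;> rw [h1]; exact zero_le_one

lemma MC.shift {d k : ℕ} {c : (ι → ℕ) → ℝ} (h : MC (d + k) c) (β : ι → ℕ) (hβ : ∑ i, β i = k) :
    MC d (fun γ => c (γ + β)) where
  zo := fun α => h.zo _
  deg := by
    intro α hα
    have := h.deg _ hα
    simp only [Pi.add_apply, Finset.sum_add_distrib] at this
    omega
  exch := by
    intro α γ hα hγ i hi
    obtain ⟨j, hj, hc⟩ := h.exch (α + β) (γ + β) hα hγ i (by simpa using hi)
    refine ⟨j, by simpa using hj, ?_⟩
    have : α - Pi.single i 1 + Pi.single j 1 + β = α + β - Pi.single i 1 + Pi.single j 1 := by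
      funext k
      by_cases hk : k = i
      · subst hk; simp; omega
      · simp [Pi.single_apply, hk]; omega
    rw [this]; exact hc

lemma MC.deriv {d : ℕ} {c : (ι → ℕ) → ℝ} (h : MC (d + 1) c) (i : ι) :
    MC d (D (Pi.single i 1) c) := by
  have := h.shift (Pi.single i 1) (by simp)
  convert this using 1
  funext β
  exact D_single i c β

lemma AOPE_of_lin (A : ι → ι → ℝ) (hs : ∀ i j, A i j = A j i) (l : ι → ℝ)
    (h : ∀ x : ι → ℝ, (∑ i, l i * x i = 0) → ∑ i, ∑ j, x i * x j * A i j ≤ 0) :
    AOPE (fun x y => ∑ i, ∑ j, x i * y j * A i j) := by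
  intro x y hx
  simp only at hx ⊢
  set q : (ι → ℝ) → (ι → ℝ) → ℝ := fun x y => ∑ i, ∑ j, x i * y j * A i j with hq
  have hsymm : ∀ x y, q x y = q y x := by
    intro x y
    simp only [hq]
    rw [Finset.sum_comm]
    refine Finset.sum_congr rfl fun i _ => Finset.sum_congr rfl fun j _ => ?_
    rw [hs j i]; ring
  have hlin : ∀ (a b : ℝ) (x y z : ι → ℝ), q (fun i => a * x i + b * y i) z = a * q x z + b * q y z := by
    intro a b x y z
    simp only [hq, Finset.mul_sum, ← Finset.sum_add_distrib]
    refine Finset.sum_congr rfl fun i _ => Finset.sum_congr rfl fun j _ => ?_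
    ring
  change q x x * q y y ≤ q x y ^ 2
  change 0 < q x x at hx
  have hxv : ∑ i, l i * x i ≠ 0 := by
    intro h0
    exact absurd (h x h0) (not_le.mpr hx)
  set t := (∑ i, l i * y i) / (∑ i, l i * x i) with ht
  set z : ι → ℝ := fun i => 1 * y i + (-t) * x i with hz
  have hzv : ∑ i, l i * z i = 0 := by
    have : ∑ i, l i * z i = (∑ i, l i * y i) - t * ∑ i, l i * x i := by
      rw [Finset.mul_sum, ← Finset.sum_sub_distrib]
      refine Finset.sum_congr rfl fun i _ => ?_
      simp only [hz]; ring
    rw [this, ht]; field_simp; ring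
  have hzz : q z z ≤ 0 := h z hzv
  have hexp : q z z = q y y - 2 * t * q x y + t ^ 2 * q x x := by
    have h1 : q z z = 1 * q y z + (-t) * q x z := by
      conv_lhs => rw [hz]
      rw [hlin]
    have h2 : q y z = 1 * q y y + (-t) * q x y := by
      rw [hsymm y z]
      conv_lhs => rw [hz]
      rw [hlin]
    have h3 : q x z = 1 * q x y + (-t) * q x x := by
      rw [hsymm x z]
      conv_lhs => rw [hz]
      rw [hlin, hsymm y x]
    rw [h1, h2, h3]; ring
  have h4 : q x x * q z z ≤ 0 := mul_nonpos_of_nonneg_of_nonpos hx.le hzz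
  rw [hexp] at h4
  nlinarith [sq_nonneg (q x y - t * q x x)]

/-- A symmetric transitive relation has nonnegative quadratic form. -/
lemma rel_form_nonneg (R : ι → ι → Prop) [DecidableRel R] (hs : ∀ i j, R i j → R j i)
    (ht : ∀ i j k, R i j → R j k → R i k) (x : ι → ℝ) :
    0 ≤ ∑ i, ∑ j, x i * x j * (if R i j then (1 : ℝ) else 0) := by
  let rep : ι → Finset ι := fun i => Finset.univ.filter (fun j => R i j)
  have hiff : ∀ i j, R i j ↔ (R i i ∧ R j j ∧ rep i = rep j) := by
    intro i j
    constructor
    · intro h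
      refine ⟨ht i j i h (hs i j h), ht j i j (hs i j h) h, ?_⟩
      ext k
      simp only [rep, Finset.mem_filter, Finset.mem_univ, true_and]
      exact ⟨fun h' => ht j i k (hs i j h) h', fun h' => ht i j k h h'⟩
    · rintro ⟨_, hj, he⟩
      have : j ∈ rep j := by simp [rep, hj]
      rw [← he] at this
      simpa [rep] using this
  have hkey : ∑ i, ∑ j, x i * x j * (if R i j then (1 : ℝ) else 0)
      = ∑ T : Finset ι, (∑ i, (if (R i i ∧ rep i = T) then x i else 0)) ^ 2 := by
    have h1 : ∀ T : Finset ι, (∑ i, (if (R i i ∧ rep i = T) then x i else 0)) ^ 2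
        = ∑ i, ∑ j, (if (R i i ∧ rep i = T) then x i else 0) *
            (if (R j j ∧ rep j = T) then x j else 0) := by
      intro T
      rw [sq, Finset.sum_mul_sum]
    simp only [h1]
    conv_rhs => rw [Finset.sum_comm]
    refine Finset.sum_congr rfl fun i _ => ?_
    conv_rhs => rw [Finset.sum_comm]
    refine Finset.sum_congr rfl fun j _ => ?_
    rw [Finset.sum_eq_single (rep i)]
    · by_cases h : R i j
      · obtain ⟨h2, h3, h4⟩ := (hiff i j).mp h
        simp [h, h2, h3, h4]
      · simp only [h, if_false, mul_zero]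
        by_cases h2 : R i i
        · by_cases h3 : R j j
          · by_cases h4 : rep j = rep i
            · exact absurd ((hiff i j).mpr ⟨h2, h3, h4.symm⟩) h
            · simp [h4]
          · simp [h3]
        · simp [h2]
    · intro T _ hT
      have : ¬ (R i i ∧ rep i = T) := fun h => hT h.2.symm
      simp [this]
    · simp
  rw [hkey]
  exact Finset.sum_nonneg fun T _ => sq_nonneg _

lemma MC.base {c : (ι → ℕ) → ℝ} (h : MC 2 c) : AOPE (fun x y => D x (D y c) 0) := by
  classical
  set A : ι → ι → ℝ := fun i j => c (0 + Pi.single i 1 + Pi.single j 1) with hA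
  have hform : (fun x y : ι → ℝ => D x (D y c) 0) = fun x y => ∑ i, ∑ j, x i * y j * A i j := by
    funext x y; exact DD_expand x y c 0
  rw [hform]
  have hsymm : ∀ i j, A i j = A j i := by
    intro i j; simp only [hA]; rw [add_right_comm]
  have hzo : ∀ i j, A i j = 0 ∨ A i j = 1 := fun i j => h.zo _
  set N : ι → Prop := fun i => ∃ j, A i j ≠ 0 with hN
  -- transitivity
  have htrans : ∀ i j k, N j → A i j = 0 → A j k = 0 → A i k = 0 := by
    intro i j k hj hij hjk
    by_contra hik
    obtain ⟨l, hl⟩ := hj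
    have hil : l ≠ i := by rintro rfl; exact hl (by rw [hsymm]; exact hij)
    have hkl : l ≠ k := by rintro rfl; exact hl hjk
    have hjkne : j ≠ k := by
      rintro rfl
      exact hik hij
    have hjine : j ≠ i := by
      rintro rfl
      exact hik hjk
    -- β = e_j + e_l, α = e_i + e_k; remove l from β
    obtain ⟨m, hm, hc⟩ := h.exch (0 + Pi.single j 1 + Pi.single l 1) (0 + Pi.single i 1 + Pi.single k 1) hl hik l
      (by simp [Pi.single_apply, hil, hkl])
    have hmik : m = i ∨ m = k := by
      by_contra hno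
      push Not at hno
      simp [Pi.single_apply, hno.1, hno.2] at hm
    have heq : (0 + Pi.single j 1 + Pi.single l 1 - Pi.single l 1 + Pi.single m 1 : ι → ℕ)
        = 0 + Pi.single j 1 + Pi.single m 1 := by
      funext t; simp
    rw [heq] at hc
    rcases hmik with rfl | rfl
    · exact hc (by have := hij; rw [hsymm] at this; exact this)
    · exact hc hjk
  apply AOPE_of_lin A hsymm (fun i => if N i then 1 else 0)
  intro x hx
  set R : ι → ι → Prop := fun i j => N i ∧ N j ∧ A i j = 0 with hR
  have hRs : ∀ i j, R i j → R j i := fun i j ⟨a, b, c'⟩ => ⟨b, a, by rw [hsymm]; exact c'⟩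
  have hRt : ∀ i j k, R i j → R j k → R i k := by
    rintro i j k ⟨a, b, c'⟩ ⟨_, e, f⟩
    exact ⟨a, e, htrans i j k b c' f⟩
  have hdec : ∑ i, ∑ j, x i * x j * A i j
      = (∑ i, (if N i then (1 : ℝ) else 0) * x i) ^ 2
        - ∑ i, ∑ j, x i * x j * (if R i j then (1 : ℝ) else 0) := by
    rw [sq, Finset.sum_mul_sum, ← Finset.sum_sub_distrib]
    refine Finset.sum_congr rfl fun i _ => ?_
    rw [← Finset.sum_sub_distrib]
    refine Finset.sum_congr rfl fun j _ => ?_
    rcases hzo i j with h0 | h1
    · by_cases hi : N i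
      · by_cases hj : N j
        · have : R i j := ⟨hi, hj, h0⟩
          simp only [hi, hj, this, h0, if_true]; ring
        · have : ¬ R i j := fun h' => hj h'.2.1
          simp [hj, this, h0]
      · have : ¬ R i j := fun h' => hi h'.1
        simp [hi, this, h0]
    · have hi : N i := ⟨j, by rw [h1]; exact one_ne_zero⟩
      have hj : N j := ⟨i, by rw [hsymm, h1]; exact one_ne_zero⟩
      have : ¬ R i j := fun h' => by
        have := h'.2.2; rw [h1] at this; exact one_ne_zero this
      simp only [hi, hj, this, h1, if_true, if_false]; ring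
  rw [hdec, hx]
  have := rel_form_nonneg R hRs hRt x
  nlinarith

end Pool.Agent.Helper636.Lor
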