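import Pool.Agent.Helper636.LorBasic

set_option autoImplicit false

namespace Pool.Agent.Helper636.Lor

open Finset

variable {ι : Type} [Fintype ι] [DecidableEq ι]

/-- spectral form of a real symmetric matrix: if every eigenvector for a positive eigenvalue is
orthogonal to `y`, then the form is nonpositive at `y`. -/
lemma form_nonpos (B : Matrix ι ι ℝ) (hB : ∀ i j, B i j = B j i) (y : ι → ℝ)
    (h : ∀ (b : ι → ℝ) (lam : ℝ), 0 < lam → (∀ i, ∑ j, B i j * b j = lam * b i) →
      ∑ i, b i * y i = 0) :
    ∑ i, ∑ j, y i * y j * B i j ≤ 0 := by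
  have hH : B.IsHermitian := by
    ext i j; simp [Matrix.conjTranspose_apply, hB i j]
  let Y : EuclideanSpace ℝ ι := WithLp.toLp 2 y
  let Z : EuclideanSpace ℝ ι := WithLp.toLp 2 (B.mulVec y)
  have h1 : ∑ i, ∑ j, y i * y j * B i j = inner ℝ Y Z := by
    simp only [Y, Z, PiLp.inner_apply, Matrix.mulVec, dotProduct]
    refine Finset.sum_congr rfl fun i _ => ?_
    simp only [RCLike.inner_apply, conj_trivial, Finset.sum_mul]
    refine Finset.sum_congr rfl fun j _ => ?_
    ring
  rw [h1, ← OrthonormalBasis.sum_inner_mul_inner hH.eigenvectorBasis Y Z]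
  apply Finset.sum_nonpos
  intro k _
  set b : ι → ℝ := (hH.eigenvectorBasis k).ofLp with hb
  have hev : ∀ i, ∑ j, B i j * b j = hH.eigenvalues k * b i := by
    intro i
    have := congrFun (hH.mulVec_eigenvectorBasis k) i
    simpa [Matrix.mulVec, dotProduct] using this
  have hYb : inner ℝ Y (hH.eigenvectorBasis k) = ∑ i, b i * y i := by
    simp only [Y, PiLp.inner_apply, RCLike.inner_apply, conj_trivial, hb]
  have hbZ : inner ℝ (hH.eigenvectorBasis k) Z = hH.eigenvalues k * ∑ i, b i * y i := by
    simp only [Z, PiLp.inner_apply, Matrix.mulVec, dotProduct, RCLike.inner_apply, conj_trivial]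
    have : ∀ i, (∑ j, B i j * y j) * (hH.eigenvectorBasis k).ofLp i = ∑ j, (B i j * y j) * b i := by
      intro i; rw [Finset.sum_mul]
    simp only [this]
    rw [Finset.sum_comm, Finset.mul_sum]
    refine Finset.sum_congr rfl fun j _ => ?_
    have h2 : ∑ i, B i j * y j * b i = y j * ∑ i, B j i * b i := by
      rw [Finset.mul_sum]
      refine Finset.sum_congr rfl fun i _ => ?_
      rw [hB i j]; ring
    rw [h2, hev j]; ring
  rw [hYb, hbZ]
  by_cases hl : 0 < hH.eigenvalues k
  · have := h b _ hl hev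
    rw [this]; simp
  · push Not at hl
    nlinarith [sq_nonneg (∑ i, b i * y i), mul_nonneg (neg_nonneg.mpr hl) (sq_nonneg (∑ i, b i * y i))]

/-- The Bochner step. -/
lemma bochner (A : ι → ι → ℝ) (hs : ∀ i j, A i j = A j i) (hA : ∀ i j, 0 ≤ A i j)
    (v : ι → ℝ) (hv : ∀ i, 0 < v i) (p : ι → ℝ) (hp : ∀ i, ∑ j, A i j * v j = p i * v i)
    (hconn : ∀ f : ι → ℝ, (∀ i j, 0 < A i j → f i = f j) → ∀ i j, 0 < p i → 0 < p j → f i = f j)
    (hsq : ∀ x : ι → ℝ, ∑ i, ∑ j, x i * x j * A i j ≤ ∑ i, (∑ j, A i j * x j) ^ 2 / p i)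
    (x : ι → ℝ) (hx : ∑ i, ∑ j, x i * v j * A i j = 0) :
    ∑ i, ∑ j, x i * x j * A i j ≤ 0 := by
  have hp0 : ∀ i, 0 ≤ p i := by
    intro i
    have h1 : 0 ≤ p i * v i := by
      rw [← hp i]; exact Finset.sum_nonneg fun j _ => mul_nonneg (hA i j) (hv j).le
    exact nonneg_of_mul_nonneg_left h1 (hv i)
  have hAz : ∀ i, p i = 0 → ∀ j, A i j = 0 := by
    intro i hi j
    have h1 : ∑ j, A i j * v j = 0 := by rw [hp i, hi, zero_mul]
    have h2 := (Finset.sum_eq_zero_iff_of_nonneg
      (fun j _ => mul_nonneg (hA i j) (hv j).le)).mp h1 j (Finset.mem_univ j)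
    rcases mul_eq_zero.mp h2 with h3 | h3
    · exact h3
    · exact absurd h3 (hv j).ne'
  -- identity (1): x^T A x ≤ Σ p x², with equality analysis
  have hid : ∀ x : ι → ℝ, (∑ i, p i * x i ^ 2) - ∑ i, ∑ j, x i * x j * A i j
      = (1 / 2) * ∑ i, ∑ j, A i j * v i * v j * (x i / v i - x j / v j) ^ 2 := by
    intro x
    have e1 : ∀ i, p i * x i ^ 2 = ∑ j, A i j * v j * (x i ^ 2 / v i) := by
      intro i
      rw [← Finset.sum_mul, hp i]
      have := (hv i).ne'
      field_simp
    have e2 : ∑ i, ∑ j, A i j * v i * v j * (x i / v i - x j / v j) ^ 2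
        = ∑ i, ∑ j, (A i j * v j * (x i ^ 2 / v i) + A i j * v i * (x j ^ 2 / v j)
            - 2 * (x i * x j * A i j)) := by
      refine Finset.sum_congr rfl fun i _ => Finset.sum_congr rfl fun j _ => ?_
      have h1 := (hv i).ne'
      have h2 := (hv j).ne'
      field_simp
      ring
    rw [e2]
    simp only [Finset.sum_add_distrib, Finset.sum_sub_distrib]
    have e3 : ∑ i, ∑ j, A i j * v i * (x j ^ 2 / v j) = ∑ i, p i * x i ^ 2 := by
      rw [Finset.sum_comm]
      refine Finset.sum_congr rfl fun i _ => ?_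
      rw [e1 i]
      refine Finset.sum_congr rfl fun j _ => ?_
      rw [hs j i]
    have e4 : ∑ i, ∑ j, A i j * v j * (x i ^ 2 / v i) = ∑ i, p i * x i ^ 2 :=
      Finset.sum_congr rfl fun i _ => (e1 i).symm
    have e5 : ∑ i, ∑ j, 2 * (x i * x j * A i j) = 2 * ∑ i, ∑ j, x i * x j * A i j := by
      simp only [Finset.mul_sum]
    rw [e3, e4, e5]; ring
  set w : ι → ℝ := fun i => if 0 < p i then Real.sqrt (p i) else 1 with hw
  have hwpos : ∀ i, 0 < w i := by
    intro i
    simp only [hw]
    split_ifs with h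
    · exact Real.sqrt_pos.mpr h
    · exact one_pos
  have hwsq : ∀ i, 0 < p i → w i * w i = p i := by
    intro i h
    simp only [hw, if_pos h]
    exact Real.mul_self_sqrt h.le
  set B : Matrix ι ι ℝ := fun i j => A i j / (w i * w j) with hBdef
  have hBs : ∀ i j, B i j = B j i := by
    intro i j; simp only [hBdef]; rw [hs i j, mul_comm (w i)]
  set y : ι → ℝ := fun i => w i * x i with hy
  have hform : ∑ i, ∑ j, y i * y j * B i j = ∑ i, ∑ j, x i * x j * A i j := by
    refine Finset.sum_congr rfl fun i _ => Finset.sum_congr rfl fun j _ => ?_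
    simp only [hBdef, hy]
    have h1 := (hwpos i).ne'
    have h2 := (hwpos j).ne'
    field_simp
  rw [← hform]
  apply form_nonpos B hBs y
  intro b lam hlam hb
  -- support
  have hb0 : ∀ i, p i = 0 → b i = 0 := by
    intro i hi
    have h1 := hb i
    have h2 : ∑ j, B i j * b j = 0 :=
      Finset.sum_eq_zero fun j _ => by simp [hBdef, hAz i hi j]
    rw [h2] at h1
    rcases mul_eq_zero.mp h1.symm with h3 | h3
    · exact absurd h3 hlam.ne'
    · exact h3
  -- x' = b / w
  set z : ι → ℝ := fun i => b i / w i with hz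
  have hAzv : ∀ i, ∑ j, A i j * z j = lam * (w i * b i) := by
    intro i
    have h1 := hb i
    have h2 : ∑ j, A i j * z j = w i * ∑ j, B i j * b j := by
      rw [Finset.mul_sum]
      refine Finset.sum_congr rfl fun j _ => ?_
      simp only [hBdef, hz]
      have h3 := (hwpos i).ne'
      have h4 := (hwpos j).ne'
      field_simp
    rw [h2, h1]; ring
  have hq1 : ∑ i, ∑ j, z i * z j * A i j = lam * ∑ i, b i ^ 2 := by
    have : ∀ i, ∑ j, z i * z j * A i j = z i * ∑ j, A i j * z j := by
      intro i; rw [Finset.mul_sum]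
      exact Finset.sum_congr rfl fun j _ => by ring
    simp only [this, hAzv]
    rw [Finset.mul_sum]
    refine Finset.sum_congr rfl fun i _ => ?_
    simp only [hz]
    have h3 := (hwpos i).ne'
    field_simp
  have hq2 : ∑ i, (∑ j, A i j * z j) ^ 2 / p i = lam ^ 2 * ∑ i, b i ^ 2 := by
    rw [Finset.mul_sum]
    refine Finset.sum_congr rfl fun i _ => ?_
    rw [hAzv i]
    rcases (hp0 i).lt_or_eq with h | h
    · rw [div_eq_iff h.ne']
      have := hwsq i h
      calc (lam * (w i * b i)) ^ 2 = lam ^ 2 * b i ^ 2 * (w i * w i) := by ring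
        _ = _ := by rw [this]
    · rw [← h, hb0 i h.symm]; simp
  have hq3 : ∑ i, p i * z i ^ 2 = ∑ i, b i ^ 2 := by
    refine Finset.sum_congr rfl fun i _ => ?_
    rcases (hp0 i).lt_or_eq with h | h
    · simp only [hz]
      have h3 := (hwpos i).ne'
      rw [div_pow, ← hwsq i h]
      field_simp
    · rw [← h, hb0 i h.symm]; simp
  set N := ∑ i, b i ^ 2 with hN
  have hN0 : 0 ≤ N := Finset.sum_nonneg fun i _ => sq_nonneg _
  rcases hN0.lt_or_eq with hNpos | hNz
  · have h1 := hsq z
    rw [hq1, hq2] at h1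
    have hlam1 : 1 ≤ lam := by
      have : lam * N ≤ lam * (lam * N) := by linarith [h1, sq lam]
      have h2 := le_of_mul_le_mul_left this hlam
      nlinarith
    have h2 := hid z
    rw [hq1, hq3] at h2
    have hterm : ∀ i j, 0 ≤ A i j * v i * v j * (z i / v i - z j / v j) ^ 2 := fun i j =>
      mul_nonneg (mul_nonneg (mul_nonneg (hA i j) (hv i).le) (hv j).le) (sq_nonneg _)
    have hsum0 : ∑ i, ∑ j, A i j * v i * v j * (z i / v i - z j / v j) ^ 2 = 0 := by
      have hge : 0 ≤ ∑ i, ∑ j, A i j * v i * v j * (z i / v i - z j / v j) ^ 2 :=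
        Finset.sum_nonneg fun i _ => Finset.sum_nonneg fun j _ => hterm i j
      have hle : N - lam * N ≤ 0 := by nlinarith
      linarith
    have hall : ∀ i j, 0 < A i j → z i / v i = z j / v j := by
      intro i j hij
      have h3 := (Finset.sum_eq_zero_iff_of_nonneg
        (fun i _ => Finset.sum_nonneg fun j _ => hterm i j)).mp hsum0 i (Finset.mem_univ i)
      have h4 := (Finset.sum_eq_zero_iff_of_nonneg (fun j _ => hterm i j)).mp h3 j
        (Finset.mem_univ j)
      have h5 : 0 < A i j * v i * v j := mul_pos (mul_pos hij (hv i)) (hv j)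
      rcases mul_eq_zero.mp h4 with h6 | h6
      · exact absurd h6 h5.ne'
      · have := pow_eq_zero_iff (two_ne_zero) |>.mp h6
        linarith
    have hconst := hconn (fun i => z i / v i) hall
    -- now the sum
    by_cases hex : ∃ i0, 0 < p i0
    · obtain ⟨i0, hi0⟩ := hex
      set t := z i0 / v i0 with ht
      have hbt : ∀ i, b i = t * (if 0 < p i then w i * v i else 0) := by
        intro i
        split_ifs with h
        · have h7 : z i / v i = t := hconst i i0 h hi0
          have h3 := (hwpos i).ne'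
          have h4 := (hv i).ne'
          rw [← h7]; simp only [hz]; field_simp
        · have : p i = 0 := le_antisymm (not_lt.mp h) (hp0 i)
          rw [hb0 i this]; ring
      have hfin : ∑ i, b i * y i = t * ∑ i, ∑ j, x i * v j * A i j := by
        rw [Finset.mul_sum]
        refine Finset.sum_congr rfl fun i _ => ?_
        have h8 : ∑ j, x i * v j * A i j = x i * (p i * v i) := by
          rw [← hp i, Finset.mul_sum]
          exact Finset.sum_congr rfl fun j _ => by ring
        rw [h8, hbt i]
        split_ifs with h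
        · simp only [hy]
          rw [← hwsq i h]; ring
        · have : p i = 0 := le_antisymm (not_lt.mp h) (hp0 i)
          rw [this]; ring
      rw [hfin, hx, mul_zero]
    · push Not at hex
      apply Finset.sum_eq_zero
      intro i _
      rw [hb0 i (le_antisymm (hex i) (hp0 i)), zero_mul]
  · have hb00 : ∀ i, b i = 0 := by
      intro i
      have := (Finset.sum_eq_zero_iff_of_nonneg (fun i _ => sq_nonneg (b i))).mp hNz.symm i
        (Finset.mem_univ i)
      exact pow_eq_zero_iff (two_ne_zero) |>.mp this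
    exact Finset.sum_eq_zero fun i _ => by rw [hb00 i, zero_mul]

end Pool.Agent.Helper636.Lor
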