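import Pool.Agent.Helper636.LorLim

set_option autoImplicit false

namespace Pool.Agent.Helper636.Lor

open Finset

/-- exchange property for a set of lattice points -/
def Exch {ι : Type} [DecidableEq ι] (K : (ι → ℕ) → Prop) : Prop :=
  ∀ α β, K α → K β → ∀ i, β i < α i → ∃ j, α j < β j ∧ K (α - Pi.single i 1 + Pi.single j 1)

/-- type of an assignment -/
def typ {E T : Type} [Fintype E] [DecidableEq T] (ψ : E → T) : T → ℕ :=
  fun t => (Finset.univ.filter (fun e => ψ e = t)).card

lemma typ_update {E T : Type} [Fintype E] [DecidableEq E] [DecidableEq T] (ψ : E → T) (e : E)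
    (s : T) (h : ψ e ≠ s) :
    typ (Function.update ψ e s) = typ ψ - Pi.single (ψ e) 1 + Pi.single s 1 := by
  funext t
  simp only [typ, Pi.add_apply, Pi.sub_apply]
  by_cases h1 : t = s
  · subst h1
    have : (univ.filter (fun x => Function.update ψ e t x = t)) =
        insert e (univ.filter (fun x => ψ x = t)) := by
      ext x
      by_cases hx : x = e
      · subst hx; simp
      · simp [Function.update_of_ne hx, hx]
    rw [this, Finset.card_insert_of_notMem (by simp [h])]
    simp [Pi.single_apply, Ne.symm h]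
  · by_cases h2 : t = ψ e
    · subst h2
      have : (univ.filter (fun x => ψ x = ψ e)) =
          insert e (univ.filter (fun x => Function.update ψ e s x = ψ e)) := by
        ext x
        by_cases hx : x = e
        · subst hx; simp
        · simp [Function.update_of_ne hx, hx]
      rw [this, Finset.card_insert_of_notMem (by simp [Ne.symm h])]
      simp [Pi.single_apply, h1]
    · have : (univ.filter (fun x => Function.update ψ e s x = t)) =
          (univ.filter (fun x => ψ x = t)) := by
        ext x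
        by_cases hx : x = e
        · subst hx; simp [Ne.symm h1, Ne.symm h2]
        · simp [Function.update_of_ne hx]
      rw [this]
      simp [Pi.single_apply, h1, h2]

lemma exists_of_typ_lt {E T : Type} [Fintype E] [DecidableEq T] (ψ ψ' : E → T) (t : T)
    (h : typ ψ' t < typ ψ t) : ∃ e, ψ e = t ∧ ψ' e ≠ t := by
  by_contra hno
  push Not at hno
  have : typ ψ t ≤ typ ψ' t := by
    apply Finset.card_le_card
    intro e he
    simp only [Finset.mem_filter, Finset.mem_univ, true_and] at he ⊢
    exact hno e he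
  omega

lemma typ_exch {E T : Type} [Fintype E] [DecidableEq E] [DecidableEq T] (al : E → T → Prop)
    (ψ' : E → T) (hψ' : ∀ e, al e (ψ' e)) : ∀ (N : ℕ) (ψ : E → T), (∀ e, al e (ψ e)) →
    (univ.filter (fun e => ψ e ≠ ψ' e)).card ≤ N → ∀ t, typ ψ' t < typ ψ t →
    ∃ t2, typ ψ t2 < typ ψ' t2 ∧ ∃ ψ'' : E → T, (∀ e, al e (ψ'' e)) ∧
      typ ψ'' = typ ψ - Pi.single t 1 + Pi.single t2 1 := by
  intro N
  induction N with
  | zero =>
    intro ψ _ hN t ht
    have : ψ = ψ' := by
      funext e
      by_contra hne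
      have : e ∈ univ.filter (fun e => ψ e ≠ ψ' e) := by simp [hne]
      rw [Finset.card_eq_zero.mp (Nat.le_zero.mp hN)] at this
      simp at this
    subst this; omega
  | succ N ih =>
    intro ψ hψ hN t ht
    obtain ⟨e, he, he'⟩ := exists_of_typ_lt ψ ψ' t ht
    have hne : ψ e ≠ ψ' e := by rw [he]; exact Ne.symm he'
    have hty := typ_update ψ e (ψ' e) hne
    rw [he] at hty
    have hal : ∀ x, al x (Function.update ψ e (ψ' e) x) := by
      intro x
      by_cases hx : x = e
      · subst hx; simp [hψ']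
      · simp [Function.update_of_ne hx, hψ]
    by_cases h1 : typ ψ (ψ' e) < typ ψ' (ψ' e)
    · exact ⟨ψ' e, h1, _, hal, hty⟩
    · set φ := Function.update ψ e (ψ' e) with hφ
      have hφs : typ φ (ψ' e) = typ ψ (ψ' e) + 1 := by
        rw [hty]; simp [Pi.single_apply, he']
      have hcard : (univ.filter (fun x => φ x ≠ ψ' x)).card ≤ N := by
        have hsub : (univ.filter (fun x => φ x ≠ ψ' x)) ⊂ (univ.filter (fun x => ψ x ≠ ψ' x)) := by
          rw [Finset.ssubset_iff_of_subset]
          · refine ⟨e, by simp [hne], ?_⟩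
            simp [hφ]
          · intro x hx
            simp only [Finset.mem_filter, Finset.mem_univ, true_and] at hx ⊢
            by_cases hxe : x = e
            · subst hxe; exact hne
            · rwa [hφ, Function.update_of_ne hxe] at hx
        have := Finset.card_lt_card hsub
        omega
      obtain ⟨t2, ht2, ψ'', hψ'', hty''⟩ := ih φ hal hcard (ψ' e) (by omega)
      have ht2s : t2 ≠ ψ' e := by rintro rfl; omega
      have ht2t : t2 ≠ t := by
        rintro rfl
        have : typ φ t2 = typ ψ t2 - 1 := by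
          rw [hty]; simp [Pi.single_apply, Ne.symm he']
        omega
      have ht2' : typ φ t2 = typ ψ t2 := by
        rw [hty]; simp [Pi.single_apply, ht2s, ht2t]
      refine ⟨t2, by omega, ψ'', hψ'', ?_⟩
      rw [hty'', hty]
      funext k
      simp

lemma typ_sum {E T : Type} [Fintype E] [Fintype T] [DecidableEq T] (ψ : E → T) :
    ∑ t, typ ψ t = Fintype.card E := by
  simp only [typ]
  rw [← Finset.card_univ (α := E)]
  exact (Finset.card_eq_sum_card_fiberwise (f := ψ) (s := univ) (t := univ)
    (fun _ _ => Finset.mem_coe.mpr (Finset.mem_univ _))).symm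

lemma typ_Exch {E T : Type} [Fintype E] [DecidableEq E] [DecidableEq T] (al : E → T → Prop) :
    Exch (fun α : T → ℕ => ∃ ψ : E → T, (∀ e, al e (ψ e)) ∧ typ ψ = α) := by
  rintro α β ⟨ψ, hψ, rfl⟩ ⟨ψ', hψ', rfl⟩ i hi
  obtain ⟨t2, h1, ψ'', h2, h3⟩ := typ_exch al ψ' hψ' _ ψ hψ le_rfl i hi
  exact ⟨t2, h1, ψ'', h2, h3⟩

lemma prod_Exch {ι κ : Type} [DecidableEq ι] [DecidableEq κ] (K : (ι → ℕ) → Prop)
    (L : (κ → ℕ) → Prop) (hK : Exch K) (hL : Exch L) :
    Exch (fun α : ι ⊕ κ → ℕ => K (fun i => α (Sum.inl i)) ∧ L (fun i => α (Sum.inr i))) := by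
  rintro α β ⟨h1, h2⟩ ⟨h3, h4⟩ i hi
  rcases i with i | i
  · obtain ⟨j, hj, hKj⟩ := hK _ _ h1 h3 i hi
    refine ⟨Sum.inl j, hj, ?_, ?_⟩
    · convert hKj using 1
      funext k
      simp [Pi.single_apply]
    · convert h2 using 1
      funext k
      simp [Pi.single_apply]
  · obtain ⟨j, hj, hKj⟩ := hL _ _ h2 h4 i hi
    refine ⟨Sum.inr j, hj, ?_, ?_⟩
    · convert h1 using 1
      funext k
      simp [Pi.single_apply]
    · convert hKj using 1
      funext k
      simp [Pi.single_apply]

lemma base_Exch {m : ℕ} (M : Matroid (Fin m)) :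
    Exch (fun α : Fin m → ℕ => ∃ B : Finset (Fin m), M.IsBase (B : Set (Fin m)) ∧
      α = fun e => if e ∈ B then 1 else 0) := by
  rintro α β ⟨B, hB, rfl⟩ ⟨B', hB', rfl⟩ i hi
  have hi1 : i ∈ B := by by_contra h; simp [h] at hi
  have hi2 : i ∉ B' := by by_contra h; simp [hi1, h] at hi
  obtain ⟨j, hj, hbase⟩ := hB.exchange hB' (e := i) ⟨by simpa using hi1, by simpa using hi2⟩
  have hj1 : j ∈ B' := by simpa using hj.1
  have hj2 : j ∉ B := by simpa using hj.2
  have hij : i ≠ j := by rintro rfl; exact hj2 hi1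
  refine ⟨j, by simp [hj1, hj2], insert j (B.erase i), ?_, ?_⟩
  · convert hbase using 1
    simp
  · funext e
    by_cases h1 : e = i
    · subst h1; simp [hi1, Pi.single_apply, hij]
    · by_cases h2 : e = j
      · subst h2; simp [hj2]
      · simp [Pi.single_apply, h1, h2]

open Classical in
lemma Exch.mc {ι : Type} [Fintype ι] [DecidableEq ι] (K : (ι → ℕ) → Prop) (hK : Exch K) (d : ℕ)
    (hd : ∀ α, K α → ∑ i, α i = d) : MC d (fun α => if K α then (1 : ℝ) else 0) where
  zo := by intro α; by_cases h : K α <;> simp [h]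
  deg := by
    intro α h
    by_cases h' : K α
    · exact hd α h'
    · simp [h'] at h
  exch := by
    intro α β hα hβ i hi
    have h1 : K α := by by_contra h; simp [h] at hα
    have h2 : K β := by by_contra h; simp [h] at hβ
    obtain ⟨j, hj, hKj⟩ := hK α β h1 h2 i hi
    exact ⟨j, hj, by simp [hKj]⟩

end Pool.Agent.Helper636.Lor
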