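import Pool.Agent.Helper636.PosDesc

set_option autoImplicit false

namespace Pool.Agent.Helper636.Pos

open Finset Complex MeasureTheory Filter Topology

variable {κ : Type} (S : Finset κ) (C a : κ → ℝ)

noncomputable def q (ζ : ℂ) : ℂ := ∑ k ∈ S, (C k : ℂ) * Complex.exp ((a k : ℂ) * ζ)

noncomputable def q' (ζ : ℂ) : ℂ := ∑ k ∈ S, (C k : ℂ) * (a k : ℂ) * Complex.exp ((a k : ℂ) * ζ)

noncomputable def clip (s : ℝ) : ℝ := max 0 (min s 1)

lemma clip_nonneg (s : ℝ) : 0 ≤ clip s := le_max_left _ _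

lemma clip_le (s : ℝ) : clip s ≤ 1 := max_le zero_le_one (min_le_right _ _)

lemma clip_of (s : ℝ) (h0 : 0 ≤ s) (h1 : s ≤ 1) : clip s = s := by
  simp [clip, h0, h1]

lemma clip_cont : Continuous clip := by
  unfold clip; fun_prop

noncomputable def ell (ρ s : ℝ) : ℂ :=
  q' S C a ((ρ : ℂ) + (clip s : ℂ) * I) / q S C a ((ρ : ℂ) + (clip s : ℂ) * I)

noncomputable def Lint (ρ : ℝ) : ℂ := ∫ s in (0 : ℝ)..1, ell S C a ρ s

noncomputable def Ang (ρ : ℝ) : ℝ := (Lint S C a ρ).re

lemma q_hasDerivAt (ζ : ℂ) : HasDerivAt (q S C a) (q' S C a ζ) ζ := by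
  unfold q q'
  apply HasDerivAt.fun_sum
  intro k _
  have h1 : HasDerivAt (fun z : ℂ => (a k : ℂ) * z) (a k : ℂ) ζ := by
    simpa using (hasDerivAt_id ζ).const_mul (a k : ℂ)
  have h2 := (h1.cexp).const_mul (C k : ℂ)
  refine h2.congr_deriv ?_
  ring

lemma q_cont : Continuous (q S C a) := by
  unfold q; fun_prop

lemma q'_cont : Continuous (q' S C a) := by
  unfold q'; fun_prop

variable (hq : ∀ ζ : ℂ, 0 ≤ ζ.im → ζ.im ≤ 1 → q S C a ζ ≠ 0)

include hq

lemma q_clip_ne (ρ s : ℝ) : q S C a ((ρ : ℂ) + (clip s : ℂ) * I) ≠ 0 := by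
  apply hq
  · simpa using clip_nonneg s
  · simpa using clip_le s

lemma ell_cont : Continuous (Function.uncurry (ell S C a)) := by
  unfold ell Function.uncurry
  have hc : Continuous (fun p : ℝ × ℝ => ((p.1 : ℂ) + (clip p.2 : ℂ) * I)) := by
    have := clip_cont
    fun_prop
  exact ((q'_cont S C a).comp hc).div ((q_cont S C a).comp hc) (fun p => q_clip_ne S C a hq p.1 p.2)

lemma ell_cont' (ρ : ℝ) : Continuous (ell S C a ρ) := by
  have hc : Continuous (fun s : ℝ => ((ρ : ℂ) + (clip s : ℂ) * I)) := by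
    have := clip_cont
    fun_prop
  exact ((q'_cont S C a).comp hc).div ((q_cont S C a).comp hc) (fun s => q_clip_ne S C a hq ρ s)

lemma Lint_cont : Continuous (Lint S C a) :=
  intervalIntegral.continuous_parametric_intervalIntegral_of_continuous' (ell_cont S C a hq) 0 1

lemma Ang_cont : Continuous (Ang S C a) := Complex.continuous_re.comp (Lint_cont S C a hq)

lemma q_exp (ρ : ℝ) : q S C a ((ρ : ℂ) + I) = q S C a (ρ : ℂ) * Complex.exp (I * Lint S C a ρ) := by
  set Φ : ℝ → ℂ := fun s => ∫ u in (0 : ℝ)..s, ell S C a ρ u with hΦ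
  have hΦd : ∀ s, HasDerivAt Φ (ell S C a ρ s) s := by
    intro s
    have hc := ell_cont' S C a hq ρ
    exact intervalIntegral.integral_hasDerivAt_right (hc.intervalIntegrable _ _)
      (hc.stronglyMeasurableAtFilter _ _) hc.continuousAt
  set φ : ℝ → ℂ := fun s => q S C a ((ρ : ℂ) + (s : ℂ) * I) * Complex.exp (-(I * Φ s)) with hφ
  have hd : ∀ s : ℝ, HasDerivAt φ (q' S C a ((ρ : ℂ) + (s : ℂ) * I) * I * Complex.exp (-(I * Φ s)) +
      q S C a ((ρ : ℂ) + (s : ℂ) * I) * (Complex.exp (-(I * Φ s)) * (-(I * ell S C a ρ s)))) s := by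
    intro s
    have h1 : HasDerivAt (fun s : ℝ => (ρ : ℂ) + (s : ℂ) * I) I s := by
      have h0 : HasDerivAt (fun s : ℝ => (s : ℂ)) 1 s := by
        simpa using (hasDerivAt_id s).ofReal_comp
      simpa using (h0.mul_const I).const_add (ρ : ℂ)
    have h2 : HasDerivAt (fun s : ℝ => q S C a ((ρ : ℂ) + (s : ℂ) * I))
        (q' S C a ((ρ : ℂ) + (s : ℂ) * I) * I) s :=
      HasDerivAt.comp s (q_hasDerivAt S C a _) h1
    have h3 : HasDerivAt (fun s : ℝ => -(I * Φ s)) (-(I * ell S C a ρ s)) s :=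
      ((hΦd s).const_mul I).neg
    exact h2.mul h3.cexp
  have hconst := constant_of_has_deriv_right_zero (f := φ) (a := 0) (b := 1)
    (fun s _ => (hd s).continuousAt.continuousWithinAt) (by
      intro s hs
      have h4 := (hd s).hasDerivWithinAt (s := Set.Ici s)
      convert h4 using 1
      have hcl : clip s = s := clip_of s hs.1 hs.2.le
      have hne := q_clip_ne S C a hq ρ s
      rw [hcl] at hne
      simp only [ell, hcl]
      field_simp
      ring) 1 (by simp)
  simp only [hφ, hΦ, intervalIntegral.integral_same, mul_zero, neg_zero, Complex.exp_zero,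
    mul_one, Complex.ofReal_one, one_mul, Complex.ofReal_zero, zero_mul, add_zero] at hconst
  rw [← hconst]
  unfold Lint
  rw [mul_assoc, ← Complex.exp_add]
  simp

omit hq in
lemma cis_im (x : ℝ) : (((Real.cos x : ℝ) : ℂ) + ((Real.sin x : ℝ) : ℂ) * I).im = Real.sin x := by
  rw [Complex.add_im, Complex.ofReal_im, Complex.im_ofReal_mul, Complex.I_im]; ring

omit hq in
lemma q_real (ρ : ℝ) : q S C a (ρ : ℂ) = ((∑ k ∈ S, C k * Real.exp (a k * ρ) : ℝ) : ℂ) := by
  unfold q; push_cast; rfl

omit hq in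
lemma q_im (ρ : ℝ) : (q S C a ((ρ : ℂ) + I)).im = ∑ k ∈ S, C k * Real.sin (a k) * Real.exp (a k * ρ) := by
  unfold q
  rw [Complex.im_sum]
  refine Finset.sum_congr rfl fun k _ => ?_
  have h1 : (a k : ℂ) * ((ρ : ℂ) + I) = ((a k * ρ : ℝ) : ℂ) + ((a k : ℝ) : ℂ) * I := by
    push_cast; ring
  rw [h1, Complex.exp_add, ← Complex.ofReal_exp, Complex.exp_ofReal_mul_I, Complex.im_ofReal_mul,
    Complex.im_ofReal_mul, cis_im]
  ring

lemma q_im' (ρ : ℝ) : (q S C a ((ρ : ℂ) + I)).im = (∑ k ∈ S, C k * Real.exp (a k * ρ)) *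
    Real.exp (-(Lint S C a ρ).im) * Real.sin (Ang S C a ρ) := by
  rw [q_exp S C a hq, q_real]
  have h1 : I * Lint S C a ρ = ((-(Lint S C a ρ).im : ℝ) : ℂ) + ((Ang S C a ρ : ℝ) : ℂ) * I := by
    apply Complex.ext
    · simp [Ang]
    · simp [Ang]
  rw [h1, Complex.exp_add, ← Complex.ofReal_exp, Complex.exp_ofReal_mul_I, Complex.im_ofReal_mul,
    Complex.im_ofReal_mul, cis_im]
  ring

lemma Ang_eq (ρ : ℝ) : Ang S C a ρ = ∫ s in (0 : ℝ)..1, (ell S C a ρ s).re := by
  unfold Ang Lint
  have h := Complex.reCLM.intervalIntegral_comp_comm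
    ((ell_cont' S C a hq ρ).intervalIntegrable (μ := volume) 0 1)
  simpa using h.symm

omit hq in
lemma norm_exp_aux (t : ℝ) (ρ s : ℝ) :
    ‖Complex.exp ((t : ℂ) * ((ρ : ℂ) + (clip s : ℂ) * I))‖ = Real.exp (t * ρ) := by
  rw [Complex.norm_exp]
  congr 1
  simp

lemma ang_ge (hC : ∀ k ∈ S, 0 ≤ C k) (k0 : κ) (hk0 : k0 ∈ S) (hk0' : 0 < C k0)
    (hmax : ∀ k ∈ S, C k ≠ 0 → a k ≤ a k0) (ε : ℝ) (hε : 0 < ε) :
    ∃ R : ℝ, 0 ≤ R ∧ a k0 - ε ≤ Ang S C a R := by
  classical
  set M := a k0 with hM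
  have hexp0 : ∀ k ∈ S, C k ≠ 0 → a k ≠ M →
      Tendsto (fun ρ : ℝ => Real.exp ((a k - M) * ρ)) atTop (𝓝 0) := by
    intro k hk hCk hak
    have hlt : a k - M < 0 := by
      have := lt_of_le_of_ne (hmax k hk hCk) hak
      linarith
    apply Real.tendsto_exp_atBot.comp
    exact tendsto_id.const_mul_atTop_of_neg hlt
  have hr : Tendsto (fun ρ : ℝ => ∑ k ∈ S, C k * |a k - M| * Real.exp ((a k - M) * ρ)) atTop
      (𝓝 0) := by
    have : (0 : ℝ) = ∑ k ∈ S, (0 : ℝ) := by simp
    rw [this]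
    apply tendsto_finset_sum
    intro k hk
    by_cases h1 : C k = 0
    · simp [h1]
    · by_cases h2 : a k = M
      · simp [h2]
      · have := (hexp0 k hk h1 h2).const_mul (C k * |a k - M|)
        simpa using this
  have ht : Tendsto (fun ρ : ℝ => ∑ k ∈ S, (if a k = M then 0 else
      C k * Real.exp ((a k - M) * ρ))) atTop (𝓝 0) := by
    have : (0 : ℝ) = ∑ k ∈ S, (0 : ℝ) := by simp
    rw [this]
    apply tendsto_finset_sum
    intro k hk
    by_cases h2 : a k = M
    · simp [h2]
    · by_cases h1 : C k = 0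
      · simp [h1]
      · have := (hexp0 k hk h1 h2).const_mul (C k)
        simpa [h2] using this
  have hC0 : 0 < C k0 / 2 := by linarith
  have hev := (hr.eventually (gt_mem_nhds (show (0 : ℝ) < ε * (C k0 / 2) by positivity))).and
    ((ht.eventually (gt_mem_nhds hC0)).and (eventually_ge_atTop 0))
  obtain ⟨R, hR1, hR2, hR0⟩ := hev.exists
  refine ⟨R, hR0, ?_⟩
  have hpt : ∀ s : ℝ, M - ε ≤ (ell S C a R s).re := by
    intro s
    set ζ : ℂ := (R : ℂ) + (clip s : ℂ) * I with hζ
    have hqne : q S C a ζ ≠ 0 := q_clip_ne S C a hq R s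
    set N : ℂ := ∑ k ∈ S, (C k : ℂ) * Complex.exp (((a k - M : ℝ) : ℂ) * ζ) with hN
    set N' : ℂ := ∑ k ∈ S, (C k : ℂ) * ((a k - M : ℝ) : ℂ) * Complex.exp (((a k - M : ℝ) : ℂ) * ζ)
      with hN'
    have hfac : ∀ k, Complex.exp (((a k - M : ℝ) : ℂ) * ζ)
        = Complex.exp (-((M : ℂ) * ζ)) * Complex.exp ((a k : ℂ) * ζ) := by
      intro k
      rw [← Complex.exp_add]; congr 1; push_cast; ring
    have hNq : N = Complex.exp (-((M : ℂ) * ζ)) * q S C a ζ := by
      simp only [hN, q, Finset.mul_sum]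
      refine Finset.sum_congr rfl fun k _ => ?_
      rw [hfac k]; ring
    have hN'q : N' = Complex.exp (-((M : ℂ) * ζ)) * (q' S C a ζ - (M : ℂ) * q S C a ζ) := by
      simp only [hN', q, q', Finset.mul_sum, ← Finset.sum_sub_distrib]
      refine Finset.sum_congr rfl fun k _ => ?_
      rw [hfac k]; push_cast; ring
    have hell : ell S C a R s = (M : ℂ) + N' / N := by
      rw [hNq, hN'q, mul_div_mul_left _ _ (Complex.exp_ne_zero _)]
      unfold ell
      rw [← hζ]
      field_simp
      ring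
    have hN'norm : ‖N'‖ ≤ ε * (C k0 / 2) := by
      refine le_trans (norm_sum_le _ _) (le_trans (le_of_eq ?_) hR1.le)
      refine Finset.sum_congr rfl fun k hk => ?_
      rw [norm_mul, norm_mul, norm_exp_aux, Complex.norm_real, Complex.norm_real,
        Real.norm_eq_abs, Real.norm_eq_abs, abs_of_nonneg (hC k hk)]
    have hNnorm : C k0 / 2 ≤ ‖N‖ := by
      set N0 : ℂ := ((∑ k ∈ S, (if a k = M then C k else 0) : ℝ) : ℂ) with hN0
      have hdiff : N - N0 = ∑ k ∈ S, (if a k = M then 0 else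
          (C k : ℂ) * Complex.exp (((a k - M : ℝ) : ℂ) * ζ)) := by
        simp only [hN, hN0]
        push_cast
        rw [← Finset.sum_sub_distrib]
        refine Finset.sum_congr rfl fun k _ => ?_
        by_cases h : a k = M
        · simp [h]
        · simp [h]
      have hdn : ‖N - N0‖ ≤ C k0 / 2 := by
        rw [hdiff]
        refine le_trans (norm_sum_le _ _) (le_trans (le_of_eq ?_) hR2.le)
        refine Finset.sum_congr rfl fun k hk => ?_
        by_cases h : a k = M
        · simp [h]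
        · simp only [h, if_false]
          rw [norm_mul, norm_exp_aux, Complex.norm_real, Real.norm_eq_abs,
            abs_of_nonneg (hC k hk)]
      have hN0n : C k0 ≤ ‖N0‖ := by
        rw [hN0, Complex.norm_real, Real.norm_eq_abs]
        refine le_trans ?_ (le_abs_self _)
        have h1 : (fun k => if a k = M then C k else 0) k0
            ≤ ∑ k ∈ S, (fun k => if a k = M then C k else 0) k := by
          apply Finset.single_le_sum _ hk0
          intro k hk
          by_cases h : a k = M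
          · simp [h, hC k hk]
          · simp [h]
        simpa [hM] using h1
      have h2 : ‖N0‖ ≤ ‖N - N0‖ + ‖N‖ := by
        have := norm_sub_le N (N - N0)
        have e : N - (N - N0) = N0 := by ring
        rw [e] at this
        linarith
      linarith
    have hNpos : 0 < ‖N‖ := lt_of_lt_of_le hC0 hNnorm
    have hquot : ‖N' / N‖ ≤ ε := by
      rw [norm_div, div_le_iff₀ hNpos]
      calc ‖N'‖ ≤ ε * (C k0 / 2) := hN'norm
        _ ≤ ε * ‖N‖ := by gcongr
    rw [hell, Complex.add_re, Complex.ofReal_re]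
    have := Complex.abs_re_le_norm (N' / N)
    have h3 := (abs_le.mp this).1
    linarith
  rw [Ang_eq S C a hq]
  have h1 : ∫ _s in (0 : ℝ)..1, (M - ε) ≤ ∫ s in (0 : ℝ)..1, (ell S C a R s).re := by
    apply intervalIntegral.integral_mono_on zero_le_one
    · exact intervalIntegrable_const
    · exact (Complex.continuous_re.comp (ell_cont' S C a hq R)).intervalIntegrable _ _
    · intro s _; exact hpt s
  simpa using h1

/-- The core lemma: the continuous argument stays nonnegative. -/
theorem core (hC : ∀ k ∈ S, 0 ≤ C k) (ha : ∀ k ∈ S, C k ≠ 0 → 0 ≤ a k)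
    (hne : ∃ k ∈ S, C k ≠ 0) : 0 ≤ Ang S C a 0 := by
  classical
  by_contra hneg
  push Not at hneg
  -- the maximal exponent
  obtain ⟨k0, hk0, hmax⟩ : ∃ k0 ∈ S.filter (fun k => C k ≠ 0), ∀ k ∈ S.filter (fun k => C k ≠ 0),
      a k ≤ a k0 := by
    obtain ⟨k1, hk1, hk1'⟩ := hne
    exact Finset.exists_max_image _ a ⟨k1, Finset.mem_filter.mpr ⟨hk1, hk1'⟩⟩
  have hk0S : k0 ∈ S := (Finset.mem_filter.mp hk0).1
  have hk0C : C k0 ≠ 0 := (Finset.mem_filter.mp hk0).2
  have hk0pos : 0 < C k0 := lt_of_le_of_ne (hC k0 hk0S) (Ne.symm hk0C)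
  have hmax' : ∀ k ∈ S, C k ≠ 0 → a k ≤ a k0 := fun k hk h =>
    hmax k (Finset.mem_filter.mpr ⟨hk, h⟩)
  have hM0 : 0 ≤ a k0 := ha k0 hk0S hk0C
  rcases hM0.eq_or_lt with hM | hM
  · -- all exponents vanish
    have hq'0 : ∀ ζ, q' S C a ζ = 0 := by
      intro ζ
      unfold q'
      apply Finset.sum_eq_zero
      intro k hk
      by_cases h : C k = 0
      · simp [h]
      · have : a k = 0 := le_antisymm (by rw [hM]; exact hmax' k hk h) (ha k hk h)
        simp [this]
    have : Ang S C a 0 = 0 := by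
      unfold Ang Lint ell
      simp [hq'0]
    linarith
  · -- P with P π < a k0 ≤ (P+1) π
    have hpi := Real.pi_pos
    set P : ℕ := ⌈a k0 / Real.pi⌉₊ - 1 with hP
    have hceil : 0 < ⌈a k0 / Real.pi⌉₊ := Nat.ceil_pos.mpr (div_pos hM hpi)
    have hP1 : ((P : ℝ) + 1) = (⌈a k0 / Real.pi⌉₊ : ℝ) := by
      have : P + 1 = ⌈a k0 / Real.pi⌉₊ := by omega
      exact_mod_cast this
    have hP2 : a k0 ≤ ((P : ℝ) + 1) * Real.pi := by
      rw [hP1, ← div_le_iff₀ hpi]
      exact Nat.le_ceil _
    have hP3 : (P : ℝ) * Real.pi < a k0 := by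
      rw [← lt_div_iff₀ hpi]
      have := Nat.ceil_lt_add_one (div_pos hM hpi).le
      rw [← hP1] at this
      linarith
    obtain ⟨R, hR0, hR⟩ := ang_ge S C a hq hC k0 hk0S hk0pos hmax' ((a k0 - P * Real.pi) / 2)
      (by linarith)
    have hRP : (P : ℝ) * Real.pi < Ang S C a R := by linarith
    have hcont := Ang_cont S C a hq
    have hivt : ∀ y : ℝ, Ang S C a 0 ≤ y → y ≤ Ang S C a R → ∃ ρ : ℝ, Ang S C a ρ = y := by
      intro y h1 h2
      obtain ⟨ρ, _, h3⟩ := intermediate_value_Icc hR0 hcont.continuousOn ⟨h1, h2⟩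
      exact ⟨ρ, h3⟩
    have hz : ∀ j : ℕ, j ≤ P → ∃ ρ : ℝ, Ang S C a ρ = j * Real.pi := by
      intro j hj
      apply hivt
      · have : (0 : ℝ) ≤ j * Real.pi := by positivity
        linarith
      · have h1 : (j : ℝ) ≤ P := by exact_mod_cast hj
        have := mul_le_mul_of_nonneg_right h1 hpi.le
        linarith
    choose! ρf hρf using hz
    set Z : Finset ℝ := (Finset.range (P + 1)).image ρf with hZ
    have hinj : Set.InjOn ρf (Finset.range (P + 1) : Finset ℕ) := by
      intro i hi j hj hij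
      have hi' : i ≤ P := by simpa [Nat.lt_succ_iff] using hi
      have hj' : j ≤ P := by simpa [Nat.lt_succ_iff] using hj
      have h1 := hρf i hi'
      have h2 := hρf j hj'
      rw [hij, h2] at h1
      have := mul_right_cancel₀ hpi.ne' h1
      exact_mod_cast this.symm
    have hcard : Z.card = P + 1 := by
      rw [hZ, Finset.card_image_of_injOn hinj, Finset.card_range]
    set b : κ → ℝ := fun k => (-1) ^ P * (C k * Real.sin (a k)) with hb
    have hsum : ∀ ρ : ℝ, ∑ k ∈ S, b k * Real.exp (a k * ρ)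
        = (-1) ^ P * (q S C a ((ρ : ℂ) + I)).im := by
      intro ρ
      rw [q_im, Finset.mul_sum]
      refine Finset.sum_congr rfl fun k _ => ?_
      simp only [hb]; ring
    have hZ0 : ∀ z ∈ Z, ∑ k ∈ S, b k * Real.exp (a k * z) = 0 := by
      intro z hz
      obtain ⟨j, hj, rfl⟩ := Finset.mem_image.mp hz
      have hj' : j ≤ P := by simpa [Nat.lt_succ_iff] using hj
      rw [hsum, q_im' S C a hq, hρf j hj', Real.sin_nat_mul_pi]
      simp
    by_cases hall : ∃ k ∈ S, b k ≠ 0
    · have hdesc := desc S a (bp P) b (by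
        intro k hk
        by_cases hbk : b k = 0
        · left; exact hbk
        · right
          have hCk : C k ≠ 0 := by
            intro h; apply hbk; simp [hb, h]
          have hsk : Real.sin (a k) ≠ 0 := by
            intro h; apply hbk; simp [hb, h]
          have hCkpos : 0 < C k := lt_of_le_of_ne (hC k hk) (Ne.symm hCk)
          have h1 := sin_sign P (a k) (ha k hk hCk) (le_trans (hmax' k hk hCk) hP2)
          have h2 : b k * ((bp P).map (fun t => a k - t)).prod = C k *
              ((-1) ^ P * Real.sin (a k) * ((bp P).map (fun t => a k - t)).prod) := by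
            simp only [hb]; ring
          rw [h2]
          apply mul_pos hCkpos
          apply lt_of_le_of_ne h1
          apply Ne.symm
          apply mul_ne_zero
          · exact mul_ne_zero (pow_ne_zero _ (by norm_num)) hsk
          · rw [Ne, List.prod_eq_zero_iff]
            intro hmem
            simp only [bp, List.map_map, List.mem_map, List.mem_range, Function.comp] at hmem
            obtain ⟨j, _, hj⟩ := hmem
            apply hsk
            have h3 : a k = ((j + 1 : ℕ) : ℝ) * Real.pi := by push_cast; linarith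
            rw [h3]; exact Real.sin_nat_mul_pi _) hall Z hZ0
      rw [hcard, bp_length] at hdesc
      omega
    · push Not at hall
      have hzero : ∀ ρ : ℝ, Real.sin (Ang S C a ρ) = 0 := by
        intro ρ
        have h1 : ∑ k ∈ S, b k * Real.exp (a k * ρ) = 0 :=
          Finset.sum_eq_zero fun k hk => by rw [hall k hk, zero_mul]
        rw [hsum, q_im' S C a hq] at h1
        have h2 : 0 < ∑ k ∈ S, C k * Real.exp (a k * ρ) :=
          Finset.sum_pos' (fun k hk => mul_nonneg (hC k hk) (Real.exp_pos _).le)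
            ⟨k0, hk0S, mul_pos hk0pos (Real.exp_pos _)⟩
        have h3 : ((-1 : ℝ)) ^ P ≠ 0 := pow_ne_zero _ (by norm_num)
        rcases mul_eq_zero.mp h1 with h | h
        · exact absurd h h3
        · rcases mul_eq_zero.mp h with h | h
          · exact absurd h (mul_pos h2 (Real.exp_pos _)).ne'
          · exact h
      set y := max (Ang S C a 0) (-(Real.pi / 2)) with hy
      have hy0 : y < 0 := max_lt hneg (by linarith)
      have hy1 : -(Real.pi / 2) ≤ y := le_max_right _ _
      obtain ⟨ρ, hρ⟩ := hivt y (le_max_left _ _) (by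
        have : (0 : ℝ) ≤ P * Real.pi := by positivity
        linarith)
      have h4 := hzero ρ
      rw [hρ] at h4
      have h5 : Real.sin y < 0 := Real.sin_neg_of_neg_of_neg_pi_lt hy0 (by linarith)
      linarith

end Pool.Agent.Helper636.Pos
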