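import Mathlib

set_option autoImplicit false

namespace Pool.Agent.Helper636.Pos

open Finset

/-- Rolle, counting form. -/
lemma rolle_count (h h' : ℝ → ℝ) (hd : ∀ x, HasDerivAt h (h' x) x) (Z : Finset ℝ) :
    (∀ z ∈ Z, h z = 0) → ∃ Z' : Finset ℝ, (∀ z ∈ Z', h' z = 0) ∧ (∀ z ∈ Z', ∃ y ∈ Z, z < y) ∧
      Z.card ≤ Z'.card + 1 := by
  induction Z using Finset.induction_on_max with
  | empty => intro _; exact ⟨∅, by simp, by simp, by simp⟩
  | insert M Z0 hM ih =>
    intro hZ
    have hZ0 : ∀ z ∈ Z0, h z = 0 := fun z hz => hZ z (Finset.mem_insert_of_mem hz)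
    obtain ⟨Z', h1, h2, h3⟩ := ih hZ0
    by_cases hne : Z0.Nonempty
    · set y0 := Z0.max' hne with hy0
      have hy0Z : y0 ∈ Z0 := Finset.max'_mem _ _
      have hlt : y0 < M := hM y0 hy0Z
      obtain ⟨c, hc, hc0⟩ := exists_hasDerivAt_eq_zero (f := h) (f' := h') hlt
        (fun x _ => (hd x).continuousAt.continuousWithinAt)
        (by rw [hZ0 y0 hy0Z, hZ M (Finset.mem_insert_self _ _)])
        (fun x _ => hd x)
      have hcZ : c ∉ Z' := by
        intro hcZ'
        obtain ⟨y, hy, hcy⟩ := h2 c hcZ'
        have := Finset.le_max' Z0 y hy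
        have h4 := hc.1
        linarith
      refine ⟨insert c Z', ?_, ?_, ?_⟩
      · intro z hz
        rcases Finset.mem_insert.mp hz with rfl | hz
        · exact hc0
        · exact h1 z hz
      · intro z hz
        rcases Finset.mem_insert.mp hz with rfl | hz
        · exact ⟨M, Finset.mem_insert_self _ _, hc.2⟩
        · obtain ⟨y, hy, hzy⟩ := h2 z hz
          exact ⟨y, Finset.mem_insert_of_mem hy, hzy⟩
      · have hMZ : M ∉ Z0 := fun h => lt_irrefl _ (hM M h)
        rw [Finset.card_insert_of_notMem hcZ, Finset.card_insert_of_notMem hMZ]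
        omega
    · have : Z0 = ∅ := Finset.not_nonempty_iff_eq_empty.mp hne
      subst this
      exact ⟨∅, by simp, by simp, by simp⟩

/-- Descartes rule of signs for exponential sums, in terms of break points. -/
theorem desc {κ : Type} (S : Finset κ) (a : κ → ℝ) : ∀ (s : List ℝ) (b : κ → ℝ),
    (∀ k ∈ S, b k = 0 ∨ 0 < b k * (s.map (fun t => a k - t)).prod) → (∃ k ∈ S, b k ≠ 0) →
    ∀ Z : Finset ℝ, (∀ z ∈ Z, ∑ k ∈ S, b k * Real.exp (a k * z) = 0) → Z.card ≤ s.length := by
  intro s
  induction s with
  | nil =>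
    intro b hb hne Z hZ
    obtain ⟨k0, hk0, hbk0⟩ := hne
    simp only [List.map_nil, List.prod_nil, mul_one] at hb
    have hpos : ∀ z : ℝ, 0 < ∑ k ∈ S, b k * Real.exp (a k * z) := by
      intro z
      apply Finset.sum_pos'
      · intro k hk
        rcases hb k hk with h | h
        · rw [h]; simp
        · exact (mul_pos h (Real.exp_pos _)).le
      · refine ⟨k0, hk0, mul_pos ?_ (Real.exp_pos _)⟩
        rcases hb k0 hk0 with h | h
        · exact absurd h hbk0
        · exact h
    have : Z = ∅ := by
      by_contra hne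
      obtain ⟨z, hz⟩ := Finset.nonempty_iff_ne_empty.mpr hne
      have := hpos z
      rw [hZ z hz] at this
      exact lt_irrefl _ this
    subst this; simp
  | cons t s ih =>
    intro b hb hne Z hZ
    set b' : κ → ℝ := fun k => b k * (a k - t) with hb'
    have hb1 : ∀ k ∈ S, b' k = 0 ∨ 0 < b' k * (s.map (fun t => a k - t)).prod := by
      intro k hk
      rcases hb k hk with h | h
      · left; simp [hb', h]
      · right
        simp only [List.map_cons, List.prod_cons] at h
        simp only [hb']
        rw [mul_assoc]; exact h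
    have hb2 : ∃ k ∈ S, b' k ≠ 0 := by
      obtain ⟨k0, hk0, hbk0⟩ := hne
      refine ⟨k0, hk0, ?_⟩
      rcases hb k0 hk0 with h | h
      · exact absurd h hbk0
      · intro h0
        simp only [List.map_cons, List.prod_cons] at h
        rw [← mul_assoc] at h
        simp only [hb'] at h0
        rw [h0, zero_mul] at h
        exact lt_irrefl _ h
    set h : ℝ → ℝ := fun x => ∑ k ∈ S, b k * Real.exp ((a k - t) * x) with hh
    set h' : ℝ → ℝ := fun x => ∑ k ∈ S, b' k * Real.exp ((a k - t) * x) with hh'
    have hd : ∀ x, HasDerivAt h (h' x) x := by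
      intro x
      show HasDerivAt (fun x => ∑ k ∈ S, b k * Real.exp ((a k - t) * x))
        (∑ k ∈ S, b' k * Real.exp ((a k - t) * x)) x
      apply HasDerivAt.fun_sum
      intro k _
      have h1 : HasDerivAt (fun x : ℝ => (a k - t) * x) (a k - t) x := by
        simpa using (hasDerivAt_id x).const_mul (a k - t)
      have h2 := (h1.exp).const_mul (b k)
      refine h2.congr_deriv ?_
      show _ = b k * (a k - t) * Real.exp ((a k - t) * x)
      ring
    have hfac : ∀ (c : κ → ℝ) (z : ℝ), ∑ k ∈ S, c k * Real.exp ((a k - t) * z)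
        = Real.exp (-(t * z)) * ∑ k ∈ S, c k * Real.exp (a k * z) := by
      intro c z
      rw [Finset.mul_sum]
      refine Finset.sum_congr rfl fun k _ => ?_
      have : (a k - t) * z = -(t * z) + a k * z := by ring
      rw [this, Real.exp_add]; ring
    have hZ1 : ∀ z ∈ Z, h z = 0 := by
      intro z hz
      have h5 : h z = ∑ k ∈ S, b k * Real.exp ((a k - t) * z) := rfl
      rw [h5, hfac, hZ z hz, mul_zero]
    obtain ⟨Z', h1, _, h3⟩ := rolle_count h h' hd Z hZ1
    have h4 : ∀ z ∈ Z', ∑ k ∈ S, b' k * Real.exp (a k * z) = 0 := by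
      intro z hz
      have h5 : ∑ k ∈ S, b' k * Real.exp ((a k - t) * z) = 0 := h1 z hz
      rw [hfac] at h5
      rcases mul_eq_zero.mp h5 with h6 | h6
      · exact absurd h6 (Real.exp_pos _).ne'
      · exact h6
    have := ih b' hb1 hb2 Z' h4
    simp only [List.length_cons]
    omega

/-- break points `π, 2π, …, Pπ` -/
noncomputable def bp (P : ℕ) : List ℝ := (List.range P).map (fun j : ℕ => ((j : ℝ) + 1) * Real.pi)

lemma bp_length (P : ℕ) : (bp P).length = P := by simp [bp]

lemma bp_prod_succ (P : ℕ) (x : ℝ) : ((bp (P + 1)).map (fun t => x - t)).prod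
    = ((bp P).map (fun t => x - t)).prod * (x - ((P : ℝ) + 1) * Real.pi) := by
  simp [bp, List.range_succ]

/-- sign pattern of the sine function -/
lemma sin_sign (P : ℕ) : ∀ x : ℝ, 0 ≤ x → x ≤ ((P : ℝ) + 1) * Real.pi →
    0 ≤ (-1) ^ P * Real.sin x * ((bp P).map (fun t => x - t)).prod := by
  induction P with
  | zero =>
    intro x h0 h1
    simp only [bp, List.range_zero, List.map_nil, List.prod_nil, pow_zero, mul_one, one_mul]
    apply Real.sin_nonneg_of_nonneg_of_le_pi h0
    simpa using h1
  | succ P ih =>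
    intro x h0 h1
    rw [bp_prod_succ]
    push_cast at h1
    by_cases hx : x ≤ ((P : ℝ) + 1) * Real.pi
    · have h2 := ih x h0 hx
      have h3 : 0 ≤ ((P : ℝ) + 1) * Real.pi - x := by linarith
      have := mul_nonneg h2 h3
      have e : (-1 : ℝ) ^ (P + 1) * Real.sin x * (((bp P).map (fun t => x - t)).prod *
          (x - ((P : ℝ) + 1) * Real.pi)) = (-1) ^ P * Real.sin x *
          ((bp P).map (fun t => x - t)).prod * (((P : ℝ) + 1) * Real.pi - x) := by
        rw [pow_succ]; ring
      rw [e]; exact this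
    · push Not at hx
      have hprod : 0 ≤ ((bp P).map (fun t => x - t)).prod := by
        apply List.prod_nonneg
        intro y hy
        simp only [bp, List.map_map, List.mem_map, List.mem_range, Function.comp] at hy
        obtain ⟨j, hj, rfl⟩ := hy
        have : ((j : ℝ) + 1) ≤ (P : ℝ) := by exact_mod_cast hj
        have := mul_le_mul_of_nonneg_right this Real.pi_pos.le
        have hpp := Real.pi_pos
        nlinarith
      have hs : 0 ≤ (-1) ^ (P + 1) * Real.sin x := by
        have h5 : Real.sin (x - ((P + 1 : ℕ) : ℝ) * Real.pi) = (-1) ^ (P + 1) * Real.sin x :=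
          Real.sin_sub_nat_mul_pi x (P + 1)
        rw [← h5]
        push_cast
        apply Real.sin_nonneg_of_nonneg_of_le_pi
        · linarith
        · linarith
      have h6 : 0 ≤ x - ((P : ℝ) + 1) * Real.pi := by linarith
      exact mul_nonneg hs (mul_nonneg hprod h6)

end Pool.Agent.Helper636.Pos
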