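import Mathlib

set_option autoImplicit false

namespace Pool.Agent.Helper636.Pos

open Complex Filter Topology Set

lemma im_le_aux (ψ : ℂ → ℂ) (hd : ∀ τ : ℂ, 0 < τ.im → DifferentiableAt ℂ ψ τ)
    (K : ℝ) (hgrow : ∀ τ : ℂ, 0 < τ.im → ‖ψ τ‖ ≤ K * (1 + ‖τ‖))
    (him : ∀ τ : ℂ, 0 < τ.im → 0 ≤ (ψ τ).im)
    (m : ℝ) (K' : ℝ) (hK' : ∀ τ : ℂ, m ≤ τ.re → 0 < τ.im → (ψ τ).im ≤ K' * τ.im)
    (ξ b ε : ℝ) (hξ : 0 ≤ ξ) (hε : 0 < ε) (hεb : ε ≤ b) :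
    (ψ ⟨m + ξ, b⟩).im - (ψ ⟨m - ξ, b⟩).im ≤ K' * ε := by
  set c : ℂ := ⟨m, ε⟩ with hc
  set f : ℂ → ℂ := fun z =>
    Complex.exp (-(I * (ψ (z + c) + (starRingEnd ℂ) (ψ (c - (starRingEnd ℂ) z))))) with hf
  have hK0 : 0 ≤ K := by
    have h1 := hgrow I (by simp)
    have h2 := norm_nonneg (ψ I)
    have h3 : (0 : ℝ) < 1 + ‖I‖ := by positivity
    exact nonneg_of_mul_nonneg_left (h2.trans h1) h3
  have him1 : ∀ z : ℂ, 0 ≤ z.im → 0 < (z + c).im := by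
    intro z hz; simp [hc]; linarith
  have him2 : ∀ z : ℂ, 0 ≤ z.im → 0 < (c - (starRingEnd ℂ) z).im := by
    intro z hz; simp [hc]; linarith
  have hnorm : ∀ z : ℂ, ‖f z‖ = Real.exp ((ψ (z + c)).im - (ψ (c - (starRingEnd ℂ) z)).im) := by
    intro z
    simp only [hf, Complex.norm_exp]
    congr 1
    simp
    ring
  have hdiff : ∀ z : ℂ, 0 ≤ z.im → DifferentiableAt ℂ f z := by
    intro z hz
    have h1 : DifferentiableAt ℂ (fun z => ψ (z + c)) z :=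
      (hd _ (him1 z hz)).comp z (by fun_prop)
    have h2 : DifferentiableAt ℂ (fun w => ψ (c - w)) ((starRingEnd ℂ) z) :=
      (hd _ (him2 z hz)).comp _ (by fun_prop)
    have h3 := h2.conj_conj
    rw [Complex.conj_conj] at h3
    have h4 : DifferentiableAt ℂ (fun z => (starRingEnd ℂ) (ψ (c - (starRingEnd ℂ) z))) z := h3
    exact (((h1.add h4).const_mul I).neg).cexp
  have hcl : closure (Ioi (0 : ℝ) ×ℂ Ioi (0 : ℝ)) ⊆ {z : ℂ | 0 ≤ z.im} := by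
    apply closure_minimal
    · intro z hz
      exact (Set.mem_Ioi.mp (Complex.mem_reProdIm.mp hz).2).le
    · exact isClosed_le continuous_const Complex.continuous_im
  have hPL := PhragmenLindelof.quadrant_I (f := f) (C := Real.exp (K' * ε)) (z := ⟨ξ, b - ε⟩) ?_ ?_ ?_ ?_
    (by simpa using hξ) (by simpa using hεb)
  · rw [hnorm] at hPL
    have h1 := Real.exp_le_exp.mp hPL
    have e1 : (⟨ξ, b - ε⟩ : ℂ) + c = ⟨m + ξ, b⟩ := by
      apply Complex.ext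
      · simp [hc]; ring
      · simp [hc]
    have e2 : c - (starRingEnd ℂ) (⟨ξ, b - ε⟩ : ℂ) = ⟨m - ξ, b⟩ := by
      apply Complex.ext
      · simp [hc]
      · simp [hc]
    rw [e1, e2] at h1
    exact h1
  · apply DifferentiableOn.diffContOnCl
    intro z hz
    exact (hdiff z (hcl hz)).differentiableWithinAt
  · refine ⟨1, by norm_num, 2 * K, ?_⟩
    apply Asymptotics.IsBigO.of_bound (Real.exp (2 * K * (1 + ‖c‖)))
    rw [eventually_inf_principal]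
    refine Eventually.of_forall fun z hz => ?_
    have hz' : 0 ≤ z.im := (Set.mem_Ioi.mp (Complex.mem_reProdIm.mp hz).2).le
    rw [hnorm, Real.rpow_one, Real.norm_eq_abs, abs_of_pos (Real.exp_pos _), ← Real.exp_add]
    apply Real.exp_le_exp.mpr
    have h1 := hgrow _ (him1 z hz')
    have h2 := him _ (him2 z hz')
    have h3 := (Complex.abs_im_le_norm (ψ (z + c)))
    have h4 := (abs_le.mp h3).2
    have h5 : ‖z + c‖ ≤ ‖z‖ + ‖c‖ := norm_add_le _ _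
    have h6 : K * (1 + ‖z + c‖) ≤ K * (1 + (‖z‖ + ‖c‖)) := by gcongr
    have h7 : 0 ≤ K * (1 + (‖z‖ + ‖c‖)) := by positivity
    nlinarith
  · intro x hx
    rw [hnorm]
    apply Real.exp_le_exp.mpr
    have h1 := hK' ((x : ℂ) + c) (by simp [hc, hx]) (him1 _ (by simp))
    have h2 := him _ (him2 (x : ℂ) (by simp))
    have h3 : ((x : ℂ) + c).im = ε := by simp [hc]
    rw [h3] at h1
    linarith
  · intro y hy
    rw [hnorm]
    have e : c - (starRingEnd ℂ) ((y : ℂ) * I) = (y : ℂ) * I + c := by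
      apply Complex.ext <;> simp [hc] <;> ring
    rw [e, sub_self, Real.exp_zero]
    apply Real.one_le_exp
    have h1 := hK' ((0 : ℂ) + c) (by simp [hc]) (him1 _ (by simp))
    have h2 := him _ (him1 (0 : ℂ) (by simp))
    have h3 : ((0 : ℂ) + c).im = ε := by simp [hc]
    rw [h3] at h1
    linarith

lemma im_le (ψ : ℂ → ℂ) (hd : ∀ τ : ℂ, 0 < τ.im → DifferentiableAt ℂ ψ τ)
    (K : ℝ) (hgrow : ∀ τ : ℂ, 0 < τ.im → ‖ψ τ‖ ≤ K * (1 + ‖τ‖))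
    (him : ∀ τ : ℂ, 0 < τ.im → 0 ≤ (ψ τ).im)
    (m : ℝ) (K' : ℝ) (hK' : ∀ τ : ℂ, m ≤ τ.re → 0 < τ.im → (ψ τ).im ≤ K' * τ.im)
    (ξ b : ℝ) (hξ : 0 ≤ ξ) (hb : 0 < b) :
    (ψ ⟨m + ξ, b⟩).im ≤ (ψ ⟨m - ξ, b⟩).im := by
  have ht : Tendsto (fun ε : ℝ => K' * ε) (𝓝[>] 0) (𝓝 0) := by
    have : Tendsto (fun ε : ℝ => K' * ε) (𝓝 0) (𝓝 (K' * 0)) :=
      (continuous_const.mul continuous_id).tendsto 0
    rw [mul_zero] at this
    exact this.mono_left nhdsWithin_le_nhds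
  have hev : ∀ᶠ ε in 𝓝[>] (0 : ℝ), (ψ ⟨m + ξ, b⟩).im - (ψ ⟨m - ξ, b⟩).im ≤ K' * ε := by
    filter_upwards [Ioc_mem_nhdsGT hb] with ε hε
    exact im_le_aux ψ hd K hgrow him m K' hK' ξ b ε hξ hε.1 hε.2
  have := ge_of_tendsto ht hev
  linarith

theorem concave_of_pick (ψ : ℂ → ℂ) (ψ0 ψ0' : ℝ → ℝ)
    (hd : ∀ τ : ℂ, 0 < τ.im → DifferentiableAt ℂ ψ τ)
    (K : ℝ) (hgrow : ∀ τ : ℂ, 0 < τ.im → ‖ψ τ‖ ≤ K * (1 + ‖τ‖))
    (him : ∀ τ : ℂ, 0 < τ.im → 0 ≤ (ψ τ).im)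
    (hre : ∀ m : ℝ, 0 < m → ∃ K' : ℝ, ∀ τ : ℂ, m ≤ τ.re → 0 < τ.im → (ψ τ).im ≤ K' * τ.im)
    (hlim : ∀ a : ℝ, 0 < a → Tendsto (fun b : ℝ => (ψ ⟨a, b⟩).im / b) (𝓝[>] 0) (𝓝 (ψ0' a)))
    (hder : ∀ a : ℝ, 0 < a → HasDerivAt ψ0 (ψ0' a) a) : ConcaveOn ℝ (Ioi 0) ψ0 := by
  have hanti : AntitoneOn ψ0' (Ioi 0) := by
    intro p hp r hr hpr
    have hp' : (0 : ℝ) < p := hp
    obtain ⟨K', hK'⟩ := hre ((p + r) / 2) (by linarith)
    apply le_of_tendsto_of_tendsto (hlim r hr) (hlim p hp)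
    filter_upwards [self_mem_nhdsWithin] with b hb
    have hb' : (0 : ℝ) < b := hb
    have h1 := im_le ψ hd K hgrow him ((p + r) / 2) K' hK' ((r - p) / 2) b (by linarith) hb'
    have e1 : (p + r) / 2 + (r - p) / 2 = r := by ring
    have e2 : (p + r) / 2 - (r - p) / 2 = p := by ring
    rw [e1, e2] at h1
    exact div_le_div_of_nonneg_right h1 hb'.le
  apply AntitoneOn.concaveOn_of_deriv (convex_Ioi 0)
  · intro x hx
    exact (hder x hx).continuousAt.continuousWithinAt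
  · rw [interior_Ioi]
    intro x hx
    exact (hder x hx).differentiableAt.differentiableWithinAt
  · rw [interior_Ioi]
    intro x hx y hy hxy
    rw [(hder x hx).deriv, (hder y hy).deriv]
    exact hanti hx hy hxy

end Pool.Agent.Helper636.Pos
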