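import Pool.Agent.Helper636.PosCore
import Pool.Agent.Helper636.PosPL

set_option autoImplicit false

namespace Pool.Agent.Helper636.Pos

open Finset Complex MeasureTheory Filter Topology

lemma Lint_param_cont {κ X : Type} [TopologicalSpace X] (S : Finset κ) (C a : X → κ → ℝ)
    (hC : ∀ k ∈ S, Continuous (fun x => C x k)) (ha : ∀ k ∈ S, Continuous (fun x => a x k))
    (hq : ∀ x (ζ : ℂ), 0 ≤ ζ.im → ζ.im ≤ 1 → q S (C x) (a x) ζ ≠ 0) :
    Continuous (fun x => Lint S (C x) (a x) 0) := by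
  unfold Lint
  apply intervalIntegral.continuous_parametric_intervalIntegral_of_continuous'
  unfold Function.uncurry ell
  have hcl : Continuous (fun p : X × ℝ => ((clip p.2 : ℝ) : ℂ)) := by
    exact Complex.continuous_ofReal.comp (clip_cont.comp continuous_snd)
  have hz : Continuous (fun p : X × ℝ => (((0 : ℝ) : ℂ) + (clip p.2 : ℂ) * I)) :=
    continuous_const.add (hcl.mul continuous_const)
  have hCc : ∀ k ∈ S, Continuous (fun p : X × ℝ => ((C p.1 k : ℝ) : ℂ)) := fun k hk =>
    Complex.continuous_ofReal.comp ((hC k hk).comp continuous_fst)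
  have hac : ∀ k ∈ S, Continuous (fun p : X × ℝ => ((a p.1 k : ℝ) : ℂ)) := fun k hk =>
    Complex.continuous_ofReal.comp ((ha k hk).comp continuous_fst)
  apply Continuous.div
  · unfold q'
    exact continuous_finset_sum _ fun k hk =>
      ((hCc k hk).mul (hac k hk)).mul (((hac k hk).mul hz).cexp)
  · unfold q
    exact continuous_finset_sum _ fun k hk => (hCc k hk).mul (((hac k hk).mul hz).cexp)
  · intro p
    exact q_clip_ne S (C p.1) (a p.1) (hq p.1) 0 p.2

lemma q_conj {κ : Type} (S : Finset κ) (C a : κ → ℝ) (ζ : ℂ) :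
    q S C a ((starRingEnd ℂ) ζ) = (starRingEnd ℂ) (q S C a ζ) := by
  unfold q
  rw [map_sum]
  refine Finset.sum_congr rfl fun k _ => ?_
  rw [map_mul, ← Complex.exp_conj, map_mul, Complex.conj_ofReal, Complex.conj_ofReal]

lemma q'_conj {κ : Type} (S : Finset κ) (C a : κ → ℝ) (ζ : ℂ) :
    q' S C a ((starRingEnd ℂ) ζ) = (starRingEnd ℂ) (q' S C a ζ) := by
  unfold q'
  rw [map_sum]
  refine Finset.sum_congr rfl fun k _ => ?_
  rw [map_mul, map_mul, ← Complex.exp_conj, map_mul, Complex.conj_ofReal, Complex.conj_ofReal]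

/-- Upper bound for the argument. -/
theorem core_upper {κ : Type} (S : Finset κ) (C a : κ → ℝ) (D : ℝ)
    (hq : ∀ ζ : ℂ, 0 ≤ ζ.im → ζ.im ≤ 1 → q S C a ζ ≠ 0)
    (hC : ∀ k ∈ S, 0 ≤ C k) (ha : ∀ k ∈ S, C k ≠ 0 → a k ≤ D)
    (hne : ∃ k ∈ S, C k ≠ 0) : Ang S C a 0 ≤ D := by
  set a' : κ → ℝ := fun k => D - a k with ha'
  have e1 : ∀ ζ : ℂ, q S C a' ζ = Complex.exp ((D : ℂ) * ζ) * q S C a (-ζ) := by
    intro ζ
    unfold q
    rw [Finset.mul_sum]
    refine Finset.sum_congr rfl fun k _ => ?_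
    have : ((a' k : ℝ) : ℂ) * ζ = (D : ℂ) * ζ + (a k : ℂ) * (-ζ) := by
      simp only [ha']; push_cast; ring
    rw [this, Complex.exp_add]; ring
  have e2 : ∀ ζ : ℂ, q' S C a' ζ = Complex.exp ((D : ℂ) * ζ) *
      ((D : ℂ) * q S C a (-ζ) - q' S C a (-ζ)) := by
    intro ζ
    unfold q q'
    rw [Finset.mul_sum, ← Finset.sum_sub_distrib, Finset.mul_sum]
    refine Finset.sum_congr rfl fun k _ => ?_
    have : ((a' k : ℝ) : ℂ) * ζ = (D : ℂ) * ζ + (a k : ℂ) * (-ζ) := by
      simp only [ha']; push_cast; ring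
    rw [this, Complex.exp_add]
    simp only [ha']; push_cast; ring
  have hq' : ∀ ζ : ℂ, 0 ≤ ζ.im → ζ.im ≤ 1 → q S C a' ζ ≠ 0 := by
    intro ζ h0 h1
    rw [e1]
    apply mul_ne_zero (Complex.exp_ne_zero _)
    have h2 : -ζ = (starRingEnd ℂ) (-(starRingEnd ℂ) ζ) := by simp
    rw [h2, q_conj]
    intro h3
    apply hq (-(starRingEnd ℂ) ζ) (by simpa using h0) (by simpa using h1)
    simpa using h3
  have h1 := core S C a' hq' hC (by
    intro k hk hCk
    have := ha k hk hCk
    simp only [ha']; linarith) hne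
  have h2 : Ang S C a' 0 = D - Ang S C a 0 := by
    rw [Ang_eq S C a' hq', Ang_eq S C a hq]
    have h3 : ∀ s : ℝ, (ell S C a' 0 s).re = D - (ell S C a 0 s).re := by
      intro s
      unfold ell
      set ζ : ℂ := ((0 : ℝ) : ℂ) + (clip s : ℂ) * I with hζ
      have h4 : -ζ = (starRingEnd ℂ) ζ := by
        simp [hζ]
      have hqn : q S C a ζ ≠ 0 := q_clip_ne S C a hq 0 s
      have hqn' : (starRingEnd ℂ) (q S C a ζ) ≠ 0 := by simpa using hqn
      rw [e1, e2, mul_div_mul_left _ _ (Complex.exp_ne_zero _), h4, q_conj, q'_conj,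
        sub_div, mul_div_assoc, div_self hqn', mul_one, ← map_div₀, Complex.sub_re,
        Complex.conj_re, Complex.ofReal_re]
    simp only [h3]
    rw [intervalIntegral.integral_sub]
    · simp
    · exact intervalIntegrable_const
    · exact (Complex.continuous_re.comp (ell_cont' S C a hq 0)).intervalIntegrable _ _
  linarith

/-- A continuous logarithm of a differentiable function is differentiable. -/
lemma log_lift_diff (L f : ℂ → ℂ) (τ0 : ℂ) (hL : ContinuousAt L τ0)
    (hexp : ∀ᶠ τ in 𝓝 τ0, Complex.exp (L τ) = f τ) (hf : DifferentiableAt ℂ f τ0) :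
    DifferentiableAt ℂ L τ0 := by
  have h0 : f τ0 = Complex.exp (L τ0) := (hexp.self_of_nhds).symm
  have hne : f τ0 ≠ 0 := by rw [h0]; exact Complex.exp_ne_zero _
  have hev : ∀ᶠ τ in 𝓝 τ0, L τ = L τ0 + Complex.log (f τ / f τ0) := by
    have h1 : Tendsto (fun τ => (L τ - L τ0).im) (𝓝 τ0) (𝓝 0) := by
      have h2 : ContinuousAt (fun τ => (L τ - L τ0).im) τ0 :=
        Complex.continuous_im.continuousAt.comp (hL.sub continuousAt_const)
      have h3 := h2.tendsto
      simpa using h3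
    have h4 := h1.eventually (Ioo_mem_nhds (show -Real.pi < 0 by linarith [Real.pi_pos])
      Real.pi_pos)
    filter_upwards [h4, hexp] with τ h5 h6
    rw [← h6, h0, ← Complex.exp_sub, Complex.log_exp h5.1 h5.2.le]
    ring
  have hd : DifferentiableAt ℂ (fun τ => L τ0 + Complex.log (f τ / f τ0)) τ0 := by
    apply DifferentiableAt.const_add
    apply DifferentiableAt.clog (hf.div_const _)
    rw [div_self hne]
    exact Complex.one_mem_slitPlane
  exact hd.congr_of_eventuallyEq hev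

end Pool.Agent.Helper636.Pos
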