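import Pool.Agent.Helper636.PosMain

set_option autoImplicit false

namespace Pool.Agent.Helper636.Pos

open Finset Complex MeasureTheory Filter Topology

variable {n : ℕ} {S : Finset (Fin n → ℝ)} {c : (Fin n → ℝ) → ℝ} {d : ℝ}

noncomputable def gg (S : Finset (Fin n → ℝ)) (c : (Fin n → ℝ) → ℝ) (d : ℝ) (x y : Fin n → ℝ)
    (τ : ℂ) : ℂ := Complex.exp (Complex.log (fh S c x y τ) / (d : ℂ))

section

variable (x y : Fin n → ℝ) (hx : ∀ i, 0 < x i) (hy : ∀ i, 0 < y i)

include hx hy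

lemma zz_real (a : ℝ) (i : Fin n) : zz x y (a : ℂ) i = ((x i + a * y i : ℝ) : ℂ) := by
  unfold zz; push_cast; ring

lemma zz_slit (a : ℝ) (ha : 0 < a) (i : Fin n) : zz x y (a : ℂ) i ∈ Complex.slitPlane := by
  rw [zz_real x y hx hy]
  apply Complex.ofReal_mem_slitPlane.mpr
  have := hx i
  have := hy i
  positivity

lemma fh_real (a : ℝ) (ha : 0 < a) :
    fh S c x y (a : ℂ) = ((Er S c (fun i => Real.log (x i + a * y i)) : ℝ) : ℂ) := by
  unfold fh E Er
  push_cast
  refine Finset.sum_congr rfl fun α _ => ?_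
  congr 2
  refine Finset.sum_congr rfl fun i _ => ?_
  have h1 := hx i
  have h2 := hy i
  have h3 : 0 ≤ x i + a * y i := by positivity
  rw [zz_real x y hx hy, Complex.ofReal_log h3]

lemma gg_real (h : Dat S c d) (a : ℝ) (ha : 0 < a) : gg S c d x y (a : ℂ)
    = ((Real.exp (Real.log (Er S c (fun i => Real.log (x i + a * y i))) / d) : ℝ) : ℂ) := by
  unfold gg
  rw [fh_real x y hx hy a ha, ← Complex.ofReal_log (Er_pos h _).le]
  push_cast; rfl

lemma gg_diff (h : Dat S c d) (a : ℝ) (ha : 0 < a) : DifferentiableAt ℂ (gg S c d x y) (a : ℂ) := by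
  unfold gg
  apply DifferentiableAt.cexp
  apply DifferentiableAt.div_const
  apply DifferentiableAt.clog
  · exact fh_diff x y hx hy _ (zz_slit x y hx hy a ha)
  · rw [fh_real x y hx hy a ha]
    exact Complex.ofReal_mem_slitPlane.mpr (Er_pos h _)

lemma psi_eq_gg (h : Dat S c d) (τ : ℂ) (hτ : 0 < τ.im) (harg : d * Complex.arg τ < Real.pi) :
    psi S c d x y τ = gg S c d x y τ := by
  unfold psi gg
  have h1 := LT_im_nonneg x y hx hy h τ hτ
  have h2 := LT_im_le x y hx hy h τ hτ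
  have hpi := Real.pi_pos
  rw [← exp_LT x y hx hy h τ hτ, Complex.log_exp (by linarith) (by linarith)]

lemma psi_lim (h : Dat S c d) (a : ℝ) (ha : 0 < a) :
    Tendsto (fun b : ℝ => (psi S c d x y ⟨a, b⟩).im / b) (𝓝[>] 0)
      (𝓝 (deriv (gg S c d x y) (a : ℂ)).re) := by
  have hpath : HasDerivAt (fun t : ℝ => (a : ℂ) + (t : ℂ) * I) I 0 := by
    have h0 : HasDerivAt (fun s : ℝ => (s : ℂ)) 1 0 := by
      simpa using (hasDerivAt_id (0 : ℝ)).ofReal_comp
    simpa using (h0.mul_const I).const_add (a : ℂ)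
  have hgd : HasDerivAt (gg S c d x y) (deriv (gg S c d x y) (a : ℂ)) (((a : ℂ) + ((0 : ℝ) : ℂ) * I)) := by
    simpa using (gg_diff x y hx hy h a ha).hasDerivAt
  have hcomp : HasDerivAt (fun t : ℝ => gg S c d x y ((a : ℂ) + (t : ℂ) * I))
      (deriv (gg S c d x y) (a : ℂ) * I) 0 :=
    HasDerivAt.comp (h₂ := gg S c d x y) (0 : ℝ) hgd hpath
  have him : HasDerivAt (fun t : ℝ => (gg S c d x y ((a : ℂ) + (t : ℂ) * I)).im)
      (deriv (gg S c d x y) (a : ℂ)).re 0 := by
    have h1 := Complex.imCLM.hasFDerivAt.comp_hasDerivAt (0 : ℝ) hcomp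
    simpa [Function.comp_def] using h1
  have hslope := him.tendsto_slope_zero_right
  have h0 : (gg S c d x y ((a : ℂ) + ((0 : ℝ) : ℂ) * I)).im = 0 := by
    have e : (a : ℂ) + ((0 : ℝ) : ℂ) * I = (a : ℂ) := by simp
    rw [e, gg_real x y hx hy h a ha]
    exact Complex.ofReal_im _
  refine hslope.congr' ?_
  have harg : Tendsto (fun b : ℝ => d * Complex.arg ((a : ℂ) + (b : ℂ) * I)) (𝓝[>] 0) (𝓝 0) := by
    have h1 : ContinuousAt (fun b : ℝ => d * Complex.arg ((a : ℂ) + (b : ℂ) * I)) 0 := by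
      apply ContinuousAt.mul continuousAt_const
      have h2 : ContinuousAt Complex.arg ((a : ℂ) + ((0 : ℝ) : ℂ) * I) := by
        apply Complex.continuousAt_arg
        simpa using ha
      exact ContinuousAt.comp (f := fun b : ℝ => (a : ℂ) + (b : ℂ) * I) (g := Complex.arg) h2
        (by fun_prop)
    have h3 := h1.tendsto
    have h4 : d * Complex.arg ((a : ℂ) + ((0 : ℝ) : ℂ) * I) = 0 := by
      have e : (a : ℂ) + ((0 : ℝ) : ℂ) * I = (a : ℂ) := by simp
      rw [e, Complex.arg_ofReal_of_nonneg ha.le, mul_zero]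
    rw [h4] at h3
    exact h3.mono_left nhdsWithin_le_nhds
  filter_upwards [self_mem_nhdsWithin, harg.eventually (gt_mem_nhds Real.pi_pos)] with b hb hb2
  have hb' : (0 : ℝ) < b := hb
  have e : (⟨a, b⟩ : ℂ) = (a : ℂ) + (b : ℂ) * I := by
    apply Complex.ext <;> simp
  rw [e, psi_eq_gg x y hx hy h _ (by simpa using hb') hb2]
  simp only [zero_add]
  rw [h0, sub_zero, smul_eq_mul, div_eq_inv_mul]

end

/-- the real function -/
noncomputable def fr (S : Finset (Fin n → ℝ)) (c : (Fin n → ℝ) → ℝ) (p : Fin n → ℝ) : ℝ :=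
  ∑ α ∈ S, c α * ∏ i, (p i) ^ (α i)

lemma fr_eq (p : Fin n → ℝ) (hp : ∀ i, 0 < p i) : fr S c p = Er S c (fun i => Real.log (p i)) := by
  unfold fr Er
  refine Finset.sum_congr rfl fun α _ => ?_
  congr 1
  rw [Real.exp_sum]
  refine Finset.prod_congr rfl fun i _ => ?_
  rw [Real.rpow_def_of_pos (hp i), mul_comm]

noncomputable def F (S : Finset (Fin n → ℝ)) (c : (Fin n → ℝ) → ℝ) (d : ℝ) (p : Fin n → ℝ) : ℝ :=
  Real.exp (Real.log (fr S c p) / d)

lemma F_conc (h : Dat S c d) (x y : Fin n → ℝ) (hx : ∀ i, 0 < x i) (hy : ∀ i, 0 < y i) :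
    ConcaveOn ℝ (Set.Ioi 0) (fun a : ℝ => F S c d (fun i => x i + a * y i)) := by
  obtain ⟨K, hK⟩ := psi_norm_le x y hx hy h
  have hmain := concave_of_pick (psi S c d x y) (fun a : ℝ => (gg S c d x y (a : ℂ)).re)
    (fun a : ℝ => (deriv (gg S c d x y) (a : ℂ)).re) (psi_diff x y hx hy h) K hK
    (psi_im_nonneg x y hx hy h) (psi_im_le x y hx hy h) (psi_lim x y hx hy h)
    (fun a ha => (gg_diff x y hx hy h a ha).hasDerivAt.real_of_complex)
  refine hmain.congr ?_
  intro a ha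
  simp only
  rw [gg_real x y hx hy h a ha, Complex.ofReal_re, F, fr_eq]
  intro i
  have h1 := hx i
  have h2 := hy i
  have h3 : (0 : ℝ) < a := ha
  positivity

lemma fr_hom (h : Dat S c d) (p : Fin n → ℝ) (hp : ∀ i, 0 < p i) (t : ℝ) (ht : 0 < t) :
    fr S c (fun i => t * p i) = t ^ d * fr S c p := by
  unfold fr
  rw [Finset.mul_sum]
  refine Finset.sum_congr rfl fun α hα => ?_
  have h1 : ∏ i, (t * p i) ^ (α i) = t ^ d * ∏ i, (p i) ^ (α i) := by
    have h2 : ∀ i, (t * p i) ^ (α i) = t ^ (α i) * (p i) ^ (α i) := fun i =>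
      Real.mul_rpow ht.le (hp i).le
    simp only [h2, Finset.prod_mul_distrib]
    rw [← Real.rpow_sum_of_pos ht, h.sum α hα]
  rw [h1]; ring

lemma fr_pos (h : Dat S c d) (p : Fin n → ℝ) (hp : ∀ i, 0 < p i) : 0 < fr S c p := by
  rw [fr_eq p hp]; exact Er_pos h _

lemma F_hom (h : Dat S c d) (p : Fin n → ℝ) (hp : ∀ i, 0 < p i) (t : ℝ) (ht : 0 < t) :
    F S c d (fun i => t * p i) = t * F S c d p := by
  unfold F
  rw [fr_hom h p hp t ht, Real.log_mul (Real.rpow_pos_of_pos ht d).ne' (fr_pos h p hp).ne',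
    Real.log_rpow ht, add_div, mul_div_cancel_left₀ _ h.dpos.ne', Real.exp_add, Real.exp_log ht]

lemma F_super (h : Dat S c d) (P Q : Fin n → ℝ) (hP : ∀ i, 0 < P i) (hQ : ∀ i, 0 < Q i) :
    F S c d P + F S c d Q ≤ F S c d (fun i => P i + Q i) := by
  obtain ⟨ε, hε0, hε1, hε⟩ : ∃ ε : ℝ, 0 < ε ∧ ε < 1 ∧ ∀ i, ε * Q i < P i ∧ ε * P i < Q i := by
    have h1 : ∀ i, ∀ᶠ ε in 𝓝[>] (0 : ℝ), ε * Q i < P i ∧ ε * P i < Q i := by
      intro i
      have h2 : Tendsto (fun ε : ℝ => ε * Q i) (𝓝[>] 0) (𝓝 0) := by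
        have : Tendsto (fun ε : ℝ => ε * Q i) (𝓝 0) (𝓝 (0 * Q i)) :=
          (continuous_id.mul continuous_const).tendsto 0
        rw [zero_mul] at this
        exact this.mono_left nhdsWithin_le_nhds
      have h3 : Tendsto (fun ε : ℝ => ε * P i) (𝓝[>] 0) (𝓝 0) := by
        have : Tendsto (fun ε : ℝ => ε * P i) (𝓝 0) (𝓝 (0 * P i)) :=
          (continuous_id.mul continuous_const).tendsto 0
        rw [zero_mul] at this
        exact this.mono_left nhdsWithin_le_nhds
      exact (h2.eventually (gt_mem_nhds (hP i))).and (h3.eventually (gt_mem_nhds (hQ i)))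
    have h4 := (eventually_all.mpr h1).and (Ioo_mem_nhdsGT (zero_lt_one (α := ℝ)))
    obtain ⟨ε, h5, h6⟩ := h4.exists
    exact ⟨ε, h6.1, h6.2, h5⟩
  set x : Fin n → ℝ := fun i => P i - ε * Q i with hx
  set y : Fin n → ℝ := fun i => Q i - ε * P i with hy
  have hxpos : ∀ i, 0 < x i := fun i => by simp only [hx]; linarith [(hε i).1]
  have hypos : ∀ i, 0 < y i := fun i => by simp only [hy]; linarith [(hε i).2]
  have hκ : 0 < 1 - ε ^ 2 := by nlinarith
  have hconc := (F_conc h x y hxpos hypos).2 (show (ε : ℝ) ∈ Set.Ioi 0 from hε0)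
    (show (1 / ε : ℝ) ∈ Set.Ioi 0 from by
      show 0 < 1 / ε
      positivity)
    (show 0 ≤ 1 / (1 + ε) by positivity) (show 0 ≤ ε / (1 + ε) by positivity)
    (by field_simp)
  simp only [smul_eq_mul] at hconc
  have e1 : 1 / (1 + ε) * ε + ε / (1 + ε) * (1 / ε) = 1 := by field_simp; ring
  rw [e1] at hconc
  have f1 : F S c d (fun i => x i + ε * y i) = (1 - ε ^ 2) * F S c d P := by
    rw [← F_hom h P hP _ hκ]
    congr 1; funext i; simp only [hx, hy]; ring
  have f2 : F S c d (fun i => x i + 1 / ε * y i) = (1 - ε ^ 2) / ε * F S c d Q := by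
    rw [← F_hom h Q hQ _ (div_pos hκ hε0)]
    congr 1; funext i; simp only [hx, hy]; field_simp; ring
  have f3 : F S c d (fun i => x i + 1 * y i) = (1 - ε) * F S c d (fun i => P i + Q i) := by
    rw [← F_hom h (fun i => P i + Q i) (fun i => add_pos (hP i) (hQ i)) _ (by linarith)]
    congr 1; funext i; simp only [hx, hy]; ring
  rw [f1, f2, f3] at hconc
  have h7 : (1 - ε ^ 2) * (F S c d P + F S c d Q) ≤ (1 - ε ^ 2) * F S c d (fun i => P i + Q i) := by
    have h8 := mul_le_mul_of_nonneg_left hconc (show 0 ≤ 1 + ε by linarith)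
    have e2 : (1 + ε) * (1 / (1 + ε) * ((1 - ε ^ 2) * F S c d P) + ε / (1 + ε) *
        ((1 - ε ^ 2) / ε * F S c d Q)) = (1 - ε ^ 2) * (F S c d P + F S c d Q) := by
      field_simp
    have e3 : (1 + ε) * ((1 - ε) * F S c d (fun i => P i + Q i))
        = (1 - ε ^ 2) * F S c d (fun i => P i + Q i) := by ring
    rw [e2, e3] at h8
    exact h8
  exact le_of_mul_le_mul_left h7 hκ

theorem logconc (h : Dat S c d) : ConcaveOn ℝ {x : Fin n → ℝ | ∀ i, 0 < x i}
    (fun x => Real.log (fr S c x)) := by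
  constructor
  · intro P hP Q hQ s t hs ht hst i
    have h1 : 0 < P i := hP i
    have h2 : 0 < Q i := hQ i
    show 0 < s * P i + t * Q i
    rcases hs.eq_or_lt with h3 | h3
    · have : t = 1 := by linarith
      subst this; rw [← h3]; linarith
    · have := mul_pos h3 h1
      have := mul_nonneg ht h2.le
      linarith
  · intro P hP Q hQ s t hs ht hst
    have hlogF : ∀ p : Fin n → ℝ, Real.log (fr S c p) = d * Real.log (F S c d p) := by
      intro p
      unfold F
      rw [Real.log_exp, mul_div_cancel₀ _ h.dpos.ne']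
    rcases hs.eq_or_lt with h3 | h3
    · have : t = 1 := by linarith
      subst this; rw [← h3]; simp
    rcases ht.eq_or_lt with h4 | h4
    · have : s = 1 := by linarith
      subst this; rw [← h4]; simp
    simp only [smul_eq_mul]
    rw [hlogF P, hlogF Q, hlogF (s • P + t • Q)]
    have hFP : 0 < F S c d P := Real.exp_pos _
    have hFQ : 0 < F S c d Q := Real.exp_pos _
    have h5 := F_super h (fun i => s * P i) (fun i => t * Q i) (fun i => mul_pos h3 (hP i))
      (fun i => mul_pos h4 (hQ i))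
    rw [F_hom h P hP s h3, F_hom h Q hQ t h4] at h5
    have h6 : (s • P + t • Q) = fun i => s * P i + t * Q i := by
      funext i; simp
    rw [h6]
    have h7 := (strictConcaveOn_log_Ioi.concaveOn).2 hFP hFQ hs ht hst
    simp only [smul_eq_mul] at h7
    have h8 : Real.log (s * F S c d P + t * F S c d Q)
        ≤ Real.log (F S c d (fun i => s * P i + t * Q i)) :=
      Real.log_le_log (by positivity) h5
    have h9 := mul_le_mul_of_nonneg_left (h7.trans h8) h.dpos.le
    calc s * (d * Real.log (F S c d P)) + t * (d * Real.log (F S c d Q))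
        = d * (s * Real.log (F S c d P) + t * Real.log (F S c d Q)) := by ring
      _ ≤ _ := h9

end Pool.Agent.Helper636.Pos
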