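import Pool.Agent.Helper636.PosE

set_option autoImplicit false

namespace Pool.Agent.Helper636.Pos

open Finset Complex MeasureTheory Filter Topology

variable {n : ℕ} {S : Finset (Fin n → ℝ)} {c : (Fin n → ℝ) → ℝ} {d : ℝ}

structure Dat (S : Finset (Fin n → ℝ)) (c : (Fin n → ℝ) → ℝ) (d : ℝ) : Prop where
  dpos : 0 < d
  nn : ∀ α ∈ S, ∀ i, 0 ≤ α i
  sum : ∀ α ∈ S, ∑ i, α i = d
  cnn : ∀ α ∈ S, 0 ≤ c α
  ne : ∀ z : Fin n → ℂ, (∀ i, 0 < (z i).re) →
    ∑ α ∈ S, (c α : ℂ) * ∏ i, (z i) ^ ((α i : ℂ)) ≠ 0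

noncomputable def E (S : Finset (Fin n → ℝ)) (c : (Fin n → ℝ) → ℝ) (w : Fin n → ℂ) : ℂ :=
  ∑ α ∈ S, (c α : ℂ) * Complex.exp (∑ i, (α i : ℂ) * w i)

lemma E_ne0 (h : Dat S c d) (w : Fin n → ℂ) (hw : ∀ i, |(w i).im| < Real.pi / 2) :
    E S c w ≠ 0 := by
  have h1 := h.ne (fun i => Complex.exp (w i)) (by
    intro i
    rw [Complex.exp_re]
    apply mul_pos (Real.exp_pos _)
    have := abs_lt.mp (hw i)
    exact Real.cos_pos_of_mem_Ioo ⟨this.1, this.2⟩)
  convert h1 using 1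
  unfold E
  refine Finset.sum_congr rfl fun α _ => ?_
  congr 1
  rw [Complex.exp_sum]
  refine Finset.prod_congr rfl fun i _ => ?_
  have := abs_lt.mp (hw i)
  have hpi := Real.pi_pos
  rw [Complex.cpow_def_of_ne_zero (Complex.exp_ne_zero _), Complex.log_exp (by linarith) (by linarith),
    mul_comm]

lemma E_shift (h : Dat S c d) (w : Fin n → ℂ) (t : ℂ) :
    E S c (fun i => w i + t) = Complex.exp ((d : ℂ) * t) * E S c w := by
  unfold E
  rw [Finset.mul_sum]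
  refine Finset.sum_congr rfl fun α hα => ?_
  have h1 : ∑ i, (α i : ℂ) * (w i + t) = (d : ℂ) * t + ∑ i, (α i : ℂ) * w i := by
    simp only [mul_add, Finset.sum_add_distrib]
    rw [← Finset.sum_mul, add_comm]
    congr 2
    rw [← h.sum α hα]; push_cast; rfl
  rw [h1, Complex.exp_add]; ring

lemma E_ne (h : Dat S c d) (w : Fin n → ℂ) (β : ℝ) (hw : ∀ i, |(w i).im - β| < Real.pi / 2) :
    E S c w ≠ 0 := by
  have h1 : E S c (fun i => w i + (-((β : ℂ) * I))) ≠ 0 := by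
    apply E_ne0 h
    intro i
    have : (w i + (-((β : ℂ) * I))).im = (w i).im - β := by simp; ring
    rw [this]; exact hw i
  rw [E_shift h] at h1
  exact right_ne_zero_of_mul h1

noncomputable def Cc (c : (Fin n → ℝ) → ℝ) (u : Fin n → ℝ) (α : Fin n → ℝ) : ℝ :=
  c α * Real.exp (∑ i, α i * u i)

noncomputable def aa (v : Fin n → ℝ) (α : Fin n → ℝ) : ℝ := ∑ i, α i * v i

lemma q_eq_E (u v : Fin n → ℝ) (ζ : ℂ) :
    q S (Cc c u) (aa v) ζ = E S c (fun i => (u i : ℂ) + ζ * (v i : ℂ)) := by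
  unfold q E Cc aa
  refine Finset.sum_congr rfl fun α _ => ?_
  push_cast
  rw [mul_assoc, ← Complex.exp_add]
  congr 2
  rw [Finset.sum_mul, ← Finset.sum_add_distrib]
  exact Finset.sum_congr rfl fun i _ => by ring

lemma exists_c (h : Dat S c d) : ∃ α ∈ S, c α ≠ 0 := by
  by_contra hno
  push Not at hno
  apply E_ne0 h (fun _ => 0) (by intro i; simp [Real.pi_pos])
  unfold E
  exact Finset.sum_eq_zero fun α hα => by rw [hno α hα]; simp

/-- real value -/
noncomputable def Er (S : Finset (Fin n → ℝ)) (c : (Fin n → ℝ) → ℝ) (u : Fin n → ℝ) : ℝ :=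
  ∑ α ∈ S, c α * Real.exp (∑ i, α i * u i)

lemma Er_pos (h : Dat S c d) (u : Fin n → ℝ) : 0 < Er S c u := by
  obtain ⟨α, hα, hc⟩ := exists_c h
  have hcp : 0 < c α := lt_of_le_of_ne (h.cnn α hα) (Ne.symm hc)
  exact Finset.sum_pos' (fun β hβ => mul_nonneg (h.cnn β hβ) (Real.exp_pos _).le)
    ⟨α, hα, mul_pos hcp (Real.exp_pos _)⟩

lemma hq_of (h : Dat S c d) (u v : Fin n → ℝ) (Θ : ℝ) (hΘ : Θ < Real.pi) (hv0 : ∀ i, 0 ≤ v i)
    (hv1 : ∀ i, v i ≤ Θ) (ζ : ℂ) (h0 : 0 ≤ ζ.im) (h1 : ζ.im ≤ 1) :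
    q S (Cc c u) (aa v) ζ ≠ 0 := by
  rw [q_eq_E]
  apply E_ne h _ (Θ / 2)
  intro i
  have him : ((u i : ℂ) + ζ * (v i : ℂ)).im = ζ.im * v i := by simp
  rw [him, abs_lt]
  have h2 : 0 ≤ ζ.im * v i := mul_nonneg h0 (hv0 i)
  have h3 : ζ.im * v i ≤ Θ := by
    have := hv0 i
    have := hv1 i
    nlinarith
  constructor <;> linarith

noncomputable def AngUV (S : Finset (Fin n → ℝ)) (c : (Fin n → ℝ) → ℝ) (u v : Fin n → ℝ) : ℝ :=
  Ang S (Cc c u) (aa v) 0

lemma Cc_nonneg (h : Dat S c d) (u : Fin n → ℝ) : ∀ α ∈ S, 0 ≤ Cc c u α := fun α hα =>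
  mul_nonneg (h.cnn α hα) (Real.exp_pos _).le

lemma Cc_ne (h : Dat S c d) (u : Fin n → ℝ) : ∃ α ∈ S, Cc c u α ≠ 0 := by
  obtain ⟨α, hα, hc⟩ := exists_c h
  exact ⟨α, hα, mul_ne_zero hc (Real.exp_pos _).ne'⟩

lemma Ang_nonneg (h : Dat S c d) (u v : Fin n → ℝ) (Θ : ℝ) (hΘ : Θ < Real.pi)
    (hv0 : ∀ i, 0 ≤ v i) (hv1 : ∀ i, v i ≤ Θ) : 0 ≤ AngUV S c u v := by
  apply core S (Cc c u) (aa v) (hq_of h u v Θ hΘ hv0 hv1) (Cc_nonneg h u)
  · intro α hα _
    exact Finset.sum_nonneg fun i _ => mul_nonneg (h.nn α hα i) (hv0 i)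
  · exact Cc_ne h u

lemma Ang_le (h : Dat S c d) (u v : Fin n → ℝ) (Θ : ℝ) (hΘ : Θ < Real.pi)
    (hv0 : ∀ i, 0 ≤ v i) (hv1 : ∀ i, v i ≤ Θ) : AngUV S c u v ≤ d * Θ := by
  apply core_upper S (Cc c u) (aa v) (d * Θ) (hq_of h u v Θ hΘ hv0 hv1) (Cc_nonneg h u)
  · intro α hα _
    unfold aa
    rw [← h.sum α hα, Finset.sum_mul]
    exact Finset.sum_le_sum fun i _ => mul_le_mul_of_nonneg_left (hv1 i) (h.nn α hα i)
  · exact Cc_ne h u

noncomputable def LL (S : Finset (Fin n → ℝ)) (c : (Fin n → ℝ) → ℝ) (u v : Fin n → ℝ) : ℂ :=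
  ((Real.log (Er S c u) : ℝ) : ℂ) + I * Lint S (Cc c u) (aa v) 0

lemma LL_im (u v : Fin n → ℝ) : (LL S c u v).im = AngUV S c u v := by
  unfold LL AngUV Ang
  simp

lemma exp_LL (h : Dat S c d) (u v : Fin n → ℝ) (Θ : ℝ) (hΘ : Θ < Real.pi)
    (hv0 : ∀ i, 0 ≤ v i) (hv1 : ∀ i, v i ≤ Θ) :
    Complex.exp (LL S c u v) = E S c (fun i => (u i : ℂ) + I * (v i : ℂ)) := by
  have h1 := q_exp S (Cc c u) (aa v) (hq_of h u v Θ hΘ hv0 hv1) 0
  rw [q_real] at h1
  have h2 : q S (Cc c u) (aa v) (((0 : ℝ) : ℂ) + I) = E S c (fun i => (u i : ℂ) + I * (v i : ℂ)) := by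
    rw [q_eq_E]; simp
  rw [← h2, h1]
  unfold LL
  rw [Complex.exp_add, ← Complex.ofReal_exp, Real.exp_log (Er_pos h u)]
  congr 2
  simp [Er, Cc]

lemma arg_le_aux (x y : ℝ) (hx : 0 < x) (hy : 0 < y) (τ : ℂ) (hτ : 0 < τ.im) :
    Complex.arg ((x : ℂ) + τ * (y : ℂ)) ≤ Complex.arg τ := by
  set z : ℂ := (x : ℂ) + τ * (y : ℂ) with hz
  have hzim : 0 < z.im := by simp [hz]; positivity
  by_contra hlt
  push Not at hlt
  have hτ0 : τ ≠ 0 := by rintro rfl; simp at hτ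
  have hz0 : z ≠ 0 := by intro h; rw [h] at hzim; simp at hzim
  have h1 : (z * (starRingEnd ℂ) τ).im = -(x * τ.im) := by
    simp [hz]; ring
  have h2 : (z * (starRingEnd ℂ) τ).im = ‖z‖ * ‖τ‖ * Real.sin (Complex.arg z - Complex.arg τ) := by
    rw [Real.sin_sub, Complex.sin_arg, Complex.sin_arg, Complex.cos_arg hτ0, Complex.cos_arg hz0]
    have h3 : ‖z‖ ≠ 0 := norm_ne_zero_iff.mpr hz0
    have h4 : ‖τ‖ ≠ 0 := norm_ne_zero_iff.mpr hτ0
    simp only [Complex.mul_im, Complex.conj_re, Complex.conj_im]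
    field_simp
    ring
  have h5 : 0 ≤ Real.sin (Complex.arg z - Complex.arg τ) := by
    apply Real.sin_nonneg_of_nonneg_of_le_pi
    · linarith
    · have h6 := Complex.arg_le_pi z
      have h7 : 0 ≤ Complex.arg τ := Complex.arg_nonneg_iff.mpr hτ.le
      linarith
  have h8 : 0 ≤ (z * (starRingEnd ℂ) τ).im := by
    rw [h2]; positivity
  rw [h1] at h8
  have := mul_pos hx hτ
  linarith

section tau

variable (x y : Fin n → ℝ) (hx : ∀ i, 0 < x i) (hy : ∀ i, 0 < y i)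

noncomputable def zz (x y : Fin n → ℝ) (τ : ℂ) (i : Fin n) : ℂ := (x i : ℂ) + τ * (y i : ℂ)

noncomputable def uu (x y : Fin n → ℝ) (τ : ℂ) (i : Fin n) : ℝ := Real.log ‖zz x y τ i‖

noncomputable def vv (x y : Fin n → ℝ) (τ : ℂ) (i : Fin n) : ℝ := Complex.arg (zz x y τ i)

noncomputable def fh (S : Finset (Fin n → ℝ)) (c : (Fin n → ℝ) → ℝ) (x y : Fin n → ℝ) (τ : ℂ) : ℂ :=
  E S c (fun i => Complex.log (zz x y τ i))

noncomputable def LT (S : Finset (Fin n → ℝ)) (c : (Fin n → ℝ) → ℝ) (x y : Fin n → ℝ) (τ : ℂ) : ℂ :=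
  LL S c (uu x y τ) (vv x y τ)

noncomputable def psi (S : Finset (Fin n → ℝ)) (c : (Fin n → ℝ) → ℝ) (d : ℝ) (x y : Fin n → ℝ)
    (τ : ℂ) : ℂ := Complex.exp (LT S c x y τ / (d : ℂ))

include hx hy

lemma zz_im (τ : ℂ) (hτ : 0 < τ.im) (i : Fin n) : 0 < (zz x y τ i).im := by
  have := hy i
  simp [zz]; positivity

lemma vv_nonneg (τ : ℂ) (hτ : 0 < τ.im) (i : Fin n) : 0 ≤ vv x y τ i :=
  Complex.arg_nonneg_iff.mpr (zz_im x y hx hy τ hτ i).le

lemma vv_le (τ : ℂ) (hτ : 0 < τ.im) (i : Fin n) : vv x y τ i ≤ Complex.arg τ :=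
  arg_le_aux (x i) (y i) (hx i) (hy i) τ hτ

omit hx hy in
lemma arg_lt_pi (τ : ℂ) (hτ : 0 < τ.im) : Complex.arg τ < Real.pi := by
  apply lt_of_le_of_ne (Complex.arg_le_pi τ)
  intro h
  rw [Complex.arg_eq_pi_iff] at h
  linarith [h.2]

lemma exp_LT (h : Dat S c d) (τ : ℂ) (hτ : 0 < τ.im) :
    Complex.exp (LT S c x y τ) = fh S c x y τ := by
  unfold LT fh
  rw [exp_LL h _ _ (Complex.arg τ) (arg_lt_pi τ hτ) (vv_nonneg x y hx hy τ hτ)
    (vv_le x y hx hy τ hτ)]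
  congr 1
  funext i
  unfold uu vv Complex.log
  ring

lemma LT_im_nonneg (h : Dat S c d) (τ : ℂ) (hτ : 0 < τ.im) : 0 ≤ (LT S c x y τ).im := by
  unfold LT
  rw [LL_im]
  exact Ang_nonneg h _ _ (Complex.arg τ) (arg_lt_pi τ hτ) (vv_nonneg x y hx hy τ hτ)
    (vv_le x y hx hy τ hτ)

lemma LT_im_le (h : Dat S c d) (τ : ℂ) (hτ : 0 < τ.im) :
    (LT S c x y τ).im ≤ d * Complex.arg τ := by
  unfold LT
  rw [LL_im]
  exact Ang_le h _ _ (Complex.arg τ) (arg_lt_pi τ hτ) (vv_nonneg x y hx hy τ hτ)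
    (vv_le x y hx hy τ hτ)

lemma fh_diff (τ : ℂ) (hτ : ∀ i, zz x y τ i ∈ Complex.slitPlane) :
    DifferentiableAt ℂ (fh S c x y) τ := by
  unfold fh E
  apply DifferentiableAt.fun_sum
  intro α _
  apply DifferentiableAt.const_mul
  apply DifferentiableAt.cexp
  apply DifferentiableAt.fun_sum
  intro i _
  apply DifferentiableAt.const_mul
  apply DifferentiableAt.clog
  · unfold zz; fun_prop
  · exact hτ i

lemma LT_cont (h : Dat S c d) (τ : ℂ) (hτ : 0 < τ.im) : ContinuousAt (LT S c x y) τ := by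
  have hopen : IsOpen {τ : ℂ | 0 < τ.im} := isOpen_lt continuous_const Complex.continuous_im
  have hon : ContinuousOn (LT S c x y) {τ : ℂ | 0 < τ.im} := by
    rw [continuousOn_iff_continuous_restrict]
    have hzc : ∀ i, Continuous (fun t : {τ : ℂ | 0 < τ.im} => zz x y t.1 i) := by
      intro i; unfold zz; fun_prop
    have hu : ∀ i, Continuous (fun t : {τ : ℂ | 0 < τ.im} => uu x y t.1 i) := by
      intro i
      unfold uu
      apply Continuous.log
      · exact (hzc i).norm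
      · intro t
        have := zz_im x y hx hy t.1 t.2 i
        rw [norm_ne_zero_iff]
        intro h0; rw [h0] at this; simp at this
    have hv : ∀ i, Continuous (fun t : {τ : ℂ | 0 < τ.im} => vv x y t.1 i) := by
      intro i
      unfold vv
      rw [continuous_iff_continuousAt]
      intro t
      have h1 : zz x y t.1 i ∈ Complex.slitPlane :=
        Complex.mem_slitPlane_iff.mpr (Or.inr (zz_im x y hx hy t.1 t.2 i).ne')
      have h2 : ContinuousAt (fun t : {τ : ℂ | 0 < τ.im} => zz x y t.1 i) t := (hzc i).continuousAt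
      exact ContinuousAt.comp (f := fun t : {τ : ℂ | 0 < τ.im} => zz x y t.1 i)
        (g := Complex.arg) (Complex.continuousAt_arg h1) h2
    show Continuous (fun t : {τ : ℂ | 0 < τ.im} => LT S c x y t.1)
    unfold LT LL
    apply Continuous.add
    · apply Complex.continuous_ofReal.comp
      apply Continuous.log
      · unfold Er
        exact continuous_finset_sum _ fun α _ => continuous_const.mul
          (Real.continuous_exp.comp (continuous_finset_sum _ fun i _ => continuous_const.mul (hu i)))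
      · intro t; exact (Er_pos h _).ne'
    · apply Continuous.mul continuous_const
      apply Lint_param_cont S (fun t : {τ : ℂ | 0 < τ.im} => Cc c (uu x y t.1))
        (fun t : {τ : ℂ | 0 < τ.im} => aa (vv x y t.1))
      · intro α _
        unfold Cc
        exact continuous_const.mul
          (Real.continuous_exp.comp (continuous_finset_sum _ fun i _ => continuous_const.mul (hu i)))
      · intro α _
        unfold aa
        exact continuous_finset_sum _ fun i _ => continuous_const.mul (hv i)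
      · intro t ζ h0 h1
        exact hq_of h _ _ (Complex.arg t.1) (arg_lt_pi t.1 t.2) (vv_nonneg x y hx hy t.1 t.2)
          (vv_le x y hx hy t.1 t.2) ζ h0 h1
  exact hon.continuousAt (hopen.mem_nhds hτ)

lemma psi_diff (h : Dat S c d) (τ : ℂ) (hτ : 0 < τ.im) : DifferentiableAt ℂ (psi S c d x y) τ := by
  have hopen : IsOpen {τ : ℂ | 0 < τ.im} := isOpen_lt continuous_const Complex.continuous_im
  have h1 : DifferentiableAt ℂ (LT S c x y) τ := by
    apply log_lift_diff (LT S c x y) (fh S c x y) τ (LT_cont x y hx hy h τ hτ)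
    · filter_upwards [hopen.mem_nhds hτ] with t ht
      exact exp_LT x y hx hy h t ht
    · apply fh_diff x y hx hy
      intro i
      exact Complex.mem_slitPlane_iff.mpr (Or.inr (zz_im x y hx hy τ hτ i).ne')
  unfold psi
  exact (h1.div_const _).cexp

lemma psi_im (h : Dat S c d) (τ : ℂ) :
    (psi S c d x y τ).im = ‖psi S c d x y τ‖ * Real.sin ((LT S c x y τ).im / d) := by
  unfold psi
  rw [Complex.exp_im, Complex.norm_exp]
  have : (LT S c x y τ / (d : ℂ)).im = (LT S c x y τ).im / d := Complex.div_ofReal_im _ _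
  rw [this]

lemma psi_im_nonneg (h : Dat S c d) (τ : ℂ) (hτ : 0 < τ.im) : 0 ≤ (psi S c d x y τ).im := by
  rw [psi_im x y hx hy h]
  apply mul_nonneg (norm_nonneg _)
  apply Real.sin_nonneg_of_nonneg_of_le_pi
  · exact div_nonneg (LT_im_nonneg x y hx hy h τ hτ) h.dpos.le
  · rw [div_le_iff₀ h.dpos]
    have h1 := LT_im_le x y hx hy h τ hτ
    have h2 := arg_lt_pi τ hτ
    have h3 := h.dpos
    nlinarith

lemma psi_norm_le (h : Dat S c d) : ∃ K : ℝ, ∀ τ : ℂ, 0 < τ.im →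
    ‖psi S c d x y τ‖ ≤ K * (1 + ‖τ‖) := by
  set K0 : ℝ := 1 + ∑ i, (x i + y i) with hK0
  have hK0pos : 0 < K0 := by
    have : 0 ≤ ∑ i, (x i + y i) := Finset.sum_nonneg fun i _ => (add_pos (hx i) (hy i)).le
    linarith
  set W : ℝ := ∑ α ∈ S, c α with hW
  have hWpos : 0 < W := by
    obtain ⟨α, hα, hc⟩ := exists_c h
    exact Finset.sum_pos' (fun β hβ => h.cnn β hβ) ⟨α, hα, lt_of_le_of_ne (h.cnn α hα) (Ne.symm hc)⟩
  refine ⟨Real.exp (Real.log W / d) * K0, fun τ hτ => ?_⟩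
  have hτpos : 0 < 1 + ‖τ‖ := by positivity
  set ℓ : ℝ := Real.log (K0 * (1 + ‖τ‖)) with hℓ
  have hui : ∀ i, uu x y τ i ≤ ℓ := by
    intro i
    unfold uu
    have hzn : zz x y τ i ≠ 0 := by
      intro h0
      have := zz_im x y hx hy τ hτ i
      rw [h0] at this; simp at this
    apply Real.log_le_log (norm_pos_iff.mpr hzn)
    have h1 : ‖zz x y τ i‖ ≤ x i + ‖τ‖ * y i := by
      unfold zz
      refine (norm_add_le _ _).trans ?_
      rw [norm_mul, Complex.norm_real, Complex.norm_real, Real.norm_eq_abs, Real.norm_eq_abs,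
        abs_of_pos (hx i), abs_of_pos (hy i)]
    have h2 : x i + y i ≤ K0 := by
      have h9 : x i + y i ≤ ∑ i, (x i + y i) := Finset.single_le_sum (f := fun i => x i + y i)
        (fun j _ => (add_pos (hx j) (hy j)).le) (Finset.mem_univ i)
      linarith
    have h3 := norm_nonneg τ
    have h4 := hx i
    have h5 := hy i
    nlinarith
  have hE : ‖fh S c x y τ‖ ≤ W * Real.exp (d * ℓ) := by
    unfold fh E
    refine (norm_sum_le _ _).trans ?_
    rw [hW, Finset.sum_mul]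
    refine Finset.sum_le_sum fun α hα => ?_
    rw [norm_mul, Complex.norm_real, Real.norm_eq_abs, abs_of_nonneg (h.cnn α hα)]
    apply mul_le_mul_of_nonneg_left _ (h.cnn α hα)
    rw [Complex.norm_exp]
    apply Real.exp_le_exp.mpr
    rw [Complex.re_sum, ← h.sum α hα, Finset.sum_mul]
    refine Finset.sum_le_sum fun i _ => ?_
    rw [Complex.re_ofReal_mul, Complex.log_re]
    exact mul_le_mul_of_nonneg_left (hui i) (h.nn α hα i)
  rw [← exp_LT x y hx hy h τ hτ, Complex.norm_exp] at hE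
  have h6 : (LT S c x y τ).re ≤ Real.log W + d * ℓ := by
    rw [← Real.exp_le_exp, Real.exp_add, Real.exp_log hWpos]
    exact hE
  unfold psi
  rw [Complex.norm_exp]
  have h7 : (LT S c x y τ / (d : ℂ)).re = (LT S c x y τ).re / d := Complex.div_ofReal_re _ _
  rw [h7]
  have h8 : (LT S c x y τ).re / d ≤ Real.log W / d + ℓ := by
    rw [div_le_iff₀ h.dpos, add_mul, div_mul_cancel₀ _ h.dpos.ne']
    linarith
  calc Real.exp ((LT S c x y τ).re / d) ≤ Real.exp (Real.log W / d + ℓ) := Real.exp_le_exp.mpr h8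
    _ = Real.exp (Real.log W / d) * (K0 * (1 + ‖τ‖)) := by
        rw [Real.exp_add, hℓ, Real.exp_log (by positivity)]
    _ = _ := by ring

lemma psi_im_le (h : Dat S c d) (m : ℝ) (hm : 0 < m) : ∃ K' : ℝ, ∀ τ : ℂ, m ≤ τ.re → 0 < τ.im →
    (psi S c d x y τ).im ≤ K' * τ.im := by
  obtain ⟨K, hK⟩ := psi_norm_le x y hx hy h
  refine ⟨K * (1 / m + 1), fun τ hre hτ => ?_⟩
  have hτ0 : τ ≠ 0 := by rintro rfl; simp at hτ
  have hτn : 0 < ‖τ‖ := norm_pos_iff.mpr hτ0
  have hmτ : m ≤ ‖τ‖ := hre.trans ((le_abs_self _).trans (Complex.abs_re_le_norm τ))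
  have harg : Complex.arg τ ≤ Real.pi / 2 := by
    have : 0 ≤ τ.re := hm.le.trans hre
    exact Complex.arg_le_pi_div_two_iff.mpr (Or.inl this)
  have h1 : Real.sin ((LT S c x y τ).im / d) ≤ τ.im / ‖τ‖ := by
    rw [← Complex.sin_arg]
    apply Real.sin_le_sin_of_le_of_le_pi_div_two
    · have h2 := div_nonneg (LT_im_nonneg x y hx hy h τ hτ) h.dpos.le
      have := Real.pi_pos
      linarith
    · exact harg
    · rw [div_le_iff₀ h.dpos]
      have := LT_im_le x y hx hy h τ hτ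
      linarith
  rw [psi_im x y hx hy h]
  have h3 := hK τ hτ
  have h4 : 0 ≤ τ.im / ‖τ‖ := by positivity
  calc ‖psi S c d x y τ‖ * Real.sin ((LT S c x y τ).im / d)
      ≤ ‖psi S c d x y τ‖ * (τ.im / ‖τ‖) := mul_le_mul_of_nonneg_left h1 (norm_nonneg _)
    _ ≤ (K * (1 + ‖τ‖)) * (τ.im / ‖τ‖) := mul_le_mul_of_nonneg_right h3 h4
    _ = K * (1 / ‖τ‖ + 1) * τ.im := by field_simp
    _ ≤ K * (1 / m + 1) * τ.im := by
        have hK0 : 0 ≤ K := by
          have h5 := (norm_nonneg _).trans h3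
          exact nonneg_of_mul_nonneg_left h5 (by positivity)
        have h6 : 1 / ‖τ‖ ≤ 1 / m := one_div_le_one_div_of_le hm hmτ
        gcongr

end tau

end Pool.Agent.Helper636.Pos
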