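import Mathlib

set_option autoImplicit false

namespace Pool.Agent.Helper636.Spk

/-- partner of an element in its leg `{2k, 2k+1}` -/
def p (e : ℕ) : ℕ := if e % 2 = 0 then e + 1 else e - 1

lemma p_div (e : ℕ) : p e / 2 = e / 2 := by unfold p; split_ifs <;> omega
lemma p_ne (e : ℕ) : p e ≠ e := by unfold p; split_ifs <;> omega
lemma p_p (e : ℕ) : p (p e) = e := by unfold p; split_ifs <;> omega
lemma p_mod (e : ℕ) : p e % 2 = 1 - e % 2 := by unfold p; split_ifs <;> omega
lemma p_lt {e r : ℕ} (h : e < 2 * r) : p e < 2 * r := by unfold p; split_ifs <;> omega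
lemma eq_or_p {e f : ℕ} (h : e / 2 = f / 2) : e = f ∨ e = p f := by
  unfold p; split_ifs <;> omega
lemma p_even (k : ℕ) : p (2 * k) = 2 * k + 1 := by unfold p; split_ifs <;> omega
lemma p_odd (k : ℕ) : p (2 * k + 1) = 2 * k := by unfold p; split_ifs <;> omega

/-- legs touched -/
def legs (I : Finset ℕ) : Finset ℕ := I.image (fun e => e / 2)

/-- number of odd elements -/
def wt (I : Finset ℕ) : ℕ := ∑ e ∈ I, e % 2

def code (r s : ℕ) (I : Finset ℕ) : Prop :=
  wt I = 0 ∨ (wt I % 2 = 1 ∧ 3 ≤ wt I ∧ ∃ j, 3 ≤ j ∧ j < r + s ∧ 2 * j + 1 ∉ I)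

/-- independent sets of the tipless spike with coded circuit-hyperplanes -/
def Ind (r s : ℕ) (I : Finset ℕ) : Prop :=
  I ⊆ Finset.range (2 * r) ∧ I.card ≤ (legs I).card + 1 ∧ I.card ≤ r ∧
    ¬ (I.card = r ∧ (legs I).card = r ∧ code r s I)

lemma legs_mono {I J : Finset ℕ} (h : I ⊆ J) : legs I ⊆ legs J := Finset.image_subset_image h

lemma mem_legs {I : Finset ℕ} {k : ℕ} : k ∈ legs I ↔ ∃ e ∈ I, e / 2 = k := by
  simp [legs]

lemma legs_card_le (I : Finset ℕ) : (legs I).card ≤ I.card := Finset.card_image_le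

lemma legs_insert (e : ℕ) (I : Finset ℕ) : legs (insert e I) = insert (e / 2) (legs I) := by
  simp [legs, Finset.image_insert]

lemma legs_union (I J : Finset ℕ) : legs (I ∪ J) = legs I ∪ legs J := by
  simp [legs, Finset.image_union]

lemma legs_range {I : Finset ℕ} {r : ℕ} (h : I ⊆ Finset.range (2 * r)) :
    legs I ⊆ Finset.range r := by
  intro k hk
  obtain ⟨e, he, rfl⟩ := mem_legs.1 hk
  have := Finset.mem_range.1 (h he)
  rw [Finset.mem_range]
  omega

lemma card_le_two_legs (I : Finset ℕ) : I.card ≤ 2 * (legs I).card := by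
  have h := Finset.card_le_mul_card_image (s := I) (f := fun e => e / 2) 2 (by
    intro b _
    calc ({a ∈ I | a / 2 = b} : Finset ℕ).card ≤ ({2 * b, 2 * b + 1} : Finset ℕ).card := by
          apply Finset.card_le_card
          intro a ha
          simp only [Finset.mem_filter] at ha
          simp only [Finset.mem_insert, Finset.mem_singleton]
          omega
      _ ≤ 2 := Finset.card_le_two)
  exact h

lemma legs_card_le_sdiff {I J : Finset ℕ} (h : I ⊆ J) :
    (legs J).card ≤ (legs I).card + (J \ I).card := by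
  have h1 : legs J ⊆ legs I ∪ legs (J \ I) := by
    rw [← legs_union, Finset.union_sdiff_of_subset h]
  calc (legs J).card ≤ (legs I ∪ legs (J \ I)).card := Finset.card_le_card h1
    _ ≤ (legs I).card + (legs (J \ I)).card := Finset.card_union_le _ _
    _ ≤ _ := by have := legs_card_le (J \ I); omega

lemma Ind.subset {r s : ℕ} {I J : Finset ℕ} (hJ : Ind r s J) (h : I ⊆ J) : Ind r s I := by
  obtain ⟨h1, h2, h3, h4⟩ := hJ
  have e1 := Finset.card_sdiff_add_card_eq_card h
  have e2 := legs_card_le_sdiff h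
  have e3 := Finset.card_le_card h
  refine ⟨h.trans h1, by omega, by omega, ?_⟩
  rintro ⟨a1, a2, a3⟩
  have : I = J := Finset.eq_of_subset_of_card_le h (by omega)
  subst this
  exact h4 ⟨a1, a2, a3⟩

lemma wt_insert {e : ℕ} {I : Finset ℕ} (h : e ∉ I) : wt (insert e I) = e % 2 + wt I := by
  simp [wt, Finset.sum_insert h]

lemma not_both_code {r s : ℕ} {I : Finset ℕ} {e f : ℕ} (he : e ∉ I) (hf : f ∉ I) (hef : e ≠ f)
    (hl : e / 2 = f / 2) : ¬ (code r s (insert e I) ∧ code r s (insert f I)) := by
  rintro ⟨h1, h2⟩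
  unfold code at h1 h2
  rw [wt_insert he] at h1
  rw [wt_insert hf] at h2
  rcases h1 with h1 | ⟨h1, h1', _⟩ <;> rcases h2 with h2 | ⟨h2, h2', _⟩ <;> omega

lemma Ind.aug {r s : ℕ} {I J : Finset ℕ} (hI : Ind r s I) (hJ : Ind r s J)
    (hc : I.card < J.card) : ∃ e ∈ J, e ∉ I ∧ Ind r s (insert e I) := by
  have hJ0 := hJ
  obtain ⟨a1, a2, a3, a4⟩ := hI
  obtain ⟨b1, b2, b3, b4⟩ := hJ
  have hle := legs_card_le I
  have hins : ∀ e ∈ J, insert e I ⊆ Finset.range (2 * r) := fun e he =>
    Finset.insert_subset (b1 he) a1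
  by_cases hfull : (legs I).card = I.card
  · -- no full leg
    by_cases hr : I.card + 1 < r
    · obtain ⟨e, heJ, heI⟩ := Finset.exists_mem_notMem_of_card_lt_card hc
      refine ⟨e, heJ, heI, hins e heJ, ?_, ?_, ?_⟩
      · rw [Finset.card_insert_of_notMem heI]
        have := Finset.card_le_card (legs_mono (Finset.subset_insert e I))
        omega
      · rw [Finset.card_insert_of_notMem heI]; omega
      · rw [Finset.card_insert_of_notMem heI]; omega
    · have hIr : I.card + 1 = r := by omega
      have hJr : J.card = r := by omega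
      -- candidates
      have key : ∀ e ∈ J, e ∉ I → (e / 2 ∈ legs I ∨ ¬ code r s (insert e I)) →
          Ind r s (insert e I) := by
        intro e heJ heI h
        have hc1 : (insert e I).card = r := by
          rw [Finset.card_insert_of_notMem heI]; exact hIr
        refine ⟨hins e heJ, ?_, by omega, ?_⟩
        · have := Finset.card_le_card (legs_mono (Finset.subset_insert e I))
          omega
        · rintro ⟨_, c2, c3⟩
          rcases h with h | h
          · rw [legs_insert, Finset.insert_eq_of_mem h] at c2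
            omega
          · exact h c3
      by_cases hex : ∃ e ∈ J, e ∉ I ∧ e / 2 ∈ legs I
      · obtain ⟨e, h1, h2, h3⟩ := hex
        exact ⟨e, h1, h2, key e h1 h2 (Or.inl h3)⟩
      · push Not at hex
        have huniq : ∀ e ∈ J, e ∉ I → ∀ f ∈ J, f ∉ I → e / 2 = f / 2 := by
          intro e he he' f hf hf'
          have hcard : (Finset.range r \ legs I).card = 1 := by
            have := Finset.card_sdiff_add_card_eq_card (legs_range a1)
            rw [Finset.card_range] at this
            omega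
          have hmem : ∀ e ∈ J, e ∉ I → e / 2 ∈ Finset.range r \ legs I := by
            intro e he he'
            rw [Finset.mem_sdiff]
            exact ⟨legs_range b1 (mem_legs.2 ⟨e, he, rfl⟩), hex e he he'⟩
          obtain ⟨L, hL⟩ := Finset.card_eq_one.1 hcard
          have h1 := hmem e he he'
          have h2 := hmem f hf hf'
          rw [hL, Finset.mem_singleton] at h1 h2
          rw [h1, h2]
        obtain ⟨e, heJ, heI⟩ := Finset.exists_mem_notMem_of_card_lt_card hc
        by_cases hex2 : ∃ f ∈ J, f ∉ I ∧ f ≠ e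
        · obtain ⟨f, hfJ, hfI, hfe⟩ := hex2
          have := not_both_code (r := r) (s := s) heI hfI hfe.symm (huniq e heJ heI f hfJ hfI)
          by_cases h1 : code r s (insert e I)
          · have h2 : ¬ code r s (insert f I) := fun h => this ⟨h1, h⟩
            exact ⟨f, hfJ, hfI, key f hfJ hfI (Or.inr h2)⟩
          · exact ⟨e, heJ, heI, key e heJ heI (Or.inr h1)⟩
        · push Not at hex2
          have hsub : J ⊆ insert e I := by
            intro f hf
            rw [Finset.mem_insert]
            by_cases hfI : f ∈ I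
            · exact Or.inr hfI
            · exact Or.inl (hex2 f hf hfI)
          have : J = insert e I := Finset.eq_of_subset_of_card_le hsub (by
            rw [Finset.card_insert_of_notMem heI]; omega)
          exact ⟨e, heJ, heI, this ▸ hJ0⟩
  · -- a full leg
    have h1 : (legs I).card + 1 = I.card := by omega
    have h2 : (legs I).card < (legs J).card := by omega
    obtain ⟨L, hLJ, hLI⟩ := Finset.exists_mem_notMem_of_card_lt_card h2
    obtain ⟨e, heJ, rfl⟩ := mem_legs.1 hLJ
    have heI : e ∉ I := fun h => hLI (mem_legs.2 ⟨e, h, rfl⟩)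
    refine ⟨e, heJ, heI, hins e heJ, ?_, ?_, ?_⟩
    · rw [legs_insert, Finset.card_insert_of_notMem heI, Finset.card_insert_of_notMem hLI]
      omega
    · rw [Finset.card_insert_of_notMem heI]; omega
    · rw [legs_insert, Finset.card_insert_of_notMem heI, Finset.card_insert_of_notMem hLI]
      omega

lemma ind_empty {r s : ℕ} (hr : 1 ≤ r) : Ind r s ∅ := by
  refine ⟨by simp, by simp, by simp, ?_⟩
  simp only [Finset.card_empty]
  omega

/-- the matroid -/
def Sp (r s : ℕ) (hr : 1 ≤ r) : Matroid ℕ :=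
  (IndepMatroid.ofFinset (Finset.range (2 * r) : Set ℕ) (Ind r s) (ind_empty hr)
    (fun _ _ hJ hIJ => hJ.subset hIJ) (fun _ _ hI hJ hc => hI.aug hJ hc)
    (fun _ hI => Finset.coe_subset.2 hI.1)).matroid

lemma Sp_E (r s : ℕ) (hr : 1 ≤ r) : (Sp r s hr).E = (Finset.range (2 * r) : Set ℕ) := rfl

lemma Sp_indep {r s : ℕ} {hr : 1 ≤ r} {I : Finset ℕ} :
    (Sp r s hr).Indep (I : Set ℕ) ↔ Ind r s I := by
  unfold Sp
  rw [IndepMatroid.matroid_Indep]
  exact IndepMatroid.ofFinset_indep _ _ _ _ _ _

lemma Sp_finite (r s : ℕ) (hr : 1 ≤ r) : (Sp r s hr).Finite :=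
  ⟨by rw [Sp_E]; exact Finset.finite_toSet _⟩

end Pool.Agent.Helper636.Spk
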