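import Pool.Agent.Helper636.SpkMain

set_option autoImplicit false

namespace Pool.Agent.Helper636.Spk

open Set
open scoped Matroid

lemma minor_E (N : Matroid ℕ) (C D : Set ℕ) : (N ／ C ＼ D).E = Rest N C D := by
  ext e
  simp only [Matroid.delete_ground, Matroid.contract_ground, mem_sdiff, Rest, mem_ofPred_eq]
  tauto

/-- the uniform minors -/
lemma unif_minor {r : ℕ} (hr5 : 5 ≤ r) {hr : 1 ≤ r} {C D : Set ℕ} (hC : C ⊆ (Sp r 0 hr).E)
    (hD : D ⊆ (Sp r 0 hr).E) (hCD : Disjoint C D)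
    (hfin : (Sp r 0 hr ／ C ＼ D).E.Finite) (hcard : (Sp r 0 hr ／ C ＼ D).E.ncard = 6)
    (hU : ∀ I ⊆ (Sp r 0 hr ／ C ＼ D).E, ((Sp r 0 hr ／ C ＼ D).Indep I ↔ I.ncard ≤ 3)) :
    (∀ e ∈ C, e % 2 = 1) ∧ (∀ e ∈ D, e % 2 = 0) := by
  set K := Sp r 0 hr ／ C ＼ D with hK
  have hKE : K.E = Rest (Sp r 0 hr) C D := minor_E _ _ _
  have h3 : ∀ a ∈ Rest (Sp r 0 hr) C D, ∀ b ∈ Rest (Sp r 0 hr) C D,
      ∀ c ∈ Rest (Sp r 0 hr) C D, K.Indep {a, b, c} := by
    intro a ha b hb c hc
    rw [← hKE] at ha hb hc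
    rw [hU _ (by
      intro t ht
      simp only [mem_insert_iff, mem_singleton_iff] at ht
      rcases ht with rfl | rfl | rfl <;> assumption)]
    have : ({a, b, c} : Set ℕ) = (({a, b, c} : Finset ℕ) : Set ℕ) := by simp
    rw [this, Set.ncard_coe_finset]
    exact Finset.card_le_three
  have h3' : ∀ a ∈ Rest (Sp r 0 hr) C D, ∀ b ∈ Rest (Sp r 0 hr) C D,
      ∀ c ∈ Rest (Sp r 0 hr) C D, K✶.Indep {a, b, c} := by
    intro a ha b hb c hc
    rw [← hKE] at ha hb hc
    have hsub : ({a, b, c} : Set ℕ) ⊆ K.E := by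
      intro t ht
      simp only [mem_insert_iff, mem_singleton_iff] at ht
      rcases ht with rfl | rfl | rfl <;> assumption
    rw [Matroid.dual_indep_iff_exists hsub]
    have h4 : ({a, b, c} : Set ℕ).ncard ≤ 3 := by
      have : ({a, b, c} : Set ℕ) = (({a, b, c} : Finset ℕ) : Set ℕ) := by simp
      rw [this, Set.ncard_coe_finset]
      exact Finset.card_le_three
    have h5 : 3 ≤ (K.E \ {a, b, c}).ncard := by
      have := Set.ncard_sdiff_add_ncard_of_subset hsub hfin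
      omega
    obtain ⟨B, hB, hB3⟩ := Set.exists_subset_card_eq h5
    have hBE : B ⊆ K.E := hB.trans sdiff_subset
    refine ⟨B, ?_, ?_⟩
    · rw [Matroid.isBase_iff_maximal_indep]
      refine ⟨(hU B hBE).2 hB3.le, ?_⟩
      intro J hJ hBJ
      have h6 := (hU J hJ.subset_ground).1 hJ
      have h7 := Set.eq_of_subset_of_ncard_le hBJ (by omega) (hfin.subset hJ.subset_ground)
      exact h7.symm.subset
    · rw [Set.disjoint_left]
      intro t ht ht'
      exact (hB ht').2 ht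
  have hR : ∃ a ∈ Rest (Sp r 0 hr) C D, ∃ b ∈ Rest (Sp r 0 hr) C D, ∃ c ∈ Rest (Sp r 0 hr) C D,
      a ≠ b ∧ a ≠ c ∧ b ≠ c := by
    rw [← hKE]
    obtain ⟨B, hB, hB3⟩ := Set.exists_subset_card_eq (s := K.E) (n := 3) (by omega)
    obtain ⟨a, b, c, h1, h2, h3, rfl⟩ := Set.ncard_eq_three.1 hB3
    exact ⟨a, hB (by simp), b, hB (by simp), c, hB (by simp), h1, h2, h3⟩
  have hst := struct_aux (leggy (s := 0) (hr := hr) hr5) (leggy_dual (s := 0) (hr := hr) hr5)
    hC hD hCD h3 h3' hR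
  obtain ⟨C0, D0, R0, rfl, rfl, hR0, hdat⟩ := dat_of_struct hC hD hCD hst
  have hR0card : R0.card = 6 := by
    rw [← Set.ncard_coe_finset, hR0, ← hKE, hcard]
  have hne : R0.Nonempty := by rw [← Finset.card_pos]; omega
  have hCi : (Sp r 0 hr).Indep (C0 : Set ℕ) := Sp_indep.2 (hdat.indC hne 0)
  have hodd : ∀ e ∈ C0, e % 2 = 1 := by
    refine hdat.unif hR0card ?_
    intro Y hY hY3
    have h1 : K.Indep (Y : Set ℕ) := by
      rw [hU _ (by rw [hKE, ← hR0]; exact_mod_cast hY), Set.ncard_coe_finset]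
      exact hY3
    rw [hK, minor_indep hCi] at h1
    · exact Sp_indep.1 h1
    · rw [Finset.disjoint_left]
      intro t ht ht'
      exact hdat.dCR t ht' (hY ht)
    · rw [Set.disjoint_left]
      intro t ht ht'
      exact hdat.dDR t (by exact_mod_cast ht') (hY (by exact_mod_cast ht))
  refine ⟨fun e he => hodd e (by exact_mod_cast he), fun e he => ?_⟩
  have h1 := hodd _ (hdat.pD e (by exact_mod_cast he))
  rw [p_mod] at h1
  omega

def K1 : Finset ℕ := {0, 2, 4, 6, 8}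
def K2 : Finset ℕ := {1, 3, 5, 6, 8}

lemma K1_sub : K1 ⊆ Finset.range 10 := by decide
lemma K2_sub : K2 ⊆ Finset.range 10 := by decide

lemma K1_dep : ¬ Ind 5 1 K1 := by
  rintro ⟨_, _, _, h4⟩
  exact h4 ⟨by decide, by decide, Or.inl (by decide)⟩

lemma K2_dep : ¬ Ind 5 1 K2 := by
  rintro ⟨_, _, _, h4⟩
  exact h4 ⟨by decide, by decide, Or.inr ⟨by decide, by decide, 5, by decide, by decide, by decide⟩⟩

lemma ind_of_card4 {K : Finset ℕ} (hK : K ⊆ Finset.range 10) (h1 : K.card = 5)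
    (h2 : (legs K).card = 5) : ∀ x ∈ K, Ind 5 1 (K.erase x) := by
  intro x hx
  have hc : (K.erase x).card = 4 := by rw [Finset.card_erase_of_mem hx]; omega
  have hl := legs_card_le_sdiff (Finset.erase_subset x K)
  have : (K \ K.erase x).card = 1 := by
    have := Finset.card_sdiff_add_card_eq_card (Finset.erase_subset x K)
    omega
  refine ⟨(Finset.erase_subset x K).trans hK, by omega, by omega, ?_⟩
  rintro ⟨h3, _⟩
  omega

/-- the `M`-minors -/
lemma m_minor {r : ℕ} (hr5 : 5 ≤ r) {hr : 1 ≤ r} {h51 : 1 ≤ 5} {C D : Set ℕ}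
    (hC : C ⊆ (Sp r 0 hr).E)
    (hD : D ⊆ (Sp r 0 hr).E) (hCD : Disjoint C D) (f : ℕ → ℕ)
    (hf : BijOn f (Sp r 0 hr ／ C ＼ D).E (Sp 5 1 h51).E)
    (hI : ∀ I ⊆ (Sp r 0 hr ／ C ＼ D).E,
      ((Sp r 0 hr ／ C ＼ D).Indep I ↔ (Sp 5 1 h51).Indep (f '' I))) :
    (∀ e ∈ C, e % 2 = 0) ∧ (∀ e ∈ D, e % 2 = 1) := by
  set K := Sp r 0 hr ／ C ＼ D with hK
  have hKE : K.E = Rest (Sp r 0 hr) C D := minor_E _ _ _
  have hME : (Sp 5 1 h51).E = ((Finset.range 10 : Finset ℕ) : Set ℕ) := Sp_E 5 1 h51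
  have himg : ∀ a b c : ℕ, f '' ({a, b, c} : Set ℕ) = (({f a, f b, f c} : Finset ℕ) : Set ℕ) := by
    intro a b c
    simp [Set.image_insert_eq]
  have hmem : ∀ a ∈ K.E, f a ∈ Finset.range 10 := by
    intro a ha
    have := hf.mapsTo ha
    rw [hME] at this
    exact_mod_cast this
  have hsub3 : ∀ a ∈ K.E, ∀ b ∈ K.E, ∀ c ∈ K.E,
      ({f a, f b, f c} : Finset ℕ) ⊆ Finset.range (2 * 5) := by
    intro a ha b hb c hc t ht
    simp only [Finset.mem_insert, Finset.mem_singleton] at ht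
    rcases ht with rfl | rfl | rfl
    · exact hmem a ha
    · exact hmem b hb
    · exact hmem c hc
  have h3 : ∀ a ∈ Rest (Sp r 0 hr) C D, ∀ b ∈ Rest (Sp r 0 hr) C D,
      ∀ c ∈ Rest (Sp r 0 hr) C D, K.Indep {a, b, c} := by
    intro a ha b hb c hc
    rw [← hKE] at ha hb hc
    rw [hI _ (by
      intro t ht
      simp only [mem_insert_iff, mem_singleton_iff] at ht
      rcases ht with rfl | rfl | rfl <;> assumption), himg]
    exact Sp_small le_rfl (hsub3 a ha b hb c hc) Finset.card_le_three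
  have h3' : ∀ a ∈ Rest (Sp r 0 hr) C D, ∀ b ∈ Rest (Sp r 0 hr) C D,
      ∀ c ∈ Rest (Sp r 0 hr) C D, K✶.Indep {a, b, c} := by
    intro a ha b hb c hc
    rw [← hKE] at ha hb hc
    have hsub : ({a, b, c} : Set ℕ) ⊆ K.E := by
      intro t ht
      simp only [mem_insert_iff, mem_singleton_iff] at ht
      rcases ht with rfl | rfl | rfl <;> assumption
    rw [Matroid.dual_indep_iff_exists hsub]
    have h4 := Sp_cosmall (s := 1) (hr := h51) le_rfl (hsub3 a ha b hb c hc) Finset.card_le_three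
    rw [Matroid.dual_indep_iff_exists (by
      rw [hME]; exact_mod_cast hsub3 a ha b hb c hc)] at h4
    obtain ⟨B', hB', hdis⟩ := h4
    have hB'E := hB'.subset_ground
    have himB : f '' (K.E ∩ f ⁻¹' B') = B' := by
      ext t
      constructor
      · rintro ⟨x, hx, rfl⟩; exact hx.2
      · intro ht
        obtain ⟨x, hx, rfl⟩ := hf.surjOn (hB'E ht)
        exact ⟨x, ⟨hx, ht⟩, rfl⟩
    refine ⟨K.E ∩ f ⁻¹' B', ?_, ?_⟩
    · rw [Matroid.isBase_iff_maximal_indep]
      refine ⟨?_, ?_⟩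
      · rw [hI _ inter_subset_left, himB]
        exact hB'.indep
      · intro J hJ hBJ x hxJ
        have h5 := (hI J hJ.subset_ground).1 hJ
        have h6 : B' ⊆ f '' J := by
          rw [← himB]; exact image_mono hBJ
        have h7 := hB'.eq_of_subset_indep h5 h6
        refine ⟨hJ.subset_ground hxJ, ?_⟩
        rw [mem_preimage, h7]
        exact ⟨x, hxJ, rfl⟩
    · rw [Set.disjoint_left]
      intro t ht ht'
      refine Set.disjoint_left.1 hdis ?_ ht'.2
      have : f t ∈ f '' ({a, b, c} : Set ℕ) := ⟨t, ht, rfl⟩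
      rw [himg] at this
      exact this
  have hR : ∃ a ∈ Rest (Sp r 0 hr) C D, ∃ b ∈ Rest (Sp r 0 hr) C D, ∃ c ∈ Rest (Sp r 0 hr) C D,
      a ≠ b ∧ a ≠ c ∧ b ≠ c := by
    rw [← hKE]
    have hs : ∀ k < 10, ∃ a ∈ K.E, f a = k := by
      intro k hk
      have : k ∈ (Sp 5 1 h51).E := by
        rw [hME]; exact_mod_cast Finset.mem_range.2 hk
      obtain ⟨a, ha, h⟩ := hf.surjOn this
      exact ⟨a, ha, h⟩
    obtain ⟨a, ha, ha'⟩ := hs 0 (by omega)
    obtain ⟨b, hb, hb'⟩ := hs 1 (by omega)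
    obtain ⟨c, hc, hc'⟩ := hs 2 (by omega)
    refine ⟨a, ha, b, hb, c, hc, ?_, ?_, ?_⟩
    · rintro rfl; omega
    · rintro rfl; omega
    · rintro rfl; omega
  have hst := struct_aux (leggy (s := 0) (hr := hr) hr5) (leggy_dual (s := 0) (hr := hr) hr5)
    hC hD hCD h3 h3' hR
  obtain ⟨C0, D0, R0, rfl, rfl, hR0, hdat⟩ := dat_of_struct hC hD hCD hst
  have hR0E : (R0 : Set ℕ) = K.E := by rw [hR0, hKE]
  have hinj : Set.InjOn f (R0 : Set ℕ) := by rw [hR0E]; exact hf.injOn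
  have hR0img : R0.image f = Finset.range 10 := by
    apply Finset.coe_injective
    rw [Finset.coe_image, hR0E, ← hME]
    exact hf.image_eq
  have hR0card : R0.card = 10 := by
    rw [← Finset.card_image_of_injOn hinj, hR0img, Finset.card_range]
  have hne : R0.Nonempty := by rw [← Finset.card_pos]; omega
  have hCi : (Sp r 0 hr).Indep (C0 : Set ℕ) := Sp_indep.2 (hdat.indC hne 0)
  -- transfer
  have htr : ∀ Y ⊆ R0, (Ind r 0 (Y ∪ C0) ↔ Ind 5 1 (Y.image f)) := by
    intro Y hY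
    have h1 : K.Indep (Y : Set ℕ) ↔ Ind 5 1 (Y.image f) := by
      rw [hI _ (by rw [← hR0E]; exact_mod_cast hY), ← Finset.coe_image]
      exact Sp_indep
    rw [← h1, hK, minor_indep hCi]
    · exact Sp_indep.symm
    · rw [Finset.disjoint_left]
      intro t ht ht'
      exact hdat.dCR t ht' (hY ht)
    · rw [Set.disjoint_left]
      intro t ht ht'
      exact hdat.dDR t (by exact_mod_cast ht') (hY (by exact_mod_cast ht))
  let Z : Finset ℕ → Finset ℕ := fun L => R0.filter (fun x => f x ∈ L)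
  have hZ : ∀ L, Z L ⊆ R0 := fun L => Finset.filter_subset _ _
  have hZimg : ∀ L ⊆ Finset.range 10, (Z L).image f = L := by
    intro L hL
    ext t
    simp only [Z, Finset.mem_image, Finset.mem_filter]
    constructor
    · rintro ⟨x, ⟨_, h⟩, rfl⟩; exact h
    · intro ht
      have := hL ht
      rw [← hR0img, Finset.mem_image] at this
      obtain ⟨x, hx, rfl⟩ := this
      exact ⟨x, ⟨hx, ht⟩, rfl⟩
  have hZcard : ∀ L ⊆ Finset.range 10, (Z L).card = L.card := by
    intro L hL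
    rw [← Finset.card_image_of_injOn (hinj.mono (by exact_mod_cast hZ L)), hZimg L hL]
  have hZer : ∀ L ⊆ Finset.range 10, ∀ x ∈ Z L, ((Z L).erase x).image f = L.erase (f x) := by
    intro L hL x hx
    ext t
    simp only [Finset.mem_image, Finset.mem_erase]
    have hxR := hZ L hx
    constructor
    · rintro ⟨y, ⟨hyx, hy⟩, rfl⟩
      have hyR := hZ L hy
      refine ⟨fun h => hyx (hinj (by exact_mod_cast hyR) (by exact_mod_cast hxR) h), ?_⟩
      exact (Finset.mem_filter.1 hy).2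
    · rintro ⟨h1, h2⟩
      rw [← hZimg L hL, Finset.mem_image] at h2
      obtain ⟨y, hy, rfl⟩ := h2
      refine ⟨y, ⟨?_, hy⟩, rfl⟩
      rintro rfl
      exact h1 rfl
  have hZsd : (Z K1 \ Z K2).card = 3 := by
    have : Z K1 \ Z K2 = Z (K1 \ K2) := by
      ext t
      simp only [Z, Finset.mem_sdiff, Finset.mem_filter]
      tauto
    rw [this, hZcard _ (Finset.sdiff_subset.trans K1_sub)]
    decide
  have heven : ∀ e ∈ C0, e % 2 = 0 := by
    refine hdat.mpart hR0card (hZ K1) (hZ K2) ?_ ?_ hZsd ?_ ?_ ?_ ?_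
    · rw [hZcard _ K1_sub]; decide
    · rw [hZcard _ K2_sub]; decide
    · rw [htr _ (hZ _), hZimg _ K1_sub]; exact K1_dep
    · intro x hx
      rw [htr _ ((Finset.erase_subset _ _).trans (hZ _)), hZer _ K1_sub x hx]
      exact ind_of_card4 K1_sub (by decide) (by decide) _ (Finset.mem_filter.1 hx).2
    · rw [htr _ (hZ _), hZimg _ K2_sub]; exact K2_dep
    · intro x hx
      rw [htr _ ((Finset.erase_subset _ _).trans (hZ _)), hZer _ K2_sub x hx]
      exact ind_of_card4 K2_sub (by decide) (by decide) _ (Finset.mem_filter.1 hx).2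
  refine ⟨fun e he => heven e (by exact_mod_cast he), fun e he => ?_⟩
  have h1 := heven _ (hdat.pD e (by exact_mod_cast he))
  rw [p_mod] at h1
  omega

/-! ### existence of the minors -/

def side (m r x : ℕ) : Finset ℕ := (Finset.Ico m r).image (fun k => 2 * k + x)

lemma mem_side {m r x e : ℕ} : e ∈ side m r x ↔ ∃ k, m ≤ k ∧ k < r ∧ 2 * k + x = e := by
  simp only [side, Finset.mem_image, Finset.mem_Ico]
  constructor
  · rintro ⟨k, ⟨h1, h2⟩, h3⟩; exact ⟨k, h1, h2, h3⟩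
  · rintro ⟨k, h1, h2, h3⟩; exact ⟨k, ⟨h1, h2⟩, h3⟩

lemma side_card (m r x : ℕ) : (side m r x).card = r - m := by
  unfold side
  rw [Finset.card_image_of_injective, Nat.card_Ico]
  intro a b hab
  simp only at hab
  omega

lemma legs_side {m r x : ℕ} (hx : x ≤ 1) : legs (side m r x) = Finset.Ico m r := by
  ext k
  rw [mem_legs, Finset.mem_Ico]
  constructor
  · rintro ⟨e, he, rfl⟩
    obtain ⟨k, h1, h2, rfl⟩ := mem_side.1 he
    omega
  · rintro ⟨h1, h2⟩
    exact ⟨2 * k + x, mem_side.2 ⟨k, h1, h2, rfl⟩, by omega⟩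

lemma wt_side {m r x : ℕ} (hx : x ≤ 1) : wt (side m r x) = x * (r - m) := by
  unfold wt side
  rw [Finset.sum_image (by intro a _ b _ hab; simp only at hab; omega)]
  have : ∀ k ∈ Finset.Ico m r, (2 * k + x) % 2 = x := by intro k _; omega
  rw [Finset.sum_congr rfl this, Finset.sum_const, Nat.card_Ico, smul_eq_mul, mul_comm]

lemma side_facts {m r x : ℕ} (hmr : m ≤ r) (hx : x ≤ 1) {Z : Finset ℕ}
    (hZ : Z ⊆ Finset.range (2 * m)) :
    Disjoint Z (side m r x) ∧ (Z ∪ side m r x) ⊆ Finset.range (2 * r) ∧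
    (Z ∪ side m r x).card = Z.card + (r - m) ∧
    (legs (Z ∪ side m r x)).card = (legs Z).card + (r - m) ∧
    wt (Z ∪ side m r x) = wt Z + x * (r - m) := by
  have hd : Disjoint Z (side m r x) := by
    rw [Finset.disjoint_left]
    intro t ht ht'
    obtain ⟨k, h1, h2, rfl⟩ := mem_side.1 ht'
    have := Finset.mem_range.1 (hZ ht)
    omega
  have hdl : Disjoint (legs Z) (legs (side m r x)) := by
    rw [legs_side hx, Finset.disjoint_left]
    intro t ht ht'
    have h1 := Finset.mem_range.1 (legs_range hZ ht)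
    have h2 := Finset.mem_Ico.1 ht'
    omega
  refine ⟨hd, ?_, ?_, ?_, ?_⟩
  · apply Finset.union_subset
    · refine hZ.trans ?_
      intro t ht
      rw [Finset.mem_range] at ht ⊢
      omega
    · intro t ht
      obtain ⟨k, h1, h2, rfl⟩ := mem_side.1 ht
      rw [Finset.mem_range]
      omega
  · rw [Finset.card_union_of_disjoint hd, side_card]
  · rw [legs_union, Finset.card_union_of_disjoint hdl, legs_side hx, Nat.card_Ico]
  · rw [wt_union hd, wt_side hx]

lemma minor_exists {m r x : ℕ} (hm : 1 ≤ m) (hmr : m ≤ r) (hx : x ≤ 1) {hr : 1 ≤ r} :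
    ∃ K : Matroid ℕ, K ≤m Sp r 0 hr ∧ K.E = ((Finset.range (2 * m) : Finset ℕ) : Set ℕ) ∧
      ∀ Z ⊆ Finset.range (2 * m), (K.Indep (Z : Set ℕ) ↔
        (Z.card ≤ (legs Z).card + 1 ∧ Z.card ≤ m ∧
          ¬ (Z.card = m ∧ (legs Z).card = m ∧ code r 0 (Z ∪ side m r x)))) := by
  have hCi : (Sp r 0 hr).Indep (side m r x : Set ℕ) := by
    rw [Sp_indep]
    obtain ⟨h1, h2, h3, h4, h5⟩ := side_facts hmr hx (Z := ∅) (by simp)
    rw [Finset.empty_union] at h2 h3 h4
    simp only [legs, Finset.card_empty, Finset.image_empty] at h3 h4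
    refine ⟨h2, ?_, ?_, ?_⟩
    · simp only [legs]; omega
    · omega
    · rintro ⟨h6, _⟩; omega
  refine ⟨Sp r 0 hr ／ (side m r x : Set ℕ) ＼ (side m r (1 - x) : Set ℕ),
    Matroid.contract_delete_isMinor _ _ _, ?_, ?_⟩
  · rw [minor_E]
    ext e
    simp only [Rest, mem_ofPred_eq, Sp_E, Finset.coe_range, mem_Iio, Finset.mem_coe, mem_side]
    constructor
    · rintro ⟨h1, h2, h3⟩
      by_contra h4
      by_cases h5 : e % 2 = x
      · exact h2 ⟨e / 2, by omega, by omega, by omega⟩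
      · exact h3 ⟨e / 2, by omega, by omega, by omega⟩
    · intro h1
      refine ⟨by omega, ?_, ?_⟩
      · rintro ⟨k, h2, h3, h4⟩; omega
      · rintro ⟨k, h2, h3, h4⟩; omega
  · intro Z hZ
    obtain ⟨h1, h2, h3, h4, h5⟩ := side_facts hmr hx hZ
    rw [minor_indep hCi h1, Sp_indep]
    · unfold Ind
      rw [h3, h4]
      constructor
      · rintro ⟨a1, a2, a3, a4⟩
        refine ⟨by omega, by omega, ?_⟩
        rintro ⟨a5, a6, a7⟩
        exact a4 ⟨by omega, by omega, a7⟩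
      · rintro ⟨a1, a2, a3⟩
        refine ⟨h2, by omega, by omega, ?_⟩
        rintro ⟨a5, a6, a7⟩
        exact a3 ⟨by omega, by omega, a7⟩
    · rw [Set.disjoint_left]
      intro t ht ht'
      obtain ⟨k, h6, h7, rfl⟩ := mem_side.1 (by exact_mod_cast ht')
      have := Finset.mem_range.1 (hZ (by exact_mod_cast ht))
      omega

lemma exists_m {r : ℕ} (hr6 : 6 ≤ r) {hr : 1 ≤ r} {h51 : 1 ≤ 5} :
    ∃ N₁ : Matroid ℕ, Matroid.IsMinor N₁ (Sp r 0 hr) ∧
      ∃ f : ℕ → ℕ, Set.BijOn f N₁.E (Sp 5 1 h51).E ∧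
        ∀ I ⊆ N₁.E, (N₁.Indep I ↔ (Sp 5 1 h51).Indep (f '' I)) := by
  obtain ⟨K, hK, hKE, hKI⟩ := minor_exists (m := 5) (r := r) (x := 0) (hr := hr)
    (by omega) (by omega) (by omega)
  refine ⟨K, hK, id, ?_, ?_⟩
  · rw [hKE, Sp_E]; exact Set.bijOn_id _
  · intro I hI
    rw [hKE] at hI
    have hfin : I.Finite := (Finset.finite_toSet _).subset hI
    obtain ⟨Z, rfl⟩ := hfin.exists_finset_coe
    have hZ : Z ⊆ Finset.range (2 * 5) := by exact_mod_cast hI
    rw [image_id, hKI Z hZ, Sp_indep]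
    unfold Ind
    obtain ⟨h1, h2, h3, h4, h5⟩ := side_facts (m := 5) (r := r) (x := 0) (by omega) (by omega) hZ
    have hcode : code r 0 (Z ∪ side 5 r 0) ↔ code 5 1 Z := by
      unfold code
      rw [h5]
      simp only [zero_mul, add_zero]
      have e1 : ∃ j, 3 ≤ j ∧ j < r ∧ 2 * j + 1 ∉ Z ∪ side 5 r 0 := by
        refine ⟨5, by omega, by omega, ?_⟩
        rw [Finset.mem_union]
        rintro (h | h)
        · have := Finset.mem_range.1 (hZ h); omega
        · obtain ⟨k, _, _, h6⟩ := mem_side.1 h; omega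
      have e2 : ∃ j, 3 ≤ j ∧ j < 5 + 1 ∧ 2 * j + 1 ∉ Z := by
        refine ⟨5, by omega, by omega, ?_⟩
        intro h
        have := Finset.mem_range.1 (hZ h); omega
      tauto
    rw [hcode]
    tauto

lemma exists_u {r : ℕ} (hr6 : 6 ≤ r) {hr : 1 ≤ r} :
    ∃ N₂ : Matroid ℕ, Matroid.IsMinor N₂ (Sp r 0 hr) ∧ N₂.E.Finite ∧ N₂.E.ncard = 6 ∧
      ∀ I ⊆ N₂.E, (N₂.Indep I ↔ I.ncard ≤ 3) := by
  obtain ⟨K, hK, hKE, hKI⟩ := minor_exists (m := 3) (r := r) (x := 1) (hr := hr)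
    (by omega) (by omega) (by omega)
  refine ⟨K, hK, ?_, ?_, ?_⟩
  · rw [hKE]; exact Finset.finite_toSet _
  · rw [hKE, Set.ncard_coe_finset, Finset.card_range]
  · intro I hI
    rw [hKE] at hI
    have hfin : I.Finite := (Finset.finite_toSet _).subset hI
    obtain ⟨Z, rfl⟩ := hfin.exists_finset_coe
    have hZ : Z ⊆ Finset.range (2 * 3) := by exact_mod_cast hI
    rw [hKI Z hZ, Set.ncard_coe_finset]
    obtain ⟨h1, h2, h3, h4, h5⟩ := side_facts (m := 3) (r := r) (x := 1) (by omega) (by omega) hZ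
    have h6 := card_le_two_legs Z
    constructor
    · exact fun h => h.2.1
    · intro h
      refine ⟨by omega, h, ?_⟩
      rintro ⟨_, _, hc⟩
      rcases hc with hc | ⟨_, _, j, hj1, hj2, hj3⟩
      · omega
      · apply hj3
        rw [Finset.mem_union]
        exact Or.inr (mem_side.2 ⟨j, hj1, by omega, rfl⟩)

end Pool.Agent.Helper636.Spk
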