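import Pool.Agent.Helper636.SpkStruct

set_option autoImplicit false

namespace Pool.Agent.Helper636.Spk

open Set
open scoped Matroid

lemma minor_indep {N : Matroid ℕ} {C0 Z : Finset ℕ} {D : Set ℕ} (hC : N.Indep (C0 : Set ℕ))
    (hZC : Disjoint Z C0) (hZD : Disjoint (Z : Set ℕ) D) :
    (N ／ (C0 : Set ℕ) ＼ D).Indep (Z : Set ℕ) ↔ N.Indep ((Z ∪ C0 : Finset ℕ) : Set ℕ) := by
  rw [Matroid.delete_indep_iff, hC.contract_indep_iff, Finset.coe_union]
  have : Disjoint (Z : Set ℕ) (C0 : Set ℕ) := by exact_mod_cast hZC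
  tauto

lemma full_card (R0 : Finset ℕ) (h : ∀ e ∈ R0, p e ∈ R0) : R0.card = 2 * (legs R0).card := by
  have h1 : R0 = (legs R0).image (fun k => 2 * k) ∪ (legs R0).image (fun k => 2 * k + 1) := by
    ext e
    simp only [Finset.mem_union, Finset.mem_image, mem_legs]
    constructor
    · intro he
      rcases Nat.even_or_odd' e with ⟨k, hk | hk⟩
      · exact Or.inl ⟨k, ⟨e, he, by omega⟩, hk.symm⟩
      · exact Or.inr ⟨k, ⟨e, he, by omega⟩, hk.symm⟩
    · rintro (⟨k, ⟨e', he', hk⟩, rfl⟩ | ⟨k, ⟨e', he', hk⟩, rfl⟩)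
      · rcases Nat.even_or_odd' e' with ⟨k', hk' | hk'⟩
        · have : e' = 2 * k := by omega
          exact this ▸ he'
        · have : e' = 2 * k + 1 := by omega
          have h2 := h e' he'
          rw [this, p_odd] at h2
          exact h2
      · rcases Nat.even_or_odd' e' with ⟨k', hk' | hk'⟩
        · have : e' = 2 * k := by omega
          have h2 := h e' he'
          rw [this, p_even] at h2
          exact h2
        · have : e' = 2 * k + 1 := by omega
          exact this ▸ he'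
  have h2 : Disjoint ((legs R0).image (fun k => 2 * k)) ((legs R0).image (fun k => 2 * k + 1)) := by
    rw [Finset.disjoint_left]
    intro x hx hy
    simp only [Finset.mem_image] at hx hy
    obtain ⟨a, _, ha⟩ := hx
    obtain ⟨b, _, hb⟩ := hy
    omega
  calc R0.card = ((legs R0).image (fun k => 2 * k) ∪ (legs R0).image (fun k => 2 * k + 1)).card := by
        rw [← h1]
    _ = 2 * (legs R0).card := by
        rw [Finset.card_union_of_disjoint h2, Finset.card_image_of_injective,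
          Finset.card_image_of_injective]
        · ring
        · intro a b hab; simp only at hab; omega
        · intro a b hab; simp only at hab; omega

/-- data attached to a minor of `Sp r 0` with the leg structure -/
structure Dat (r : ℕ) (C D R : Finset ℕ) : Prop where
  subC : C ⊆ Finset.range (2 * r)
  subD : D ⊆ Finset.range (2 * r)
  subR : R ⊆ Finset.range (2 * r)
  cover : ∀ e < 2 * r, e ∈ C ∨ e ∈ D ∨ e ∈ R
  dCD : ∀ e, e ∈ C → e ∉ D
  dCR : ∀ e, e ∈ C → e ∉ R
  dDR : ∀ e, e ∈ D → e ∉ R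
  pC : ∀ e ∈ C, p e ∈ D
  pD : ∀ e ∈ D, p e ∈ C
  pR : ∀ e ∈ R, p e ∈ R

variable {r : ℕ} {C D R : Finset ℕ}

lemma Dat.legC (h : Dat r C D R) : (legs C).card = C.card := by
  apply Finset.card_image_of_injOn
  intro a ha b hb hab
  rcases eq_or_p hab with h1 | h1
  · exact h1
  · exfalso
    have h2 := h.pC b hb
    rw [← h1] at h2
    exact h.dCD a ha h2

lemma Dat.legCR (h : Dat r C D R) : (legs C).card + (legs R).card = r := by
  have h1 : Disjoint (legs C) (legs R) := by
    rw [Finset.disjoint_left]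
    intro k hk hk'
    obtain ⟨a, ha, rfl⟩ := mem_legs.1 hk
    obtain ⟨b, hb, hab⟩ := mem_legs.1 hk'
    rcases eq_or_p hab with h1 | h1
    · exact h.dCR a ha (h1 ▸ hb)
    · have h2 := h.pR b hb
      rw [h1, p_p] at h2
      exact h.dCR a ha h2
  rw [← Finset.card_union_of_disjoint h1]
  have h2 : legs C ∪ legs R = Finset.range r := by
    apply Finset.Subset.antisymm
    · exact Finset.union_subset (legs_range h.subC) (legs_range h.subR)
    · intro k hk
      rw [Finset.mem_range] at hk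
      rw [Finset.mem_union]
      rcases h.cover (2 * k) (by omega) with h1 | h1 | h1
      · exact Or.inl (mem_legs.2 ⟨_, h1, by omega⟩)
      · exact Or.inl (mem_legs.2 ⟨_, h.pD _ h1, by rw [p_div]; omega⟩)
      · exact Or.inr (mem_legs.2 ⟨_, h1, by omega⟩)
  rw [h2, Finset.card_range]

lemma Dat.indC (h : Dat r C D R) (hR : R.Nonempty) (s : ℕ) : Ind r s C := by
  have h1 := h.legC
  have h2 := h.legCR
  have h3 : 0 < (legs R).card := by
    rw [Finset.card_pos]
    obtain ⟨e, he⟩ := hR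
    exact ⟨e / 2, mem_legs.2 ⟨e, he, rfl⟩⟩
  refine ⟨h.subC, by omega, by omega, ?_⟩
  rintro ⟨h4, _⟩
  omega

lemma dat_of_struct {hr : 1 ≤ r} {C' D' : Set ℕ}
    (hC : C' ⊆ (Sp r 0 hr).E) (hD : D' ⊆ (Sp r 0 hr).E) (hCD : Disjoint C' D')
    (hst : ∀ e ∈ (Sp r 0 hr).E, (e ∈ C' → p e ∈ D') ∧ (e ∈ D' → p e ∈ C') ∧
      (e ∈ Rest (Sp r 0 hr) C' D' → p e ∈ Rest (Sp r 0 hr) C' D')) :
    ∃ C D R : Finset ℕ, (C : Set ℕ) = C' ∧ (D : Set ℕ) = D' ∧
      (R : Set ℕ) = Rest (Sp r 0 hr) C' D' ∧ Dat r C D R := by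
  rw [Sp_E] at hC hD
  have hfC : C'.Finite := (Finset.finite_toSet _).subset hC
  have hfD : D'.Finite := (Finset.finite_toSet _).subset hD
  have hRsub : Rest (Sp r 0 hr) C' D' ⊆ (Finset.range (2 * r) : Set ℕ) := by
    intro e he; exact he.1
  have hfR : (Rest (Sp r 0 hr) C' D').Finite := (Finset.finite_toSet _).subset hRsub
  obtain ⟨C, rfl⟩ := hfC.exists_finset_coe
  obtain ⟨D, rfl⟩ := hfD.exists_finset_coe
  obtain ⟨R, hR⟩ := hfR.exists_finset_coe
  have hR' : ∀ e, e ∈ R ↔ e ∈ Rest (Sp r 0 hr) C D := by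
    intro e; rw [← hR]; simp
  refine ⟨C, D, R, rfl, rfl, hR, ?_⟩
  have hE : ∀ e, e ∈ (Sp r 0 hr).E ↔ e < 2 * r := by
    intro e; rw [Sp_E]; simp
  have hdis : ∀ e, e ∈ C → e ∉ D := by
    intro e h1 h2
    exact Set.disjoint_left.1 hCD (by exact_mod_cast h1) (by exact_mod_cast h2)
  constructor
  · exact_mod_cast hC
  · exact_mod_cast hD
  · rw [← hR] at hRsub; exact_mod_cast hRsub
  · intro e he
    by_cases h1 : e ∈ C
    · exact Or.inl h1
    by_cases h2 : e ∈ D
    · exact Or.inr (Or.inl h2)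
    refine Or.inr (Or.inr ((hR' e).2 ⟨(hE e).2 he, by exact_mod_cast h1, by exact_mod_cast h2⟩))
  · exact hdis
  · intro e h1 h2
    exact ((hR' e).1 h2).2.1 (by exact_mod_cast h1)
  · intro e h1 h2
    exact ((hR' e).1 h2).2.2 (by exact_mod_cast h1)
  · intro e h1
    have h2 : e ∈ (Sp r 0 hr).E := hC (by exact_mod_cast h1)
    exact_mod_cast (hst e h2).1 (by exact_mod_cast h1)
  · intro e h1
    have h2 : e ∈ (Sp r 0 hr).E := hD (by exact_mod_cast h1)
    exact_mod_cast (hst e h2).2.1 (by exact_mod_cast h1)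
  · intro e h1
    have h2 := (hR' e).1 h1
    exact (hR' _).2 ((hst e h2.1).2.2 h2)

lemma wt_union {A B : Finset ℕ} (h : Disjoint A B) : wt (A ∪ B) = wt A + wt B := by
  simp only [wt]; exact Finset.sum_union h

/-! ### the uniform minor -/

lemma Dat.unif (h : Dat r C D R) (hcard : R.card = 6)
    (hU : ∀ Y ⊆ R, Y.card ≤ 3 → Ind r 0 (Y ∪ C)) : ∀ e ∈ C, e % 2 = 1 := by
  intro e he
  by_contra hodd
  obtain ⟨i, rfl⟩ : ∃ i, e = 2 * i := ⟨e / 2, by omega⟩
  have hl3 : (legs R).card = 3 := by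
    have := full_card R h.pR
    omega
  have hmemR : ∀ k ∈ legs R, 2 * k ∈ R ∧ 2 * k + 1 ∈ R := by
    intro k hk
    obtain ⟨x, hx, hxk⟩ := mem_legs.1 hk
    have hpx := h.pR x hx
    rcases Nat.even_or_odd' x with ⟨k', hk' | hk'⟩
    · have : x = 2 * k := by omega
      rw [this] at hx hpx
      rw [p_even] at hpx
      exact ⟨hx, hpx⟩
    · have : x = 2 * k + 1 := by omega
      rw [this] at hx hpx
      rw [p_odd] at hpx
      exact ⟨hpx, hx⟩
  have hi : 2 * i < 2 * r := Finset.mem_range.1 (h.subC he)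
  have hiR : i ∉ legs R := fun h' => h.dCR _ he (hmemR i h').1
  have hiD : 2 * i + 1 ∈ D := by have := h.pC _ he; rwa [p_even] at this
  obtain ⟨a, b, c, hab, hac, hbc, habc, hj⟩ : ∃ a b c : ℕ, a ≠ b ∧ a ≠ c ∧ b ≠ c ∧
      legs R = {a, b, c} ∧ (3 ≤ c ∨ 3 ≤ i) := by
    obtain ⟨a, b, c, hab, hac, hbc, habc⟩ := Finset.card_eq_three.1 hl3
    by_cases h1 : 3 ≤ c
    · exact ⟨a, b, c, hab, hac, hbc, habc, Or.inl h1⟩
    by_cases h2 : 3 ≤ b
    · refine ⟨a, c, b, hac, hab, hbc.symm, ?_, Or.inl h2⟩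
      rw [habc]; ext t; simp only [Finset.mem_insert, Finset.mem_singleton]; tauto
    by_cases h3 : 3 ≤ a
    · refine ⟨b, c, a, hbc, hab.symm, hac.symm, ?_, Or.inl h3⟩
      rw [habc]; ext t; simp only [Finset.mem_insert, Finset.mem_singleton]; tauto
    · refine ⟨a, b, c, hab, hac, hbc, habc, Or.inr ?_⟩
      rw [habc] at hiR
      simp only [Finset.mem_insert, Finset.mem_singleton] at hiR
      omega
  have hA := hmemR a (by rw [habc]; simp)
  have hB := hmemR b (by rw [habc]; simp)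
  have hC' := hmemR c (by rw [habc]; simp)
  have key : ∀ x y : ℕ, x ≤ 1 → y ≤ 1 →
      (wt C + x + y = 0 ∨ ((wt C + x + y) % 2 = 1 ∧ 3 ≤ wt C + x + y)) → False := by
    intro x y hx hy hw
    set Y : Finset ℕ := {2 * a + x, 2 * b + y, 2 * c} with hY
    have hYR : Y ⊆ R := by
      intro t ht
      rw [hY] at ht
      simp only [Finset.mem_insert, Finset.mem_singleton] at ht
      rcases ht with rfl | rfl | rfl
      · rcases Nat.le_one_iff_eq_zero_or_eq_one.1 hx with rfl | rfl
        · exact hA.1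
        · exact hA.2
      · rcases Nat.le_one_iff_eq_zero_or_eq_one.1 hy with rfl | rfl
        · exact hB.1
        · exact hB.2
      · exact hC'.1
    have hYC : Disjoint Y C := by
      rw [Finset.disjoint_left]
      intro t ht ht'
      exact h.dCR t ht' (hYR ht)
    have hind := hU Y hYR Finset.card_le_three
    have hwY : wt Y = x + y := by
      rw [hY, wt_insert, wt_insert]
      · simp only [wt, Finset.sum_singleton]; omega
      · simp only [Finset.mem_singleton]; omega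
      · simp only [Finset.mem_insert, Finset.mem_singleton]; omega
    have hwT : wt (Y ∪ C) = wt C + x + y := by rw [wt_union hYC, hwY]; ring
    have hlegs : legs (Y ∪ C) = Finset.range r := by
      apply Finset.Subset.antisymm (legs_range hind.1)
      intro k hk
      rw [Finset.mem_range] at hk
      rw [legs_union, Finset.mem_union]
      rcases h.cover (2 * k) (by omega) with h1 | h1 | h1
      · exact Or.inr (mem_legs.2 ⟨_, h1, by omega⟩)
      · exact Or.inr (mem_legs.2 ⟨_, h.pD _ h1, by rw [p_div]; omega⟩)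
      · left
        have : k ∈ legs R := mem_legs.2 ⟨_, h1, by omega⟩
        rw [habc] at this
        simp only [Finset.mem_insert, Finset.mem_singleton] at this
        rcases this with rfl | rfl | rfl
        · exact mem_legs.2 ⟨2 * k + x, by rw [hY]; simp, by omega⟩
        · exact mem_legs.2 ⟨2 * k + y, by rw [hY]; simp, by omega⟩
        · exact mem_legs.2 ⟨2 * k, by rw [hY]; simp, by omega⟩
    have hlc : (legs (Y ∪ C)).card = r := by rw [hlegs, Finset.card_range]
    have hcardT : (Y ∪ C).card = r := by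
      have h1 := legs_card_le (Y ∪ C)
      have h2 := hind.2.2.1
      omega
    refine hind.2.2.2 ⟨hcardT, hlc, ?_⟩
    unfold code
    rw [hwT]
    rcases hw with hw | ⟨hw1, hw2⟩
    · exact Or.inl hw
    · refine Or.inr ⟨hw1, hw2, ?_⟩
      rcases hj with hj | hj
      · refine ⟨c, hj, ?_, ?_⟩
        · have := Finset.mem_range.1 (h.subR hC'.1); omega
        · rw [Finset.mem_union]
          rintro (h1 | h1)
          · rw [hY] at h1
            simp only [Finset.mem_insert, Finset.mem_singleton] at h1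
            omega
          · exact h.dCR _ h1 hC'.2
      · refine ⟨i, hj, by omega, ?_⟩
        rw [Finset.mem_union]
        rintro (h1 | h1)
        · exact h.dDR _ hiD (hYR h1)
        · exact h.dCD _ h1 hiD
  by_cases h0 : wt C = 0
  · exact key 0 0 (by omega) (by omega) (Or.inl (by omega))
  · by_cases h1 : wt C % 2 = 0
    · exact key 1 0 (by omega) (by omega) (Or.inr (by omega))
    · exact key 1 1 (by omega) (by omega) (Or.inr (by omega))

/-! ### parity -/

lemma wt_image_p (X : Finset ℕ) : wt (X.image p) + wt X = X.card := by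
  have hinj : Function.Injective p := by
    intro a b hab
    rw [← p_p a, hab, p_p]
  unfold wt
  rw [Finset.sum_image (fun a _ b _ hab => hinj hab), ← Finset.sum_add_distrib,
    Finset.card_eq_sum_ones]
  apply Finset.sum_congr rfl
  intro x _
  rw [p_mod]; omega

lemma trans_unique {T : Finset ℕ} (h : (legs T).card = T.card) : ∀ x ∈ T, p x ∉ T := by
  intro x hx hpx
  have hinj := Finset.card_image_iff.1 h
  have := hinj hx hpx (by simp only; rw [p_div])
  exact p_ne x this.symm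

lemma trans_mem {T : Finset ℕ} (hT : T ⊆ Finset.range (2 * r)) (h : (legs T).card = r) :
    ∀ x < 2 * r, x ∈ T ∨ p x ∈ T := by
  intro x hx
  have h1 : legs T = Finset.range r :=
    Finset.eq_of_subset_of_card_le (legs_range hT) (by rw [h, Finset.card_range])
  have h2 : x / 2 ∈ legs T := by rw [h1, Finset.mem_range]; omega
  obtain ⟨y, hy, hxy⟩ := mem_legs.1 h2
  rcases eq_or_p hxy with h3 | h3
  · exact Or.inl (h3 ▸ hy)
  · exact Or.inr (h3 ▸ hy)

lemma parity {T1 T2 : Finset ℕ} (h1 : T1 ⊆ Finset.range (2 * r)) (h2 : T2 ⊆ Finset.range (2 * r))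
    (c1 : T1.card = r) (c2 : T2.card = r) (l1 : (legs T1).card = r) (l2 : (legs T2).card = r) :
    (wt T1 + wt T2) % 2 = (T1 \ T2).card % 2 := by
  have hIm : T2 \ T1 = (T1 \ T2).image p := by
    ext x
    simp only [Finset.mem_sdiff, Finset.mem_image]
    constructor
    · rintro ⟨hx, hx'⟩
      have hlt := Finset.mem_range.1 (h2 hx)
      refine ⟨p x, ⟨?_, trans_unique (by omega) x hx⟩, p_p x⟩
      rcases trans_mem h1 l1 x hlt with h | h
      · exact absurd h hx'
      · exact h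
    · rintro ⟨y, ⟨hy, hy'⟩, rfl⟩
      have hlt := Finset.mem_range.1 (h1 hy)
      refine ⟨?_, trans_unique (by omega) y hy⟩
      rcases trans_mem h2 l2 y hlt with h | h
      · exact absurd h hy'
      · exact h
  have e1 : wt T1 = wt (T1 ∩ T2) + wt (T1 \ T2) := by
    unfold wt; rw [Finset.sum_inter_add_sum_sdiff]
  have e2 : wt T2 = wt (T1 ∩ T2) + wt (T2 \ T1) := by
    unfold wt; rw [Finset.inter_comm, Finset.sum_inter_add_sum_sdiff]
  have e3 := wt_image_p (T1 \ T2)
  rw [← hIm] at e3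
  omega

/-! ### the `M`-minor -/

lemma Dat.coded (h : Dat r C D R) (hR : R.card = 10) {Z : Finset ℕ} (hZ : Z ⊆ R)
    (hZc : Z.card = 5) (hdep : ¬ Ind r 0 (Z ∪ C)) (hind : ∀ x ∈ Z, Ind r 0 (Z.erase x ∪ C)) :
    (Z ∪ C) ⊆ Finset.range (2 * r) ∧ (Z ∪ C).card = r ∧ (legs (Z ∪ C)).card = r ∧
      code r 0 (Z ∪ C) := by
  have hZC : Disjoint Z C := by
    rw [Finset.disjoint_left]
    intro t ht ht'
    exact h.dCR t ht' (hZ ht)
  have hsub : (Z ∪ C) ⊆ Finset.range (2 * r) := Finset.union_subset (hZ.trans h.subR) h.subC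
  have hlR := full_card R h.pR
  have hlC := h.legC
  have hlCR := h.legCR
  have hcard : (Z ∪ C).card = r := by
    rw [Finset.card_union_of_disjoint hZC]; omega
  -- an element of `Z` whose partner is not in `Z`
  obtain ⟨x, hx, hpx⟩ : ∃ x ∈ Z, p x ∉ Z := by
    by_contra hno
    push Not at hno
    have := full_card Z hno
    omega
  have hI := hind x hx
  have hxC : x ∉ C := Finset.disjoint_left.1 hZC hx
  have hlegs : legs (Z.erase x ∪ C) ⊆ (legs (Z ∪ C)).erase (x / 2) := by
    intro k hk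
    obtain ⟨y, hy, rfl⟩ := mem_legs.1 hk
    rw [Finset.mem_union, Finset.mem_erase] at hy
    rw [Finset.mem_erase]
    refine ⟨?_, mem_legs.2 ⟨y, ?_, rfl⟩⟩
    · intro hyx
      rcases hy with ⟨hy1, hy2⟩ | hy
      · rcases eq_or_p hyx with h1 | h1
        · exact hy1 h1
        · exact hpx (h1 ▸ hy2)
      · rcases eq_or_p hyx with h1 | h1
        · exact hxC (h1 ▸ hy)
        · exact h.dCR _ (h1 ▸ hy) (h.pR x (hZ hx))
    · rw [Finset.mem_union]
      rcases hy with ⟨_, hy2⟩ | hy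
      · exact Or.inl hy2
      · exact Or.inr hy
  have hc1 := Finset.card_le_card hlegs
  rw [Finset.card_erase_of_mem (mem_legs.2 ⟨x, Finset.mem_union_left _ hx, rfl⟩)] at hc1
  have hc2 : (Z.erase x ∪ C).card = r - 1 := by
    rw [Finset.card_union_of_disjoint
      (Finset.disjoint_of_subset_left (Finset.erase_subset _ _) hZC),
      Finset.card_erase_of_mem hx]
    have := Finset.card_union_of_disjoint hZC
    omega
  have hc3 := hI.2.1
  have hpos : 0 < (legs (Z ∪ C)).card :=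
    Finset.card_pos.2 ⟨x / 2, mem_legs.2 ⟨x, Finset.mem_union_left _ hx, rfl⟩⟩
  have hle : (Z ∪ C).card ≤ (legs (Z ∪ C)).card + 1 := by omega
  by_contra hcon
  apply hdep
  refine ⟨hsub, hle, by omega, ?_⟩
  rintro ⟨a1, a2, a3⟩
  exact hcon ⟨hsub, a1, a2, a3⟩

lemma Dat.mpart (h : Dat r C D R) (hR : R.card = 10) {Z1 Z2 : Finset ℕ} (hZ1 : Z1 ⊆ R)
    (hZ2 : Z2 ⊆ R) (hc1 : Z1.card = 5) (hc2 : Z2.card = 5) (h3 : (Z1 \ Z2).card = 3)
    (hdep1 : ¬ Ind r 0 (Z1 ∪ C)) (hind1 : ∀ x ∈ Z1, Ind r 0 (Z1.erase x ∪ C))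
    (hdep2 : ¬ Ind r 0 (Z2 ∪ C)) (hind2 : ∀ x ∈ Z2, Ind r 0 (Z2.erase x ∪ C)) :
    ∀ e ∈ C, e % 2 = 0 := by
  intro e he
  by_contra hodd
  obtain ⟨a1, a2, a3, a4⟩ := h.coded hR hZ1 hc1 hdep1 hind1
  obtain ⟨b1, b2, b3, b4⟩ := h.coded hR hZ2 hc2 hdep2 hind2
  have hpos : ∀ T : Finset ℕ, e ∈ T → 1 ≤ wt T := by
    intro T hT
    unfold wt
    calc 1 ≤ e % 2 := by omega
      _ ≤ _ := Finset.single_le_sum (f := fun e => e % 2) (fun _ _ => Nat.zero_le _) hT
  have w1 := hpos (Z1 ∪ C) (Finset.mem_union_right _ he)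
  have w2 := hpos (Z2 ∪ C) (Finset.mem_union_right _ he)
  have o1 : wt (Z1 ∪ C) % 2 = 1 := by
    rcases a4 with h1 | ⟨h1, _⟩ <;> omega
  have o2 : wt (Z2 ∪ C) % 2 = 1 := by
    rcases b4 with h1 | ⟨h1, _⟩ <;> omega
  have hp := parity a1 b1 a2 b2 a3 b3
  have hsd : (Z1 ∪ C) \ (Z2 ∪ C) = Z1 \ Z2 := by
    ext t
    simp only [Finset.mem_sdiff, Finset.mem_union]
    constructor
    · rintro ⟨h1, h2⟩
      tauto
    · rintro ⟨h1, h2⟩
      refine ⟨Or.inl h1, ?_⟩
      rintro (h4 | h4)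
      · exact h2 h4
      · exact h.dCR _ h4 (hZ1 h1)
  rw [hsd, h3] at hp
  omega

end Pool.Agent.Helper636.Spk
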