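import Pool.Agent.Helper636.SpkDef

set_option autoImplicit false

namespace Pool.Agent.Helper636.Spk

open Set
open scoped Matroid

/-- a matroid with no independent pair of full legs, and all pairs independent -/
structure Leggy (N : Matroid ℕ) : Prop where
  closed : ∀ e ∈ N.E, p e ∈ N.E
  two : ∀ e f : ℕ, e / 2 ≠ f / 2 → ¬ N.Indep {e, p e, f, p f}
  pair : ∀ a ∈ N.E, ∀ b ∈ N.E, N.Indep {a, b}

def Rest (N : Matroid ℕ) (C D : Set ℕ) : Set ℕ := {e | e ∈ N.E ∧ e ∉ C ∧ e ∉ D}

lemma Leggy.key {N : Matroid ℕ} (hN : Leggy N) {C D : Set ℕ} (hC : C ⊆ N.E)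
    (h3 : ∀ a ∈ Rest N C D, ∀ b ∈ Rest N C D, ∀ c ∈ Rest N C D, (N ／ C ＼ D).Indep {a, b, c})
    {e f : ℕ} (hef : e / 2 ≠ f / 2) {a b x y z : ℕ} (ha : a ∈ C) (hb : b ∈ C)
    (hx : x ∈ Rest N C D) (hy : y ∈ Rest N C D) (hz : z ∈ Rest N C D)
    (hsub : ({e, p e, f, p f} : Set ℕ) ⊆ {a, b} ∪ {x, y, z}) : False := by
  have h1 := hN.pair a (hC ha) b (hC hb)
  have hab : ({a, b} : Set ℕ) ⊆ C := by
    intro t ht
    simp only [mem_insert_iff, mem_singleton_iff] at ht
    rcases ht with rfl | rfl <;> assumption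
  obtain ⟨I, hI, habI⟩ := h1.subset_isBasis_of_subset hab hC
  have h2 := (h3 x hx y hy z hz).of_delete
  rw [hI.contract_indep_iff] at h2
  refine hN.two e f hef (h2.1.subset ?_)
  refine hsub.trans ?_
  rw [union_comm]
  exact union_subset_union_right _ habI

lemma struct_aux {N : Matroid ℕ} (hN : Leggy N) (hN' : Leggy N✶) {C D : Set ℕ}
    (hC : C ⊆ N.E) (hD : D ⊆ N.E) (hCD : Disjoint C D)
    (h3 : ∀ a ∈ Rest N C D, ∀ b ∈ Rest N C D, ∀ c ∈ Rest N C D, (N ／ C ＼ D).Indep {a, b, c})
    (h3' : ∀ a ∈ Rest N C D, ∀ b ∈ Rest N C D, ∀ c ∈ Rest N C D,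
      (N ／ C ＼ D)✶.Indep {a, b, c})
    (hR : ∃ a ∈ Rest N C D, ∃ b ∈ Rest N C D, ∃ c ∈ Rest N C D, a ≠ b ∧ a ≠ c ∧ b ≠ c) :
    ∀ e ∈ N.E, (e ∈ C → p e ∈ D) ∧ (e ∈ D → p e ∈ C) ∧ (e ∈ Rest N C D → p e ∈ Rest N C D) := by
  have hdual : (N ／ C ＼ D)✶ = N✶ ／ D ＼ C := by
    rw [Matroid.dual_contract_delete, Matroid.contract_delete_comm _ hCD.symm]
  have hRest : Rest N✶ D C = Rest N C D := by
    ext e
    simp only [Rest, mem_ofPred_eq, Matroid.dual_ground]
    tauto
  have k1 := fun {e f : ℕ} (hef : e / 2 ≠ f / 2) {a b x y z : ℕ} => 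
    hN.key hC h3 hef (a := a) (b := b) (x := x) (y := y) (z := z)
  have k2 : ∀ {e f : ℕ} (hef : e / 2 ≠ f / 2) {a b x y z : ℕ} (ha : a ∈ D) (hb : b ∈ D)
    (hx : x ∈ Rest N C D) (hy : y ∈ Rest N C D) (hz : z ∈ Rest N C D)
    (hsub : ({e, p e, f, p f} : Set ℕ) ⊆ {a, b} ∪ {x, y, z}), False := by
    intro e f hef a b x y z ha hb hx hy hz hsub
    refine hN'.key (C := D) (D := C) hD ?_ hef ha hb (hRest ▸ hx) (hRest ▸ hy) (hRest ▸ hz) hsub
    intro a ha b hb c hc
    rw [hRest] at ha hb hc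
    rw [← hdual]
    exact h3' a ha b hb c hc
  have tri : ∀ e ∈ N.E, e ∈ C ∨ e ∈ D ∨ e ∈ Rest N C D := by
    intro e he
    by_cases h1 : e ∈ C
    · exact Or.inl h1
    by_cases h2 : e ∈ D
    · exact Or.inr (Or.inl h2)
    exact Or.inr (Or.inr ⟨he, h1, h2⟩)
  -- a full leg in the rest
  have hfull : ∃ e ∈ Rest N C D, p e ∈ Rest N C D := by
    by_contra hno
    push Not at hno
    obtain ⟨a, ha, b, hb, c, hc, hab, hac, hbc⟩ := hR
    have hl : ∀ x ∈ Rest N C D, ∀ y ∈ Rest N C D, x ≠ y → x / 2 ≠ y / 2 := by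
      intro x hx y hy hxy h
      rcases eq_or_p h with h | h
      · exact hxy h
      · exact hno y hy (h ▸ hx)
    have ht : ∀ x ∈ Rest N C D, p x ∈ C ∨ p x ∈ D := by
      intro x hx
      rcases tri (p x) (hN.closed x hx.1) with h | h | h
      · exact Or.inl h
      · exact Or.inr h
      · exact absurd h (hno x hx)
    have hCC : ∀ x ∈ Rest N C D, ∀ y ∈ Rest N C D, x ≠ y → p x ∈ C → p y ∈ C → False := by
      intro x hx y hy hxy h1 h2
      refine k1 (hl x hx y hy hxy) h1 h2 hx hy hy ?_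
      intro t; simp only [mem_insert_iff, mem_singleton_iff, mem_union]; tauto
    have hDD : ∀ x ∈ Rest N C D, ∀ y ∈ Rest N C D, x ≠ y → p x ∈ D → p y ∈ D → False := by
      intro x hx y hy hxy h1 h2
      refine k2 (hl x hx y hy hxy) h1 h2 hx hy hy ?_
      intro t; simp only [mem_insert_iff, mem_singleton_iff, mem_union]; tauto
    rcases ht a ha with h1 | h1 <;> rcases ht b hb with h2 | h2 <;> rcases ht c hc with h3 | h3
    · exact hCC a ha b hb hab h1 h2
    · exact hCC a ha b hb hab h1 h2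
    · exact hCC a ha c hc hac h1 h3
    · exact hDD b hb c hc hbc h2 h3
    · exact hCC b hb c hc hbc h2 h3
    · exact hDD a ha c hc hac h1 h3
    · exact hDD a ha b hb hab h1 h2
    · exact hDD a ha b hb hab h1 h2
  obtain ⟨g, hg, hpg⟩ := hfull
  have hdisj : ∀ x, x ∈ C → x ∉ D := fun x h1 h2 => Set.disjoint_left.1 hCD h1 h2
  intro e he
  have hpe := hN.closed e he
  by_cases hl : e / 2 = g / 2
  · have : e ∈ Rest N C D ∧ p e ∈ Rest N C D := by
      rcases eq_or_p hl with h | h
      · rw [h]; exact ⟨hg, hpg⟩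
      · rw [h, p_p]; exact ⟨hpg, hg⟩
    exact ⟨fun h => absurd h this.1.2.1, fun h => absurd h this.1.2.2, fun _ => this.2⟩
  · refine ⟨fun h => ?_, fun h => ?_, fun h => ?_⟩
    · rcases tri (p e) hpe with h' | h' | h'
      · exfalso
        refine k1 hl h h' hg hpg hpg ?_
        intro t; simp only [mem_insert_iff, mem_singleton_iff, mem_union]; tauto
      · exact h'
      · exfalso
        refine k1 hl h h hg hpg h' ?_
        intro t; simp only [mem_insert_iff, mem_singleton_iff, mem_union]; tauto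
    · rcases tri (p e) hpe with h' | h' | h'
      · exact h'
      · exfalso
        refine k2 hl h h' hg hpg hpg ?_
        intro t; simp only [mem_insert_iff, mem_singleton_iff, mem_union]; tauto
      · exfalso
        refine k2 hl h h hg hpg h' ?_
        intro t; simp only [mem_insert_iff, mem_singleton_iff, mem_union]; tauto
    · rcases tri (p e) hpe with h' | h' | h'
      · exfalso
        refine k1 hl h' h' hg hpg h ?_
        intro t; simp only [mem_insert_iff, mem_singleton_iff, mem_union]; tauto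
      · exfalso
        refine k2 hl h' h' hg hpg h ?_
        intro t; simp only [mem_insert_iff, mem_singleton_iff, mem_union]; tauto
      · exact h'

/-! ### the matroids `Sp r s` and their duals are leggy, in a strong sense -/

lemma coe_four (e f : ℕ) : ({e, p e, f, p f} : Set ℕ) = (({e, p e, f, p f} : Finset ℕ) : Set ℕ) := by
  simp

lemma card_four {e f : ℕ} (h : e / 2 ≠ f / 2) : ({e, p e, f, p f} : Finset ℕ).card = 4 := by
  have h1 := p_ne e
  have h2 := p_ne f
  have h3 := p_div e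
  have h4 := p_div f
  have hef : e ≠ f := by rintro rfl; exact h rfl
  have hepf : e ≠ p f := by intro h'; apply h; rw [h', h4]
  have hpef : p e ≠ f := by intro h'; apply h; rw [← h', h3]
  have hpepf : p e ≠ p f := by intro h'; apply h; rw [← h3, h', h4]
  rw [Finset.card_insert_of_notMem, Finset.card_insert_of_notMem, Finset.card_pair]
  · exact h2.symm
  · simp only [Finset.mem_insert, Finset.mem_singleton]; tauto
  · simp only [Finset.mem_insert, Finset.mem_singleton]
    rintro (h' | h' | h')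
    · exact h1 h'.symm
    · exact hef h'
    · exact hepf h'

lemma legs_four (e f : ℕ) : legs ({e, p e, f, p f} : Finset ℕ) = {e / 2, f / 2} := by
  ext k
  simp only [legs, Finset.mem_image, Finset.mem_insert, Finset.mem_singleton]
  constructor
  · rintro ⟨a, (rfl | rfl | rfl | rfl), rfl⟩ <;> simp [p_div]
  · rintro (rfl | rfl)
    · exact ⟨e, Or.inl rfl, rfl⟩
    · exact ⟨f, Or.inr (Or.inr (Or.inl rfl)), rfl⟩

lemma not_ind_four {r s : ℕ} {e f : ℕ} (h : e / 2 ≠ f / 2) :
    ¬ Ind r s ({e, p e, f, p f} : Finset ℕ) := by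
  rintro ⟨_, h2, _, _⟩
  rw [card_four h, legs_four, Finset.card_pair h] at h2
  omega

lemma ind_small {r s : ℕ} (hr : 4 ≤ r) {X : Finset ℕ} (hX : X ⊆ Finset.range (2 * r))
    (h : X.card ≤ 3) : Ind r s X := by
  have := card_le_two_legs X
  refine ⟨hX, by omega, by omega, ?_⟩
  rintro ⟨h1, _⟩
  omega

lemma exists_coind {r s : ℕ} (hr : 5 ≤ r) {X : Finset ℕ} (h : X.card ≤ 3) : ∃ B : Finset ℕ, Ind r s B ∧ B.card = r ∧ Disjoint B X := by
  -- choose the missing leg d
  obtain ⟨d, hd, hd'⟩ : ∃ d < r, ∀ k < r, k ≠ d → ¬ (2 * k ∈ X ∧ 2 * k + 1 ∈ X) := by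
    by_cases hf : ∃ d < r, 2 * d ∈ X ∧ 2 * d + 1 ∈ X
    · obtain ⟨d, hd, h1, h2⟩ := hf
      refine ⟨d, hd, fun k _ hkd ⟨h3, h4⟩ => ?_⟩
      have hsub : ({2 * d, 2 * d + 1, 2 * k, 2 * k + 1} : Finset ℕ) ⊆ X := by
        intro t ht
        simp only [Finset.mem_insert, Finset.mem_singleton] at ht
        rcases ht with rfl | rfl | rfl | rfl <;> assumption
      have hc : ({2 * d, 2 * d + 1, 2 * k, 2 * k + 1} : Finset ℕ).card = 4 := by
        rw [Finset.card_insert_of_notMem, Finset.card_insert_of_notMem, Finset.card_pair]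
        · omega
        · simp only [Finset.mem_insert, Finset.mem_singleton]; omega
        · simp only [Finset.mem_insert, Finset.mem_singleton]; omega
      have := Finset.card_le_card hsub
      omega
    · push Not at hf
      exact ⟨0, by omega, fun k hk _ ⟨h3, h4⟩ => hf k hk h3 h4⟩
  obtain ⟨c, hc, hcX, hcd⟩ : ∃ c < r, c ∉ legs X ∧ c ≠ d := by
    have : (insert d (legs X)).card < (Finset.range r).card := by
      rw [Finset.card_range]
      have h1 := Finset.card_insert_le d (legs X)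
      have h2 := legs_card_le X
      omega
    obtain ⟨c, hc1, hc2⟩ := Finset.exists_mem_notMem_of_card_lt_card this
    rw [Finset.mem_insert] at hc2
    push Not at hc2
    exact ⟨c, Finset.mem_range.1 hc1, hc2.2, hc2.1⟩
  let g : ℕ → ℕ := fun k => if 2 * k ∈ X then 2 * k + 1 else 2 * k
  have hg2 : ∀ k, g k / 2 = k := by intro k; simp only [g]; split_ifs <;> omega
  have hgX : ∀ k < r, k ≠ d → g k ∉ X := by
    intro k hk hkd
    simp only [g]
    split_ifs with h1
    · intro h2; exact hd' k hk hkd ⟨h1, h2⟩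
    · exact h1
  have hcX1 : 2 * c ∉ X := fun h => hcX (mem_legs.2 ⟨_, h, by omega⟩)
  have hcX2 : 2 * c + 1 ∉ X := fun h => hcX (mem_legs.2 ⟨_, h, by omega⟩)
  let B0 : Finset ℕ := ((Finset.range r).erase d).image g
  have hB0card : B0.card = r - 1 := by
    rw [Finset.card_image_of_injective _ (fun a b hab => by rw [← hg2 a, ← hg2 b, hab]),
      Finset.card_erase_of_mem (Finset.mem_range.2 hd), Finset.card_range]
  have hgc : g c = 2 * c := by simp only [g]; rw [if_neg hcX1]
  have hB0 : 2 * c + 1 ∉ B0 := by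
    intro h
    obtain ⟨k, hk, hk'⟩ := Finset.mem_image.1 h
    have : k = c := by rw [← hg2 k, hk']; omega
    rw [this, hgc] at hk'
    omega
  have hcard : (insert (2 * c + 1) B0).card = r := by
    rw [Finset.card_insert_of_notMem hB0, hB0card]; omega
  have hlegs : legs (insert (2 * c + 1) B0) = (Finset.range r).erase d := by
    rw [legs_insert]
    have : legs B0 = (Finset.range r).erase d := by
      ext k
      simp only [mem_legs, B0, Finset.mem_image]
      constructor
      · rintro ⟨e, ⟨k', hk', rfl⟩, rfl⟩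
        rw [hg2]; exact hk'
      · intro hk
        exact ⟨g k, ⟨k, hk, rfl⟩, hg2 k⟩
    rw [this]
    apply Finset.insert_eq_of_mem
    rw [Finset.mem_erase, Finset.mem_range]
    omega
  have hlegc : (legs (insert (2 * c + 1) B0)).card = r - 1 := by
    rw [hlegs, Finset.card_erase_of_mem (Finset.mem_range.2 hd), Finset.card_range]
  refine ⟨insert (2 * c + 1) B0, ⟨?_, ?_, ?_, ?_⟩, hcard, ?_⟩
  · intro t ht
    rw [Finset.mem_range]
    rw [Finset.mem_insert] at ht
    rcases ht with rfl | ht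
    · omega
    · obtain ⟨k, hk, rfl⟩ := Finset.mem_image.1 ht
      rw [Finset.mem_erase, Finset.mem_range] at hk
      have := hg2 k
      omega
  · rw [hcard, hlegc]; omega
  · rw [hcard]
  · rintro ⟨_, h2, _⟩
    rw [hlegc] at h2; omega
  · rw [Finset.disjoint_left]
    intro t ht
    rw [Finset.mem_insert] at ht
    rcases ht with rfl | ht
    · exact hcX2
    · obtain ⟨k, hk, rfl⟩ := Finset.mem_image.1 ht
      rw [Finset.mem_erase, Finset.mem_range] at hk
      exact hgX k hk.2 hk.1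

/-- a finset which is independent of maximal cardinality is a base -/
lemma base_of_card {r s : ℕ} {hr : 1 ≤ r} {B : Finset ℕ} (hB : Ind r s B) (hc : B.card = r) :
    (Sp r s hr).IsBase (B : Set ℕ) := by
  rw [Matroid.isBase_iff_maximal_indep]
  refine ⟨Sp_indep.2 hB, ?_⟩
  intro J hJ hBJ
  have hfin : J.Finite := (Finset.finite_toSet (Finset.range (2 * r))).subset hJ.subset_ground
  lift J to Finset ℕ using hfin
  rw [Sp_indep] at hJ
  have h1 : B ⊆ J := Finset.coe_subset.1 hBJ
  have h2 : B = J := Finset.eq_of_subset_of_card_le h1 (by rw [hc]; exact hJ.2.2.1)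
  rw [h2]

lemma base_card {r s : ℕ} (hr5 : 5 ≤ r) {hr : 1 ≤ r} {B : Set ℕ} (hB : (Sp r s hr).IsBase B) :
    ∃ B' : Finset ℕ, (B' : Set ℕ) = B ∧ Ind r s B' ∧ B'.card = r := by
  have hfin : B.Finite := (Finset.finite_toSet (Finset.range (2 * r))).subset hB.subset_ground
  lift B to Finset ℕ using hfin
  obtain ⟨B1, h1, h2, _⟩ := exists_coind (r := r) (s := s) hr5 (X := ∅) (by simp)
  have h3 := base_of_card (hr := hr) h1 h2
  have h4 := hB.encard_eq_encard_of_isBase h3
  simp only [Set.encard_coe_eq_coe_finsetCard] at h4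
  refine ⟨B, rfl, Sp_indep.1 hB.indep, ?_⟩
  rw [← h2]
  exact_mod_cast h4

lemma Sp_small {r s : ℕ} (hr5 : 5 ≤ r) {hr : 1 ≤ r} {X : Finset ℕ} (hX : X ⊆ Finset.range (2 * r))
    (h : X.card ≤ 3) : (Sp r s hr).Indep (X : Set ℕ) := Sp_indep.2 (ind_small (by omega) hX h)

lemma Sp_cosmall {r s : ℕ} (hr5 : 5 ≤ r) {hr : 1 ≤ r} {X : Finset ℕ}
    (hX : X ⊆ Finset.range (2 * r))
    (h : X.card ≤ 3) : (Sp r s hr)✶.Indep (X : Set ℕ) := by
  rw [Matroid.dual_indep_iff_exists (by rw [Sp_E]; exact_mod_cast hX)]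
  obtain ⟨B, h1, h2, h3⟩ := exists_coind (s := s) hr5 h
  exact ⟨B, base_of_card h1 h2, by exact_mod_cast h3.symm⟩

lemma leggy {r s : ℕ} (hr5 : 5 ≤ r) {hr : 1 ≤ r} : Leggy (Sp r s hr) where
  closed := by
    intro e he
    rw [Sp_E] at he ⊢
    simp only [Finset.coe_range, mem_Iio] at he ⊢
    exact p_lt he
  two := by
    intro e f hef h
    rw [coe_four, Sp_indep] at h
    exact not_ind_four hef h
  pair := by
    intro a ha b hb
    rw [Sp_E] at ha hb
    have : ({a, b} : Set ℕ) = (({a, b} : Finset ℕ) : Set ℕ) := by simp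
    rw [this]
    refine Sp_small hr5 ?_ (Finset.card_le_two.trans (by omega))
    intro t ht
    simp only [Finset.mem_insert, Finset.mem_singleton] at ht
    rcases ht with rfl | rfl
    · exact_mod_cast ha
    · exact_mod_cast hb

lemma leggy_dual {r s : ℕ} (hr5 : 5 ≤ r) {hr : 1 ≤ r} : Leggy (Sp r s hr)✶ where
  closed := (leggy (s := s) (hr := hr) hr5).closed
  two := by
    intro e f hef h
    have hsub := h.subset_ground
    rw [Matroid.dual_ground] at hsub
    rw [Matroid.dual_indep_iff_exists hsub] at h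
    obtain ⟨B, hB, hdis⟩ := h
    obtain ⟨B', rfl, hB1, hB2⟩ := base_card hr5 hB
    have he : e < 2 * r := by
      have := hsub (show e ∈ ({e, p e, f, p f} : Set ℕ) by simp)
      rw [Sp_E] at this
      simpa using this
    have hf : f < 2 * r := by
      have := hsub (show f ∈ ({e, p e, f, p f} : Set ℕ) by simp)
      rw [Sp_E] at this
      simpa using this
    have hlegs : legs B' ⊆ ((Finset.range r).erase (e / 2)).erase (f / 2) := by
      intro k hk
      have hk' := legs_range hB1.1 hk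
      obtain ⟨x, hx, rfl⟩ := mem_legs.1 hk
      have hx' : x ∉ ({e, p e, f, p f} : Set ℕ) := fun h' => Set.disjoint_left.1 hdis h' hx
      simp only [mem_insert_iff, mem_singleton_iff, not_or] at hx'
      rw [Finset.mem_erase, Finset.mem_erase]
      refine ⟨fun h1 => ?_, fun h1 => ?_, hk'⟩
      · rcases eq_or_p h1 with h2 | h2
        · exact hx'.2.2.1 h2
        · exact hx'.2.2.2 h2
      · rcases eq_or_p h1 with h2 | h2
        · exact hx'.1 h2
        · exact hx'.2.1 h2
    have h1 := Finset.card_le_card hlegs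
    rw [Finset.card_erase_of_mem, Finset.card_erase_of_mem, Finset.card_range] at h1
    · have h2 := hB1.2.1
      omega
    · rw [Finset.mem_range]; omega
    · rw [Finset.mem_erase, Finset.mem_range]
      exact ⟨fun h => hef h.symm, by omega⟩
  pair := by
    intro a ha b hb
    rw [Matroid.dual_ground, Sp_E] at ha hb
    have : ({a, b} : Set ℕ) = (({a, b} : Finset ℕ) : Set ℕ) := by simp
    rw [this]
    refine Sp_cosmall hr5 ?_ (Finset.card_le_two.trans (by omega))
    intro t ht
    simp only [Finset.mem_insert, Finset.mem_singleton] at ht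
    rcases ht with rfl | rfl
    · exact_mod_cast ha
    · exact_mod_cast hb

end Pool.Agent.Helper636.Spk
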